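import Pool.Agent.Lib.MP_8f66f0_al_HierR.SpecR

/-! Exact complexes of retracts of induced bimodules give resolutions. -/

set_option autoImplicit false

namespace Pool.Agent.HierR

section Aux

variable {S : Type} [Monoid S]

private theorem bi_smul {M N : Type} [AddCommGroup M] [Module (MonoidAlgebra ℤ S) M]
    [DistribMulAction Sᵐᵒᵖ M] [AddCommGroup N] [Module (MonoidAlgebra ℤ S) N]
    [DistribMulAction Sᵐᵒᵖ N] {φ : M →+ N} (hφ : IsBi (S := S) φ) (x : MonoidAlgebra ℤ S)
    (m : M) : φ (x • m) = x • φ m := by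
  induction x using MonoidAlgebra.induction_linear with
  | zero => rw [zero_smul, zero_smul, map_zero]
  | add x y hx hy => rw [add_smul, add_smul, map_add, hx, hy]
  | single e n =>
    have h : (MonoidAlgebra.single e n : MonoidAlgebra ℤ S) =
        n • MonoidAlgebra.single e (1 : ℤ) := by
      rw [MonoidAlgebra.smul_single, smul_eq_mul, mul_one]
    rw [h, smul_assoc, smul_assoc, map_zsmul, hφ.1 e m]

/-- Homomorphisms of bimodules are linear. -/
private def biL {M N : Type} [AddCommGroup M] [Module (MonoidAlgebra ℤ S) M]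
    [DistribMulAction Sᵐᵒᵖ M] [AddCommGroup N] [Module (MonoidAlgebra ℤ S) N]
    [DistribMulAction Sᵐᵒᵖ N] (φ : M →+ N) (hφ : IsBi (S := S) φ) :
    M →ₗ[MonoidAlgebra ℤ S] N where
  toFun := φ
  map_add' := φ.map_add
  map_smul' := bi_smul hφ

/-- The right action on a submodule. -/
@[reducible] private def subAct {M : Type} [AddCommGroup M] [Module (MonoidAlgebra ℤ S) M]
    [DistribMulAction Sᵐᵒᵖ M] (K : Submodule (MonoidAlgebra ℤ S) M)
    (hK : ∀ (e : Sᵐᵒᵖ) (x : M), x ∈ K → e • x ∈ K) : DistribMulAction Sᵐᵒᵖ K where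
  smul e x := ⟨e • x.1, hK e x.1 x.2⟩
  one_smul _ := Subtype.ext (one_smul _ _)
  mul_smul _ _ _ := Subtype.ext (mul_smul _ _ _)
  smul_zero _ := Subtype.ext (smul_zero _)
  smul_add _ _ _ := Subtype.ext (smul_add _ _ _)

private theorem ret_equiv {𝒞 : ∀ (H : Type) [Group H], Prop} {M N : Type} [AddCommGroup M]
    [Module (MonoidAlgebra ℤ S) M] [DistribMulAction Sᵐᵒᵖ M] [AddCommGroup N]
    [Module (MonoidAlgebra ℤ S) N] [DistribMulAction Sᵐᵒᵖ N] (φ : M →+ N)
    (hφ : IsBi (S := S) φ) (hb : Function.Bijective φ) (h : IsRet S 𝒞 M) : IsRet S 𝒞 N := by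
  obtain ⟨X, i1, i2, i3, i4, B, O, H, i5, bN, o, η, i, p, h1, h2, h3, h4, h5⟩ := h
  let E : M ≃+ N := AddEquiv.ofBijective φ hb
  have hE : ∀ m, φ (E.symm m) = m := fun m => E.apply_symm_apply m
  refine ⟨X, i1, i2, i3, i4, B, O, H, i5, bN, o, η, i.comp E.symm.toAddMonoidHom, φ.comp p, h1, h2,
    ⟨fun e m => ?_, fun e m => ?_⟩, ⟨fun e m => ?_, fun e m => ?_⟩, fun m => ?_⟩
  · have h6 : E.symm (MonoidAlgebra.single e (1 : ℤ) • m) =
        MonoidAlgebra.single e (1 : ℤ) • E.symm m :=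
      hb.1 (by rw [hE, hφ.1, hE])
    change i (E.symm _) = _ • i (E.symm m)
    rw [h6, h3.1]
  · have h6 : E.symm (MulOpposite.op e • m) = MulOpposite.op e • E.symm m :=
      hb.1 (by rw [hE, hφ.2, hE])
    change i (E.symm _) = _ • i (E.symm m)
    rw [h6, h3.2]
  · change φ (p _) = _ • φ (p m)
    rw [h4.1, hφ.1]
  · change φ (p _) = _ • φ (p m)
    rw [h4.2, hφ.2]
  · change φ (p (i (E.symm m))) = m
    rw [h5, hE]

end Aux

/-- Exact complexes give resolutions. -/
theorem cplx : S_cplx := by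
  intro S _ 𝒞 N
  induction N with
  | zero =>
    intro M _ _ _ _ F _ _ _ _ ε d hε hd hF hs h0 hex hN
    have h1 : Subsingleton (F 1) := hN 1 Nat.zero_lt_one
    refine ret_equiv ε hε ⟨(injective_iff_map_eq_zero ε).2 fun x hx => ?_, hs⟩ (hF 0)
    obtain ⟨y, rfl⟩ := (h0 x).1 hx
    rw [Subsingleton.elim y 0, map_zero]
  | succ N ih =>
    intro M _ _ _ _ F _ _ _ _ ε d hε hd hF hs h0 hex hN
    let K : Submodule (MonoidAlgebra ℤ S) (F 0) := LinearMap.ker (biL ε hε)
    have hK : ∀ x : F 0, x ∈ K ↔ ε x = 0 := fun x => LinearMap.mem_ker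
    have hK' : ∀ (e : Sᵐᵒᵖ) (x : F 0), x ∈ K → e • x ∈ K := by
      intro e x hx
      rw [hK] at hx ⊢
      rw [← MulOpposite.op_unop e, hε.2, hx, smul_zero]
    let iA : DistribMulAction Sᵐᵒᵖ K := subAct K hK'
    have iC : SMulCommClass (MonoidAlgebra ℤ S) Sᵐᵒᵖ K :=
      ⟨fun a b x => Subtype.ext (smul_comm a b x.1)⟩
    let ε' : F 1 →+ K :=
      { toFun := fun x => ⟨d 0 x, (hK _).2 ((h0 _).2 ⟨x, rfl⟩)⟩
        map_zero' := Subtype.ext (map_zero (d 0))
        map_add' := fun x y => Subtype.ext (map_add (d 0) x y) }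
    refine ⟨F 0, K, inferInstance, inferInstance, inferInstance, inferInstance, inferInstance,
      inferInstance, iA, iC, K.subtype.toAddMonoidHom, ε, ⟨fun e m => rfl, fun e m => rfl⟩, hε,
      Subtype.val_injective, fun x => ?_, hs, hF 0, ?_⟩
    · constructor
      · intro hx
        exact ⟨⟨x, (hK x).2 hx⟩, rfl⟩
      · rintro ⟨y, rfl⟩
        exact (hK y.1).1 y.2
    · refine ih K (fun q => F (q + 1)) ε' (fun q => d (q + 1))
        ⟨fun e m => Subtype.ext ((hd 0).1 e m), fun e m => Subtype.ext ((hd 0).2 e m)⟩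
        (fun q => hd (q + 1)) (fun q => hF (q + 1)) (fun y => ?_) (fun x => ?_)
        (fun q => hex (q + 1)) (fun q hq => hN (q + 1) (Nat.succ_lt_succ hq))
      · obtain ⟨x, hx⟩ := (h0 y.1).1 ((hK y.1).1 y.2)
        exact ⟨x, Subtype.ext hx⟩
      · constructor
        · intro hx
          exact (hex 0 x).1 (congrArg Subtype.val hx)
        · intro hx
          exact Subtype.ext ((hex 0 x).2 hx)

end Pool.Agent.HierR
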