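import Pool.Agent.Lib.MP_8f66f0_al_HierR.SpecR
import Pool.Agent.Lib.MP_8f66f0_al_Hier.SpecC

/-! Change of the left basis of the bimodule. -/

set_option autoImplicit false

namespace Pool.Agent.HierR

open Pool.Agent.Wald Pool.Agent.Ind Pool.Agent.Hier

section

variable {S Q' T I M N B : Type} [Monoid S] [Ring Q'] [Ring T] [AddCommGroup M]
  [AddCommGroup N] [Module (MonoidAlgebra ℤ S) M]

private theorem bm_ext (b : Module.Basis B (MonoidAlgebra ℤ S) M) {F G : M →+ N}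
    (h : ∀ (r : MonoidAlgebra ℤ S) (k : B), F (r • b k) = G (r • b k)) : F = G := by
  ext m
  have hm := b.linearCombination_repr m
  rw [Finsupp.linearCombination_apply] at hm
  rw [← hm, map_finsuppSum, map_finsuppSum]
  exact Finsupp.sum_congr fun k _ => h _ k

private theorem gz_single (ρ : S →* Q') (e : S) (n : ℤ) :
    gz ρ (MonoidAlgebra.single e n) = n • ρ e := by
  change MonoidAlgebra.lift ℤ Q' S ρ (MonoidAlgebra.single e n) = _
  rw [MonoidAlgebra.lift_single]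

private theorem w_smul (f : Q' →+* T) (ρ : S →* Q') (W : M →+ T)
    (hW : ∀ (e : S) (m : M), W (MonoidAlgebra.single e (1 : ℤ) • m) = f (ρ e) * W m)
    (r : MonoidAlgebra ℤ S) (m : M) : W (r • m) = f (gz ρ r) * W m := by
  induction r using MonoidAlgebra.induction_linear with
  | zero => rw [zero_smul, map_zero, map_zero, map_zero, zero_mul]
  | add x y hx hy => rw [add_smul, map_add, hx, hy, map_add, map_add, add_mul]
  | single e n =>
    have h4 : (MonoidAlgebra.single e n : MonoidAlgebra ℤ S) =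
        n • MonoidAlgebra.single e (1 : ℤ) := by
      rw [MonoidAlgebra.smul_single, smul_eq_mul, mul_one]
    rw [gz_single, h4, smul_assoc, map_zsmul, hW, map_zsmul, smul_mul_assoc]

/-- The coefficients of `w_i(m)` in the letters `w_i(b_k)`. -/
private noncomputable def bm_M (ρ : S →* Q') (b : Module.Basis B (MonoidAlgebra ℤ S) M) (i : I) :
    M →+ ((B × I) →₀ Q') :=
  (Finsupp.liftAddHom fun k : B =>
    (Finsupp.singleAddHom (k, i)).comp (gz ρ).toAddMonoidHom).comp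
    (b.repr : M →ₗ[MonoidAlgebra ℤ S] (B →₀ MonoidAlgebra ℤ S)).toAddMonoidHom

private theorem bm_M_basis (ρ : S →* Q') (b : Module.Basis B (MonoidAlgebra ℤ S) M) (i : I)
    (r : MonoidAlgebra ℤ S) (k : B) :
    bm_M ρ b i (r • b k) = Finsupp.single (k, i) (gz ρ r) := by
  show Finsupp.liftAddHom (fun k : B =>
    (Finsupp.singleAddHom (k, i)).comp (gz ρ).toAddMonoidHom) (b.repr (r • b k)) = _
  rw [map_smul, b.repr_self, Finsupp.smul_single, smul_eq_mul, mul_one,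
    Finsupp.liftAddHom_apply_single]
  rfl

private theorem bm_M_self (ρ : S →* Q') (b : Module.Basis B (MonoidAlgebra ℤ S) M) (i : I)
    (k : B) : bm_M ρ b i (b k) = Finsupp.single (k, i) 1 := by
  have h := bm_M_basis ρ b i 1 k
  rwa [one_smul, map_one] at h

private theorem bm_M_smul (ρ : S →* Q') (b : Module.Basis B (MonoidAlgebra ℤ S) M) (i : I)
    (r : MonoidAlgebra ℤ S) (m : M) : bm_M ρ b i (r • m) = gz ρ r • bm_M ρ b i m := by
  have h : (bm_M ρ b i).comp (smulAddHom (MonoidAlgebra ℤ S) M r) =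
      (smulAddHom Q' ((B × I) →₀ Q') (gz ρ r)).comp (bm_M ρ b i) := by
    refine bm_ext b fun r' k => ?_
    show bm_M ρ b i (r • (r' • b k)) = gz ρ r • bm_M ρ b i (r' • b k)
    rw [← mul_smul, bm_M_basis, bm_M_basis, Finsupp.smul_single, smul_eq_mul, map_mul]
  exact DFunLike.congr_fun h m

/-- `lin` as an additive homomorphism. -/
private noncomputable def bm_lin {Λ : Type} (f : Q' →+* T) (ℓ : Λ → T) :
    (Λ →₀ Q') →+ T :=
  Finsupp.liftAddHom fun a => (AddMonoidHom.mulRight (ℓ a)).comp f.toAddMonoidHom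

private theorem bm_lin_eq {Λ : Type} (f : Q' →+* T) (ℓ : Λ → T) (x : Λ →₀ Q') :
    lin f ℓ x = bm_lin f ℓ x := rfl

private theorem bm_lin_M (f : Q' →+* T) (ρ : S →* Q') (w : I → M →+ T)
    (b : Module.Basis B (MonoidAlgebra ℤ S) M)
    (hw : ∀ (i : I) (e : S) (m : M), w i (MonoidAlgebra.single e (1 : ℤ) • m) = f (ρ e) * w i m)
    (i : I) (m : M) :
    lin f (fun a : B × I => w a.2 (b a.1)) (bm_M ρ b i m) = w i m := by
  have h : (bm_lin f (fun a : B × I => w a.2 (b a.1))).comp (bm_M ρ b i) = w i := by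
    refine bm_ext b fun r k => ?_
    show bm_lin f (fun a : B × I => w a.2 (b a.1)) (bm_M ρ b i (r • b k)) = _
    rw [bm_M_basis, ← bm_lin_eq, lin, Finsupp.sum_single_index, w_smul f ρ (w i) (hw i)]
    rw [map_zero, zero_mul]
  exact DFunLike.congr_fun h m

/-- The composition of the matrices. -/
private theorem bm_comp {B₁ B₂ : Type} (ρ : S →* Q')
    (b₁ : Module.Basis B₁ (MonoidAlgebra ℤ S) M) (b₂ : Module.Basis B₂ (MonoidAlgebra ℤ S) M)
    (i : I) (m : M) :
    ((bm_M ρ b₁ i m).sum fun x r => r • bm_M ρ b₂ x.2 (b₁ x.1)) = bm_M ρ b₂ i m := by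
  let Φ : ((B₁ × I) →₀ Q') →+ ((B₂ × I) →₀ Q') := Finsupp.liftAddHom fun x =>
    (smulAddHom Q' ((B₂ × I) →₀ Q')).flip (bm_M ρ b₂ x.2 (b₁ x.1))
  have hΦ : ∀ y : (B₁ × I) →₀ Q', Φ y = y.sum fun x r => r • bm_M ρ b₂ x.2 (b₁ x.1) :=
    fun y => rfl
  have h : Φ.comp (bm_M ρ b₁ i) = bm_M ρ b₂ i := by
    refine bm_ext b₁ fun r k => ?_
    show Φ (bm_M ρ b₁ i (r • b₁ k)) = _
    rw [hΦ, bm_M_basis, Finsupp.sum_single_index, bm_M_smul]
    rw [zero_smul]
  rw [← hΦ]
  exact DFunLike.congr_fun h m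

end

theorem basm (h : S_change) : S_basm := by
  intro S Q' T I M B₁ B₂ _ _ _ _ _ f ρ w b₁ b₂ hw hF hC
  refine h Q' T (B₁ × I) (B₂ × I) f _ _ (fun a => bm_M ρ b₁ a.2 (b₂ a.1))
    (fun a => bm_M ρ b₂ a.2 (b₁ a.1)) hF hC ?_ ?_ ?_
  · intro a
    exact (bm_lin_M f ρ w b₁ hw a.2 (b₂ a.1)).symm
  · intro a
    show ((bm_M ρ b₁ a.2 (b₂ a.1)).sum fun x r => r • bm_M ρ b₂ x.2 (b₁ x.1)) = _
    rw [bm_comp, bm_M_self]
  · intro a
    show ((bm_M ρ b₂ a.2 (b₁ a.1)).sum fun x r => r • bm_M ρ b₁ x.2 (b₂ x.1)) = _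
    rw [bm_comp, bm_M_self]

end Pool.Agent.HierR
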