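import Pool.Agent.Lib.MP_8f66f0_al_HierR.SpecL

/-! Typed block data over monoids: the chain of typed Land-Tamme extensions and base change. -/

set_option autoImplicit false

namespace Pool.Agent.HierR.LB

open Pool.Agent.Wald Pool.Agent.Ind Pool.Agent.Hier Pool.Agent.Hier.LB Function
open scoped TensorProduct

section Gen

variable {LL E I : Type} [CommRing LL]

private theorem bm_ext {M : Type} [AddCommGroup M] [Module LL M]
    (g h : (I →₀ MonoidAlgebra LL E) →ₗ[LL] M)
    (H : ∀ j e t, g (Finsupp.single j (MonoidAlgebra.single e t)) =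
      h (Finsupp.single j (MonoidAlgebra.single e t))) : g = h := by
  refine LinearMap.ext fun x => ?_
  induction x using Finsupp.induction_linear with
  | zero => simp
  | add x y hx hy => rw [map_add, map_add, hx, hy]
  | single j r =>
    induction r using MonoidAlgebra.induction_linear with
    | zero => simp
    | add r s hr hs => rw [Finsupp.single_add, map_add, map_add, hr, hs]
    | single e t => exact H j e t

/-- Elements of a bimodule with a left basis. -/
private theorem bm_mem {S T M B : Type} [Monoid S] [Ring T] [AddCommGroup M]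
    [Module (MonoidAlgebra ℤ S) M] (bM : Module.Basis B (MonoidAlgebra ℤ S) M) (ρ : S → T)
    (g : M →+ T) (N : AddSubgroup T) (hN : ∀ e t, t ∈ N → ρ e * t ∈ N)
    (hg : ∀ (e : S) (m : M), g (MonoidAlgebra.single e (1 : ℤ) • m) = ρ e * g m)
    (h : ∀ k, g (bM k) ∈ N) (m : M) : g m ∈ N := by
  have hp : m ∈ Submodule.span (MonoidAlgebra ℤ S) (Set.range bM) := by
    rw [bM.span_eq]
    exact Submodule.mem_top
  induction hp using Submodule.span_induction with
  | mem x hx =>
    obtain ⟨k, rfl⟩ := hx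
    exact h k
  | zero => rw [map_zero]; exact zero_mem _
  | add x y _ _ hx hy => rw [map_add]; exact add_mem hx hy
  | smul r x _ hx =>
    induction r using MonoidAlgebra.induction_linear with
    | zero => rw [zero_smul, map_zero]; exact zero_mem _
    | add r s hr hs => rw [add_smul, map_add]; exact add_mem hr hs
    | single e n =>
      have e1 : (MonoidAlgebra.single e n : MonoidAlgebra ℤ S) =
          n • MonoidAlgebra.single e (1 : ℤ) := by
        rw [MonoidAlgebra.smul_single]
        simp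
      rw [e1, smul_assoc, map_zsmul, hg]
      exact N.zsmul_mem (hN e _ hx) n

end Gen

section Tr

variable {LL S T I M : Type} [CommRing LL] [Monoid S] [Ring T] [Algebra LL T] [AddCommGroup M]
  [DistribMulAction Sᵐᵒᵖ M]

/-- `tr` for a fixed `m` as a linear map. -/
private noncomputable def bmL (w : I → M →+ T) (m : M) : (I →₀ MonoidAlgebra LL S) →ₗ[LL] T :=
  Finsupp.lsum LL fun j => (Finsupp.lsum LL fun e =>
    LinearMap.toSpanSingleton LL T (w j (MulOpposite.op e • m))) ∘ₗ
      (MonoidAlgebra.coeffLinearEquiv (S := LL) (M := S) LL).toLinearMap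

private theorem bmL_apply (w : I → M →+ T) (m : M) (x : I →₀ MonoidAlgebra LL S) :
    bmL w m x = tr w x m := rfl

private theorem bmL_single (w : I → M →+ T) (m : M) (j : I) (e : S) (t : LL) :
    bmL w m (Finsupp.single j (MonoidAlgebra.single e t)) = t • w j (MulOpposite.op e • m) := by
  rw [bmL, Finsupp.lsum_single, LinearMap.comp_apply]
  have h1 : (MonoidAlgebra.coeffLinearEquiv (S := LL) (M := S) LL).toLinearMap
      (MonoidAlgebra.single e t) = Finsupp.single e t := rfl
  rw [h1, Finsupp.lsum_single, LinearMap.toSpanSingleton_apply]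

/-- A linear map applied to a typed combination. -/
private theorem bm_map {T' I' : Type} [Ring T'] [Algebra LL T'] (g : T →ₗ[LL] T')
    (w : I → M →+ T) (w' : I' → M →+ T') (h : I → I')
    (H : ∀ j m, g (w j m) = w' (h j) m) (x : I →₀ MonoidAlgebra LL S) (m : M) :
    g (tr w x m) = tr w' (Finsupp.mapDomain h x) m := by
  have : g ∘ₗ bmL w m = bmL w' m ∘ₗ (Finsupp.lmapDomain (MonoidAlgebra LL S) LL h) := by
    refine bm_ext _ _ fun j e t => ?_
    rw [LinearMap.comp_apply, LinearMap.comp_apply, Finsupp.lmapDomain_apply,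
      Finsupp.mapDomain_single, bmL_single, bmL_single, map_smul, H]
  exact DFunLike.congr_fun this x

private theorem bm_tr_mem (w : I → M →+ T) (N : Submodule LL T) {x : I →₀ MonoidAlgebra LL S}
    (h : ∀ j ∈ x.support, ∀ m, w j m ∈ N) (m : M) : tr w x m ∈ N :=
  Submodule.sum_mem _ fun j hj => Submodule.sum_mem _ fun _ _ => Submodule.smul_mem _ _ (h j hj _)

end Tr

section Reindex

variable {Q' T Λ Λ' : Type} [Ring Q'] [Ring T]

private theorem bm_freeW_equiv (f : Q' →+* T) (ℓ : Λ → T) (e : Λ' ≃ Λ) (h : FreeW f ℓ) :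
    FreeW f (fun a => ℓ (e a)) := by
  set E : List Λ' ≃ List Λ := Equiv.listEquivOfEquiv e with hE
  have key : evH f (fun a => ℓ (e a)) =
      (evH f ℓ).comp ((Finsupp.domCongr E : (List Λ' →₀ Q') ≃+ (List Λ →₀ Q')).toAddMonoidHom) := by
    refine Finsupp.addHom_ext fun u r => ?_
    change evH f _ (Finsupp.single u r) = evH f ℓ (Finsupp.domCongr E (Finsupp.single u r))
    rw [Finsupp.domCongr_apply, Finsupp.equivMapDomain_single, evH_single, evH_single]
    change f r * wd _ u = f r * wd ℓ (u.map e)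
    rw [wd_map]
  rw [freeW_iff, key]
  exact h.comp (Finsupp.domCongr E : (List Λ' →₀ Q') ≃+ (List Λ →₀ Q')).bijective

/-- The index equivalence. -/
private def bm_ix (B : Type) {β Λ : Type} (P : β → Prop) :
    B × ({x : β // P x} × Λ) ≃ {a : B × β // P a.2} × Λ where
  toFun t := (⟨(t.1, t.2.1.1), t.2.1.2⟩, t.2.2)
  invFun t := (t.1.1.1, (⟨t.1.1.2, t.1.2⟩, t.2))
  left_inv _ := rfl
  right_inv _ := rfl

end Reindex

section Lin

variable {LL R T Λ : Type} [CommRing LL] [Ring R] [Ring T] [Algebra LL R] [Algebra LL T]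

/-- `lin` as an `LL`-linear map. -/
private noncomputable def bm_lin (f : R →ₐ[LL] T) (ℓ : Λ → T) : (Λ →₀ R) →ₗ[LL] T :=
  Finsupp.lsum LL fun u => (LinearMap.mulRight LL (ℓ u)) ∘ₗ f.toLinearMap

private theorem bm_lin_single (f : R →ₐ[LL] T) (ℓ : Λ → T) (u : Λ) (r : R) :
    bm_lin f ℓ (Finsupp.single u r) = f r * ℓ u := by
  simp [bm_lin]

private theorem bm_lin_apply (f : R →ₐ[LL] T) (ℓ : Λ → T) (z : Λ →₀ R) :
    bm_lin f ℓ z = lin (f : R →+* T) ℓ z := by
  rw [bm_lin, Finsupp.lsum_apply]
  rfl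

end Lin

section Chain

variable {LL : Type} [CommRing LL] {S L β M B : Type} [Monoid S] [Ring L] [Algebra LL L]
  [AddCommGroup M] [Module (MonoidAlgebra ℤ S) M] [DistribMulAction Sᵐᵒᵖ M] {Y : MS LL S β}
  {bM : Module.Basis B (MonoidAlgebra ℤ S) M} {ρ : S →* L} {b : β → M →+ L} {sz : β → ℕ}

private theorem bm_gr_single (e : S) (t : LL) :
    gr LL ρ (MonoidAlgebra.single e t) = t • ρ e := by
  change MonoidAlgebra.lift LL L S ρ (MonoidAlgebra.single e t) = _
  rw [MonoidAlgebra.lift_single]

/-- Left multiplication of the coefficients. -/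
private theorem bm_lin_rho (ℓ : B × β → L) (e : S) (z : B × β →₀ MonoidAlgebra LL S)
    (A : Set (B × β)) (hz : z ∈ Finsupp.supported (MonoidAlgebra LL S) LL A) :
    ρ e * bm_lin (gr LL ρ) ℓ z ∈ Submodule.map (bm_lin (gr LL ρ) ℓ)
      (Finsupp.supported (MonoidAlgebra LL S) LL A) := by
  refine ⟨Finsupp.mapRange (fun r => MonoidAlgebra.single e (1 : LL) * r) (mul_zero _) z,
    fun a ha => hz (Finsupp.support_mapRange ha), ?_⟩
  have key : (bm_lin (gr LL ρ) ℓ) ∘ₗ (Finsupp.mapRange.linearMap
      (LinearMap.mulLeft LL (MonoidAlgebra.single e (1 : LL)))) =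
      (LinearMap.mulLeft LL (ρ e)) ∘ₗ (bm_lin (gr LL ρ) ℓ) := by
    refine Finsupp.lhom_ext fun a r => ?_
    rw [LinearMap.comp_apply, LinearMap.comp_apply, Finsupp.mapRange.linearMap_apply,
      Finsupp.mapRange_single, bm_lin_single, bm_lin_single, LinearMap.mulLeft_apply,
      LinearMap.mulLeft_apply, map_mul, bm_gr_single, one_smul, mul_assoc]
  exact DFunLike.congr_fun key z

private theorem bm_blk (hB : BlkM Y bM ρ b sz) :
    Blk LL ρ (fun a : B × β => b a.2 (bM a.1)) (fun a => sz a.2) where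
  free := hB.free
  tri := by
    rintro ⟨k, x⟩ c
    obtain ⟨z, hz, hz'⟩ := hB.tri x c (bM k)
    have key : tr b (Y.y x c) (bM k) ∈ Submodule.map
        (bm_lin (gr LL ρ) (fun a : B × β => b a.2 (bM a.1)))
        (Finsupp.supported (MonoidAlgebra LL S) LL {a : B × β | sz a.2 = sz x}) := by
      refine bm_tr_mem b _ (fun j hj m => ?_) (bM k)
      refine bm_mem bM ρ (b j) (Submodule.map
        (bm_lin (gr LL ρ) (fun a : B × β => b a.2 (bM a.1)))
        (Finsupp.supported (MonoidAlgebra LL S) LL {a : B × β | sz a.2 = sz x})).toAddSubgroup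
        ?_ (hB.lin j) (fun k' => ?_) m
      · rintro e _ ⟨z, hz, rfl⟩
        exact bm_lin_rho _ e z _ hz
      · refine ⟨Finsupp.single (k', j) (MonoidAlgebra.single 1 1),
          Finsupp.single_mem_supported _ _ (hB.siz x c j hj), ?_⟩
        rw [bm_lin_single, bm_gr_single, one_smul, map_one, one_mul]
    obtain ⟨y', hy', e⟩ := key
    rw [bm_lin_apply] at e
    refine ⟨y', z, ?_, fun x' hx' => hy' hx', hz'⟩
    rw [e]
    exact hz

variable (hB : BlkM Y bM ρ b sz)

include hB in
private theorem bm_blk_mem {n : ℕ} {x : β} (hx : sz x < n) (m : M) :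
    b x m ∈ spW LL ρ (fun a : B × β => b a.2 (bM a.1)) (fun a => sz a.2 < n) := by
  refine bm_mem bM ρ (b x) (spW LL ρ (fun a : B × β => b a.2 (bM a.1))
    (fun a => sz a.2 < n)).toAddSubgroup (fun e t ht => ?_) (hB.lin x) (fun k => ?_) m
  · exact rho_mul_mem ρ _ _ ht e
  · exact blk_mem (b := fun a : B × β => b a.2 (bM a.1)) (a := (k, x)) hx

/-- The typed blocks of size `n` as elements of the next stage. -/
private noncomputable def bm_y (n : ℕ) (x : {x : β // sz x = n}) :
    M →+ SA (blk_clo (bm_blk hB) (n + 1)) where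
  toFun m := ⟨b x.1 m, bm_blk_mem hB (by have := x.2; omega) m⟩
  map_zero' := Subtype.ext (map_zero (b x.1))
  map_add' m m' := Subtype.ext (map_add (b x.1) m m')

/-- The typed letters of the step. -/
private noncomputable def bm_w (n : ℕ)
    (l : {x : β // sz x = n} × List {a : B × β // sz a.2 < n}) :
    M →+ SA (blk_clo (bm_blk hB) (n + 1)) :=
  (AddMonoidHom.mulRight ((inc (bm_blk hB) n : _ →+* _)
    (wd (xs (bm_blk hB) n) l.2))).comp (bm_y hB n l.1)

/-- The typed letters in `L`. -/
private noncomputable def bm_wL (bM : Module.Basis B (MonoidAlgebra ℤ S) M) (b : β → M →+ L)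
    (n : ℕ) (l : {x : β // sz x = n} × List {a : B × β // sz a.2 < n}) : M →+ L :=
  (AddMonoidHom.mulRight (wd (fun a : B × β => b a.2 (bM a.1)) (l.2.map Subtype.val))).comp
    (b l.1.1)

private theorem bm_w_coe (n : ℕ) (l : {x : β // sz x = n} × List {a : B × β // sz a.2 < n})
    (m : M) : ((bm_w hB n l m : SA (blk_clo (bm_blk hB) (n + 1))) : L) = bm_wL bM b n l m := by
  change b l.1.1 m * ((SA (blk_clo (bm_blk hB) n)).val : _ →+* L)
    (wd (xs (bm_blk hB) n) l.2) = _
  rw [map_wd]
  change _ = b l.1.1 m * wd _ (l.2.map Subtype.val)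
  rw [wd_map]
  rfl

/-- `ev` in the stage `n`, as an element of `L`. -/
private theorem bm_ev_coe (n : ℕ) (z : List {a : B × β // sz a.2 < n} →₀ MonoidAlgebra LL S) :
    ((ev (gr LL (rhoS (blk_clo (bm_blk hB) n)) : MonoidAlgebra LL S →+* _)
      (xs (bm_blk hB) n) z : SA (blk_clo (bm_blk hB) n)) : L) =
    evLin (gr LL ρ) (fun a : {a : B × β // sz a.2 < n} => b a.1.2 (bM a.1.1)) z := by
  rw [← evLin_apply]
  have key : (SA (blk_clo (bm_blk hB) n)).val.toLinearMap ∘ₗ
      evLin (gr LL (rhoS (blk_clo (bm_blk hB) n))) (xs (bm_blk hB) n) =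
      evLin (gr LL ρ) (fun a : {a : B × β // sz a.2 < n} => b a.1.2 (bM a.1.1)) := by
    refine Finsupp.lhom_ext fun u r => ?_
    rw [LinearMap.comp_apply, evLin_single, evLin_single]
    change ((gr LL (rhoS (blk_clo (bm_blk hB) n)) r : SA (blk_clo (bm_blk hB) n)) : L) *
      ((SA (blk_clo (bm_blk hB) n)).val : _ →+* L) (wd (xs (bm_blk hB) n) u) = _
    rw [gr_rhoS, map_wd]
    rfl
  exact DFunLike.congr_fun key z

include hB in
/-- The typed rule for the blocks of size `n` and words in smaller blocks. -/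
private theorem bm_right (n : ℕ)
    (Z : MX LL (MonoidAlgebra LL S) (MonoidAlgebra LL S) {x : β // sz x = n})
    (hZ : ∀ (x : {x : β // sz x = n}) (e : S) (t : LL),
      (Z.x x (MonoidAlgebra.single e t)).mapDomain Subtype.val = t • Y.y x.1 e)
    (x : {x : β // sz x = n}) (m : M)
    (z : List {a : B × β // sz a.2 < n} →₀ MonoidAlgebra LL S) :
    b x.1 m * evLin (gr LL ρ) (fun a : {a : B × β // sz a.2 < n} => b a.1.2 (bM a.1.1)) z -
      bmL (bm_wL bM b n) m (z.sum fun u' h => (Z.x x h).mapDomain fun x' => (x', u')) ∈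
      spW LL ρ (fun a : B × β => b a.2 (bM a.1)) (fun a => sz a.2 < n) := by
  have hadd : ∀ z z' : List {a : B × β // sz a.2 < n} →₀ MonoidAlgebra LL S,
      ((z + z').sum fun u' h => (Z.x x h).mapDomain fun x' => (x', u')) =
      (z.sum fun u' h => (Z.x x h).mapDomain fun x' => (x', u')) +
      (z'.sum fun u' h => (Z.x x h).mapDomain fun x' => (x', u')) := by
    intro z z'
    refine Finsupp.sum_add_index' (fun u' => ?_) (fun u' h h' => ?_)
    · rw [map_zero, Finsupp.mapDomain_zero]
    · rw [map_add, Finsupp.mapDomain_add]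
  induction z using Finsupp.induction_linear with
  | zero =>
    rw [map_zero, mul_zero, Finsupp.sum_zero_index, map_zero, sub_zero]
    exact zero_mem _
  | add z z' h h' =>
    rw [hadd, map_add, map_add, mul_add]
    have := add_mem h h'
    rwa [sub_add_sub_comm] at this
  | single u' h =>
    rw [Finsupp.sum_single_index (by rw [map_zero, Finsupp.mapDomain_zero]), evLin_single]
    induction h using MonoidAlgebra.induction_linear with
    | zero =>
      rw [map_zero, map_zero, zero_mul, mul_zero, Finsupp.mapDomain_zero, map_zero, sub_zero]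
      exact zero_mem _
    | add h h' ih ih' =>
      rw [map_add, map_add, Finsupp.mapDomain_add, map_add, add_mul, mul_add]
      have := add_mem ih ih'
      rwa [sub_add_sub_comm] at this
    | single e t =>
      obtain ⟨z, hz, hz'⟩ := hB.tri x.1 e m
      have hw : wd (fun a : {a : B × β // sz a.2 < n} => b a.1.2 (bM a.1.1)) u' =
          wd (fun a : B × β => b a.2 (bM a.1)) (u'.map Subtype.val) :=
        (wd_map (fun a : B × β => b a.2 (bM a.1)) Subtype.val u').symm
      have e1 : bmL (bm_wL bM b n) m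
          ((Z.x x (MonoidAlgebra.single e t)).mapDomain fun x' => (x', u')) =
          (t • tr b (Y.y x.1 e) m) *
            wd (fun a : B × β => b a.2 (bM a.1)) (u'.map Subtype.val) := by
        have h1 := bm_map (LL := LL) (LinearMap.mulRight LL
          (wd (fun a : B × β => b a.2 (bM a.1)) (u'.map Subtype.val)))
          (fun x' : {x : β // sz x = n} => b x'.1) (bm_wL bM b n) (fun x' => (x', u'))
          (fun _ _ => rfl) (Z.x x (MonoidAlgebra.single e t)) m
        have h2 := bm_map (LL := LL) (LinearMap.id : L →ₗ[LL] L)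
          (fun x' : {x : β // sz x = n} => b x'.1) b Subtype.val
          (fun _ _ => rfl) (Z.x x (MonoidAlgebra.single e t)) m
        rw [hZ] at h2
        rw [LinearMap.id_apply] at h2
        rw [bmL_apply, ← h1, LinearMap.mulRight_apply, h2, ← bmL_apply, map_smul, bmL_apply]
      rw [e1, bm_gr_single, hw, smul_mul_assoc, smul_mul_assoc, mul_smul_comm, ← mul_assoc, hz,
        add_mul, smul_add, add_sub_cancel_left]
      refine Submodule.smul_mem _ _ (mul_wd_mem ρ _ _ (ev_mem_spW z fun u hu a ha => ?_) _ ?_)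
      · have := hz' u hu a ha
        rw [x.2] at this
        exact this
      · intro a ha
        obtain ⟨a', -, rfl⟩ := List.mem_map.1 ha
        exact a'.2

private theorem bm_step (h1 : S_mxc) (h2 : S_reg) (h3 : S_msx) (n : ℕ) :
    ∃ X : MX LL (SA (blk_clo (bm_blk hB) n)) (MonoidAlgebra LL S)
        ({x : β // sz x = n} × List {a : B × β // sz a.2 < n}),
      IsLM LL X bM (inc (bm_blk hB) n) (rhoS (blk_clo (bm_blk hB) n)) (bm_w hB n) := by
  obtain ⟨H, hH⟩ := h2 LL (MonoidAlgebra LL S) (SA (blk_clo (bm_blk hB) n))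
    {a : B × β // sz a.2 < n} (gr LL (rhoS (blk_clo (bm_blk hB) n))) (xs (bm_blk hB) n)
    (free_n (bm_blk hB) n)
  obtain ⟨Z, hZ⟩ := h3 LL S β Y (fun x => sz x = n)
    (fun x e hx x' hx' => (hB.siz x e x' hx').trans hx)
  obtain ⟨X, hX⟩ := h1 LL (SA (blk_clo (bm_blk hB) n)) (MonoidAlgebra LL S) (MonoidAlgebra LL S)
    (List {a : B × β // sz a.2 < n}) {x : β // sz x = n} H Z
  refine ⟨X, ?_, ?_, ?_, ?_⟩
  · rintro ⟨x, u⟩ e m
    refine Subtype.ext ?_
    change b x.1 _ * _ = ρ e * (b x.1 m * _)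
    rw [hB.lin, mul_assoc]
  · exact bm_freeW_equiv _ _
      (bm_ix B (Λ := List {a : B × β // sz a.2 < n}) fun x => sz x = n)
      (free_step (bm_blk hB) n)
  · rintro ⟨x, u⟩ q m
    have hr := bm_right hB n Z hZ x m (H.x u q)
    refine ⟨⟨_, hr⟩, Subtype.ext ?_⟩
    have e1 : ((bm_w hB n (x, u) m * inc (bm_blk hB) n q :
        SA (blk_clo (bm_blk hB) (n + 1))) : L) =
        b x.1 m * ((wd (xs (bm_blk hB) n) u * q : SA (blk_clo (bm_blk hB) n)) : L) := by
      change b x.1 m * _ * (q : L) = b x.1 m * (_ * (q : L))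
      rw [mul_assoc]
      rfl
    have e2 : ((tr (bm_w hB n) (X.x (x, u) q) m : SA (blk_clo (bm_blk hB) (n + 1))) : L) =
        bmL (bm_wL bM b n) m (X.x (x, u) q) := by
      have := bm_map (LL := LL) (SA (blk_clo (bm_blk hB) (n + 1))).val.toLinearMap
        (bm_w hB n) (bm_wL bM b n) id (fun j m' => bm_w_coe hB n j m') (X.x (x, u) q) m
      rw [Finsupp.mapDomain_id] at this
      exact this
    rw [e1, hH, bm_ev_coe hB, Subalgebra.coe_add, e2, hX]
    exact (sub_add_cancel _ _).symm
  · exact ret_step (bm_blk hB) n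

private theorem bm_kt_step (h1 : S_mxc) (h2 : S_reg) (h3 : S_msx) (n : ℕ) (hS : SLM LL S M) :
    KT (inc (bm_blk hB) n : SA (blk_clo (bm_blk hB) n) →+*
      SA (blk_clo (bm_blk hB) (n + 1))) := by
  have := free_SA (bm_blk hB) n
  obtain ⟨X, hX⟩ := bm_step hB h1 h2 h3 n
  exact hS (SA (blk_clo (bm_blk hB) n)) (SA (blk_clo (bm_blk hB) (n + 1)))
    ({x : β // sz x = n} × List {a : B × β // sz a.2 < n}) B X bM (inc (bm_blk hB) n)
    (rhoS (blk_clo (bm_blk hB) n)) (bm_w hB n) hX

end Chain

section Union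

variable {LL : Type} [CommRing LL] {C L β : Type} [Monoid C] [Ring L] [Algebra LL L]
  {ρ : C →* L} {b : β → L} {sz : β → ℕ}

private theorem bm_kt_n_of (hB : Blk LL ρ b sz)
    (hK : ∀ n, KT (inc hB n : SA (blk_clo hB n) →+* SA (blk_clo hB (n + 1)))) (n : ℕ) :
    KT (gr LL (rhoS (blk_clo hB n)) : MonoidAlgebra LL C →+* SA (blk_clo hB n)) := by
  induction n with
  | zero => exact kt_zero hB
  | succ n ih =>
    have h := KT.comp ih (hK n)
    have e : (inc hB n : SA (blk_clo hB n) →+* SA (blk_clo hB (n + 1))).comp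
        (gr LL (rhoS (blk_clo hB n)) : MonoidAlgebra LL C →+* SA (blk_clo hB n)) =
        (gr LL (rhoS (blk_clo hB (n + 1))) : MonoidAlgebra LL C →+* _) := by
      refine RingHom.ext fun r => Subtype.ext ?_
      exact (gr_rhoS (blk_clo hB n) r).trans (gr_rhoS (blk_clo hB (n + 1)) r).symm
    rw [e] at h
    exact h

private theorem bm_kt_of (hB : Blk LL ρ b sz)
    (hK : ∀ n, KT (inc hB n : SA (blk_clo hB n) →+* SA (blk_clo hB (n + 1)))) :
    KT (gr LL ρ : MonoidAlgebra LL C →+* L) := by
  refine KT.of_union (fun n => SA (blk_clo hB n))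
    (fun n => (gr LL (rhoS (blk_clo hB n)) : MonoidAlgebra LL C →+* SA (blk_clo hB n)))
    (fun n => ((SA (blk_clo hB n)).val : SA (blk_clo hB n) →+* L))
    (fun n => Subtype.val_injective) (fun n a => gr_rhoS (blk_clo hB n) a)
    (fun n => bm_kt_n_of hB hK n) ?_
  intro x
  obtain ⟨z, hz⟩ := hB.free.2 x
  set N : ℕ := z.support.sup (fun u => (u.map sz).sum + 1) with hN
  refine ⟨N, fun m hm => ⟨⟨x, ?_⟩, rfl⟩⟩
  change x ∈ spW LL ρ b (fun a => sz a < m)
  rw [← hz]
  refine ev_mem_spW z fun u hu a ha => ?_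
  have h1 : sz a ≤ (u.map sz).sum := List.single_le_sum (by simp) _ (List.mem_map_of_mem ha)
  have h2 : (u.map sz).sum + 1 ≤ N := Finset.le_sup (f := fun u => (u.map sz).sum + 1) hu
  change sz a < m
  omega

end Union

section BC

variable {LL : Type} [CommRing LL] {S L β M B : Type} [Monoid S] [Ring L] [Algebra LL L]
  [AddCommGroup M] [Module (MonoidAlgebra ℤ S) M] [DistribMulAction Sᵐᵒᵖ M]
  (LL' : Type) [CommRing LL'] [Algebra LL LL']

/-- The matrices after base change. -/
private noncomputable def bm_MS (Y : MS LL S β) : MS LL' S β where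
  y x e := Finsupp.mapRange (mr LL') (map_zero _) (Y.y x e)
  one x := by rw [Y.one, Finsupp.mapRange_single, map_one]
  mul x e e' := by
    rw [Y.mul]
    have hs : ∀ w w' : β →₀ MonoidAlgebra LL S, ((w + w').sum fun x' r => r • Y.y x' e') =
        (w.sum fun x' r => r • Y.y x' e') + (w'.sum fun x' r => r • Y.y x' e') := fun w w' =>
      Finsupp.sum_add_index' (fun _ => zero_smul _ _) (fun _ _ _ => add_smul _ _ _)
    have hs' : ∀ w w' : β →₀ MonoidAlgebra LL' S, ((w + w').sum fun x' r =>
        r • Finsupp.mapRange (mr LL') (map_zero _) (Y.y x' e')) =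
        (w.sum fun x' r => r • Finsupp.mapRange (mr LL') (map_zero _) (Y.y x' e')) +
        (w'.sum fun x' r => r • Finsupp.mapRange (mr LL') (map_zero _) (Y.y x' e')) :=
      fun w w' => Finsupp.sum_add_index' (fun _ => zero_smul _ _) (fun _ _ _ => add_smul _ _ _)
    generalize Y.y x e = w
    induction w using Finsupp.induction_linear with
    | zero => rw [Finsupp.sum_zero_index, Finsupp.mapRange_zero, Finsupp.sum_zero_index]
    | add w w' hw hw' =>
      rw [hs, Finsupp.mapRange_add (map_add _), Finsupp.mapRange_add (map_add _), hs', hw, hw']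
    | single x' r =>
      have s1 : ((Finsupp.single x' r).sum fun x' r => r • Y.y x' e') = r • Y.y x' e' :=
        Finsupp.sum_single_index (zero_smul _ _)
      have s2 : ((Finsupp.single x' (mr LL' r)).sum fun x' r =>
          r • Finsupp.mapRange (mr LL') (map_zero _) (Y.y x' e')) =
          mr LL' r • Finsupp.mapRange (mr LL') (map_zero _) (Y.y x' e') :=
        Finsupp.sum_single_index (zero_smul _ _)
      rw [s1, Finsupp.mapRange_single, s2]
      refine Finsupp.ext fun a => ?_
      change mr LL' (r * (Y.y x' e') a) = mr LL' r * mr LL' ((Y.y x' e') a)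
      rw [map_mul]

/-- The typed letters after base change. -/
private noncomputable def bm_bcb (b : β → M →+ L) (x : β) : M →+ LL' ⊗[LL] L :=
  ((Algebra.TensorProduct.includeRight : L →ₐ[LL] LL' ⊗[LL] L) : L →+ LL' ⊗[LL] L).comp (b x)

private theorem bm_bcb_apply (b : β → M →+ L) (x : β) (m : M) :
    bm_bcb LL' b x m = (1 : LL') ⊗ₜ[LL] b x m := rfl

omit [Module (MonoidAlgebra ℤ S) M] in
private theorem bm_inc_tr (b : β → M →+ L) (y : β →₀ MonoidAlgebra LL S) (m : M) :
    (1 : LL') ⊗ₜ[LL] tr b y m =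
      tr (bm_bcb LL' b) (Finsupp.mapRange (mr LL') (map_zero _) y) m := by
  rw [← bmL_apply, ← bmL_apply]
  induction y using Finsupp.induction_linear with
  | zero => rw [map_zero, Finsupp.mapRange_zero, map_zero, TensorProduct.tmul_zero]
  | add x y hx hy =>
    rw [map_add, TensorProduct.tmul_add, hx, hy, Finsupp.mapRange_add (map_add _), map_add]
  | single j r =>
    induction r using MonoidAlgebra.induction_linear with
    | zero => rw [Finsupp.single_zero, map_zero, Finsupp.mapRange_zero, map_zero,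
        TensorProduct.tmul_zero]
    | add r s hr hs =>
      rw [Finsupp.single_add, map_add, TensorProduct.tmul_add, hr, hs,
        Finsupp.mapRange_add (map_add _), map_add]
    | single e t =>
      rw [Finsupp.mapRange_single, mr_single, bmL_single, bmL_single, bm_bcb_apply,
        TensorProduct.tmul_smul, TensorProduct.smul_tmul', TensorProduct.smul_tmul']
      simp [Algebra.smul_def]

private theorem bm_blkM {Y : MS LL S β} {bM : Module.Basis B (MonoidAlgebra ℤ S) M} {ρ : S →* L}
    {b : β → M →+ L} {sz : β → ℕ} (hB : BlkM Y bM ρ b sz) :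
    BlkM (bm_MS LL' Y) bM (bch LL LL' ρ) (bm_bcb LL' b) sz where
  lin := by
    intro x e m
    rw [bm_bcb_apply, bm_bcb_apply, hB.lin, bch_apply, Algebra.TensorProduct.tmul_mul_tmul, one_mul]
  free := free_bc LL' ρ (fun a : B × β => b a.2 (bM a.1)) hB.free
  siz := fun x e x' hx' =>
    hB.siz x e x' (Finsupp.support_mapRange (f := mr LL') (hf := map_zero _) hx')
  tri := by
    intro x c m
    obtain ⟨z, hz, hz'⟩ := hB.tri x c m
    refine ⟨Finsupp.mapRange (mr LL') (map_zero _) z, ?_, fun u hu =>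
      hz' u (Finsupp.support_mapRange hu)⟩
    have h1 := inc_ev LL' ρ (fun a : B × β => b a.2 (bM a.1)) z
    change _ = ev _ (fun a : B × β => bm_bcb LL' b a.2 (bM a.1)) _ at h1
    have h2 : (bm_MS LL' Y).y x c = Finsupp.mapRange (mr LL') (map_zero _) (Y.y x c) := rfl
    rw [← h1, h2, ← bm_inc_tr, ← TensorProduct.tmul_add, ← hz, bm_bcb_apply, bch_apply,
      Algebra.TensorProduct.tmul_mul_tmul, one_mul]

private theorem bm_self {Y : MS LL S β} {bM : Module.Basis B (MonoidAlgebra ℤ S) M} {ρ : S →* L}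
    {b : β → M →+ L} {sz : β → ℕ} (h1 : S_mxc) (h2 : S_reg) (h3 : S_msx)
    (hB : BlkM Y bM ρ b sz) (hS : SLM LL S M) : KT (gr LL ρ : MonoidAlgebra LL S →+* L) :=
  bm_kt_of (bm_blk hB) fun n => bm_kt_step hB h1 h2 h3 n hS

theorem blkm_main (h1 : S_mxc) (h2 : S_reg) (h3 : S_msx) : S_blkm := by
  intro LL LL' S L β M B _ _ _ _ _ _ _ _ _ _ Y bM ρ b sz hB hS
  exact bm_self h1 h2 h3 (bm_blkM LL' hB) hS

end BC

end Pool.Agent.HierR.LB

namespace Pool.Agent.HierR

/-- **Typed blocks and the chain.** -/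
theorem blkm (h1 : S_mxc) (h2 : S_reg) (h3 : S_msx) : S_blkm :=
  Pool.Agent.HierR.LB.blkm_main h1 h2 h3

end Pool.Agent.HierR
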