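import Pool.Agent.Lib.MP_8f66f0_al_HierR.SpecT

/-! T1: the constants of typed Land-Tamme data exist. -/

set_option autoImplicit false

namespace Pool.Agent.HierR

open Pool.Agent.Wald Pool.Agent.Ind Pool.Agent.Hier

section CmAux

variable {LL S Q' Q I M B : Type} [CommRing LL] [Monoid S] [Ring Q'] [Ring Q] [Algebra LL Q']
  [Algebra LL Q] [AddCommGroup M] [DistribMulAction Sᵐᵒᵖ M]

/-- coefficients, as a linear map -/
private noncomputable def cmCo : MonoidAlgebra LL S →ₗ[LL] (S →₀ LL) where
  toFun := MonoidAlgebra.coeff
  map_add' _ _ := rfl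
  map_smul' _ _ := rfl

/-- `tr` for one letter, as a linear map -/
private noncomputable def cmT1 (w : I → M →+ Q) (m : M) (j : I) :
    MonoidAlgebra LL S →ₗ[LL] Q :=
  (Finsupp.lsum LL fun e : S => LinearMap.toSpanSingleton LL Q
    (w j (MulOpposite.op e • m))).comp cmCo

private theorem cmT1_apply (w : I → M →+ Q) (m : M) (j : I) (r : MonoidAlgebra LL S) :
    cmT1 w m j r = r.coeff.sum fun e t => t • w j (MulOpposite.op e • m) := by
  unfold cmT1
  rw [LinearMap.comp_apply, Finsupp.lsum_apply]
  rfl

private theorem cmT1_single (w : I → M →+ Q) (m : M) (j : I) (e : S) (t : LL) :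
    cmT1 w m j (MonoidAlgebra.single e t) = t • w j (MulOpposite.op e • m) := by
  rw [cmT1_apply, MonoidAlgebra.coeff_single, Finsupp.sum_single_index (by rw [zero_smul])]

/-- `tr` as a linear map -/
private noncomputable def cmT (w : I → M →+ Q) (m : M) :
    (I →₀ MonoidAlgebra LL S) →ₗ[LL] Q :=
  Finsupp.lsum LL fun j => cmT1 w m j

private theorem cmT_apply (w : I → M →+ Q) (m : M) (x : I →₀ MonoidAlgebra LL S) :
    cmT w m x = tr w x m := by
  unfold cmT tr
  rw [Finsupp.lsum_apply]
  exact Finsupp.sum_congr fun j _ => cmT1_apply w m j _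

private theorem cmT_single (w : I → M →+ Q) (m : M) (j : I) (r : MonoidAlgebra LL S) :
    cmT w m (Finsupp.single j r) = cmT1 w m j r := by
  unfold cmT
  rw [Finsupp.lsum_single]

private theorem cmT_add (w : I → M →+ Q) (m m' : M) (x : I →₀ MonoidAlgebra LL S) :
    cmT w (m + m') x = cmT w m x + cmT w m' x := by
  induction x using Finsupp.induction_linear with
  | zero => rw [map_zero, map_zero, map_zero, add_zero]
  | add x y hx hy => rw [map_add, map_add, map_add, hx, hy]; abel
  | single j r =>
    rw [cmT_single, cmT_single, cmT_single]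
    induction r using MonoidAlgebra.induction_linear with
    | zero => rw [map_zero, map_zero, map_zero, add_zero]
    | add x y hx hy => rw [map_add, map_add, map_add, hx, hy]; abel
    | single e t => rw [cmT1_single, cmT1_single, cmT1_single, smul_add, map_add, smul_add]

private theorem cmT_left [Module (MonoidAlgebra ℤ S) M]
    [SMulCommClass (MonoidAlgebra ℤ S) Sᵐᵒᵖ M] (g : Q) (e : S) (w : I → M →+ Q)
    (h : ∀ (i : I) (m : M), w i (MonoidAlgebra.single e (1 : ℤ) • m) = g * w i m)
    (m : M) (x : I →₀ MonoidAlgebra LL S) :
    cmT w (MonoidAlgebra.single e (1 : ℤ) • m) x = g * cmT w m x := by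
  induction x using Finsupp.induction_linear with
  | zero => rw [map_zero, map_zero, mul_zero]
  | add x y hx hy => rw [map_add, map_add, hx, hy, mul_add]
  | single j r =>
    rw [cmT_single, cmT_single]
    induction r using MonoidAlgebra.induction_linear with
    | zero => rw [map_zero, map_zero, mul_zero]
    | add x y hx hy => rw [map_add, map_add, hx, hy, mul_add]
    | single e' t =>
      rw [cmT1_single, cmT1_single, ← smul_comm (MonoidAlgebra.single e (1 : ℤ))
        (MulOpposite.op e') m, h, mul_smul_comm]

private theorem cmT_smul (w : I → M →+ Q) (m : M) (r : MonoidAlgebra LL S)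
    (x : I →₀ MonoidAlgebra LL S) :
    cmT w m (r • x) = r.coeff.sum fun e t => t • cmT w (MulOpposite.op e • m) x := by
  induction x using Finsupp.induction_linear with
  | zero =>
    rw [smul_zero, map_zero]
    symm
    refine Finset.sum_eq_zero fun e _ => ?_
    simp only
    rw [map_zero, smul_zero]
  | add x y h h' =>
    rw [smul_add, map_add, h, h', ← Finsupp.sum_add]
    refine Finsupp.sum_congr fun e _ => ?_
    rw [map_add, smul_add]
  | single j s =>
    rw [Finsupp.smul_single, smul_eq_mul, cmT_single]
    simp only [cmT_single]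
    induction r using MonoidAlgebra.induction_linear with
    | zero =>
      rw [zero_mul, map_zero]
      rfl
    | add r r' h h' =>
      rw [add_mul, map_add, h, h', MonoidAlgebra.coeff_add, Finsupp.sum_add_index']
      · intro e
        rw [zero_smul]
      · intro e t t'
        rw [add_smul]
    | single e t =>
      rw [MonoidAlgebra.coeff_single, Finsupp.sum_single_index (by rw [zero_smul])]
      induction s using MonoidAlgebra.induction_linear with
      | zero => rw [mul_zero, map_zero, map_zero, smul_zero]
      | add s s' h h' => rw [mul_add, map_add, map_add, h, h', smul_add]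
      | single e' t' =>
        rw [MonoidAlgebra.single_mul_single, cmT1_single, cmT1_single, MulOpposite.op_mul,
          mul_smul (MulOpposite.op e') (MulOpposite.op e) m, mul_smul t t']

end CmAux

/-- T1. The constants exist. -/
theorem cm : S_cm := by
  classical
  intro LL S Q' Q I M B _ _ _ _ _ _ _ _ _ _ X bM f ρ w hlm
  have hf : Function.Injective f := by
    intro c c' hc
    have h1 : ev (f : Q' →+* Q) (fun a : B × I => w a.2 (bM a.1)) (Finsupp.single [] c) =
        ev (f : Q' →+* Q) (fun a : B × I => w a.2 (bM a.1)) (Finsupp.single [] c') := by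
      unfold ev
      rw [Finsupp.sum_single_index (by rw [map_zero, zero_mul]),
        Finsupp.sum_single_index (by rw [map_zero, zero_mul])]
      exact congrArg (· * wd _ []) hc
    have h2 := hlm.free.1 h1
    have h3 := DFunLike.congr_fun h2 []
    rwa [Finsupp.single_eq_same, Finsupp.single_eq_same] at h3
  choose c hc using fun (i : I) (m : M) (q : Q') => hlm.right i q m
  have hrel : ∀ i m q, w i m * f q = f (c i m q) + cmT w m (X.x i q) := by
    intro i m q
    rw [cmT_apply]
    exact hc i m q
  have hadd : ∀ i m m' q, c i (m + m') q = c i m q + c i m' q := by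
    intro i m m' q
    apply hf
    have h1 := hrel i (m + m') q
    rw [map_add, add_mul, hrel, hrel, cmT_add] at h1
    rw [map_add]
    have h2 : f (c i (m + m') q) + (cmT w m (X.x i q) + cmT w m' (X.x i q)) =
        f (c i m q) + f (c i m' q) + (cmT w m (X.x i q) + cmT w m' (X.x i q)) := by
      rw [← h1]
      abel
    exact add_right_cancel h2
  have hqadd : ∀ i m q q', c i m (q + q') = c i m q + c i m q' := by
    intro i m q q'
    apply hf
    have h1 := hrel i m (q + q')
    rw [map_add, mul_add, hrel, hrel, map_add, map_add] at h1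
    rw [map_add]
    have h2 : f (c i m (q + q')) + (cmT w m (X.x i q) + cmT w m (X.x i q')) =
        f (c i m q) + f (c i m q') + (cmT w m (X.x i q) + cmT w m (X.x i q')) := by
      rw [← h1]
      abel
    exact add_right_cancel h2
  have hqsmul : ∀ i m (t : LL) q, c i m (t • q) = t • c i m q := by
    intro i m t q
    apply hf
    have h1 := hrel i m (t • q)
    rw [map_smul, mul_smul_comm, hrel, map_smul, map_smul, smul_add] at h1
    rw [map_smul]
    exact (add_right_cancel h1).symm
  have hlin : ∀ i (e : S) m q, c i (MonoidAlgebra.single e (1 : ℤ) • m) q = ρ e * c i m q := by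
    intro i e m q
    apply hf
    have h1 := hrel i (MonoidAlgebra.single e (1 : ℤ) • m) q
    rw [hlm.lin, mul_assoc, hrel, cmT_left (f (ρ e)) e w (fun i m => hlm.lin i e m),
      mul_add] at h1
    rw [map_mul]
    exact (add_right_cancel h1).symm
  have hone : ∀ i m, c i m 1 = 0 := by
    intro i m
    apply hf
    have h1 := hrel i m 1
    have h2 : (1 : MonoidAlgebra LL S) = MonoidAlgebra.single 1 1 := rfl
    rw [map_one, mul_one, X.one, cmT_single, h2, cmT1_single, one_smul, MulOpposite.op_one,
      one_smul] at h1
    rw [map_zero]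
    exact left_eq_add.1 (by rw [add_comm]; exact h1)
  have hmul : ∀ i m q q', c i m (q * q') = c i m q * q' +
      (X.x i q).sum fun j r => r.coeff.sum fun e t => t • c j (MulOpposite.op e • m) q' := by
    intro i m q q'
    apply hf
    have h1 := hrel i m (q * q')
    rw [map_mul, ← mul_assoc, hrel, add_mul, X.mul] at h1
    have h3 : cmT w m ((X.x i q).sum fun j r => r • X.x j q') =
        (X.x i q).sum fun j r => r.coeff.sum fun e t =>
          t • cmT w (MulOpposite.op e • m) (X.x j q') := by
      rw [map_finsuppSum]
      exact Finsupp.sum_congr fun j _ => cmT_smul w m _ _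
    have h4 : cmT w m (X.x i q) * f q' = f ((X.x i q).sum fun j r => r.coeff.sum fun e t =>
          t • c j (MulOpposite.op e • m) q') +
        (X.x i q).sum fun j r => r.coeff.sum fun e t =>
          t • cmT w (MulOpposite.op e • m) (X.x j q') := by
      rw [cmT_apply, tr, Finsupp.sum, Finsupp.sum, Finsupp.sum, map_sum, Finset.sum_mul,
        ← Finset.sum_add_distrib]
      refine Finset.sum_congr rfl fun j _ => ?_
      rw [Finsupp.sum, Finsupp.sum, Finsupp.sum, map_sum, Finset.sum_mul,
        ← Finset.sum_add_distrib]
      refine Finset.sum_congr rfl fun e _ => ?_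
      rw [smul_mul_assoc, hrel, map_smul, ← smul_add]
    rw [h3, h4, ← add_assoc] at h1
    rw [map_add, map_mul]
    exact (add_right_cancel h1).symm
  refine ⟨⟨fun i => AddMonoidHom.mk' (fun m =>
      { toFun := c i m, map_add' := hqadd i m, map_smul' := hqsmul i m }) (fun m m' => ?_),
    fun i e m q => hlin i e m q, fun i m => hone i m, fun i m q q' => hmul i m q q'⟩,
    fun i m q => hc i m q⟩
  ext q
  exact hadd i m m' q

end Pool.Agent.HierR
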