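import Pool.Agent.Lib.MP_8f66f0_al_HierR.SpecR
import Pool.Agent.Lib.MP_8f66f0_al_HierZ.FamSub
import Pool.Agent.Lib.MP_8f66f0_al_HierZ.Fam

/-! Families of letters in orbits, with a group for each orbit (port of HierZ/FamSub, Famfin,
Fam). -/

set_option autoImplicit false

namespace Pool.Agent.HierR

open Pool.Agent.Wald Pool.Agent.Ind Pool.Agent.Hier

section FamSub

variable {LL Q' T Λ O : Type} [CommRing LL] [Ring Q'] [Algebra LL Q'] [Ring T]
  [Algebra LL T] {f : Q' →ₐ[LL] T} {H : O → Type} [∀ ω, Group (H ω)] {ρ : ∀ ω, H ω →* Q'}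
  {ℓ : Λ → T} {o : Λ → O}

/-- The rule with a name for the orbit. -/
private theorem fr_at (h : FamRule LL f ρ ℓ o) (a : Λ) (q : Q') (ω : O) (hω : o a = ω) :
    ∃ (c : Q') (x : Λ →₀ MonoidAlgebra LL (H ω)), (∀ b ∈ x.support, o b = ω) ∧
      ℓ a * f q = f c + x.sum fun b r => f (gr LL (ρ ω) r) * ℓ b := by
  subst hω
  exact h a q

/-- The rule for the letters which satisfy `p`, with support among them. -/
private theorem fr_sub_at (h : FamRule LL f ρ ℓ o) (p : Λ → Prop) (a : Λ) (q : Q') (ω : O)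
    (hω : o a = ω) (hp : ∀ b, o b = ω → p b) :
    ∃ (c : Q') (x : {b // p b} →₀ MonoidAlgebra LL (H ω)), (∀ b ∈ x.support, o b.1 = ω) ∧
      ℓ a * f q = f c + x.sum fun b r => f (gr LL (ρ ω) r) * ℓ b.1 := by
  classical
  obtain ⟨c, x, hx, hc⟩ := fr_at h a q ω hω
  refine ⟨c, x.subtypeDomain p, fun b hb => hx _ ?_, ?_⟩
  · rw [Finsupp.mem_support_iff] at hb ⊢
    exact hb
  · rw [hc]
    congr 1
    exact (Finsupp.sum_subtypeDomain_index
      (h := fun b r => f (gr LL (ρ ω) r) * ℓ b)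
      (fun b hb => hp b (hx b hb))).symm

/-- The letters in a union of orbits are closed. -/
private theorem fr_cl (h : FamRule LL f ρ ℓ o) (p : Λ → Prop)
    (hp : ∀ a b, p a → o b = o a → p b) :
    Cl (f : Q' →+* T) (fun x : {a // p a} => ℓ x.1) := by
  classical
  rintro ⟨a, ha⟩ q
  obtain ⟨c, x, -, hc⟩ := fr_sub_at h p a q (o a) rfl fun b hb => hp a b ha hb
  refine ⟨c, x.mapRange (gr LL (ρ (o a))) (map_zero _), ?_⟩
  rw [lin, Finsupp.sum_mapRange_index (fun b => by rw [map_zero, zero_mul])]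
  exact hc

/-- The rule in a subalgebra. -/
private theorem fr_sub {O' : Type} (h : FamRule LL f ρ ℓ o) (p : Λ → Prop)
    (T₀ : Subalgebra LL T) (f₀ : Q' →ₐ[LL] T₀) (a₀ : {a // p a} → T₀)
    (hf : ∀ q, (f₀ q : T) = f q) (ha : ∀ x, (a₀ x : T) = ℓ x.1) (o' : {a // p a} → O')
    (j : O' → O) (hj : Function.Injective j) (ho : ∀ x, o x.1 = j (o' x))
    (hp : ∀ a b, p a → o b = o a → p b) : FamRule LL f₀ (fun i => ρ (j i)) a₀ o' := by
  intro a q
  obtain ⟨c, x, hx, hc⟩ := fr_sub_at h p a.1 q (j (o' a)) (ho a)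
    fun b hb => hp a.1 b a.2 (hb.trans (ho a).symm)
  refine ⟨c, x, fun b hb => hj ?_, ?_⟩
  · rw [← ho b]
    exact hx b hb
  · apply Subtype.ext
    have e1 : ((a₀ a * f₀ q : T₀) : T) = ℓ a.1 * f q := by
      rw [← ha, ← hf]
      rfl
    rw [e1, hc]
    have e2 : ((f₀ c + x.sum fun b r => f₀ (gr LL (ρ (j (o' a))) r) * a₀ b :
        T₀) : T) = (f₀ c : T) + ((x.sum fun b r =>
          f₀ (gr LL (ρ (j (o' a))) r) * a₀ b : T₀) : T) := rfl
    rw [e2, hf]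
    congr 1
    have e3 : ∀ t : T₀, (t : T) = T₀.val t := fun t => rfl
    rw [e3, map_finsuppSum]
    refine Finsupp.sum_congr fun b _ => ?_
    rw [map_mul, ← e3, ← e3, hf, ha]

end FamSub

/-- The statement for the set of orbits `O`. -/
private def FR (O : Type) : Prop :=
  ∀ (H : O → Type) [∀ ω, Group (H ω)] (LL Q' T Λ : Type) [CommRing LL] [Ring Q'] [Algebra LL Q']
    [Ring T] [Algebra LL T] [Module.Free LL Q'] (f : Q' →ₐ[LL] T) (ρ : ∀ ω, H ω →* Q')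
    (ℓ : Λ → T) (o : Λ → O),
    (∀ ω, ∃ s : Q' →ₗ[LL] MonoidAlgebra LL (H ω), ∀ x, s (gr LL (ρ ω) x) = x) →
    FreeW (f : Q' →+* T) ℓ → FamRule LL f ρ ℓ o → (∀ i, SL LL (H i)) → KT (f : Q' →+* T)

private theorem fr_equiv {O O' : Type} (e : O ≃ O') (h : FR O) : FR O' := by
  intro H _ LL Q' T Λ _ _ _ _ _ _ f ρ ℓ o hret hfree hfam hS
  refine h (fun i => H (e i)) LL Q' T Λ f (fun i => ρ (e i)) ℓ (fun a => e.symm (o a))
    (fun i => hret (e i)) hfree ?_ fun i => hS (e i)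
  intro a q
  obtain ⟨c, x, hx, hc⟩ := fr_at hfam a q (e (e.symm (o a))) (e.apply_symm_apply _).symm
  refine ⟨c, x, fun b hb => ?_, hc⟩
  have h1 := hx b hb
  show e.symm (o b) = e.symm (o a)
  rw [h1, Equiv.symm_apply_apply]

private theorem fr_empty : FR PEmpty := by
  intro H _ LL Q' T Λ _ _ _ _ _ _ f ρ ℓ o _ hfree _ _
  have : IsEmpty Λ := ⟨fun a => (o a).elim⟩
  exact kt_of_surj _ (freeW_isEmpty (f : Q' →+* T) ℓ hfree)

private theorem fr_option (h1 : S_split) {O : Type} (h : FR O) : FR (Option O) := by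
  classical
  intro H _ LL Q' T Λ _ _ _ _ _ _ f ρ ℓ o hret hfree hfam hS
  have hp : ∀ a b, o a ≠ none → o b = o a → o b ≠ none := fun a b ha hb => hb ▸ ha
  have hcl := fr_cl hfam (fun a => o a ≠ none) hp
  have hfr := freeW_sumCompl hfree (fun a => o a ≠ none)
  obtain ⟨T₀, f₀, a₀, hf₀, ha₀, hfr₀, hkt⟩ := add_kt h1 f (ρ none) (fun x : {a // o a ≠ none} =>
      ℓ x.1) (fun y : {a // ¬ o a ≠ none} => ℓ y.1) hfr hcl
    (fun y q => by
      obtain ⟨c, x, -, hc⟩ := fr_sub_at hfam (fun a => ¬ o a ≠ none) y.1 q none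
        (not_not.1 y.2) fun b hb => not_not.2 hb
      exact ⟨c, x, hc⟩)
    (hret none) (hS none)
  choose o' ho' using fun x : {a // o a ≠ none} => Option.ne_none_iff_exists'.1 x.2
  have hfam₀ : FamRule LL f₀ (fun i => ρ (some i)) a₀ o' :=
    fr_sub hfam (fun a => o a ≠ none) T₀ f₀ a₀ hf₀ ha₀ o' some
      (Option.some_injective O) ho' hp
  have hk := h (fun i => H (some i)) LL Q' T₀ {a // o a ≠ none} f₀ (fun i => ρ (some i)) a₀ o'
    (fun i => hret (some i)) hfr₀ hfam₀ fun i => hS (some i)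
  have e : ((T₀.val : T₀ →ₐ[LL] T) : T₀ →+* T).comp (f₀ : Q' →+* T₀) = (f : Q' →+* T) :=
    RingHom.ext fun q => hf₀ q
  rw [← e]
  exact kt_comp _ _ hk hkt

private theorem famfin (h1 : S_split) (O : Type) [Finite O] : FR O :=
  Finite.induction_empty_option (P := FR) (fun e h => fr_equiv e h) fr_empty
    (fun {_} _ h => fr_option h1 h) O

section

variable {LL Q' T Λ O : Type} [CommRing LL] [Ring Q'] [Algebra LL Q'] [Ring T] [Algebra LL T]

/-- The orbits which occur in an element. -/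
private theorem fr_orb (f : Q' →ₐ[LL] T) (ℓ : Λ → T) (o : Λ → O)
    (hfree : FreeW (f : Q' →+* T) ℓ) (t : T) :
    ∃ s : Set O, s.Finite ∧ ∀ T₀ : Subalgebra LL T, (∀ q, f q ∈ T₀) →
      (∀ a, o a ∈ s → ℓ a ∈ T₀) → t ∈ T₀ := by
  classical
  obtain ⟨x, rfl⟩ := hfree.2 t
  refine ⟨⋃ u ∈ x.support, {ω | ∃ a ∈ u, o a = ω}, ?_, ?_⟩
  · refine Set.Finite.biUnion (Finset.finite_toSet _) fun u _ => ?_
    have : {ω | ∃ a ∈ u, o a = ω} = (fun a => o a) '' {a | a ∈ u} := by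
      ext ω
      simp
    rw [this]
    exact (List.finite_toSet u).image _
  · intro T₀ hf hl
    rw [ev]
    refine Subalgebra.sum_mem _ fun u hu => ?_
    refine T₀.mul_mem (hf _) ?_
    have hw : ∀ v : List Λ, (∀ a ∈ v, ℓ a ∈ T₀) → wd ℓ v ∈ T₀ := by
      intro v
      induction v with
      | nil => exact fun _ => T₀.one_mem
      | cons a v ih =>
        intro h
        exact T₀.mul_mem (ih fun b hb => h b (List.mem_cons_of_mem _ hb))
          (h a List.mem_cons_self)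
    refine hw u fun a ha => hl a ?_
    simp only [Set.mem_iUnion]
    exact ⟨u, hu, a, ha, rfl⟩

/-- The orbits which occur in a matrix. -/
private theorem fr_mat (f : Q' →ₐ[LL] T) (ℓ : Λ → T) (o : Λ → O)
    (hfree : FreeW (f : Q' →+* T) ℓ) {n : Type} [Fintype n] (A : Matrix n n T) :
    ∃ s : Set O, s.Finite ∧ ∀ T₀ : Subalgebra LL T, (∀ q, f q ∈ T₀) →
      (∀ a, o a ∈ s → ℓ a ∈ T₀) → ∀ i j, A i j ∈ T₀ := by
  choose s hs hs' using fun p : n × n => fr_orb f ℓ o hfree (A p.1 p.2)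
  refine ⟨⋃ p, s p, Set.finite_iUnion hs, fun T₀ hf hl i j => ?_⟩
  exact hs' (i, j) T₀ hf fun a ha => hl a (Set.mem_iUnion_of_mem (i, j) ha)

end

theorem famr (h1 : S_split) : S_famr := by
  classical
  intro O H _ LL Q' T Λ _ _ _ _ _ _ f ρ ℓ o hret hfree hfam hS
  intro K _ κ hκ n _ _ A hA
  obtain ⟨B, hAB, hBA⟩ : ∃ B, A * B = 1 ∧ B * A = 1 := by
    obtain ⟨u, hu⟩ := hA
    exact ⟨↑u⁻¹, by rw [← hu]; simp, by rw [← hu]; simp⟩
  obtain ⟨sA, fA, hsA⟩ := fr_mat f ℓ o hfree A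
  obtain ⟨sB, fB, hsB⟩ := fr_mat f ℓ o hfree B
  let p : Λ → Prop := fun a => o a ∈ sA ∪ sB
  have hp : ∀ a b, p a → o b = o a → p b := by
    intro a b ha hb
    show o b ∈ sA ∪ sB
    rw [hb]
    exact ha
  obtain ⟨T₀, f₀, a₀, hf₀, ha₀, -, hfr₀, -, -⟩ := h1 LL Q' T {a // p a} {a // ¬ p a} f
    (fun x => ℓ x.1) (fun y => ℓ y.1) (freeW_sumCompl hfree p) (fr_cl hfam p hp)
  have hfT : ∀ q, f q ∈ T₀ := fun q => by
    rw [← hf₀]
    exact (f₀ q).2
  have hlT : ∀ a, p a → ℓ a ∈ T₀ := fun a ha => by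
    have := ha₀ ⟨a, ha⟩
    rw [← this]
    exact (a₀ ⟨a, ha⟩).2
  have mA := hsA T₀ hfT fun a ha => hlT a (Or.inl ha)
  have mB := hsB T₀ hfT fun a ha => hlT a (Or.inr ha)
  let A₀ : Matrix n n T₀ := fun i j => ⟨A i j, mA i j⟩
  let B₀ : Matrix n n T₀ := fun i j => ⟨B i j, mB i j⟩
  let v : T₀ →+* T := ((T₀.val : T₀ →ₐ[LL] T) : T₀ →+* T)
  have eA : A₀.map v = A := rfl
  have eB : B₀.map v = B := rfl
  have inj : Function.Injective fun X : Matrix n n T₀ => X.map v := by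
    intro X Y hXY
    ext i j
    exact congrFun (congrFun hXY i) j
  have u1 : A₀ * B₀ = 1 := by
    apply inj
    show (A₀ * B₀).map v = (1 : Matrix n n T₀).map v
    rw [Matrix.map_mul, eA, eB, hAB, Matrix.map_one _ (map_zero _) (map_one _)]
  have u2 : B₀ * A₀ = 1 := by
    apply inj
    show (B₀ * A₀).map v = (1 : Matrix n n T₀).map v
    rw [Matrix.map_mul, eA, eB, hBA, Matrix.map_one _ (map_zero _) (map_one _)]
  have hA₀ : IsUnit A₀ := ⟨⟨A₀, B₀, u1, u2⟩, rfl⟩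
  have hfin : Finite {ω // ω ∈ sA ∪ sB} := (fA.union fB).to_subtype
  have hk : KT (f₀ : Q' →+* T₀) := by
    let o' : {a // p a} → {ω // ω ∈ sA ∪ sB} := fun x => ⟨o x.1, x.2⟩
    exact famfin h1 {ω // ω ∈ sA ∪ sB} (fun i => H i.1) LL Q' T₀ {a // p a} f₀
      (fun i => ρ i.1) a₀ o' (fun i => hret i.1) hfr₀ (fr_sub hfam p T₀ f₀ a₀ hf₀ ha₀ o'
      Subtype.val Subtype.val_injective (fun _ => rfl) hp) fun i => hS i.1
  have h := hk K (k1Pull v κ) (fun m _ _ M hM => ?_) n A₀ hA₀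
  · exact h
  · have h3 := hκ m M hM
    have e : v.comp (f₀ : Q' →+* T₀) = (f : Q' →+* T) := RingHom.ext fun q => hf₀ q
    rw [← e] at h3
    show κ.f ((M.map (f₀ : Q' →+* T₀)).map v) = 1
    rw [Matrix.map_map]
    exact h3

end Pool.Agent.HierR
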