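import Pool.Agent.Lib.MP_8f66f0_al_HierR.Defs
import Pool.Agent.Lib.MP_8f66f0_al_Hier.SpecC

/-! Block T: the rings `T(M)` for bimodules `M`. Statements with proofs.

Compare HierZ/SpecZT and the files HierZ/{Twp, Scp, Tpls, Tp, Ktp, Exbas}.lean (group case: replace
`tl ρ w x p = ∑ x_j(e) ρ(e) w_j(e⁻¹ p)` by `tr w x m = ∑ x_j(e) w_j(m e)`, and (additive in `p`) by
(left `ℤ[S]`-linear in `m`)). General facts: `tr w x m` is additive in `m` and in `x`,
`tr w (t • x) m = t • tr w x m`; `tr w (single j (single e t)) m = t • w j (op e • m)`; if `w` is left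
linear then `tr w x (single e 1 • m) = f (ρ e) * tr w x m` (`smul_comm`); and
`tr w (r • y) m = ∑_e r(e) • tr w y (op e • m)` (because `op (e * e') • m = op e' • op e • m`). For all
these use linear extension from `Finsupp.single j (MonoidAlgebra.single e t)`: `lin_ext`, `tlL`, in
HierZ/TyA.lean (copy: `trL w m : (I →₀ MonoidAlgebra LL S) →ₗ[LL] T`). -/

set_option autoImplicit false

namespace Pool.Agent.HierR

open Pool.Agent.Wald Pool.Agent.Ind Pool.Agent.Hier

section SpecT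

/-- The coefficients of `tr` in a basis: `m e = ∑ a_b • bM_b`, `a_b ∈ ℤ[S]`. -/
noncomputable def trP {LL S Q' M B I : Type} [CommRing LL] [Monoid S] [Ring Q'] [Algebra LL Q']
    [AddCommGroup M] [Module (MonoidAlgebra ℤ S) M] [DistribMulAction Sᵐᵒᵖ M] (ρ : S →* Q')
    (bM : Module.Basis B (MonoidAlgebra ℤ S) M) (m : M) (x : I →₀ MonoidAlgebra LL S) :
    (B × I) →₀ Q' :=
  x.sum fun j r => r.coeff.sum fun e t => (bM.repr (MulOpposite.op e • m)).sum fun b a =>
    Finsupp.single (b, j) (t • gz ρ a)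

/-- T0. `trP` are the coefficients of `tr`.

Proof. By additivity it is enough to take `x = single j (single e t)`. `w_j` is left linear:
`w_j (a • m) = f (gz ρ a) * w_j m` for all `a ∈ ℤ[S]` (from `single e 1` by linearity), so
`w_j (op e • m) = ∑_b f (gz ρ a_b) * w_j (bM b)` by `bM.linearCombination_repr`. -/
def S_trp : Prop :=
  ∀ (LL S Q' T I M B : Type) [CommRing LL] [Monoid S] [Ring Q'] [Algebra LL Q'] [Ring T]
    [Algebra LL T] [AddCommGroup M] [Module (MonoidAlgebra ℤ S) M] [DistribMulAction Sᵐᵒᵖ M]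
    (ρ : S →* Q') (bM : Module.Basis B (MonoidAlgebra ℤ S) M) (f : Q' →ₐ[LL] T)
    (w : I → M →+ T) (m : M) (x : I →₀ MonoidAlgebra LL S),
    (∀ (i : I) (e : S) (m : M), w i (MonoidAlgebra.single e (1 : ℤ) • m) = f (ρ e) * w i m) →
    lin (f : Q' →+* T) (fun a : B × I => w a.2 (bM a.1)) (trP ρ bM m x) = tr w x m

/-- T1. The constants exist.

Proof. `f` is injective (`f q = ev f ℓ (single [] q)`), so `c` in `IsLM.right` is unique; put
`c_i(m)(q)` := this `c`. Additive in `m`, `LL`-linear in `q` by uniqueness (`tr` is additive in `m`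
and linear in `x`, `X.x i` is linear). `lin`: multiply `right` from the left by `f (ρ e)`, and
`tr w x (single e 1 • m) = f (ρ e) * tr w x m`. `one`: `tr w (X.x i 1) m = w i m` (`X.one`,
`op 1 • m = m`). `mul`: multiply `right` for `q` by `f q'` and use `right` for the
`w_j (op e • m)`, `X.mul` and `tr w (r • y) m = ∑ r(e) • tr w y (op e • m)`. -/
def S_cm : Prop :=
  ∀ (LL S Q' Q I M B : Type) [CommRing LL] [Monoid S] [Ring Q'] [Ring Q] [Algebra LL Q']
    [Algebra LL Q] [AddCommGroup M] [Module (MonoidAlgebra ℤ S) M] [DistribMulAction Sᵐᵒᵖ M]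
    [SMulCommClass (MonoidAlgebra ℤ S) Sᵐᵒᵖ M] (X : MX LL Q' (MonoidAlgebra LL S) I)
    (bM : Module.Basis B (MonoidAlgebra ℤ S) M) (f : Q' →ₐ[LL] Q) (ρ : S →* Q')
    (w : I → M →+ Q), IsLM LL X bM f ρ w →
    ∃ D : CM LL X ρ M, ∀ i m q, w i m * f q = f (D.c i m q) + tr w (X.x i q) m

/-- T2. The letter system of `T(M)`.

Proof. `c_one`, `m_one`: `D.one`, `X.one`, `op 1 • m = m`, `bM.repr (bM b) = single b 1`. `trP ρ bM m x`
is additive in `m` and `x`, `LL`-linear in `x`, and `trP ρ bM (a • m) x = gz ρ a • trP ρ bM m x`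
(`smul_comm`, `map_smul`; `t • (y * z) = y * (t • z)`). `c_mul`: `D.mul`, and `op e • r (bM b) =
r (op e • bM b) = ∑_b' a_b' • r (bM b')` (`IsBi r` gives `r (a • m) = a • r m`), so
`D.c j (op e • r (bM b)) q' = ∑_b' gz ρ a_b' * D.c j (r (bM b')) q'` by `D.lin`. `m_mul`: `X.mul` and
`trP ρ bM m (r • y) = ∑_e r(e) • trP ρ bM (op e • m) y = ∑ (trP ρ bM m (single j r)) (b', j) • trP ρ bM (bM b') y`. -/
def S_tmls : Prop :=
  ∀ (LL S Q' I M M'' B : Type) [CommRing LL] [Monoid S] [Ring Q'] [Algebra LL Q']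
    [AddCommGroup M] [Module (MonoidAlgebra ℤ S) M] [DistribMulAction Sᵐᵒᵖ M]
    [SMulCommClass (MonoidAlgebra ℤ S) Sᵐᵒᵖ M] [AddCommGroup M'']
    [Module (MonoidAlgebra ℤ S) M''] [DistribMulAction Sᵐᵒᵖ M'']
    [SMulCommClass (MonoidAlgebra ℤ S) Sᵐᵒᵖ M''] (X : MX LL Q' (MonoidAlgebra LL S) I)
    (ρ : S →* Q') (D : CM LL X ρ M'') (r : M →+ M'')
    (bM : Module.Basis B (MonoidAlgebra ℤ S) M), IsBi (S := S) r →
    ∃ L : LS LL Q' (B × I), (∀ b i q, L.c (b, i) q = D.c i (r (bM b)) q) ∧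
      ∀ b i q, L.m (b, i) q = trP ρ bM (bM b) (X.x i q)

/-- T3. Existence and universal property of `T(M)`.

Proof. `S_con` and `S_lift` for the letter system of T2 (statements in Hier/SpecC). `w_i` := the
additive map `m ↦ ∑ f (gz ρ (bM.repr m b)) * ℓ (b, i)` (a `ℤ[S]`-linear map if `T` is regarded as a
`ℤ[S]`-module through `f ∘ gz ρ`). `rel` for `m = bM b` is the relation of the letter system with
S_trp; both sides are left `ℤ[S]`-linear in `m` (`D.lin`, `IsBi r`, `smul_comm`), so it holds for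
all `m`. Universal property: the `z_i(bM_b)` satisfy the relations; `φ (w i m) = z i m` since both
sides are left linear and agree on the basis. -/
def S_tm : Prop :=
  ∀ (LL S Q' I M M'' B : Type) [CommRing LL] [Monoid S] [Ring Q'] [Algebra LL Q']
    [AddCommGroup M] [Module (MonoidAlgebra ℤ S) M] [DistribMulAction Sᵐᵒᵖ M]
    [SMulCommClass (MonoidAlgebra ℤ S) Sᵐᵒᵖ M] [AddCommGroup M'']
    [Module (MonoidAlgebra ℤ S) M''] [DistribMulAction Sᵐᵒᵖ M'']
    [SMulCommClass (MonoidAlgebra ℤ S) Sᵐᵒᵖ M''] (X : MX LL Q' (MonoidAlgebra LL S) I)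
    (ρ : S →* Q') (D : CM LL X ρ M'') (r : M →+ M'')
    (bM : Module.Basis B (MonoidAlgebra ℤ S) M), IsBi (S := S) r →
    (∃ (T : Type) (_ : Ring T) (_ : Algebra LL T) (f : Q' →ₐ[LL] T) (w : I → M →+ T),
      IsTM D r bM f w) ∧
    ∀ (T Z : Type) [Ring T] [Algebra LL T] [Ring Z] [Algebra LL Z] (f : Q' →ₐ[LL] T)
      (w : I → M →+ T) (g : Q' →ₐ[LL] Z) (z : I → M →+ Z), IsTM D r bM f w →
      (∀ (i : I) (e : S) (m : M), z i (MonoidAlgebra.single e (1 : ℤ) • m) = g (ρ e) * z i m) →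
      (∀ i m q, z i m * g q = g (D.c i (r m) q) + tr z (X.x i q) m) →
      ∃ φ : T →ₐ[LL] Z, (∀ q, φ (f q) = g q) ∧ ∀ i m, φ (w i m) = z i m

/-- T4. The letters of `T(M)` are closed, and `SLM LL S M` gives `KT (Q' → T(M))`.

Proof. `Cl`: `rel` and S_trp. `IsLM`: `c = D.c i (r m) q`. -/
def S_ktm : Prop :=
  ∀ (LL S Q' I M M'' B T : Type) [CommRing LL] [Monoid S] [Ring Q'] [Algebra LL Q']
    [AddCommGroup M] [Module (MonoidAlgebra ℤ S) M] [DistribMulAction Sᵐᵒᵖ M] [AddCommGroup M'']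
    [Module (MonoidAlgebra ℤ S) M''] [DistribMulAction Sᵐᵒᵖ M'']
    (X : MX LL Q' (MonoidAlgebra LL S) I)
    (ρ : S →* Q') (D : CM LL X ρ M'') (r : M →+ M'')
    (bM : Module.Basis B (MonoidAlgebra ℤ S) M) [Ring T] [Algebra LL T] (f : Q' →ₐ[LL] T)
    (w : I → M →+ T), IsTM D r bM f w →
    Cl (f : Q' →+* T) (fun a : B × I => w a.2 (bM a.1)) ∧
    ((∃ s : Q' →ₗ[LL] MonoidAlgebra LL S, ∀ x, s (gr LL ρ x) = x) → Module.Free LL Q' →
      SLM LL S M → KT (f : Q' →+* T))

/-- T5. The basis of an extension of left modules over any ring.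

Proof. HierZ/Exbas.lean with `ℤ` replaced by `R`. -/
def S_exb : Prop :=
  ∀ (R M' F M B' B : Type) [Ring R] [AddCommGroup M'] [Module R M'] [AddCommGroup F] [Module R F]
    [AddCommGroup M] [Module R M] (i : M' →ₗ[R] F) (r : F →ₗ[R] M) (bM' : Module.Basis B' R M')
    (bM : Module.Basis B R M), Function.Injective i → Function.Exact i r →
    Function.Surjective r →
    ∃ bF : Module.Basis (B ⊕ B') R F, (∀ b, r (bF (Sum.inl b)) = bM b) ∧
      ∀ b, bF (Sum.inr b) = i (bM' b)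

/-- T6. Retracts.

Proof. Data of type `M` over `Q'`; `D` by S_cm; `T` = the ring `T(N)` for `D` and `p : N → M`
(S_tm with `r = p`, basis `bN`), `KT (Q' → T)` by S_ktm and `SLM LL S N`. The ring homomorphism
`π : T → Q`, `w^T_i(n) ↦ w_i(p n)` (universal property). The ring homomorphism `σ : Q → T` with
`σ (w_i m) = w^T_i(i m)`: `Q` itself is `T(M)` for `D` and `r = id` (`IsTM D (AddMonoidHom.id M) bM
g w`), so the universal property applies (`p (i m) = m`). `π ∘ σ = id` since both are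
homomorphisms which agree on `Q'` and on the letters (the letters generate: `FreeW` surjective).
For `κ` which kills `GL(Q')`: `κ ∘ π` kills `GL(T)`, so `κ A = κ (π (σ A)) = 1`. -/
def S_retr : Prop :=
  ∀ (LL S M N BN : Type) [CommRing LL] [Monoid S] [AddCommGroup M]
    [Module (MonoidAlgebra ℤ S) M] [DistribMulAction Sᵐᵒᵖ M]
    [SMulCommClass (MonoidAlgebra ℤ S) Sᵐᵒᵖ M] [AddCommGroup N] [Module (MonoidAlgebra ℤ S) N]
    [DistribMulAction Sᵐᵒᵖ N] [SMulCommClass (MonoidAlgebra ℤ S) Sᵐᵒᵖ N] (i : M →+ N)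
    (p : N →+ M) (_ : Module.Basis BN (MonoidAlgebra ℤ S) N), IsBi (S := S) i →
    IsBi (S := S) p → (∀ m, p (i m) = m) → SLM LL S N → SLM LL S M

end SpecT

end Pool.Agent.HierR
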