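import Pool.Agent.Lib.MP_8f66f0_al_HierR.SpecR
import Pool.Agent.Lib.MP_8f66f0_al_HierR.SpecT

/-! F3: induced bimodules. -/

set_option autoImplicit false

namespace Pool.Agent.HierR

open Pool.Agent.Wald Pool.Agent.Ind Pool.Agent.Hier

section Gz

private theorem id_gz_single {S Q : Type} [Monoid S] [Ring Q] (ρ : S →* Q) (e : S) (n : ℤ) :
    gz ρ (MonoidAlgebra.single e n) = n • ρ e := by
  change MonoidAlgebra.lift ℤ Q S ρ (MonoidAlgebra.single e n) = _
  rw [MonoidAlgebra.lift_single]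

private theorem id_single {S : Type} (e : S) (n : ℤ) :
    (MonoidAlgebra.single e n : MonoidAlgebra ℤ S) = n • MonoidAlgebra.single e (1 : ℤ) := by
  rw [MonoidAlgebra.smul_single, smul_eq_mul, mul_one]

/-- Additive maps on `ℤ[S]` which agree on the elements of `S`. -/
private theorem id_ext {S N : Type} [AddCommGroup N] (F G : MonoidAlgebra ℤ S →+ N)
    (h : ∀ e, F (MonoidAlgebra.single e (1 : ℤ)) = G (MonoidAlgebra.single e (1 : ℤ)))
    (x : MonoidAlgebra ℤ S) : F x = G x := by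
  induction x using MonoidAlgebra.induction_linear with
  | zero => rw [map_zero, map_zero]
  | add x y hx hy => rw [map_add, map_add, hx, hy]
  | single e n => rw [id_single, map_zsmul, map_zsmul, h]

/-- The push forward `ℤ[H] → LL[H]`. -/
private noncomputable abbrev pu (LL : Type) [CommRing LL] (H : Type) [Monoid H] :
    MonoidAlgebra ℤ H →+* MonoidAlgebra LL H :=
  gz (MonoidAlgebra.of LL H)

private theorem pu_single (LL : Type) [CommRing LL] (H : Type) [Monoid H] (e : H) :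
    pu LL H (MonoidAlgebra.single e (1 : ℤ)) = MonoidAlgebra.single e (1 : LL) := by
  rw [pu, id_gz_single, one_smul]
  rfl

private theorem gr_single {LL Q H : Type} [CommRing LL] [Monoid H] [Ring Q] [Algebra LL Q]
    (σ : H →* Q) (e : H) (t : LL) : gr LL σ (MonoidAlgebra.single e t) = t • σ e :=
  MonoidAlgebra.lift_single _ _ _

private theorem gr_pu {LL Q H : Type} [CommRing LL] [Monoid H] [Ring Q] [Algebra LL Q]
    (σ : H →* Q) (x : MonoidAlgebra ℤ H) : gr LL σ (pu LL H x) = gz σ x := by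
  refine id_ext (((gr LL σ : MonoidAlgebra LL H →+* Q) : MonoidAlgebra LL H →+ Q).comp
    (pu LL H : MonoidAlgebra ℤ H →+ MonoidAlgebra LL H)) (gz σ : MonoidAlgebra ℤ H →+ Q)
    (fun e => ?_) x
  change gr LL σ (pu LL H (MonoidAlgebra.single e (1 : ℤ))) =
    gz σ (MonoidAlgebra.single e (1 : ℤ))
  rw [pu_single, gr_single, id_gz_single, one_smul, one_smul]

/-- The composed homomorphism `H → ℤ[S] → Q'`. -/
private noncomputable def rr {S Q' H : Type} [Monoid S] [Ring Q'] [Monoid H] (ρ : S →* Q')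
    (η : H →* MonoidAlgebra ℤ S) : H →* Q' :=
  ((gz ρ : MonoidAlgebra ℤ S →+* Q') : MonoidAlgebra ℤ S →* Q').comp η

private theorem gz_rr {S Q' H : Type} [Monoid S] [Ring Q'] [Monoid H] (ρ : S →* Q')
    (η : H →* MonoidAlgebra ℤ S) (x : MonoidAlgebra ℤ H) : gz (rr ρ η) x = gz ρ (gz η x) := by
  refine id_ext (gz (rr ρ η) : MonoidAlgebra ℤ H →+ Q')
    ((gz ρ : MonoidAlgebra ℤ S →+ Q').comp (gz η : MonoidAlgebra ℤ H →+ MonoidAlgebra ℤ S))
    (fun e => ?_) x
  change gz (rr ρ η) (MonoidAlgebra.single e (1 : ℤ)) =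
    gz ρ (gz η (MonoidAlgebra.single e (1 : ℤ)))
  rw [id_gz_single, id_gz_single, one_smul, one_smul]
  rfl

/-- A left linear map on all of `ℤ[S]`. -/
private theorem id_left {LL S Q' T M : Type} [CommRing LL] [Monoid S] [Ring Q'] [Algebra LL Q']
    [Ring T] [Algebra LL T] [AddCommGroup M] [Module (MonoidAlgebra ℤ S) M] (ρ : S →* Q')
    (f : Q' →ₐ[LL] T) (w : M →+ T)
    (h : ∀ (e : S) (m : M), w (MonoidAlgebra.single e (1 : ℤ) • m) = f (ρ e) * w m)
    (a : MonoidAlgebra ℤ S) (m : M) : w (a • m) = f (gz ρ a) * w m := by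
  induction a using MonoidAlgebra.induction_linear with
  | zero => rw [zero_smul, map_zero, map_zero, map_zero, zero_mul]
  | add a b ha hb => rw [add_smul, map_add, ha, hb, map_add, map_add, add_mul]
  | single e t =>
    rw [id_single, smul_assoc, map_zsmul, h, map_zsmul, map_zsmul, id_gz_single, one_smul,
      smul_mul_assoc]

end Gz

section Ret

/-- The linear extension of an additive map `ℤ[S] → ℤ[H]`. -/
private theorem ret_ext (LL : Type) [CommRing LL] {S H : Type} [Monoid S] [Monoid H]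
    (s : MonoidAlgebra ℤ S →+ MonoidAlgebra ℤ H) :
    ∃ s' : MonoidAlgebra LL S →ₗ[LL] MonoidAlgebra LL H,
      ∀ x, s' (pu LL S x) = pu LL H (s x) := by
  let s' : MonoidAlgebra LL S →ₗ[LL] MonoidAlgebra LL H :=
    (Finsupp.lsum LL fun e => LinearMap.toSpanSingleton LL (MonoidAlgebra LL H)
      (pu LL H (s (MonoidAlgebra.single e (1 : ℤ))))) ∘ₗ
      (MonoidAlgebra.coeffLinearEquiv (S := LL) (M := S) LL).toLinearMap
  have hs : ∀ e : S, s' (MonoidAlgebra.single e (1 : LL)) =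
      pu LL H (s (MonoidAlgebra.single e (1 : ℤ))) := by
    intro e
    change (Finsupp.lsum LL fun e => LinearMap.toSpanSingleton LL (MonoidAlgebra LL H)
      (pu LL H (s (MonoidAlgebra.single e (1 : ℤ))))) (Finsupp.single e (1 : LL)) = _
    rw [Finsupp.lsum_single, LinearMap.toSpanSingleton_apply, one_smul]
  refine ⟨s', fun x => ?_⟩
  refine id_ext ((s' : MonoidAlgebra LL S →+ MonoidAlgebra LL H).comp
    (pu LL S : MonoidAlgebra ℤ S →+ MonoidAlgebra LL S))
    ((pu LL H : MonoidAlgebra ℤ H →+ MonoidAlgebra LL H).comp s) (fun e => ?_) x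
  change s' (pu LL S (MonoidAlgebra.single e (1 : ℤ))) =
    pu LL H (s (MonoidAlgebra.single e (1 : ℤ)))
  rw [pu_single, hs]

private theorem ret_all {LL S Q' H : Type} [CommRing LL] [Monoid S] [Ring Q'] [Algebra LL Q']
    [Monoid H] (ρ : S →* Q') (η : H →* MonoidAlgebra ℤ S)
    (h1 : ∃ s : Q' →ₗ[LL] MonoidAlgebra LL S, ∀ x, s (gr LL ρ x) = x)
    (h2 : ∃ s : MonoidAlgebra ℤ S →+ MonoidAlgebra ℤ H, ∀ x, s (gz η x) = x) :
    ∃ s : Q' →ₗ[LL] MonoidAlgebra LL H, ∀ x, s (gr LL (rr ρ η) x) = x := by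
  obtain ⟨s₁, hs₁⟩ := h1
  obtain ⟨s₂, hs₂⟩ := h2
  obtain ⟨s₃, hs₃⟩ := ret_ext LL s₂
  refine ⟨s₃ ∘ₗ s₁, fun x => ?_⟩
  induction x using MonoidAlgebra.induction_linear with
  | zero => rw [map_zero, map_zero]
  | add x y hx hy => rw [map_add, map_add, hx, hy]
  | single h t =>
    have e1 : (MonoidAlgebra.single h t : MonoidAlgebra LL H) =
        t • pu LL H (MonoidAlgebra.single h (1 : ℤ)) := by
      rw [pu_single, MonoidAlgebra.smul_single, smul_eq_mul, mul_one]
    rw [e1, map_smul, map_smul, gr_pu, gz_rr, ← gr_pu (LL := LL)]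
    congr 1
    change s₃ (s₁ (gr LL ρ (pu LL S _))) = _
    rw [hs₁, hs₃, hs₂]

end Ret

/-- F3. Induced bimodules. -/
theorem ind (h1 : S_basm) (h2 : S_trp) (h3 : S_famr) : S_ind := by
  classical
  intro LL S M B O H _ _ _ _ _ _ _ bM o η hI hSL Q' Q I B' _ _ _ _ _ X bM' f ρ w hL
  have hCl : Cl (f : Q' →+* Q) (fun a : B' × I => w a.2 (bM' a.1)) := by
    rintro ⟨k, i⟩ q
    obtain ⟨c, hc⟩ := hL.right i q (bM' k)
    refine ⟨c, trP ρ bM' (bM' k) (X.x i q), ?_⟩
    rw [h2 LL S Q' Q I M B' ρ bM' f w (bM' k) (X.x i q) hL.lin]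
    exact hc
  have hF := (h1 S Q' Q I M B' B (f : Q' →+* Q) ρ w bM' bM hL.lin hL.free hCl).1
  refine h3 O H LL Q' Q (B × I) f (fun ω => rr ρ (η ω)) (fun a : B × I => w a.2 (bM a.1))
    (fun a => o a.1) (fun ω => ret_all ρ (η ω) hL.ret (hI.ret ω)) hF ?_ hSL
  rintro ⟨b, i⟩ q
  obtain ⟨c, hc⟩ := hL.right i q (bM b)
  choose y hy1 hy2 using hI.rule b
  let F : ((B × I) →₀ MonoidAlgebra LL (H (o b))) →+ Q :=
    Finsupp.liftAddHom fun j =>
      (AddMonoidHom.mulRight (w j.2 (bM j.1))).comp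
        ((f : Q' →+* Q).toAddMonoidHom.comp
          (gr LL (rr ρ (η (o b))) : MonoidAlgebra LL (H (o b)) →+* Q').toAddMonoidHom)
  have hFs : ∀ z : (B × I) →₀ MonoidAlgebra LL (H (o b)),
      (z.sum fun j r => f (gr LL (rr ρ (η (o b))) r) * w j.2 (bM j.1)) = F z := fun z => rfl
  have hF1 : ∀ (b' : B) (j : I) (r : MonoidAlgebra LL (H (o b))),
      F (Finsupp.single (b', j) r) = f (gr LL (rr ρ (η (o b))) r) * w j (bM b') := by
    intro b' j r
    rw [← hFs, Finsupp.sum_single_index]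
    rw [map_zero, map_zero, zero_mul]
  refine ⟨c, (X.x i q).sum fun j r => r.coeff.sum fun e t => (y e).sum fun b' s =>
    Finsupp.single (b', j) (t • pu LL (H (o b)) s), ?_, ?_⟩
  · rintro ⟨b', j'⟩ hx'
    by_contra hne
    apply (Finsupp.mem_support_iff.1 hx')
    rw [Finsupp.sum, Finsupp.finsetSum_apply]
    refine Finset.sum_eq_zero fun j _ => ?_
    rw [Finsupp.sum, Finsupp.finsetSum_apply]
    refine Finset.sum_eq_zero fun e _ => ?_
    rw [Finsupp.sum, Finsupp.finsetSum_apply]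
    refine Finset.sum_eq_zero fun b'' hb'' => ?_
    refine Finsupp.single_eq_of_ne ?_
    intro h3
    apply hne
    have h4 : b' = b'' := congrArg Prod.fst h3
    show o b' = o b
    rw [h4]
    exact hy1 e b'' hb''
  · show w i (bM b) * f q = f c + _
    rw [hc]
    congr 1
    rw [hFs, tr, map_finsuppSum]
    refine Finsupp.sum_congr fun j _ => ?_
    rw [map_finsuppSum]
    refine Finsupp.sum_congr fun e _ => ?_
    rw [map_finsuppSum, hy2 e, map_finsuppSum, Finsupp.smul_sum]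
    refine Finsupp.sum_congr fun b' _ => ?_
    rw [hF1, id_left ρ f (w j) (hL.lin j), map_smul, map_smul, gr_pu, gz_rr, smul_mul_assoc]

end Pool.Agent.HierR
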