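import Pool.Agent.Lib.MP_8f66f0_al_HierR.SpecR
import Pool.Agent.Lib.MP_8f66f0_al_HierR.SpecT

/-! Modules Indp: products with stabilizing bimodules, retracts of induced bimodules. -/

set_option autoImplicit false

namespace Pool.Agent.HierR

open Pool.Agent.Wald Pool.Agent.Ind Pool.Agent.Hier

private instance ipGrp {O : Type} (H : O → Type) [∀ ω, Group (H ω)] :
    ∀ x : O ⊕ Unit, Group (Sum.elim H (fun _ => PUnit) x)
  | Sum.inl ω => inferInstanceAs (Group (H ω))
  | Sum.inr _ => inferInstanceAs (Group PUnit)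

private noncomputable def ipEta {S O : Type} [Monoid S] (H : O → Type) [∀ ω, Group (H ω)]
    (η : ∀ ω, H ω →* MonoidAlgebra ℤ S) :
    ∀ x : O ⊕ Unit, Sum.elim H (fun _ => PUnit) x →* MonoidAlgebra ℤ S
  | Sum.inl ω => η ω
  | Sum.inr _ => (1 : PUnit →* MonoidAlgebra ℤ S)

private theorem ip_inl {S R N G B B' : Type} [Monoid S] [Ring R] [AddCommGroup N]
    [Module (MonoidAlgebra ℤ S) N] [AddCommGroup G] [Module (MonoidAlgebra ℤ S) G]
    (bN : Module.Basis B (MonoidAlgebra ℤ S) N) (bG : Module.Basis B' (MonoidAlgebra ℤ S) G)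
    (g : R →+* MonoidAlgebra ℤ S) (y : B →₀ R) :
    ((y.mapDomain (Sum.inl : B → B ⊕ B')).sum fun b' r => g r • (bN.prod bG) b') =
      (y.sum fun b' r => g r • bN b', 0) := by
  rw [Finsupp.sum_mapDomain_index_inj Sum.inl_injective]
  ext
  · simp [Finsupp.sum, Prod.fst_sum, Module.Basis.prod_apply]
  · simp [Finsupp.sum, Prod.snd_sum, Module.Basis.prod_apply]

private theorem ip_inr {S N G B B' : Type} [Monoid S] [AddCommGroup N]
    [Module (MonoidAlgebra ℤ S) N] [AddCommGroup G] [Module (MonoidAlgebra ℤ S) G]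
    (bN : Module.Basis B (MonoidAlgebra ℤ S) N) (bG : Module.Basis B' (MonoidAlgebra ℤ S) G)
    (y : B' →₀ ℤ) :
    (((y.mapRange (fun n => (MonoidAlgebra.single (1 : PUnit) n : MonoidAlgebra ℤ PUnit))
        (MonoidAlgebra.single_zero _)).mapDomain (Sum.inr : B' → B ⊕ B')).sum
        fun b' r => gz (1 : PUnit →* MonoidAlgebra ℤ S) r • (bN.prod bG) b') =
      (0, y.sum fun b' n => n • bG b') := by
  rw [Finsupp.sum_mapDomain_index_inj Sum.inr_injective, Finsupp.sum_mapRange_index]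
  · have h : ∀ n : ℤ, gz (1 : PUnit →* MonoidAlgebra ℤ S)
        (MonoidAlgebra.single (1 : PUnit) n) = n • (1 : MonoidAlgebra ℤ S) := by
      intro n
      show MonoidAlgebra.lift ℤ (MonoidAlgebra ℤ S) PUnit 1 (MonoidAlgebra.single (1 : PUnit) n) = _
      rw [MonoidAlgebra.lift_single]
      rfl
    ext
    · simp [Finsupp.sum, Prod.fst_sum, Module.Basis.prod_apply]
    · simp [Finsupp.sum, Prod.snd_sum, Module.Basis.prod_apply, h, Int.cast_smul_eq_zsmul]
  · intro b
    rw [map_zero, zero_smul]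

theorem indp : S_indp := by
  intro S _ 𝒞 h𝒞 M G _ _ _ _ _ _ _ _ hM hG
  classical
  obtain ⟨N, _, _, _, _, B, O, H, _, bN, o, η, i, p, hind, hH, hi, hp, hpi⟩ := hM
  obtain ⟨B', bG, hG⟩ := hG
  refine ⟨N × G, inferInstance, inferInstance, inferInstance, inferInstance, B ⊕ B', O ⊕ Unit,
    Sum.elim H (fun _ => PUnit), ipGrp H, bN.prod bG, Sum.map o (fun _ => ()), ipEta H η,
    AddMonoidHom.prodMap i (AddMonoidHom.id G), AddMonoidHom.prodMap p (AddMonoidHom.id G),
    ⟨?_, ?_⟩, ?_, ⟨?_, ?_⟩, ⟨?_, ?_⟩, ?_⟩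
  · rintro (b | b) e
    · obtain ⟨y, hy1, hy2⟩ := hind.rule b e
      refine ⟨(y.mapDomain Sum.inl : (B ⊕ B') →₀ MonoidAlgebra ℤ (H (o b))), ?_, ?_⟩
      · intro b' hb'
        obtain ⟨b'', hb'', rfl⟩ := Finset.mem_image.1 (Finsupp.mapDomain_support hb')
        exact congrArg Sum.inl (hy1 b'' hb'')
      · refine Eq.trans ?_ (ip_inl bN bG (gz (η (o b))) y).symm
        rw [← hy2]
        ext
        · simp [Module.Basis.prod_apply]
        · simp [Module.Basis.prod_apply]
    · obtain ⟨y, hy⟩ := hG b e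
      refine ⟨((y.mapRange (fun n => (MonoidAlgebra.single (1 : PUnit) n : MonoidAlgebra ℤ PUnit))
        (MonoidAlgebra.single_zero _)).mapDomain Sum.inr : (B ⊕ B') →₀ MonoidAlgebra ℤ PUnit),
        ?_, ?_⟩
      · intro b' hb'
        obtain ⟨b'', hb'', rfl⟩ := Finset.mem_image.1 (Finsupp.mapDomain_support hb')
        rfl
      · refine Eq.trans ?_ (ip_inr bN bG y).symm
        rw [← hy]
        ext
        · simp [Module.Basis.prod_apply]
        · simp [Module.Basis.prod_apply]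
  · rintro (ω | u)
    · exact hind.ret ω
    · let s : MonoidAlgebra ℤ S →+ MonoidAlgebra ℤ PUnit :=
        (MonoidAlgebra.singleAddHom (1 : PUnit)).comp
          ((Finsupp.applyAddHom (1 : S)).comp MonoidAlgebra.coeffAddEquiv.toAddMonoidHom)
      have hs : ∀ x : MonoidAlgebra ℤ PUnit, s (gz (1 : PUnit →* MonoidAlgebra ℤ S) x) = x := by
        intro x
        have h2 : s.comp (gz (1 : PUnit →* MonoidAlgebra ℤ S) :
            MonoidAlgebra ℤ PUnit →+* MonoidAlgebra ℤ S).toAddMonoidHom =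
            AddMonoidHom.id (MonoidAlgebra ℤ PUnit) := by
          refine MonoidAlgebra.addMonoidHom_ext fun h n => ?_
          show s (MonoidAlgebra.lift ℤ (MonoidAlgebra ℤ S) PUnit 1 (MonoidAlgebra.single h n)) = _
          rw [MonoidAlgebra.lift_single]
          show MonoidAlgebra.single (1 : PUnit) ((n • (1 : MonoidAlgebra ℤ S)).coeff 1) =
            MonoidAlgebra.single h n
          simp [MonoidAlgebra.one_def]
        exact DFunLike.congr_fun h2 x
      exact ⟨s, hs⟩
  · rintro (ω | u)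
    · exact hH ω
    · exact h𝒞
  · rintro e ⟨m, g⟩
    ext
    · exact hi.1 e m
    · rfl
  · rintro e ⟨m, g⟩
    ext
    · exact hi.2 e m
    · rfl
  · rintro e ⟨m, g⟩
    ext
    · exact hp.1 e m
    · rfl
  · rintro e ⟨m, g⟩
    ext
    · exact hp.2 e m
    · rfl
  · rintro ⟨m, g⟩
    ext
    · exact hpi m
    · rfl

theorem isret (h1 : S_ind) (h2 : S_retr) : S_isret := by
  intro LL S M _ _ _ _ _ _ hM
  obtain ⟨N, _, _, _, _, B, O, H, _, bN, o, η, i, p, hind, hH, hi, hp, hpi⟩ := hM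
  exact h2 LL S M N B i p bN hi hp hpi (h1 LL S N B O H bN o η hind hH)

end Pool.Agent.HierR
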