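import Pool.Agent.Lib.MP_8f66f0_al_HierR.SpecT

/-! The letters of `T(M)` are closed, and `K_1`; the basis of an extension. -/

set_option autoImplicit false

namespace Pool.Agent.HierR

open Pool.Agent.Wald Pool.Agent.Ind Pool.Agent.Hier

theorem ktm (h : S_trp) : S_ktm := by
  intro LL S Q' I M M'' B T _ _ _ _ _ _ _ _ _ _ X ρ D r bM _ _ f w hT
  refine ⟨?_, ?_⟩
  · rintro ⟨b, i⟩ q
    refine ⟨D.c i (r (bM b)) q, trP ρ bM (bM b) (X.x i q), ?_⟩
    rw [h LL S Q' T I M B ρ bM f w (bM b) (X.x i q) hT.lin]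
    exact hT.rel i (bM b) q
  · intro hret _ hS
    exact hS Q' T I B X bM f ρ w
      ⟨hT.lin, hT.free, fun i q m => ⟨D.c i (r m) q, hT.rel i m q⟩, hret⟩

theorem exb : S_exb := by
  intro R M' F M B' B _ _ _ _ _ _ _ i r bM' bM hi hex hr
  choose σ hσ using fun b => hr (bM b)
  let s : M →ₗ[R] F := bM.constr ℕ σ
  have hs : ∀ b, s (bM b) = σ b := fun b => bM.constr_basis ℕ σ b
  have hrs : ∀ x, r (s x) = x := by
    have : r ∘ₗ s = LinearMap.id := by
      refine bM.ext fun b => ?_
      change r (s (bM b)) = bM b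
      rw [hs, hσ]
    exact fun x => LinearMap.congr_fun this x
  let Φ : (M × M') →ₗ[R] F := s.coprod i
  have hΦ : ∀ x y, Φ (x, y) = s x + i y := fun x y => LinearMap.coprod_apply _ _ _
  have hri : ∀ y, r (i y) = 0 := fun y => (hex (i y)).2 ⟨y, rfl⟩
  have hbij : Function.Bijective Φ := by
    constructor
    · rw [← LinearMap.ker_eq_bot, LinearMap.ker_eq_bot']
      rintro ⟨x, y⟩ h
      rw [hΦ] at h
      have h1 : x = 0 := by
        have := congrArg r h
        rwa [map_add, hrs, hri, add_zero, map_zero] at this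
      subst h1
      rw [map_zero, zero_add] at h
      have h2 : y = 0 := hi (h.trans (map_zero i).symm)
      subst h2
      rfl
    · intro p
      obtain ⟨y, hy⟩ := (hex (p - s (r p))).1 (by rw [map_sub, hrs, sub_self])
      exact ⟨(r p, y), by rw [hΦ, hy, add_sub_cancel]⟩
  refine ⟨(bM.prod bM').map (LinearEquiv.ofBijective Φ hbij), fun b => ?_, fun b => ?_⟩
  · rw [Module.Basis.map_apply, Module.Basis.prod_apply]
    change r (Φ (bM b, 0)) = bM b
    rw [hΦ, map_zero, add_zero, hrs]
  · rw [Module.Basis.map_apply, Module.Basis.prod_apply]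
    change Φ (0, bM' b) = i (bM' b)
    rw [hΦ, map_zero, zero_add]

end Pool.Agent.HierR
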