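import Pool.Agent.Lib.MP_8f66f0_al_HierR.SpecL

/-! Linear extension of the matrices of the elements of `S`. -/

set_option autoImplicit false

namespace Pool.Agent.HierR

section Msx

variable {LL S β : Type} [CommRing LL] [Monoid S]

/-- the linear extension of `e ↦ Y.y x e` -/
private noncomputable def msxE (Y : MS LL S β) (x : β) :
    MonoidAlgebra LL S →ₗ[LL] (β →₀ MonoidAlgebra LL S) :=
  (MonoidAlgebra.basis S LL).constr LL fun e => Y.y x e

private theorem msxE_single (Y : MS LL S β) (x : β) (e : S) (t : LL) :
    msxE Y x (MonoidAlgebra.single e t) = t • Y.y x e := by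
  have h1 : (MonoidAlgebra.single e t : MonoidAlgebra LL S) =
      t • MonoidAlgebra.basis S LL e := by
    rw [MonoidAlgebra.basis_apply, MonoidAlgebra.smul_single, smul_eq_mul, mul_one]
  rw [h1, map_smul]
  unfold msxE
  rw [Module.Basis.constr_basis]

private theorem msxE_mul (Y : MS LL S β) (x : β) (a a' : MonoidAlgebra LL S) :
    msxE Y x (a * a') = (msxE Y x a).sum fun j r => r • msxE Y j a' := by
  classical
  induction a using MonoidAlgebra.induction_linear with
  | zero => rw [zero_mul, map_zero, Finsupp.sum_zero_index]
  | add a b ha hb =>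
    rw [add_mul, map_add, map_add, ha, hb, Finsupp.sum_add_index']
    · intro j
      exact zero_smul _ _
    · intro j r r'
      exact add_smul _ _ _
  | single e t =>
    induction a' using MonoidAlgebra.induction_linear with
    | zero =>
      rw [mul_zero, map_zero]
      refine (Finset.sum_eq_zero fun j _ => ?_).symm
      show _ • msxE Y j 0 = 0
      rw [map_zero, smul_zero]
    | add a b ha hb =>
      rw [mul_add, map_add, ha, hb, ← Finsupp.sum_add]
      refine Finset.sum_congr rfl fun j _ => ?_
      show _ • msxE Y j a + _ • msxE Y j b = _ • msxE Y j (a + b)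
      rw [map_add, smul_add]
    | single e' t' =>
      have h1 := Finsupp.sum_smul_index' (b := t) (g := Y.y x e)
        (h := fun j r => r • msxE Y j (MonoidAlgebra.single e' t')) (fun j => zero_smul _ _)
      rw [MonoidAlgebra.single_mul_single, msxE_single, msxE_single, Y.mul, h1, Finsupp.smul_sum]
      refine Finset.sum_congr rfl fun j _ => ?_
      show (t * t') • (Y.y x e j • Y.y j e') = (t • Y.y x e j) • msxE Y j (MonoidAlgebra.single e' t')
      rw [msxE_single, smul_assoc, smul_comm (Y.y x e j) t', mul_smul]

end Msx

theorem msx : S_msx := by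
  intro LL S β _ _ Y P hP
  classical
  have hinj : Function.Injective (Subtype.val : {x // P x} → β) := Subtype.val_injective
  let R : (β →₀ MonoidAlgebra LL S) →ₗ[LL] ({x // P x} →₀ MonoidAlgebra LL S) :=
    Finsupp.lcomapDomain Subtype.val hinj
  let z : {x // P x} → MonoidAlgebra LL S →ₗ[LL] ({x // P x} →₀ MonoidAlgebra LL S) :=
    fun x => R.comp (msxE Y x.1)
  have hz : ∀ (x : {x // P x}) (a : MonoidAlgebra LL S),
      (z x a).mapDomain Subtype.val = msxE Y x.1 a := by
    intro x a
    have hsup : ∀ a : MonoidAlgebra LL S, ∀ x' ∈ (msxE Y x.1 a).support, P x' := by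
      intro a
      induction a using MonoidAlgebra.induction_linear with
      | zero =>
        intro x' hx'
        rw [map_zero, Finsupp.support_zero] at hx'
        exact absurd hx' (Finset.notMem_empty _)
      | add a b ha hb =>
        intro x' hx'
        rw [map_add] at hx'
        rcases Finset.mem_union.1 (Finsupp.support_add hx') with h | h
        · exact ha x' h
        · exact hb x' h
      | single e t =>
        intro x' hx'
        rw [msxE_single] at hx'
        exact hP x.1 e x.2 x' (Finsupp.support_smul hx')
    show ((Finsupp.lcomapDomain Subtype.val hinj : (β →₀ MonoidAlgebra LL S) →ₗ[LL] _)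
      (msxE Y x.1 a)).mapDomain Subtype.val = _
    refine Finsupp.mapDomain_comapDomain Subtype.val hinj (msxE Y x.1 a) fun x' hx' => ?_
    exact ⟨⟨x', hsup a x' hx'⟩, rfl⟩
  refine ⟨⟨z, fun i => ?_, fun i a a' => ?_⟩, fun x e t => ?_⟩
  · apply Finsupp.mapDomain_injective hinj
    rw [hz, Finsupp.mapDomain_single, MonoidAlgebra.one_def, msxE_single, Y.one, one_smul,
      MonoidAlgebra.one_def]
  · apply Finsupp.mapDomain_injective hinj
    rw [hz, msxE_mul]
    have h1 : ((z i a).sum fun j r => r • z j a').mapDomain Subtype.val =
        (z i a).sum fun j r => r • msxE Y j.1 a' := by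
      rw [← Finsupp.mapDomain.addMonoidHom_apply, Finsupp.sum, map_sum, Finsupp.sum]
      refine Finset.sum_congr rfl fun j _ => ?_
      rw [Finsupp.mapDomain.addMonoidHom_apply, Finsupp.mapDomain_smul, hz]
    rw [h1, ← hz i a, Finsupp.sum_mapDomain_index_inj hinj]
  · show (z x (MonoidAlgebra.single e t)).mapDomain Subtype.val = _
    rw [hz, msxE_single]

end Pool.Agent.HierR
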