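import Pool.Agent.Lib.MP_8f66f0_al_HierR.SpecL

/-! L1: composition of matrix representations. -/

set_option autoImplicit false

namespace Pool.Agent.HierR

open Pool.Agent.Wald Pool.Agent.Ind Pool.Agent.Hier

section Mxc

variable {LL C D I J : Type} [CommRing LL] [Ring C] [Ring D] [Algebra LL C] [Algebra LL D]

private noncomputable def mxcG (Y : MX LL C D J) (j : J) : (I →₀ C) →ₗ[LL] (J × I →₀ D) :=
  Finsupp.lsum LL (fun i' => (Finsupp.lmapDomain D LL (fun j' : J => (j', i'))).comp (Y.x j))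

private theorem mxcG_apply (Y : MX LL C D J) (j : J) (v : I →₀ C) :
    mxcG Y j v = v.sum fun i' c => (Y.x j c).mapDomain fun j' => (j', i') := by
  unfold mxcG
  rw [Finsupp.lsum_apply]
  rfl

private theorem mxcG_single (Y : MX LL C D J) (j : J) (i' : I) (c : C) :
    mxcG Y j (Finsupp.single i' c) = (Y.x j c).mapDomain fun j' => (j', i') := by
  rw [mxcG_apply, Finsupp.sum_single_index]
  rw [map_zero, Finsupp.mapDomain_zero]

private theorem mxcG_smul (Y : MX LL C D J) (j : J) (c : C) (v : I →₀ C) :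
    mxcG Y j (c • v) = (Y.x j c).sum fun j1 d => d • mxcG Y j1 v := by
  induction v using Finsupp.induction_linear with
  | zero => simp [Finsupp.sum]
  | add v w hv hw =>
    rw [smul_add, map_add, hv, hw, ← Finsupp.sum_add]
    refine Finsupp.sum_congr fun j1 _ => ?_
    rw [map_add, smul_add]
  | single i' c' =>
    rw [Finsupp.smul_single, smul_eq_mul, mxcG_single, Y.mul]
    rw [Finsupp.sum, Finsupp.mapDomain_finsetSum]
    refine Finset.sum_congr rfl fun j1 _ => ?_
    beta_reduce
    rw [mxcG_single, Finsupp.mapDomain_smul]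

private theorem mxcG_sum {P : Type} [AddCommMonoid P] (Y : MX LL C D J) (j : J) (v : I →₀ C)
    (H : J × I → D → P) (h0 : ∀ x, H x 0 = 0) (h1 : ∀ x d d', H x (d + d') = H x d + H x d') :
    (mxcG Y j v).sum H = v.sum fun i1 c1 => (Y.x j c1).sum fun j1 d => H (j1, i1) d := by
  rw [mxcG_apply, Finsupp.sum_sum_index h0 h1]
  refine Finsupp.sum_congr fun i1 _ => ?_
  rw [Finsupp.sum_mapDomain_index h0 h1]

end Mxc

/-- L1. Composition of matrix representations. -/
theorem mxc : S_mxc := by
  intro LL A C D I J _ _ _ _ _ _ _ X Y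
  refine ⟨⟨fun a => (mxcG Y a.1).comp (X.x a.2), ?_, ?_⟩, ?_⟩
  · rintro ⟨j, i⟩
    rw [LinearMap.comp_apply, X.one, mxcG_single, Y.one, Finsupp.mapDomain_single]
  · rintro ⟨j, i⟩ a a'
    simp only [LinearMap.comp_apply]
    rw [X.mul, map_finsuppSum, mxcG_sum Y j (X.x i a)
      (fun (x : J × I) (d : D) => d • mxcG Y x.1 (X.x x.2 a'))
      (fun x => zero_smul _ _) (fun x d d' => add_smul _ _ _)]
    exact Finsupp.sum_congr fun i1 _ => mxcG_smul Y j _ _
  · intro j i a
    exact mxcG_apply Y j _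

end Pool.Agent.HierR
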