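import Pool.Agent.Lib.MP_8f66f0_al_HierR.SpecO

/-! The output of part BA: the statements O3, O4. -/

set_option autoImplicit false

namespace Pool.Agent.HierR

open Pool.Agent.Wald Pool.Agent.Ind Pool.Agent.Hier

/-- The pull back of a `K_1`-like invariant along a homomorphism. -/
private def pullK {Q Z K : Type} [Ring Q] [Ring Z] [CommGroup K] (φ : Q →+* Z) (κ : K1Fun Z K) :
    K1Fun Q K where
  f := fun {n} _ _ A => κ.f (A.map φ)
  mul := fun {n} _ _ A B hA hB => by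
    have a1 : IsUnit (A.map φ) := hA.map φ.mapMatrix
    have b1 : IsUnit (B.map φ) := hB.map φ.mapMatrix
    rw [Matrix.map_mul, κ.mul _ _ a1 b1]
  reindex := fun {n m} _ _ _ _ e A hA => κ.reindex e (A.map φ) (hA.map φ.mapMatrix)
  tri := fun {n m} _ _ _ _ A B D hA hD => by
    have a1 : IsUnit (A.map φ) := hA.map φ.mapMatrix
    have b1 : IsUnit (D.map φ) := hD.map φ.mapMatrix
    rw [Matrix.fromBlocks_map, Matrix.map_zero _ (map_zero φ), κ.tri _ _ _ a1 b1]

/-- Retracts over `Q'`. -/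
private theorem kt_ret {Q' Q Z : Type} [Ring Q'] [Ring Q] [Ring Z] (f : Q' →+* Q) (hf : KT f)
    (g : Q' →+* Z) (φ : Q →+* Z) (σ : Z →+* Q) (h : ∀ q, φ (f q) = g q) (hs : ∀ u, φ (σ u) = u) :
    KT g := by
  intro K _ κ hκ n _ _ A hA
  have h1 := hf K (pullK φ κ) (fun m _ _ M hM => by
    change κ.f ((M.map f).map φ) = 1
    have h2 : (M.map f).map φ = M.map g := by
      ext i j
      exact h _
    rw [h2]
    exact hκ m M hM) n (A.map σ) (hA.map σ.mapMatrix)
  change κ.f ((A.map σ).map φ) = 1 at h1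
  have h3 : (A.map σ).map φ = A := by
    ext i j
    exact hs _
  rwa [h3] at h1

/-- Homomorphisms of monoid algebras agree if they agree on the monoid. -/
private theorem ma_ext {LL S Z : Type} [CommRing LL] [Monoid S] [Ring Z] [Algebra LL Z]
    {φ ψ : MonoidAlgebra LL S →ₐ[LL] Z}
    (h : ∀ e, φ (MonoidAlgebra.single e 1) = ψ (MonoidAlgebra.single e 1)) : φ = ψ :=
  (MonoidAlgebra.lift LL Z S).symm.injective (MonoidHom.ext h)

/-- The regular letters. -/
private noncomputable def regX (LL S : Type) [CommRing LL] [Monoid S] :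
    MX LL (MonoidAlgebra LL S) (MonoidAlgebra LL S) Unit where
  x _ := Finsupp.lsingle ()
  one _ := rfl
  mul i a a' := by
    change Finsupp.single () (a * a') = (Finsupp.single () a).sum fun _ r =>
      r • (Finsupp.single () a' : Unit →₀ MonoidAlgebra LL S)
    refine Eq.trans ?_ (Finsupp.sum_single_index (zero_smul (MonoidAlgebra LL S)
      (Finsupp.single () a' : Unit →₀ MonoidAlgebra LL S))).symm
    rw [Finsupp.smul_single, smul_eq_mul]

/-- The zero constants. -/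
private noncomputable def zeroD (LL S M : Type) [CommRing LL] [Monoid S] [AddCommGroup M]
    [Module (MonoidAlgebra ℤ S) M] [DistribMulAction Sᵐᵒᵖ M] :
    CM LL (regX LL S) (MonoidAlgebra.of LL S) M where
  c _ := 0
  lin i e m q := by
    change (0 : MonoidAlgebra LL S) = MonoidAlgebra.of LL S e * 0
    rw [mul_zero]
  one _ _ := rfl
  mul i m q q' := by
    change (0 : MonoidAlgebra LL S) = 0 * q' + ((regX LL S).x i q).sum fun j r =>
      r.coeff.sum fun e t => t • (0 : MonoidAlgebra LL S)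
    simp [Finsupp.sum]

theorem out (h1 : S_tproj) (h2 : S_swb) (h3 : S_resm) (h4 : S_tm) (h5 : S_ktm) (h6 : S_two) :
    S_out := by
  intro Γ P _ _ _ _ n hres LL _ _ hE
  have hp : Module.Projective (MonoidAlgebra ℤ (Mo Γ P)) (PM (Tri Γ P)) := h1 Γ P
  obtain ⟨G, i1, i2, i3, i4, hst, hfree⟩ := h2 (Mo Γ P) (PM (Tri Γ P)) inferInstance
  have hfr : Module.Free (MonoidAlgebra ℤ (Mo Γ P)) (PM (Tri Γ P) × G) :=
    hfree (PM (Tri Γ P)) LinearMap.id Function.surjective_id hp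
  have hslm : SLM LL (Mo Γ P) (PM (Tri Γ P) × G) := h3 (Mo Γ P) n (PM (Tri Γ P)) hres hp G hst LL hE
  let bM := Module.Free.chooseBasis (MonoidAlgebra ℤ (Mo Γ P)) (PM (Tri Γ P) × G)
  have hbi : IsBi (S := Mo Γ P) (AddMonoidHom.id (PM (Tri Γ P) × G)) :=
    ⟨fun _ _ => rfl, fun _ _ => rfl⟩
  obtain ⟨Q, j1, j2, f, w, hT⟩ := (h4 LL (Mo Γ P) (MonoidAlgebra LL (Mo Γ P)) Unit
    (PM (Tri Γ P) × G) (PM (Tri Γ P) × G) _ (regX LL (Mo Γ P)) (MonoidAlgebra.of LL (Mo Γ P))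
    (zeroD LL (Mo Γ P) (PM (Tri Γ P) × G)) (AddMonoidHom.id _) bM hbi).1
  have hret : ∃ s : MonoidAlgebra LL (Mo Γ P) →ₗ[LL] MonoidAlgebra LL (Mo Γ P),
      ∀ x, s (gr LL (MonoidAlgebra.of LL (Mo Γ P)) x) = x := by
    refine ⟨LinearMap.id, fun x => ?_⟩
    have : gr LL (MonoidAlgebra.of LL (Mo Γ P)) = AlgHom.id LL (MonoidAlgebra LL (Mo Γ P)) := by
      refine ma_ext fun e => ?_
      change MonoidAlgebra.lift LL (MonoidAlgebra LL (Mo Γ P)) (Mo Γ P)
        (MonoidAlgebra.of LL (Mo Γ P)) (MonoidAlgebra.single e 1) = MonoidAlgebra.single e 1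
      rw [MonoidAlgebra.lift_single, one_smul]
      rfl
    rw [this]
    rfl
  have hkt : KT (f : MonoidAlgebra LL (Mo Γ P) →+* Q) :=
    (h5 LL (Mo Γ P) (MonoidAlgebra LL (Mo Γ P)) Unit (PM (Tri Γ P) × G) (PM (Tri Γ P) × G) _ Q
      (regX LL (Mo Γ P)) (MonoidAlgebra.of LL (Mo Γ P)) (zeroD LL (Mo Γ P) (PM (Tri Γ P) × G))
      (AddMonoidHom.id _) bM f w hT).2 hret inferInstance hslm
  obtain ⟨φ, σ, hφ, hσ⟩ := h6 Γ P LL G _ (regX LL (Mo Γ P))
    (zeroD LL (Mo Γ P) (PM (Tri Γ P) × G)) bM Q f w (fun _ => rfl) (fun _ _ => rfl) hT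
  exact kt_ret (f : MonoidAlgebra LL (Mo Γ P) →+* Q) hkt _ (φ : Q →+* _)
    (σ : MonoidAlgebra LL (MoN Γ P) →+* Q) hφ hσ

section Deg

variable {Γ P : Type} [Group Γ] [PartialOrder P] [MulAction Γ P] [MonoAct Γ P]

/-- The grading of the monoid. -/
private def nuF (ν : P → P → ℕ) : Mo Γ P → MoN Γ P
  | .one => .one
  | .zero => .zero
  | .mor x => .mor x (ν (x.g • x.b) x.a)

private theorem nu_comp {ν : P → P → ℕ} (h1 : ∀ a b c, a ≤ b → b ≤ c → ν a c = ν a b + ν b c)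
    (h2 : ∀ (g : Γ) (a b : P), a ≤ b → ν (g • a) (g • b) = ν a b) (x y : Tri Γ P)
    (h : x.b = y.a) :
    ν ((x.comp y h).g • (x.comp y h).b) (x.comp y h).a = ν (x.g • x.b) x.a + ν (y.g • y.b) y.a := by
  change ν ((x.g * y.g) • y.b) x.a = _
  have e1 : x.g • y.g • y.b ≤ x.g • x.b := by
    rw [h]
    exact MonoAct.mono x.g y.le
  rw [mul_smul, h1 _ (x.g • x.b) _ e1 x.le]
  have e2 : ν (x.g • y.g • y.b) (x.g • x.b) = ν (y.g • y.b) y.a := by
    rw [h]
    exact h2 x.g _ _ y.le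
  rw [e2, add_comm]

/-- The grading as a homomorphism. -/
private noncomputable def nuH (ν : P → P → ℕ)
    (h1 : ∀ a b c, a ≤ b → b ≤ c → ν a c = ν a b + ν b c)
    (h2 : ∀ (g : Γ) (a b : P), a ≤ b → ν (g • a) (g • b) = ν a b) : Mo Γ P →* MoN Γ P where
  toFun := nuF ν
  map_one' := rfl
  map_mul' x y := by
    cases x with
    | one => rfl
    | zero => rfl
    | mor x =>
      cases y with
      | one => rfl
      | zero => rfl
      | mor y =>
        change nuF ν ((x.mulO y).elim .zero .mor) =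
          (x.mulO y).elim .zero fun u => .mor u (ν (x.g • x.b) x.a + ν (y.g • y.b) y.a)
        unfold Tri.mulO
        by_cases h : x.b = y.a
        · rw [dif_pos h]
          change MoN.mor (x.comp y h) _ = MoN.mor (x.comp y h) _
          rw [nu_comp h1 h2]
        · rw [dif_neg h]
          rfl

end Deg

/-- The part of degree `0`. -/
private theorem ev0_nu {Γ P : Type} [Group Γ] [PartialOrder P] [MulAction Γ P] [MonoAct Γ P]
    {ν : P → P → ℕ}
    (h1 : ∀ a b c, a ≤ b → b ≤ c → ν a c = ν a b + ν b c)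
    (h2 : ∀ (g : Γ) (a b : P), a ≤ b → ν (g • a) (g • b) = ν a b)
    (h3 : ∀ a b, a ≤ b → ν a b = 0 → a = b) (x : Mo Γ P) :
    (MoN.ev0 Γ P) (nuH ν h1 h2 x) ∈ Mo0 Γ P := by
  intro y hy
  cases x with
  | one => exact absurd hy (by rintro ⟨⟩)
  | zero => exact absurd hy (by rintro ⟨⟩)
  | mor x =>
    change MoN.toMo0 (.mor x (ν (x.g • x.b) x.a)) = .mor y at hy
    cases h : ν (x.g • x.b) x.a with
    | zero =>
      rw [h] at hy
      change Mo.mor x = .mor y at hy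
      have h4 : x = y := by injection hy
      rw [← h4]
      exact (h3 _ _ x.le h).symm
    | succ k =>
      rw [h] at hy
      exact absurd hy (by rintro ⟨⟩)

/-- `mA` of a composition. -/
private theorem mA_comp (LL : Type) [CommRing LL] {S S' S'' : Type} [Monoid S] [Monoid S']
    [Monoid S''] (φ : S →* S') (ψ : S' →* S'') (u : MonoidAlgebra LL S) :
    mA LL ψ (mA LL φ u) = mA LL (ψ.comp φ) u := by
  have : (mA LL ψ).comp (mA LL φ) = mA LL (ψ.comp φ) := by
    refine ma_ext fun e => ?_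
    simp only [AlgHom.comp_apply, mA, gr, MonoidAlgebra.lift_single, one_smul,
      MonoidHom.comp_apply, MonoidAlgebra.of_apply]
  exact DFunLike.congr_fun this u

/-- `mA` of the identity. -/
private theorem mA_id (LL : Type) [CommRing LL] {S : Type} [Monoid S] (u : MonoidAlgebra LL S) :
    mA LL (MonoidHom.id S) u = u := by
  have : mA LL (MonoidHom.id S) = AlgHom.id LL (MonoidAlgebra LL S) := by
    refine ma_ext fun e => ?_
    simp only [mA, gr, MonoidAlgebra.lift_single, one_smul,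
      MonoidHom.comp_apply, MonoidAlgebra.of_apply, MonoidHom.id_apply, AlgHom.id_apply]
  exact DFunLike.congr_fun this u

theorem out0 : S_out0 := by
  intro Γ P _ _ _ _ ν h1 h2 h3 LL _ hKT K _ κ hκ n _ _ A hA
  let τ : MonoidAlgebra LL (Mo Γ P) →+* MonoidAlgebra LL (MoN Γ P) := mA LL (nuH ν h1 h2)
  have hAτ : IsUnit (A.map τ) := hA.map τ.mapMatrix
  have e1 : (MoN.ev1 Γ P).comp (MoN.inc Γ P) = MonoidHom.id _ := by
    ext x
    cases x <;> rfl
  have e0 : (MoN.ev0 Γ P).comp (MoN.inc Γ P) = MonoidHom.id _ := by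
    ext x
    cases x <;> rfl
  have k1 := kt_two (mA LL (MoN.inc Γ P) : MonoidAlgebra LL (Mo Γ P) →+* MonoidAlgebra LL (MoN Γ P))
    hKT (mA LL (MoN.ev1 Γ P) : MonoidAlgebra LL (MoN Γ P) →+* MonoidAlgebra LL (Mo Γ P))
    (mA LL (MoN.ev0 Γ P) : MonoidAlgebra LL (MoN Γ P) →+* MonoidAlgebra LL (Mo Γ P))
    (fun q => by
      change mA LL (MoN.ev1 Γ P) (mA LL (MoN.inc Γ P) q) =
        mA LL (MoN.ev0 Γ P) (mA LL (MoN.inc Γ P) q)
      rw [mA_comp, mA_comp, e1, e0]) κ (A.map τ) hAτ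
  have e2 : (MoN.ev1 Γ P).comp (nuH ν h1 h2) = MonoidHom.id _ := by
    ext x
    cases x <;> rfl
  have e3 : (A.map τ).map (mA LL (MoN.ev1 Γ P) :
      MonoidAlgebra LL (MoN Γ P) →+* MonoidAlgebra LL (Mo Γ P)) = A := by
    refine Matrix.ext fun i j => ?_
    change mA LL (MoN.ev1 Γ P) (mA LL (nuH ν h1 h2) (A i j)) = A i j
    rw [mA_comp, e2, mA_id]
  let θ : Mo Γ P →* Mo0 Γ P :=
    ((MoN.ev0 Γ P).comp (nuH ν h1 h2)).codRestrict (Mo0 Γ P) (fun x => ev0_nu h1 h2 h3 x)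
  have e4 : (Mo0 Γ P).subtype.comp θ = (MoN.ev0 Γ P).comp (nuH ν h1 h2) := by
    ext x
    rfl
  have e5 : (A.map τ).map (mA LL (MoN.ev0 Γ P) :
      MonoidAlgebra LL (MoN Γ P) →+* MonoidAlgebra LL (Mo Γ P)) =
      (A.map (mA LL θ : MonoidAlgebra LL (Mo Γ P) →+* MonoidAlgebra LL (Mo0 Γ P))).map
        (mA LL (Mo0 Γ P).subtype : MonoidAlgebra LL (Mo0 Γ P) →+* MonoidAlgebra LL (Mo Γ P)) := by
    refine Matrix.ext fun i j => ?_
    change mA LL (MoN.ev0 Γ P) (mA LL (nuH ν h1 h2) (A i j)) =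
      mA LL (Mo0 Γ P).subtype (mA LL θ (A i j))
    rw [mA_comp, mA_comp, e4]
  rw [e3, e5] at k1
  rw [k1]
  exact hκ n _ (hA.map (mA LL θ :
    MonoidAlgebra LL (Mo Γ P) →+* MonoidAlgebra LL (Mo0 Γ P)).mapMatrix)

end Pool.Agent.HierR
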