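import Pool.Agent.Lib.MP_8f66f0_al_HierR.Defs
import Pool.Agent.Lib.MP_8f66f0_al_Hier.SpecP

/-! Block P over monoid algebras: ports of `S_RelK`, `S_Patch` (Hier/SpecP). -/

set_option autoImplicit false

namespace Pool.Agent.HierR

open Pool.Agent.Wald Pool.Agent.Ind Pool.Agent.Hier Matrix
open scoped TensorProduct

/-- P1 (Rel). Relative `K_0`: idempotent matrices which are `diag(1, 0)` modulo the augmentation
are stably free of the right rank.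

Proof. `Φ : LL' ⊗ L → LaurentSeries L` (P-a), `v` (`exists_val L`, Ind/LaurVal.lean), `D`
(`exists_k0 L`), `κ` from P-b, `κ'` = the pull back of `κ` along `Φ` (see `psfPull` in
Ind/LaurPSF.lean, copy it). `θ = Algebra.TensorProduct.map (AlgHom.id LL' LL') ((gr LL ρ).comp
eps)`, an endomorphism of `LL' ⊗ L` which fixes the image of `gr LL' (bch LL' ρ)` (on `single c a`:
`a ⊗ ρ c ↦ a ⊗ gr (eps (ρ c)) = a ⊗ ρ c`). `κ''(A) = κ'(A) / κ'(θ A)` is a `K1Fun` which kills the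
matrices from `LL'[C]`, so `κ'' = 1` by `KT`, i.e. `κ'(A) = κ'(θ A)` for invertible `A`. Reindex
`A ⊕ B` by `Fin n`. For `M = 1 - 1 ⊗ e + y ⊗ e` (`y = single 1 1 ∈ LL'`), which is invertible
(`psf_inv` in Ind/LaurPSF.lean), `Φ(M) = 1 - up e + (up e) y`, so `κ'(M) = cls (range e)`, and
`κ'(θ M) = cls (range e₀)`, `e₀ = gr eps e = diag(1, 0)`, whose range is free, so the class is `1`
(`cls_iso`, `cls_free`). By P-c there are `a, b, X, Y`. Apply `eps` and the augmentation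
`LL[C] → LL` to `X` and `Y`: `diag(diag(1, 0), 1) = X̄ Ȳ`, `Ȳ X̄ = 1` over the nontrivial commutative
ring `LL`, so `b = |A| + a` (trace or rank: `X̄` restricted to the rows `A ⊕ Fin a`, `Ȳ` restricted
to the columns, are inverse to each other, since `Ȳ` times the zero block vanishes: `Ȳ = Ȳ X̄ Ȳ =
Ȳ diag(diag(1,0),1)`; then `Matrix.square_of_invertible`). Reindex `Fin b ≃ A ⊕ Fin a`. -/
def S_RelK : Prop :=
  ∀ (LL C L : Type) [CommRing LL] [IsDomain LL] [Monoid C] [Ring L] [Algebra LL L] (ρ : C →* L)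
    (eps : L →ₐ[LL] MonoidAlgebra LL C), (∀ x, eps (gr LL ρ x) = x) →
    KT (gr (Lau LL) (bch LL (Lau LL) ρ) : MonoidAlgebra (Lau LL) C →+* Lau LL ⊗[LL] L) →
    ∀ (A B : Type) [Fintype A] [DecidableEq A] [Fintype B] [DecidableEq B]
      (e : Matrix (A ⊕ B) (A ⊕ B) L), e * e = e → e.map eps = fromBlocks 1 0 0 0 →
      ∃ (s : ℕ) (X : Matrix ((A ⊕ B) ⊕ Fin s) (A ⊕ Fin s) L)
        (Y : Matrix (A ⊕ Fin s) ((A ⊕ B) ⊕ Fin s) L), X * Y = fromBlocks e 0 0 1 ∧ Y * X = 1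

/-- P3 (Patch). The patching theorem.

Proof. Let `κ` kill the matrices from `GL(T)`, `u ∈ GL_n(Q)` (`n` may be taken to be `Fin n`, by
`κ.reindex`). `r = {emb x | eps x = 0}`. P2: `Φ, Ξ`. The entries of `Φ Ξ` are in the image of `emb`:
`Φ Ξ = e.map emb`, `e.map eps = diag(1, 0)`; `e e = e` since `emb` is injective and `Φ Ξ Φ Ξ =
Φ Ξ`. P1: `X, Y`. `Γ = Y.map emb * diag(Φ, 1_s)`, with inverse `diag(Ξ, 1_s) * X.map emb`:
`Γ Γ⁻¹ = Y diag(e, 1) X = Y X Y X = 1`, `Γ⁻¹ Γ = diag(Ξ, 1) (X Y) diag(Φ, 1) = diag(Ξ e Φ, 1) = 1`.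
`π (emb x) = π (emb (gr (eps x)))` since `x - gr (eps x)` is in the kernel of `eps`. So with
`ι : ((A ⊕ B) ⊕ Fin s) × (A ⊕ Fin s)` the inclusion (`A = Fin n ⊕ Fin l`, `B = Fin l'`) and
`g = (Y.map eps) ι`, which is invertible over `LL[C]` with inverse `ιᵗ (X.map eps)` (use
`(X Y).map eps = diag(diag(1, 0), 1) = ι ιᵗ`): `π Γ = π (emb (gr g)) * diag(u₁, 1)`,
`u₁ = [[u, σ], [0, 1]]`. Now `κ (π Γ) = 1`, `κ (π emb gr g) = 1`, hence `κ (diag(u₁, 1)) = 1` and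
`κ u = κ u₁ = 1` by `tri`. -/
def S_Patch : Prop :=
  ∀ (LL C L T Q : Type) [CommRing LL] [IsDomain LL] [Monoid C] [Ring L] [Algebra LL L] [Ring T]
    [Algebra LL T] [Ring Q] [Algebra LL Q] (ρ : C →* L) (eps : L →ₐ[LL] MonoidAlgebra LL C)
    (emb : L →ₐ[LL] T) (π : T →ₐ[LL] Q), (∀ x, eps (gr LL ρ x) = x) →
    KT (gr (Lau LL) (bch LL (Lau LL) ρ) : MonoidAlgebra (Lau LL) C →+* Lau LL ⊗[LL] L) →
    Function.Injective emb → Function.Surjective π →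
    (∀ x, eps x = 0 → ∀ t, ∃ x', eps x' = 0 ∧ emb x * t = emb x') →
    (∀ x, eps x = 0 → π (emb x) = 0) →
    (∀ t, π t = 0 → t ∈ AddSubgroup.closure {z | ∃ s, ∃ x, eps x = 0 ∧ z = s * emb x}) →
    KT (π : T →+* Q)

end Pool.Agent.HierR
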