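import Pool.Agent.Lib.MP_8f66f0_al_HierR.SpecL
import Pool.Agent.Lib.MP_8f66f0_al_HierR.PlC
import Pool.Agent.Lib.MP_8f66f0_al_HierZ.TyA

/-! Typed blocks `d_j(m) a_{i_2} ⋯ a_{i_m}` over a monoid and the typed form of the blocks and the
patching theorem together (L7). -/

set_option autoImplicit false

namespace Pool.Agent.HierR.LB.PlmM

open Pool.Agent.Wald Pool.Agent.Ind Pool.Agent.Hier Pool.Agent.Hier.LB Function
open scoped TensorProduct

section Gen

private theorem ev_mapD {Q' T Λ Λ' : Type} [Ring Q'] [Ring T] (f : Q' →+* T) (ℓ : Λ → T)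
    (h : Λ' → Λ) (z : List Λ' →₀ Q') :
    ev f ℓ (Finsupp.mapDomain (List.map h) z) = ev f (fun a => ℓ (h a)) z := by
  have : (evH f ℓ).comp (Finsupp.mapDomain.addMonoidHom (List.map h)) =
      evH f (fun a => ℓ (h a)) := by
    refine Finsupp.addHom_ext fun u r => ?_
    change evH f ℓ (Finsupp.mapDomain (List.map h) (Finsupp.single u r)) =
      evH f _ (Finsupp.single u r)
    rw [Finsupp.mapDomain_single, evH_single, evH_single, wd_map]
  exact DFunLike.congr_fun this z

variable {S M B : Type} [Monoid S] [AddCommGroup M] [Module (MonoidAlgebra ℤ S) M]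

/-- Induction along a left basis. -/
private theorem mem_of_lbasis (bM : Module.Basis B (MonoidAlgebra ℤ S) M) (N : AddSubgroup M)
    (h1 : ∀ k, bM k ∈ N) (h2 : ∀ (e : S) (m : M), m ∈ N → MonoidAlgebra.single e (1 : ℤ) • m ∈ N)
    (m : M) : m ∈ N := by
  have hm : m ∈ Submodule.span (MonoidAlgebra ℤ S) (Set.range bM) := by
    rw [bM.span_eq]
    exact Submodule.mem_top
  induction hm using Submodule.span_induction with
  | mem x hx =>
    obtain ⟨k, rfl⟩ := hx
    exact h1 k
  | zero => exact zero_mem _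
  | add x y _ _ hx hy => exact add_mem hx hy
  | smul r x _ hx =>
    induction r using MonoidAlgebra.induction_linear with
    | zero => rw [zero_smul]; exact zero_mem _
    | add g h hg hh => rw [add_smul]; exact add_mem hg hh
    | single e n =>
      have e1 : MonoidAlgebra.single e n • x = n • (MonoidAlgebra.single e (1 : ℤ) • x) := by
        rw [← smul_assoc]
        congr 1
        rw [MonoidAlgebra.smul_single]
        simp
      rw [e1]
      exact N.zsmul_mem (h2 e x hx) n

/-- The values of a left linear map. -/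
private theorem val_mem {T : Type} [AddCommGroup T] (bM : Module.Basis B (MonoidAlgebra ℤ S) M)
    (g : M →+ T) (N : AddSubgroup T) (h1 : ∀ k, g (bM k) ∈ N)
    (h2 : ∀ (e : S) (m : M), g m ∈ N → g (MonoidAlgebra.single e (1 : ℤ) • m) ∈ N) (m : M) :
    g m ∈ N :=
  mem_of_lbasis bM (N.comap g) h1 h2 m

end Gen

section Tr

variable {LL S T I M : Type} [CommRing LL] [Monoid S] [Ring T] [Algebra LL T] [AddCommGroup M]
  [DistribMulAction Sᵐᵒᵖ M]

/-- `tr` for a fixed `m` as a linear map. -/
private noncomputable def trL (w : I → M →+ T) (m : M) : (I →₀ MonoidAlgebra LL S) →ₗ[LL] T :=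
  Finsupp.lsum LL fun j => (Finsupp.lsum LL fun e =>
    LinearMap.toSpanSingleton LL T (w j (MulOpposite.op e • m))) ∘ₗ
      (MonoidAlgebra.coeffLinearEquiv (S := LL) (M := S) LL).toLinearMap

private theorem trL_apply (w : I → M →+ T) (m : M) (x : I →₀ MonoidAlgebra LL S) :
    trL w m x = tr w x m := rfl

private theorem trL_single (w : I → M →+ T) (m : M) (j : I) (e : S) (t : LL) :
    trL w m (Finsupp.single j (MonoidAlgebra.single e t)) =
      t • w j (MulOpposite.op e • m) := by
  rw [trL, Finsupp.lsum_single, LinearMap.comp_apply]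
  have h1 : (MonoidAlgebra.coeffLinearEquiv (S := LL) (M := S) LL).toLinearMap
      (MonoidAlgebra.single e t) = Finsupp.single e t := rfl
  rw [h1, Finsupp.lsum_single, LinearMap.toSpanSingleton_apply]

private theorem lin_ext' {N : Type} [AddCommGroup N] [Module LL N]
    (g h : (I →₀ MonoidAlgebra LL S) →ₗ[LL] N)
    (H : ∀ j e t, g (Finsupp.single j (MonoidAlgebra.single e t)) =
      h (Finsupp.single j (MonoidAlgebra.single e t))) : g = h := by
  refine LinearMap.ext fun x => ?_
  induction x using Finsupp.induction_linear with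
  | zero => simp
  | add x y hx hy => rw [map_add, map_add, hx, hy]
  | single j r =>
    induction r using MonoidAlgebra.induction_linear with
    | zero => simp
    | add r s hr hs => rw [Finsupp.single_add, map_add, map_add, hr, hs]
    | single e t => exact H j e t

/-- A linear map applied to a typed combination. -/
private theorem tr_map {T' I' : Type} [Ring T'] [Algebra LL T'] (g : T →ₗ[LL] T')
    (w : I → M →+ T) (w' : I' → M →+ T') (h : I → I')
    (H : ∀ j m, g (w j m) = w' (h j) m) (x : I →₀ MonoidAlgebra LL S) (m : M) :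
    g (tr w x m) = tr w' (Finsupp.mapDomain h x) m := by
  have : g ∘ₗ trL w m = trL w' m ∘ₗ (Finsupp.lmapDomain (MonoidAlgebra LL S) LL h) := by
    refine lin_ext' _ _ fun j e t => ?_
    rw [LinearMap.comp_apply, LinearMap.comp_apply, Finsupp.lmapDomain_apply,
      Finsupp.mapDomain_single, trL_single, trL_single, map_smul, H]
  exact DFunLike.congr_fun this x

/-- Typed combinations lie in a submodule if the letters do. -/
private theorem tr_mem (w : I → M →+ T) (N : Submodule LL T) {x : I →₀ MonoidAlgebra LL S}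
    (h : ∀ j ∈ x.support, ∀ m, w j m ∈ N) (m : M) : tr w x m ∈ N :=
  Submodule.sum_mem _ fun j hj => Submodule.sum_mem _ fun _ _ => Submodule.smul_mem _ _ (h j hj _)

private theorem tr_sum {K : Type} (w : I → M →+ T) (m : M) (s : Finset K)
    (x : K → (I →₀ MonoidAlgebra LL S)) : tr w (∑ k ∈ s, x k) m = ∑ k ∈ s, tr w (x k) m :=
  map_sum (trL w m) x s

end Tr

section Blocks

variable {LL S Q' I J T M B : Type} [CommRing LL] [Monoid S] [Ring Q'] [Algebra LL Q'] [Ring T]
  [Algebra LL T] [AddCommGroup M] [Module (MonoidAlgebra ℤ S) M] [DistribMulAction Sᵐᵒᵖ M]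
  {X : MX LL Q' (MonoidAlgebra LL S) J}
  {bM : Module.Basis B (MonoidAlgebra ℤ S) M} {ρ : S →* Q'} {f : Q' →ₐ[LL] T} {a : I → T}
  {d : J → M →+ T}

/-- The untyped `d`-letters. -/
private noncomputable abbrev ddM (bM : Module.Basis B (MonoidAlgebra ℤ S) M) (d : J → M →+ T) :
    B × J → T := fun x => d x.2 (bM x.1)

/-- The typed blocks. -/
private def bkM (a : I → T) (d : J → M →+ T) (x : J × List I) : M →+ T :=
  (AddMonoidHom.mulRight (wd a x.2)).comp (d x.1)

omit [DistribMulAction Sᵐᵒᵖ M] in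
private theorem bkM_bM (x : J × List I) (k : B) :
    bkM a d x (bM k) = bk a (ddM bM d) ((k, x.1), x.2) := rfl

omit [Module (MonoidAlgebra ℤ S) M] [DistribMulAction Sᵐᵒᵖ M] in
private theorem bkM_nil (j : J) (m : M) : bkM a d (j, []) m = d j m := by
  change d j m * 1 = d j m
  rw [mul_one]

omit [Module (MonoidAlgebra ℤ S) M] [DistribMulAction Sᵐᵒᵖ M] in
private theorem bkM_cons (x : J × List I) (i : I) (m : M) :
    bkM a d (x.1, i :: x.2) m = bkM a d x m * a i := by
  change d x.1 m * (wd a x.2 * a i) = d x.1 m * wd a x.2 * a i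
  rw [mul_assoc]

/-- Left linearity of the `d`-letters. -/
private def LinD (ρ : S →* Q') (f : Q' →ₐ[LL] T) (d : J → M →+ T) : Prop :=
  ∀ (j : J) (e : S) (m : M), d j (MonoidAlgebra.single e (1 : ℤ) • m) = f (ρ e) * d j m

omit [DistribMulAction Sᵐᵒᵖ M] in
private theorem bkM_lin (hl : LinD ρ f d) (x : J × List I) (e : S) (m : M) :
    bkM a d x (MonoidAlgebra.single e (1 : ℤ) • m) = f (ρ e) * bkM a d x m := by
  change d x.1 _ * wd a x.2 = f (ρ e) * (d x.1 m * wd a x.2)
  rw [hl, mul_assoc]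

/-- The typed rule for the `d`-letters. -/
private def RulD (X : MX LL Q' (MonoidAlgebra LL S) J) (f : Q' →ₐ[LL] T) (d : J → M →+ T) : Prop :=
  ∀ j q m, d j m * f q = tr d (X.x j q) m

private theorem hd_of (hl : LinD ρ f d) (hd : RulD X f d) : HD ρ f (ddM bM d) := by
  rintro ⟨k, j⟩ q
  change d j (bM k) * f q ∈ _
  rw [hd]
  refine tr_mem d (Submodule.span LL {t | ∃ c b', t = f (ρ c) * ddM bM d b'})
    (fun j' _ m => ?_) (bM k)
  refine val_mem bM (d j') (Submodule.span LL
    {t | ∃ c b', t = f (ρ c) * ddM bM d b'}).toAddSubgroup (fun k' => ?_) (fun e m' h => ?_) m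
  · refine Submodule.subset_span ⟨1, (k', j'), ?_⟩
    rw [map_one, map_one, one_mul]
  · rw [hl]
    refine mul_mem_of_gen' (y := f (ρ e)) ?_ h
    rintro _ ⟨c, b', rfl⟩
    rw [← mul_assoc, ← map_mul, ← map_mul]
    exact Submodule.subset_span ⟨e * c, b', rfl⟩

section Mem

variable {D : B × J → T}

private theorem rho_mul_Vn {n : ℕ} {t : T} (ht : t ∈ Vn ρ f a D n) (c : S) :
    f (ρ c) * t ∈ Vn ρ f a D n := by
  refine mul_mem_of_gen' ?_ ht
  rintro _ ⟨c', x, h1, rfl⟩
  rw [← mul_assoc, ← map_mul, ← map_mul]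
  exact Submodule.subset_span ⟨c * c', x, h1, rfl⟩

private theorem rho_mul_Wn {n : ℕ} {t : T} (ht : t ∈ Wn ρ f a D n) (c : S) :
    f (ρ c) * t ∈ Wn ρ f a D n := by
  refine mul_mem_of_gen' ?_ ht
  rintro _ ⟨c', s, h1, h2, rfl⟩
  rw [← mul_assoc, ← map_mul, ← map_mul]
  exact Submodule.subset_span ⟨c * c', s, h1, h2, rfl⟩

private theorem Vn_mul_D {n : ℕ} {t : T} (ht : t ∈ Vn ρ f a D n) (b' : B × J) :
    t * D b' ∈ Wn ρ f a D (n + 1) := by
  refine mul_mem_of_gen ?_ ht
  rintro _ ⟨c, y, h2, rfl⟩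
  refine Submodule.subset_span ⟨c, [(b', []), y], by simp, ?_, ?_⟩
  · intro z hz
    rcases List.mem_cons.mp hz with h | h
    · rw [h]
      exact Nat.succ_pos _
    · rw [List.mem_singleton.mp h, h2]
      exact Nat.lt_succ_self _
  · rw [wd_cons, wd_cons, wd_nil, one_mul, bk_nil, mul_assoc]

end Mem

omit [DistribMulAction Sᵐᵒᵖ M] in
/-- The untyped triangular rule for the typed blocks. -/
private theorem val_VW (hl : LinD ρ f d) (hCl : Cl (f : Q' →+* T) (Sum.elim a (ddM bM d)))
    (hd : HD ρ f (ddM bM d)) (j : J) (u : List I) (q : Q') (m : M) :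
    bkM a d (j, u) m * f q ∈
      Vn ρ f a (ddM bM d) u.length ⊔ Wn ρ f a (ddM bM d) u.length := by
  refine val_mem bM ((AddMonoidHom.mulRight (f q)).comp (bkM a d (j, u)))
    (Vn ρ f a (ddM bM d) u.length ⊔ Wn ρ f a (ddM bM d) u.length).toAddSubgroup
    (fun k => ?_) (fun e m' h => ?_) m
  · exact tri_VW hCl hd (k, j) u q
  · change bkM a d (j, u) (MonoidAlgebra.single e (1 : ℤ) • m') * f q ∈ _
    change bkM a d (j, u) m' * f q ∈
      Vn ρ f a (ddM bM d) u.length ⊔ Wn ρ f a (ddM bM d) u.length at h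
    rw [bkM_lin hl, mul_assoc]
    obtain ⟨v, hv, w, hw, e'⟩ := Submodule.mem_sup.mp h
    rw [← e', mul_add]
    exact add_mem (Submodule.mem_sup_left (rho_mul_Vn hv e))
      (Submodule.mem_sup_right (rho_mul_Wn hw e))

/-- **The typed triangular rule**. -/
private theorem tri_ty (hl : LinD ρ f d) (hCl : Cl (f : Q' →+* T) (Sum.elim a (ddM bM d)))
    (hX : RulD X f d) (α : MX LL Q' Q' I)
    (hα : ∀ i q, ∃ (c : Q') (y : B × J →₀ Q'),
      a i * f q = f c + lin (f : Q' →+* T) a (α.x i q) + lin (f : Q' →+* T) (ddM bM d) y)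
    (Z : MX LL Q' (MonoidAlgebra LL S) (J × List I))
    (hZ0 : ∀ j q, Z.x (j, []) q = (X.x j q).mapDomain fun j' => (j', []))
    (hZ1 : ∀ j i u q, Z.x (j, i :: u) q = (α.x i q).sum fun k c =>
      (Z.x (j, u) c).mapDomain fun x => (x.1, k :: x.2))
    (j : J) (u : List I) (q : Q') (m : M) :
    bkM a d (j, u) m * f q - tr (bkM a d) (Z.x (j, u) q) m ∈ Wn ρ f a (ddM bM d) u.length := by
  have hd : HD ρ f (ddM bM d) := hd_of hl hX
  induction u generalizing q with
  | nil =>
    have e : bkM a d (j, []) m * f q = tr (bkM a d) (Z.x (j, []) q) m := by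
      rw [bkM_nil, hX, hZ0]
      exact tr_map (LL := LL) (LinearMap.id : T →ₗ[LL] T) d (bkM a d) (fun j' => (j', []))
        (fun j m => by rw [bkM_nil]; rfl) (X.x j q) m
    rw [e, sub_self]
    exact zero_mem _
  | cons i u ih =>
    obtain ⟨c, y, hq⟩ := hα i q
    have hVW : Vn ρ f a (ddM bM d) u.length ⊔ Wn ρ f a (ddM bM d) u.length ≤
        Wn ρ f a (ddM bM d) (u.length + 1) := sup_le (Vn_le_Wn _) (Wn_mono (Nat.le_succ _))
    have e1 : bkM a d (j, i :: u) m * f q = bkM a d (j, u) m * f c +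
        (∑ k ∈ (α.x i q).support, bkM a d (j, u) m * f ((α.x i q) k) * a k) +
        ∑ b' ∈ y.support, bkM a d (j, u) m * f (y b') * ddM bM d b' := by
      have h0 := bkM_cons (a := a) (d := d) (j, u) i m
      change bkM a d (j, i :: u) m = _ at h0
      rw [h0, mul_assoc, hq, mul_add, mul_add, lin, lin, Finsupp.sum, Finsupp.sum,
        Finset.mul_sum, Finset.mul_sum]
      congr 1
      · congr 1
        refine Finset.sum_congr rfl fun k _ => ?_
        rw [← mul_assoc]
        rfl
      · refine Finset.sum_congr rfl fun k _ => ?_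
        rw [← mul_assoc]
        rfl
    have e2 : tr (bkM a d) (Z.x (j, i :: u) q) m =
        ∑ k ∈ (α.x i q).support, tr (bkM a d) (Z.x (j, u) ((α.x i q) k)) m * a k := by
      rw [hZ1, Finsupp.sum, tr_sum]
      refine Finset.sum_congr rfl fun k _ => ?_
      exact (tr_map (LL := LL) (LinearMap.mulRight LL (a k)) (bkM a d) (bkM a d)
        (fun x : J × List I => (x.1, k :: x.2)) (fun x m' => (bkM_cons x k m').symm) _ m).symm
    have e3 : bkM a d (j, i :: u) m * f q - tr (bkM a d) (Z.x (j, i :: u) q) m =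
        bkM a d (j, u) m * f c +
        (∑ k ∈ (α.x i q).support, (bkM a d (j, u) m * f ((α.x i q) k) -
          tr (bkM a d) (Z.x (j, u) ((α.x i q) k)) m) * a k) +
        ∑ b' ∈ y.support, bkM a d (j, u) m * f (y b') * ddM bM d b' := by
      rw [e1, e2]
      have : (∑ k ∈ (α.x i q).support, (bkM a d (j, u) m * f ((α.x i q) k) -
          tr (bkM a d) (Z.x (j, u) ((α.x i q) k)) m) * a k) =
          (∑ k ∈ (α.x i q).support, bkM a d (j, u) m * f ((α.x i q) k) * a k) -
          ∑ k ∈ (α.x i q).support, tr (bkM a d) (Z.x (j, u) ((α.x i q) k)) m * a k := by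
        rw [← Finset.sum_sub_distrib]
        refine Finset.sum_congr rfl fun k _ => ?_
        rw [sub_mul]
      rw [this]
      abel
    rw [e3, List.length_cons]
    refine add_mem (add_mem (hVW (val_VW hl hCl hd j u c m)) ?_) ?_
    · exact Submodule.sum_mem _ fun k _ => Wn_mul_a (ih ((α.x i q) k)) k
    · refine Submodule.sum_mem _ fun b' _ => ?_
      obtain ⟨v, hv, w, hw, e⟩ := Submodule.mem_sup.mp (val_VW hl hCl hd j u (y b') m)
      rw [← e, add_mul]
      exact add_mem (Vn_mul_D hv b') (Wn_mul_d hw b')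

section TheAlgebra

variable (hl : LinD ρ f d) (hCl : Cl (f : Q' →+* T) (Sum.elim a (ddM bM d)))
  (hd : HD ρ f (ddM bM d))

omit [DistribMulAction Sᵐᵒᵖ M] in
private theorem rho_mul_spW {t : T} (ht : t ∈ spW LL (fr ρ f) (bk a (ddM bM d)) (fun _ => True))
    (e : S) : f (ρ e) * t ∈ spW LL (fr ρ f) (bk a (ddM bM d)) (fun _ => True) := by
  refine mul_mem_of_gen' ?_ ht
  rintro _ ⟨c', s, h1, rfl⟩
  rw [← fr_apply, ← mul_assoc, ← map_mul]
  exact Submodule.subset_span ⟨e * c', s, h1, rfl⟩

omit [DistribMulAction Sᵐᵒᵖ M] in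
include hl in
private theorem bkM_mem (x : J × List I) (m : M) :
    bkM a d x m ∈ spW LL (fr ρ f) (bk a (ddM bM d)) (fun _ => True) := by
  refine val_mem bM (bkM a d x) (spW LL (fr ρ f) (bk a (ddM bM d))
    (fun _ => True)).toAddSubgroup (fun k => ?_) (fun e m' h => ?_) m
  · exact blk_mem (b := bk a (ddM bM d)) (a := ((k, x.1), x.2)) trivial
  · rw [bkM_lin hl]
    exact rho_mul_spW h e

/-- The typed blocks in `L`. -/
private noncomputable def bLM (x : J × List I) : M →+ LA hCl hd where
  toFun m := ⟨bkM a d x m, bkM_mem hl x m⟩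
  map_zero' := Subtype.ext (map_zero (bkM a d x))
  map_add' m m' := Subtype.ext (map_add (bkM a d x) m m')

private theorem blkM_L (hX : RulD X f d)
    (hF : Injective (ev (f : Q' →+* T) (Sum.elim a (ddM bM d))))
    (hg : Injective (gr LL ρ)) (α : MX LL Q' Q' I)
    (hα : ∀ i q, ∃ (c : Q') (y : B × J →₀ Q'),
      a i * f q = f c + lin (f : Q' →+* T) a (α.x i q) + lin (f : Q' →+* T) (ddM bM d) y)
    (Z : MX LL Q' (MonoidAlgebra LL S) (J × List I))
    (hZ0 : ∀ j q, Z.x (j, []) q = (X.x j q).mapDomain fun j' => (j', []))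
    (hZ1 : ∀ j i u q, Z.x (j, i :: u) q = (α.x i q).sum fun k c =>
      (Z.x (j, u) c).mapDomain fun x => (x.1, k :: x.2))
    (hZs : ∀ x q, ∀ x' ∈ (Z.x x q).support, x'.2.length = x.2.length) :
    BlkM (Z.toMS ρ) bM (rL hCl hd) (bLM hl hCl hd) (fun x => x.2.length) where
  lin := fun x e m => Subtype.ext (bkM_lin hl x e m)
  free := by
    have h := freeW_equiv _ _ (Equiv.prodAssoc B J (List I)).symm (free_L hCl hd hF hg)
    exact h
  siz := fun x e x' hx' => hZs x (ρ e) x' hx'
  tri := by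
    rintro ⟨j, u⟩ e m
    have hw := tri_ty hl hCl hX α hα Z hZ0 hZ1 j u (ρ e) m
    obtain ⟨z, hz, hze⟩ := Wn_le _ hw
    refine ⟨Finsupp.mapDomain (List.map (Equiv.prodAssoc B J (List I))) z,
      Subtype.ext ?_, ?_⟩
    · rw [evLin_apply] at hze
      change bkM a d (j, u) m * f (ρ e) = _
      have hc : ((LA hCl hd).val : LA hCl hd →+* T).comp
          (gr LL (rL hCl hd) : MonoidAlgebra LL S →+* LA hCl hd) =
          (gr LL (fr ρ f) : MonoidAlgebra LL S →+* T) :=
        RingHom.ext (gr_rhoS (clo_all hCl hd))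
      have h1 : ((tr (bLM hl hCl hd) ((Z.toMS ρ).y (j, u) e) m : LA hCl hd) : T) =
          tr (bkM a d) (Z.x (j, u) (ρ e)) m := by
        have := tr_map (LL := LL) (LA hCl hd).val.toLinearMap (bLM hl hCl hd) (bkM a d) id
          (fun z p' => rfl) (Z.x (j, u) (ρ e)) m
        rw [Finsupp.mapDomain_id] at this
        exact this
      have h2 : ((ev (gr LL (rL hCl hd) : MonoidAlgebra LL S →+* LA hCl hd)
          (fun a : B × (J × List I) => bLM hl hCl hd a.2 (bM a.1))
          (Finsupp.mapDomain (List.map (Equiv.prodAssoc B J (List I))) z) : LA hCl hd) : T) =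
          ev (gr LL (fr ρ f) : MonoidAlgebra LL S →+* T) (bk a (ddM bM d)) z := by
        rw [ev_mapD]
        have := map_ev ((LA hCl hd).val : LA hCl hd →+* T)
          (gr LL (rL hCl hd) : MonoidAlgebra LL S →+* LA hCl hd)
          (fun x => bLM hl hCl hd (Equiv.prodAssoc B J (List I) x).2
            (bM (Equiv.prodAssoc B J (List I) x).1)) z
        rw [hc] at this
        exact this
      rw [Subalgebra.coe_add, h1, h2, hze]
      abel
    · intro v hv x' hx'
      classical
      obtain ⟨v', hv', rfl⟩ := Finset.mem_image.mp (Finsupp.mapDomain_support hv)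
      obtain ⟨x'', hx'', rfl⟩ := List.mem_map.mp hx'
      exact hz hv' x'' hx''

end TheAlgebra

end Blocks

end Pool.Agent.HierR.LB.PlmM

namespace Pool.Agent.HierR

open Pool.Agent.Wald Pool.Agent.Ind Pool.Agent.Hier Function LB LB.PlmM

private theorem spn_lin {LL Q' T Λ S : Type} [CommRing LL] [Monoid S] [Ring Q'] [Algebra LL Q']
    [Ring T] [Algebra LL T] (ρ : S →* Q') (f : Q' →ₐ[LL] T) (D : Λ → T) {t : T}
    (ht : t ∈ Submodule.span LL {t | ∃ c b', t = f (ρ c) * D b'}) :
    ∃ y : Λ →₀ Q', t = lin (f : Q' →+* T) D y := by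
  induction ht using Submodule.span_induction with
  | mem x hx =>
    obtain ⟨c, b', rfl⟩ := hx
    refine ⟨Finsupp.single b' (ρ c), ?_⟩
    rw [lin, Finsupp.sum_single_index]
    · rfl
    · rw [map_zero, zero_mul]
  | zero => exact ⟨0, by rw [lin, Finsupp.sum_zero_index]⟩
  | add x y _ _ hx hy =>
    obtain ⟨x', rfl⟩ := hx
    obtain ⟨y', rfl⟩ := hy
    refine ⟨x' + y', ?_⟩
    classical
    rw [lin, lin, lin, Finsupp.sum_add_index]
    · intro b _
      rw [map_zero, zero_mul]
    · intro b _ r s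
      rw [map_add, add_mul]
  | smul l x _ hx =>
    obtain ⟨x', rfl⟩ := hx
    refine ⟨l • x', ?_⟩
    rw [lin, lin, Finsupp.sum_smul_index']
    · rw [Finsupp.smul_sum]
      refine Finsupp.sum_congr fun b _ => ?_
      change l • (f (x' b) * D b) = f (l • x' b) * D b
      rw [map_smul, smul_mul_assoc]
    · intro b
      rw [map_zero, zero_mul]

/-- **L7.** Blocks and patch together, typed. -/
theorem plm (h1 : S_blkm) (h2 : S_Patch) (h3 : S_mxc) (h4 : S_pow) (h5 : S_alp) : S_plm := by
  intro LL S Q' Q I J T M B _ _ _ _ _ _ _ _ _ _ _ _ _ _ X bM ρ f a d π hret hl hF hCl hX hπs hπ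
    hker hS
  obtain ⟨s, hs⟩ := hret
  have hg : Injective (gr LL ρ) := fun x y h => by
    have := congrArg s h
    rwa [hs, hs] at this
  have hS' : SLM (Lau LL) S M := hS
  have hd : HD ρ f (ddM bM d) := hd_of hl hX
  obtain ⟨α, hα⟩ := h5 LL Q' T I (B × J) f a (ddM bM d) hF hCl
    (fun b' q => spn_lin ρ f (ddM bM d) (hd b' q))
  obtain ⟨A, hA0, hA1, hAl⟩ := h4 LL Q' I α
  obtain ⟨Z, hZ⟩ := h3 LL Q' Q' (MonoidAlgebra LL S) (List I) J A X
  have hZ0 : ∀ j q, Z.x (j, []) q = (X.x j q).mapDomain fun j' => (j', []) := by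
    intro j q
    rw [hZ, hA0, Finsupp.sum_single_index]
    rw [map_zero, Finsupp.mapDomain_zero]
  have hZ1 : ∀ j i u q, Z.x (j, i :: u) q = (α.x i q).sum fun k c =>
      (Z.x (j, u) c).mapDomain fun x => (x.1, k :: x.2) := by
    intro j i u q
    classical
    rw [hZ, hA1]
    have hadd : ∀ (z z' : List I →₀ Q'), ((z + z').sum fun i' c =>
        (X.x j c).mapDomain fun j' => (j', i')) = (z.sum fun i' c =>
        (X.x j c).mapDomain fun j' => (j', i')) + z'.sum fun i' c =>
        (X.x j c).mapDomain fun j' => (j', i') := by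
      intro z z'
      rw [Finsupp.sum_add_index]
      · intro b _
        rw [map_zero, Finsupp.mapDomain_zero]
      · intro b _ r s
        rw [map_add, Finsupp.mapDomain_add]
    set Φ : (List I →₀ Q') →+ (J × List I →₀ MonoidAlgebra LL S) :=
      { toFun := fun z => z.sum fun i' c => (X.x j c).mapDomain fun j' => (j', i')
        map_zero' := Finsupp.sum_zero_index
        map_add' := hadd } with hΦ
    change Φ ((α.x i q).sum fun k c => (A.x u c).mapDomain (List.cons k)) = _
    rw [Finsupp.sum, map_sum, Finsupp.sum]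
    refine Finset.sum_congr rfl fun k _ => ?_
    change (((A.x u ((α.x i q) k)).mapDomain (List.cons k)).sum fun i' c =>
      (X.x j c).mapDomain fun j' => (j', i')) = _
    rw [Finsupp.sum_mapDomain_index, hZ, Finsupp.sum, Finsupp.sum, Finsupp.mapDomain_finsetSum]
    · refine Finset.sum_congr rfl fun v _ => ?_
      rw [← Finsupp.mapDomain_comp]
      rfl
    · intro b
      rw [map_zero, Finsupp.mapDomain_zero]
    · intro b r s
      rw [map_add, Finsupp.mapDomain_add]
  have hZs : ∀ x q, ∀ x' ∈ (Z.x x q).support, x'.2.length = x.2.length := by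
    rintro ⟨j, u⟩ q x' hx'
    classical
    rw [hZ] at hx'
    obtain ⟨v, hv, hx''⟩ := Finset.mem_biUnion.mp (Finsupp.support_sum hx')
    obtain ⟨j', _, rfl⟩ := Finset.mem_image.mp (Finsupp.mapDomain_support hx'')
    exact hAl u q v hv
  have hB := blkM_L hl hCl hd hX hF.1 hg α hα Z hZ0 hZ1 hZs
  refine patch_pl h2 (d := ddM bM d) hCl hd hF hg π hπs (fun b => hπ _ _) ?_ ?_
  · intro t ht
    refine (AddSubgroup.closure_le _).mpr ?_ (hker t ht)
    rintro _ ⟨t₁, j, m, t₂, rfl⟩
    have key : ∀ m : M, ∀ t₁ : T, t₁ * d j m * t₂ ∈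
        AddSubgroup.closure {s | ∃ t₁ b t₂, s = t₁ * ddM bM d b * t₂} := by
      refine mem_of_lbasis bM
        { carrier := {m | ∀ t₁ : T, t₁ * d j m * t₂ ∈
            AddSubgroup.closure {s | ∃ t₁ b t₂, s = t₁ * ddM bM d b * t₂}}
          add_mem' := fun {x y} hx hy t₁ => by
            rw [map_add, mul_add, add_mul]
            exact add_mem (hx t₁) (hy t₁)
          zero_mem' := fun t₁ => by
            rw [map_zero, mul_zero, zero_mul]
            exact zero_mem _
          neg_mem' := fun {x} hx t₁ => by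
            rw [map_neg, mul_neg, neg_mul]
            exact neg_mem (hx t₁) } (fun k t₁ => ?_) (fun e m' h t₁ => ?_)
      · exact AddSubgroup.subset_closure ⟨t₁, (k, j), t₂, rfl⟩
      · change t₁ * d j (MonoidAlgebra.single e (1 : ℤ) • m') * t₂ ∈ _
        rw [hl, ← mul_assoc]
        exact h (t₁ * f (ρ e))
    exact key m t₁
  · exact h1 _ _ _ _ _ _ _ _ _ _ _ _ hB hS'

end Pool.Agent.HierR
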