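import Pool.Agent.Lib.MP_8f66f0_al_HierR.SpecL

/-! L4: iteration of a matrix representation (words). -/

set_option autoImplicit false

namespace Pool.Agent.HierR

open Pool.Agent.Wald Pool.Agent.Ind Pool.Agent.Hier

section

variable {LL A I : Type} [CommRing LL] [Ring A] [Algebra LL A]

/-- One step of the recursion. -/
private noncomputable def powS (Zu : A →ₗ[LL] (List I →₀ A)) : (I →₀ A) →ₗ[LL] (List I →₀ A) :=
  Finsupp.lsum LL fun k : I => (Finsupp.lmapDomain A LL (List.cons k)).comp Zu

private theorem powS_apply (Zu : A →ₗ[LL] (List I →₀ A)) (y : I →₀ A) :
    powS Zu y = y.sum fun k c => (Zu c).mapDomain (List.cons k) := by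
  unfold powS
  rw [Finsupp.lsum_apply]
  rfl

private theorem powS_single (Zu : A →ₗ[LL] (List I →₀ A)) (k : I) (c : A) :
    powS Zu (Finsupp.single k c) = (Zu c).mapDomain (List.cons k) := by
  rw [powS_apply, Finsupp.sum_single_index]
  rw [map_zero, Finsupp.mapDomain_zero]

/-- The matrices. -/
private noncomputable def powX (X : MX LL A A I) : List I → (A →ₗ[LL] (List I →₀ A))
  | [] => Finsupp.lsingle []
  | i :: u => (powS (powX X u)).comp (X.x i)

private theorem powX_cons (X : MX LL A A I) (i : I) (u : List I) (a : A) :
    powX X (i :: u) a = powS (powX X u) (X.x i a) := rfl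

private theorem powX_one (X : MX LL A A I) (u : List I) :
    powX X u 1 = Finsupp.single u 1 := by
  induction u with
  | nil => rfl
  | cons i u ih => rw [powX_cons, X.one, powS_single, ih, Finsupp.mapDomain_single]

private theorem powX_mul (X : MX LL A A I) (u : List I) : ∀ a a' : A,
    powX X u (a * a') = Finsupp.linearCombination A (fun u' => powX X u' a') (powX X u a) := by
  induction u with
  | nil =>
    intro a a'
    change Finsupp.single [] (a * a') =
      Finsupp.linearCombination A (fun u' => powX X u' a') (Finsupp.single [] a)
    rw [Finsupp.linearCombination_single]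
    change Finsupp.single [] (a * a') = a • Finsupp.single [] a'
    rw [Finsupp.smul_single, smul_eq_mul]
  | cons i u ih =>
    intro a a'
    have key2 : ∀ (r : A) (y : I →₀ A), powS (powX X u) (r • y) =
        Finsupp.linearCombination A (fun u' => powS (powX X u') y) (powX X u r) := by
      intro r y
      induction y using Finsupp.induction_linear with
      | zero =>
        rw [smul_zero, map_zero]
        have h : (fun u' : List I => powS (powX X u') (0 : I →₀ A)) = fun _ => 0 := by
          funext u'
          rw [map_zero]
        rw [h, Finsupp.linearCombination_apply]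
        simp
      | add y1 y2 h1 h2 =>
        rw [smul_add, map_add, h1, h2, Finsupp.linearCombination_apply,
          Finsupp.linearCombination_apply, Finsupp.linearCombination_apply, ← Finsupp.sum_add]
        refine Finsupp.sum_congr fun u' _ => ?_
        rw [map_add, smul_add]
      | single k c =>
        rw [Finsupp.smul_single, smul_eq_mul, powS_single, ih r c]
        have h : (fun u' : List I => powS (powX X u') (Finsupp.single k c)) =
            fun u' => Finsupp.lmapDomain A A (List.cons k) (powX X u' c) := by
          funext u'
          rw [powS_single]
          rfl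
        rw [h]
        have h2 := Finsupp.apply_linearCombination A (Finsupp.lmapDomain A A (List.cons k))
          (fun u' => powX X u' c) (powX X u r)
        exact h2
    have key1 : ∀ y : I →₀ A,
        powS (powX X u) (Finsupp.linearCombination A (fun j => X.x j a') y) =
          Finsupp.linearCombination A (fun u' => powX X u' a') (powS (powX X u) y) := by
      intro y
      induction y using Finsupp.induction_linear with
      | zero => rw [map_zero, map_zero, map_zero]
      | add y1 y2 h1 h2 => rw [map_add, map_add, map_add, map_add, h1, h2]
      | single j r =>
        rw [Finsupp.linearCombination_single, key2, powS_single,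
          Finsupp.linearCombination_mapDomain]
        rfl
    rw [powX_cons, X.mul, powX_cons, ← key1]
    rfl

private theorem powX_len (X : MX LL A A I) (u : List I) : ∀ a : A,
    ∀ u' ∈ (powX X u a).support, u'.length = u.length := by
  classical
  induction u with
  | nil =>
    intro a u' hu'
    have h1 : u' ∈ (Finsupp.single ([] : List I) a).support := hu'
    have h2 := Finsupp.support_single_subset h1
    rw [Finset.mem_singleton] at h2
    rw [h2]
  | cons i u ih =>
    intro a u' hu'
    rw [powX_cons, powS_apply] at hu'
    have h1 := Finsupp.support_sum hu'
    rw [Finset.mem_biUnion] at h1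
    obtain ⟨k, _, hk⟩ := h1
    have h2 := Finsupp.mapDomain_support hk
    rw [Finset.mem_image] at h2
    obtain ⟨v, hv, rfl⟩ := h2
    rw [List.length_cons, List.length_cons, ih _ v hv]

end

/-- L4. Iteration. -/
theorem pow : S_pow := by
  intro LL A I _ _ _ X
  refine ⟨{ x := powX X, one := powX_one X, mul := fun u a a' => ?_ }, ?_, ?_, ?_⟩
  · rw [powX_mul, Finsupp.linearCombination_apply]
  · intro a
    rfl
  · intro i u a
    change powX X (i :: u) a = _
    rw [powX_cons, powS_apply]
  · exact powX_len X

end Pool.Agent.HierR
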