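import Pool.Agent.Lib.MP_8f66f0_al_HierR.SpecL

/-! Block L, module L2: the right multiplication of an algebra with a basis of words. -/

set_option autoImplicit false

namespace Pool.Agent.HierR

open Pool.Agent.Wald Pool.Agent.Ind Pool.Agent.Hier

section

variable {LL C T Λ : Type} [CommRing LL] [Ring C] [Ring T] [Algebra LL C] [Algebra LL T]

/-- `ev` as an additive map. -/
private noncomputable def regHom (f : C →+* T) (ℓ : Λ → T) : (List Λ →₀ C) →+ T :=
  Finsupp.liftAddHom fun u => (AddMonoidHom.mulRight (wd ℓ u)).comp (f : C →+ T)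

private theorem regHom_apply (f : C →+* T) (ℓ : Λ → T) (x : List Λ →₀ C) :
    regHom f ℓ x = ev f ℓ x := rfl

private theorem regHom_single (f : C →+* T) (ℓ : Λ → T) (u : List Λ) (q : C) :
    regHom f ℓ (Finsupp.single u q) = f q * wd ℓ u := by
  rw [regHom, Finsupp.liftAddHom_apply_single]
  rfl

private theorem regHom_smul (f : C →+* T) (ℓ : Λ → T) (r : C) (x : List Λ →₀ C) :
    regHom f ℓ (r • x) = f r * regHom f ℓ x := by
  rw [regHom_apply, regHom_apply, ev, ev,
    Finsupp.sum_smul_index' (by intro u; rw [map_zero, zero_mul]), Finsupp.mul_sum]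
  refine Finsupp.sum_congr fun u _ => ?_
  rw [smul_eq_mul, map_mul, mul_assoc]

private theorem regHom_smulL (f : C →ₐ[LL] T) (ℓ : Λ → T) (t : LL) (x : List Λ →₀ C) :
    regHom (f : C →+* T) ℓ (t • x) = t • regHom (f : C →+* T) ℓ x := by
  rw [regHom_apply, regHom_apply, ev, ev,
    Finsupp.sum_smul_index' (by intro u; rw [map_zero, zero_mul]), Finsupp.smul_sum]
  refine Finsupp.sum_congr fun u _ => ?_
  show f (t • x u) * _ = _
  rw [map_smul, smul_mul_assoc]
  rfl

end

theorem reg : S_reg := by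
  intro LL C T Λ _ _ _ _ _ f ℓ hf
  have hf' : Function.Bijective (regHom (f : C →+* T) ℓ) := hf
  let E : (List Λ →₀ C) ≃ₗ[LL] T := LinearEquiv.ofBijective
    { toFun := regHom (f : C →+* T) ℓ
      map_add' := map_add (regHom (f : C →+* T) ℓ)
      map_smul' := fun t x => regHom_smulL f ℓ t x } hf'
  have hE : ∀ x, E x = regHom (f : C →+* T) ℓ x := fun _ => rfl
  have hEs : ∀ t, regHom (f : C →+* T) ℓ (E.symm t) = t := fun t => E.apply_symm_apply t
  let x : List Λ → T →ₗ[LL] (List Λ →₀ C) := fun u =>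
    (E.symm : T →ₗ[LL] (List Λ →₀ C)).comp (LinearMap.mulLeft LL (wd ℓ u))
  have hx : ∀ u t, regHom (f : C →+* T) ℓ (x u t) = wd ℓ u * t := fun u t => hEs _
  refine ⟨⟨x, fun u => ?_, fun u a a' => ?_⟩, fun u t => (hx u t).symm⟩
  · apply hf'.1
    rw [hx, regHom_single, map_one, one_mul, mul_one]
  · apply hf'.1
    rw [hx, ← mul_assoc, ← hx u a, Finsupp.sum, map_sum]
    conv_lhs => rw [regHom_apply, ev, Finsupp.sum, Finset.sum_mul]
    refine Finset.sum_congr rfl fun v _ => ?_
    rw [regHom_smul, hx, mul_assoc]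

end Pool.Agent.HierR
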