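import Pool.Agent.Lib.MP_8f66f0_al_HierR.BlkC
import Pool.Agent.Lib.MP_8f66f0_al_Hier.BlkD

/-! Block data: base change of the coefficients. -/

set_option autoImplicit false

namespace Pool.Agent.HierR.LB

open Pool.Agent.Wald Pool.Agent.Ind Pool.Agent.Hier Pool.Agent.Hier.LB Function
open scoped TensorProduct

section Basis

variable {LL : Type} [CommRing LL] {C L β : Type} [Monoid C] [Ring L] [Algebra LL L]

/-- Coefficients in the group algebra as a product index. -/
noncomputable def crE (LL C β : Type) [CommRing LL] [Monoid C] :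
    (List β × C →₀ LL) ≃ₗ[LL] (List β →₀ MonoidAlgebra LL C) :=
  (Finsupp.curryLinearEquiv (R := LL) (M := LL) (α := List β) (β := C)).trans
    (Finsupp.mapRange.linearEquiv (MonoidAlgebra.coeffLinearEquiv (S := LL) (M := C) LL).symm)

theorem crE_single (u : List β) (c : C) (l : LL) :
    crE LL C β (Finsupp.single (u, c) l) = Finsupp.single u (MonoidAlgebra.single c l) := by
  simp only [crE, LinearEquiv.trans_apply]
  have h1 : (Finsupp.curryLinearEquiv (R := LL) (M := LL) (α := List β) (β := C))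
      (Finsupp.single (u, c) l) = Finsupp.single u (Finsupp.single c l) := by
    change Finsupp.curry _ = _
    simp
  rw [h1, Finsupp.mapRange.linearEquiv_apply, Finsupp.mapRange_single]
  rfl

theorem freeW_iff_basis (ρ : C →* L) (b : β → L) :
    FreeW (gr LL ρ : MonoidAlgebra LL C →+* L) b ↔
      Bijective (Finsupp.linearCombination LL fun p : List β × C => ρ p.2 * wd b p.1) := by
  have key : (evLin (gr LL ρ) b) ∘ₗ (crE LL C β).toLinearMap =
      Finsupp.linearCombination LL fun p : List β × C => ρ p.2 * wd b p.1 := by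
    refine Finsupp.lhom_ext fun p l => ?_
    obtain ⟨u, c⟩ := p
    change evLin (gr LL ρ) b (crE LL C β (Finsupp.single (u, c) l)) = _
    rw [crE_single, evLin_single, Finsupp.linearCombination_single]
    change MonoidAlgebra.lift LL L C ρ (MonoidAlgebra.single c l) * _ = _
    rw [MonoidAlgebra.lift_single, smul_mul_assoc]
  have e1 : ev (gr LL ρ : MonoidAlgebra LL C →+* L) b = ⇑(evLin (gr LL ρ) b) := by
    funext z
    exact (evLin_apply _ _ z).symm
  rw [← key, FreeW, e1]
  constructor
  · intro h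
    exact h.comp (crE LL C β).bijective
  · intro h
    have h2 : ⇑(evLin (gr LL ρ) b) =
        (⇑((evLin (gr LL ρ) b) ∘ₗ (crE LL C β).toLinearMap)) ∘ ⇑(crE LL C β).symm := by
      funext z
      simp
    rw [h2]
    exact h.comp (crE LL C β).symm.bijective

end Basis

section BC

variable {LL : Type} [CommRing LL] {C L β : Type} [Monoid C] [Ring L] [Algebra LL L]
  (LL' : Type) [CommRing LL'] [Algebra LL LL']

theorem bch_apply (ρ : C →* L) (c : C) : bch LL LL' ρ c = (1 : LL') ⊗ₜ[LL] ρ c := rfl

theorem inc_wd (b : β → L) (u : List β) :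
    wd (fun a => (1 : LL') ⊗ₜ[LL] b a) u = (1 : LL') ⊗ₜ[LL] wd b u :=
  (map_wd ((Algebra.TensorProduct.includeRight : L →ₐ[LL] LL' ⊗[LL] L) : L →+* LL' ⊗[LL] L)
    b u).symm

theorem free_bc (ρ : C →* L) (b : β → L) (h : FreeW (gr LL ρ : MonoidAlgebra LL C →+* L) b) :
    FreeW (gr LL' (bch LL LL' ρ) : MonoidAlgebra LL' C →+* LL' ⊗[LL] L)
      (fun a => (1 : LL') ⊗ₜ[LL] b a) := by
  rw [freeW_iff_basis] at h ⊢
  set B : Module.Basis (List β × C) LL L :=
    Module.Basis.ofRepr (LinearEquiv.ofBijective _ h).symm with hB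
  have hBp : ∀ p, B p = ρ p.2 * wd b p.1 := by
    intro p
    change (LinearEquiv.ofBijective _ h).symm.symm (Finsupp.single p 1) = _
    rw [LinearEquiv.symm_symm, LinearEquiv.ofBijective_apply, Finsupp.linearCombination_single,
      one_smul]
  have e1 : (fun p : List β × C => bch LL LL' ρ p.2 * wd (fun a => (1 : LL') ⊗ₜ[LL] b a) p.1) =
      fun p => (B.baseChange LL') p := by
    funext p
    rw [Module.Basis.baseChange_apply, hBp, bch_apply, inc_wd,
      Algebra.TensorProduct.tmul_mul_tmul, one_mul]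
  rw [e1]
  have e2 : ⇑(Finsupp.linearCombination LL' fun p => (B.baseChange LL') p) =
      ⇑(B.baseChange LL').repr.symm := by
    funext z
    exact ((B.baseChange LL').repr_symm_apply z).symm
  rw [e2]
  exact (B.baseChange LL').repr.symm.bijective

/-- Base change of the group algebra. -/
noncomputable def mr : MonoidAlgebra LL C →+* MonoidAlgebra LL' C :=
  MonoidAlgebra.mapRingHom C (algebraMap LL LL')

theorem mr_single (c : C) (l : LL) :
    mr LL' (MonoidAlgebra.single c l) = MonoidAlgebra.single c (algebraMap LL LL' l) :=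
  MonoidAlgebra.mapRingHom_single _ _ _

theorem inc_gr (ρ : C →* L) (r : MonoidAlgebra LL C) :
    (1 : LL') ⊗ₜ[LL] gr LL ρ r = gr LL' (bch LL LL' ρ) (mr LL' r) := by
  induction r using MonoidAlgebra.induction_linear with
  | zero => simp
  | add f g hf hg => rw [map_add, TensorProduct.tmul_add, hf, hg, map_add, map_add]
  | single c l =>
    change (1 : LL') ⊗ₜ[LL] (MonoidAlgebra.lift LL L C ρ (MonoidAlgebra.single c l)) =
      MonoidAlgebra.lift LL' _ C (bch LL LL' ρ) (mr LL' (MonoidAlgebra.single c l))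
    rw [MonoidAlgebra.lift_single, mr_single, MonoidAlgebra.lift_single, bch_apply,
      TensorProduct.tmul_smul, TensorProduct.smul_tmul', TensorProduct.smul_tmul', ]
    simp [Algebra.smul_def]

theorem inc_lin (ρ : C →* L) (b : β → L) (y : β →₀ MonoidAlgebra LL C) :
    (1 : LL') ⊗ₜ[LL] lin (gr LL ρ : MonoidAlgebra LL C →+* L) b y =
      lin (gr LL' (bch LL LL' ρ) : MonoidAlgebra LL' C →+* LL' ⊗[LL] L)
        (fun a => (1 : LL') ⊗ₜ[LL] b a) (Finsupp.mapRange (mr LL') (map_zero _) y) := by
  classical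
  rw [lin, lin, Finsupp.sum_mapRange_index (fun a => by rw [map_zero, zero_mul]), Finsupp.sum,
    Finsupp.sum, TensorProduct.tmul_sum]
  refine Finset.sum_congr rfl fun a _ => ?_
  have := inc_gr LL' ρ (y a)
  change _ = gr LL' (bch LL LL' ρ) (mr LL' (y a)) * _
  rw [← this, Algebra.TensorProduct.tmul_mul_tmul, one_mul]
  rfl

theorem inc_ev (ρ : C →* L) (b : β → L) (z : List β →₀ MonoidAlgebra LL C) :
    (1 : LL') ⊗ₜ[LL] ev (gr LL ρ : MonoidAlgebra LL C →+* L) b z =
      ev (gr LL' (bch LL LL' ρ) : MonoidAlgebra LL' C →+* LL' ⊗[LL] L)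
        (fun a => (1 : LL') ⊗ₜ[LL] b a) (Finsupp.mapRange (mr LL') (map_zero _) z) := by
  classical
  rw [ev, ev, Finsupp.sum_mapRange_index (fun a => by rw [map_zero, zero_mul]), Finsupp.sum,
    Finsupp.sum, TensorProduct.tmul_sum]
  refine Finset.sum_congr rfl fun a _ => ?_
  have := inc_gr LL' ρ (z a)
  change _ = gr LL' (bch LL LL' ρ) (mr LL' (z a)) * _
  rw [← this, inc_wd, Algebra.TensorProduct.tmul_mul_tmul, one_mul]
  rfl

/-- **Base change of block data.** -/
theorem blk_bc {ρ : C →* L} {b : β → L} {sz : β → ℕ} (hB : Blk LL ρ b sz) :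
    Blk LL' (bch LL LL' ρ) (fun a => (1 : LL') ⊗ₜ[LL] b a) sz where
  free := free_bc LL' ρ b hB.free
  tri := by
    intro x c
    obtain ⟨y, z, h1, h2, h3⟩ := hB.tri x c
    refine ⟨Finsupp.mapRange (mr LL') (map_zero _) y, Finsupp.mapRange (mr LL') (map_zero _) z,
      ?_, fun x' hx' => h2 x' (Finsupp.support_mapRange hx'), fun u hu =>
        h3 u (Finsupp.support_mapRange hu)⟩
    rw [← inc_lin, ← inc_ev, ← TensorProduct.tmul_add, ← h1, bch_apply,
      Algebra.TensorProduct.tmul_mul_tmul, one_mul]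

end BC

end Pool.Agent.HierR.LB
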