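import Pool.Agent.Lib.MP_8f66f0_al_HierR.Defs
import Pool.Agent.Lib.MP_8f66f0_al_HierR.SpecP
import Pool.Agent.Lib.MP_8f66f0_al_HierR.BlkD

/-! Block L: matrix representations, typed blocks and the chain. Statements with proofs. -/

set_option autoImplicit false

namespace Pool.Agent.HierR

open Pool.Agent.Wald Pool.Agent.Ind Pool.Agent.Hier
open scoped TensorProduct

section Mat

/-- Restriction along a homomorphism. -/
noncomputable def MX.pull {LL A A' C I : Type} [CommRing LL] [Ring A] [Ring A'] [Ring C] [Algebra LL A]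
    [Algebra LL A'] [Algebra LL C] (X : MX LL A C I) (φ : A' →ₐ[LL] A) : MX LL A' C I where
  x i := (X.x i).comp φ.toLinearMap
  one i := by
    change X.x i (φ 1) = _
    rw [map_one, X.one]
  mul i a a' := by
    change X.x i (φ (a * a')) = _
    rw [map_mul, X.mul]
    rfl

/-- The matrices of the elements of a monoid. -/
noncomputable def MX.toMS {LL A S I : Type} [CommRing LL] [Ring A] [Algebra LL A] [Monoid S]
    (X : MX LL A (MonoidAlgebra LL S) I) (ρ : S →* A) : MS LL S I where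
  y i e := X.x i (ρ e)
  one i := by rw [map_one, X.one]
  mul i e e' := by rw [map_mul, X.mul]

/-- L1. Composition: `y_j x_i` is the basis of the tensor product,
`(y_j x_i) a = ∑ y_j X_i(a)_i' x_i' = ∑ Y_j(X_i(a)_i')_j' y_j' x_i'`.

Proof. Linear in `a`; `one`: `X.one`, `Finsupp.sum_single_index`, `Y.one`. `mul`: `X.mul`, and
`Y.x j (c * c') = ∑_j' Y_j(c)_j' • Y.x j' c'`. -/
def S_mxc : Prop :=
  ∀ (LL A C D I J : Type) [CommRing LL] [Ring A] [Ring C] [Ring D] [Algebra LL A] [Algebra LL C]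
    [Algebra LL D] (X : MX LL A C I) (Y : MX LL C D J),
    ∃ Z : MX LL A D (J × I), ∀ j i a, Z.x (j, i) a =
      (X.x i a).sum fun i' c => (Y.x j c).mapDomain fun j' => (j', i')

/-- L2. The right multiplication of an algebra which is left free on words.

Proof. `H.x u t` = the unique `z` with `ev f ℓ z = wd ℓ u * t` (an `LL`-linear equivalence: compare
`exists_coeff` in HierZ/FamAux.lean). `one`: `wd ℓ u = ev f ℓ (single u 1)`. `mul`: apply `ev f ℓ` to
both sides (`ev f ℓ (r • z) = f r * ev f ℓ z`). -/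
def S_reg : Prop :=
  ∀ (LL C T Λ : Type) [CommRing LL] [Ring C] [Ring T] [Algebra LL C] [Algebra LL T]
    (f : C →ₐ[LL] T) (ℓ : Λ → T), FreeW (f : C →+* T) ℓ →
    ∃ H : MX LL T C (List Λ), ∀ u t, wd ℓ u * t = ev (f : C →+* T) ℓ (H.x u t)

/-- L3. Linear extension of the matrices of the elements of `S`, restricted to a closed set of
indices.

Proof. `Z.x x r = ∑_e r(e) • comapDomain val (Y.y x e)`. `mul` for `r = single e t`, `r' = single e' t'`:
`Y.mul`; the support of `Y.y x e` is in `P`, so the restriction to `{x // P x}` loses nothing. -/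
def S_msx : Prop :=
  ∀ (LL S β : Type) [CommRing LL] [Monoid S] (Y : MS LL S β) (P : β → Prop),
    (∀ x e, P x → ∀ x' ∈ (Y.y x e).support, P x') →
    ∃ Z : MX LL (MonoidAlgebra LL S) (MonoidAlgebra LL S) {x // P x},
      ∀ x (e : S) (t : LL), (Z.x x (MonoidAlgebra.single e t)).mapDomain Subtype.val =
        t • Y.y x.1 e

/-- L4. Iteration: words in the basis `a_i`; the head of the list is the last factor.

Proof. Recursion on the list: `Z.x [] a = single [] a`, `Z.x (i :: u) a = ∑_k cons_k (Z.x u (X_i(a)_k))`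
(`LL`-linear in `a`). `one`, `mul`, lengths by induction on `u` (for all `a`). -/
def S_pow : Prop :=
  ∀ (LL A I : Type) [CommRing LL] [Ring A] [Algebra LL A] (X : MX LL A A I),
    ∃ Z : MX LL A A (List I), (∀ a, Z.x [] a = Finsupp.single [] a) ∧
      (∀ i u a, Z.x (i :: u) a = (X.x i a).sum fun k c => (Z.x u c).mapDomain (List.cons k)) ∧
      ∀ u a, ∀ u' ∈ (Z.x u a).support, u'.length = u.length

/-- L5. The linear part of the rule for the `a`-letters modulo the `d`-letters.

Proof. By `FreeW` (words of length at most one) `c`, `x`, `y` in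
`a_i f(q) = f c + lin f a x + lin f d y` are unique (`Cl`; split `lin f (Sum.elim a d)` into the two
parts), so `x` is `LL`-linear in `q`. `one`: `a_i = lin f a (single i 1)`. `mul`: multiply by `f q'`;
`f c * f q'` is a constant, `lin f d y * f q'` is a combination of `d`-letters by the rule. -/
def S_alp : Prop :=
  ∀ (LL Q' T I J : Type) [CommRing LL] [Ring Q'] [Ring T] [Algebra LL Q'] [Algebra LL T]
    (f : Q' →ₐ[LL] T) (a : I → T) (d : J → T), FreeW (f : Q' →+* T) (Sum.elim a d) →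
    Cl (f : Q' →+* T) (Sum.elim a d) →
    (∀ j q, ∃ y : J →₀ Q', d j * f q = lin (f : Q' →+* T) d y) →
    ∃ A : MX LL Q' Q' I, ∀ i q, ∃ (c : Q') (y : J →₀ Q'),
      a i * f q = f c + lin (f : Q' →+* T) a (A.x i q) + lin (f : Q' →+* T) d y

end Mat

section Blocks

/-- L6 (chain). Typed block data over `LL`, base changed to `LL'`.

Proof. As HierZ/TyB.lean and TyC.lean. (a) Untyped block data: `Blk LL ρ (fun a : B × β => b a.2
(bM a.1)) (fun a => sz a.2)` (blk_of_blkP; use `tr`-versions of `mem_of_basis`: a left linear map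
which maps the basis into a set stable under `ρ e * ·` and sums). So BlkB, BlkC of this folder give
the stages `SA n` = span of the words in blocks of size `< n`, `inc`, `xs`, `free_n`, `free_step`,
`free_SA`, `ret_step`, `kt_zero`. (b) Base change (TyC.lean): `LL' ⊗ L`, blocks `1 ⊗ b_x(m)`, matrices
`Y` pushed forward by `mr LL'` (BlkD.lean). So assume `LL' = LL`. (c) The step `SA n → SA (n+1)` is
`IsLM LL X bM (inc n) (rhoS n) (wt n)` with the index set `{x // sz x = n} × List {a : B × β // sz a.2 < n}`,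
`wt (x, u) m = b_x(m) * wd xs u`, and `X` = composition (L1) of the right multiplication `H` of `SA n`
on the words `u` (L2, over `LL[S]`, `free_n`) with `Z` (L3 for `{x // sz x = n}`):
`b_x(m) * (wd u * q) = ∑_u' b_x(m) * gr(H_u(q)_u') * wd u'` and, for `h ∈ LL[S]`,
`b_x(m) * gr h = tr b (∑ h(e) • Y.y x e) m + (words in smaller blocks)` by `tri`, so
`wt (x, u) m * q = c + tr wt (X.x (x, u) q) m`, `c ∈ SA n`. `free` by `free_step` and reindexing
(`ixE`, `freeW_equiv` in HierZ/TyA, TyB), `ret` by `ret_step`, `Module.Free` by `free_SA`.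
(d) Union of the chain: `blk_kt_of` in TyB.lean. -/
def S_blkm : Prop :=
  ∀ (LL LL' S L β M B : Type) [CommRing LL] [CommRing LL'] [Algebra LL LL'] [Monoid S] [Ring L]
    [Algebra LL L] [AddCommGroup M] [Module (MonoidAlgebra ℤ S) M] [DistribMulAction Sᵐᵒᵖ M]
    [SMulCommClass (MonoidAlgebra ℤ S) Sᵐᵒᵖ M] (Y : MS LL S β)
    (bM : Module.Basis B (MonoidAlgebra ℤ S) M) (ρ : S →* L) (b : β → M →+ L) (sz : β → ℕ),
    BlkM Y bM ρ b sz → SLM LL' S M →
    KT (gr LL' (bch LL LL' ρ) : MonoidAlgebra LL' S →+* LL' ⊗[LL] L)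

/-- L7 (blocks and patch together, typed).

Proof. As HierZ/TyD.lean. Untyped `d`-letters `dd (k, j) = d_j(bM_k)`: `HD ρ f dd` (PlA.lean), so the
algebra `L = LL[S] + r` and everything in PlB.lean, PlC.lean (this folder) is available; blocks
`b_(j,s)(m) = d_j(m) * wd a s`, size `|s|`. Matrices: `α` := L5 for `a`, `dd`; `A := ` L4 for `α` (words);
`Z := ` L1 composition of `A` and `X`: `Z : MX LL Q' (MonoidAlgebra LL S) (J × List I)`,
`Z_(j,s)(q) = ∑_s' (X_j(A_s(q)_s'), s')`; `Y := Z.toMS ρ`. `siz` by the lengths in L4. The typed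
triangular rule, for all `q ∈ Q'`: `b_(j,s)(m) * f q - tr b (Z.x (j,s) q) m ∈ Wn |s|` (nonempty words in
smaller blocks), by induction on `s`: `s = []`: the rule for `d`. `s = i :: s₁`:
`b_(j,s₁)(m) * a_i * f q`, `a_i f(q) = f c + lin f a (α_i q) + lin f dd y`:
`b_(j,s₁)(m) f(c) ∈ Vn + Wn ≤ Wn (|s₁|+1)`; `b_(j,s₁)(m) f(α_i(q)_k) a_k = tr b (Z.x (j,s₁) (α_i(q)_k)) m a_k
+ Wn a_k`, and `tr b z m * a_k = tr b (z.mapDomain fun (j',s') => (j', k :: s')) m`; the terms with `dd`
are in `Wn (|s₁|+1)` (`Wn_mul_d`, `Vn_mul_d`). Then `BlkM` for `L` (`blkP_L`), `S_blkm` for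
`LL' = Lau LL`, `patch_pl` with `S_Patch` (`patch (relK hom idx sfm) expl` is `S_Patch` of this folder). -/
def S_plm : Prop :=
  ∀ (LL S Q' Q I J T M B : Type) [CommRing LL] [IsDomain LL] [Monoid S] [Ring Q'] [Algebra LL Q']
    [Module.Free LL Q'] [Ring Q] [Algebra LL Q] [Ring T] [Algebra LL T] [AddCommGroup M]
    [Module (MonoidAlgebra ℤ S) M] [DistribMulAction Sᵐᵒᵖ M]
    [SMulCommClass (MonoidAlgebra ℤ S) Sᵐᵒᵖ M] (X : MX LL Q' (MonoidAlgebra LL S) J)
    (bM : Module.Basis B (MonoidAlgebra ℤ S) M) (ρ : S →* Q')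
    (f : Q' →ₐ[LL] T) (a : I → T) (d : J → M →+ T) (π : T →ₐ[LL] Q),
    (∃ s : Q' →ₗ[LL] MonoidAlgebra LL S, ∀ x, s (gr LL ρ x) = x) →
    (∀ (j : J) (e : S) (m : M), d j (MonoidAlgebra.single e (1 : ℤ) • m) = f (ρ e) * d j m) →
    FreeW (f : Q' →+* T) (Sum.elim a (fun x : B × J => d x.2 (bM x.1))) →
    Cl (f : Q' →+* T) (Sum.elim a (fun x : B × J => d x.2 (bM x.1))) →
    (∀ j q m, d j m * f q = tr d (X.x j q) m) →
    Function.Surjective π → (∀ j m, π (d j m) = 0) →
    (∀ t, π t = 0 → t ∈ AddSubgroup.closure {s | ∃ t₁ j m t₂, s = t₁ * d j m * t₂}) →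
    SLM (LaurentSeries LL) S M → KT (π : T →+* Q)

/-- E. The step: `0 → M' → F → M → 0` exact, `M'` with a left basis.

Proof. As HierZ/Stepz.lean. Given data of type `M` over `Q'` (`bM`, `w`, `g : Q' → Q`): `D` (T1), the
basis `bF` (T5), `T = T(F)` for `D` and `r` (T3), `π : T → Q`, `w^T_i(y) ↦ w_i(r y)`. Letters
`a_(b,i) = w^T_i(bF (inl b))`, `d_j(m') = w^T_j(i m')`; `d_j(m') f(q) = tr d (X.x j q) m'` since
`r (i m') = 0` and `i` is a homomorphism of bimodules; `S_ker` (Hier/SpecT) for the kernel; `S_plm` gives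
`KT π`, T4 gives `KT f`. -/
def S_stepm : Prop :=
  ∀ (LL S M' F M B' : Type) [CommRing LL] [IsDomain LL] [Monoid S] [AddCommGroup M']
    [Module (MonoidAlgebra ℤ S) M'] [DistribMulAction Sᵐᵒᵖ M']
    [SMulCommClass (MonoidAlgebra ℤ S) Sᵐᵒᵖ M'] [AddCommGroup F] [Module (MonoidAlgebra ℤ S) F]
    [DistribMulAction Sᵐᵒᵖ F] [SMulCommClass (MonoidAlgebra ℤ S) Sᵐᵒᵖ F] [AddCommGroup M]
    [Module (MonoidAlgebra ℤ S) M] [DistribMulAction Sᵐᵒᵖ M]
    [SMulCommClass (MonoidAlgebra ℤ S) Sᵐᵒᵖ M] (i : M' →+ F) (r : F →+ M)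
    (_ : Module.Basis B' (MonoidAlgebra ℤ S) M'), IsBi (S := S) i → IsBi (S := S) r →
    Function.Injective i → Function.Exact i r → Function.Surjective r →
    SLM LL S F → SLM (LaurentSeries LL) S M' → SLM LL S M

end Blocks

end Pool.Agent.HierR
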