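import Pool.Agent.Lib.MP_8f66f0_al_HierR.SpecR
import Pool.Agent.Lib.MP_8f66f0_al_HierR.SpecL
import Pool.Agent.Lib.MP_8f66f0_al_Hier.Top
import Pool.Agent.Lib.MP_8f66f0_al_Ind.Euc

/-! Induction along a resolution of bimodules. -/

set_option autoImplicit false

namespace Pool.Agent.HierR

open Pool.Agent.Wald Pool.Agent.Ind Pool.Agent.Hier

section

variable {S : Type} [Monoid S]

/-- A homomorphism of bimodules is left linear. -/
private theorem bi_smul {M N : Type} [AddCommGroup M] [Module (MonoidAlgebra ℤ S) M]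
    [DistribMulAction Sᵐᵒᵖ M] [AddCommGroup N] [Module (MonoidAlgebra ℤ S) N]
    [DistribMulAction Sᵐᵒᵖ N] {φ : M →+ N} (h : IsBi (S := S) φ) (a : MonoidAlgebra ℤ S) (m : M) :
    φ (a • m) = a • φ m := by
  induction a using MonoidAlgebra.induction_linear with
  | zero => rw [zero_smul, map_zero, zero_smul]
  | add x y hx hy => rw [add_smul, map_add, hx, hy, add_smul]
  | single e t =>
    have h1 : (MonoidAlgebra.single e t : MonoidAlgebra ℤ S) = t • MonoidAlgebra.single e 1 := by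
      rw [MonoidAlgebra.smul_single, smul_eq_mul, mul_one]
    rw [h1, smul_assoc, map_zsmul, h.1, smul_assoc]

/-- The linear map of a homomorphism of bimodules. -/
private def biL {M N : Type} [AddCommGroup M] [Module (MonoidAlgebra ℤ S) M]
    [DistribMulAction Sᵐᵒᵖ M] [AddCommGroup N] [Module (MonoidAlgebra ℤ S) N]
    [DistribMulAction Sᵐᵒᵖ N] (φ : M →+ N) (h : IsBi (S := S) φ) :
    M →ₗ[MonoidAlgebra ℤ S] N where
  toFun := φ
  map_add' := φ.map_add
  map_smul' := bi_smul h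

/-- A product of stabilizing bimodules is stabilizing. -/
private theorem stab_prod {G G₁ : Type} [AddCommGroup G] [Module (MonoidAlgebra ℤ S) G]
    [DistribMulAction Sᵐᵒᵖ G] [AddCommGroup G₁] [Module (MonoidAlgebra ℤ S) G₁]
    [DistribMulAction Sᵐᵒᵖ G₁] (h : IsStab S G) (h₁ : IsStab S G₁) : IsStab S (G × G₁) := by
  classical
  obtain ⟨B, b, hb⟩ := h
  obtain ⟨B₁, b₁, hb₁⟩ := h₁
  refine ⟨B ⊕ B₁, b.prod b₁, ?_⟩
  rintro (x | x) e
  · obtain ⟨y, hy⟩ := hb x e
    refine ⟨y.mapDomain Sum.inl, ?_⟩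
    rw [Finsupp.sum_mapDomain_index (h := fun b' (n : ℤ) => n • (b.prod b₁) b')
      (fun _ => zero_smul _ _) (fun _ _ _ => add_smul _ _ _)]
    ext1
    · rw [Prod.smul_fst, Module.Basis.prod_apply_inl_fst, hy, Finsupp.sum, Finsupp.sum,
        Prod.fst_sum]
      refine Finset.sum_congr rfl fun z _ => ?_
      rw [Prod.smul_fst, Module.Basis.prod_apply_inl_fst]
    · rw [Prod.smul_snd, Module.Basis.prod_apply_inl_snd, smul_zero, Finsupp.sum, Prod.snd_sum]
      symm
      refine Finset.sum_eq_zero fun z _ => ?_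
      rw [Prod.smul_snd, Module.Basis.prod_apply_inl_snd, smul_zero]
  · obtain ⟨y, hy⟩ := hb₁ x e
    refine ⟨y.mapDomain Sum.inr, ?_⟩
    rw [Finsupp.sum_mapDomain_index (h := fun b' (n : ℤ) => n • (b.prod b₁) b')
      (fun _ => zero_smul _ _) (fun _ _ _ => add_smul _ _ _)]
    ext1
    · rw [Prod.smul_fst, Module.Basis.prod_apply_inr_fst, smul_zero, Finsupp.sum, Prod.fst_sum]
      symm
      refine Finset.sum_eq_zero fun z _ => ?_
      rw [Prod.smul_fst, Module.Basis.prod_apply_inr_fst, smul_zero]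
    · rw [Prod.smul_snd, Module.Basis.prod_apply_inr_snd, hy, Finsupp.sum, Finsupp.sum,
        Prod.snd_sum]
      refine Finset.sum_congr rfl fun z _ => ?_
      rw [Prod.smul_snd, Module.Basis.prod_apply_inr_snd]

/-- Retracts for a smaller class. -/
private theorem ret_mono {𝒞 𝒟 : ∀ (H : Type) [Group H], Prop}
    (h : ∀ (H : Type) [Group H], 𝒞 H → 𝒟 H) {M : Type} [AddCommGroup M]
    [Module (MonoidAlgebra ℤ S) M] [DistribMulAction Sᵐᵒᵖ M] (hM : IsRet S 𝒞 M) :
    IsRet S 𝒟 M := by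
  obtain ⟨N, _, _, _, _, B, O, H, _, bN, o, η, i, p, h1, h2, h3, h4, h5⟩ := hM
  exact ⟨N, _, _, _, inferInstance, B, O, H, _, bN, o, η, i, p, h1, fun ω => h _ (h2 ω), h3, h4,
    h5⟩

private theorem resm_ret (h1 : S_indp) (h2 : S_isret) {M G : Type} [AddCommGroup M]
    [Module (MonoidAlgebra ℤ S) M] [DistribMulAction Sᵐᵒᵖ M]
    [SMulCommClass (MonoidAlgebra ℤ S) Sᵐᵒᵖ M] [AddCommGroup G] [Module (MonoidAlgebra ℤ S) G]
    [DistribMulAction Sᵐᵒᵖ G] [SMulCommClass (MonoidAlgebra ℤ S) Sᵐᵒᵖ G]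
    (hM : IsRet S (fun H _ => SS H) M) (hG : IsStab S G) (LL : Type) [CommRing LL] [IsDomain LL]
    (hL : IsEuc LL) : SLM LL S (M × G) :=
  h2 LL S (M × G) (ret_mono (fun _ _ hH => hH LL hL)
    (h1 S (fun H _ => SS H) (ss_triv PUnit) M G hM hG))

end

theorem resm (h1 : S_indp) (h2 : S_isret) (h3 : S_swb) (h4 : S_retp) (h5 : S_stepm) :
    S_resm := by
  intro S _ n
  induction n with
  | zero =>
    intro M _ _ _ _ hM _ G _ _ _ _ hG LL _ _ hL
    exact resm_ret h1 h2 hM hG LL hL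
  | succ n ih =>
    intro M _ _ _ _ hM hP G _ _ _ _ hG LL _ _ hL
    obtain ⟨F, M', _, _, _, _, _, _, _, _, i, r, hi, hr, hinj, hex, hsurj, hF, hM'⟩ := hM
    obtain ⟨hFp, hFf⟩ := h4 S F _ hF
    -- the splitting
    obtain ⟨s, hs⟩ := Module.projective_lifting_property (biL r hr) LinearMap.id hsurj
    have hs' : ∀ m, r (s m) = m := fun m => LinearMap.congr_fun hs m
    -- the projection of `F` to `M'`
    have hker : ∀ y : F, ∃ m' : M', i m' = y - s (r y) := by
      intro y
      have h6 : r (y - s (r y)) = 0 := by rw [map_sub, hs', sub_self]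
      exact (hex _).1 h6
    choose t ht using hker
    let tL : F →ₗ[MonoidAlgebra ℤ S] M' :=
      { toFun := t
        map_add' := by
          intro x y
          apply hinj
          rw [map_add, ht, ht, ht, map_add, map_add]
          abel
        map_smul' := by
          intro a y
          apply hinj
          rw [RingHom.id_apply, bi_smul hi, ht, ht, bi_smul hr, map_smul, smul_sub] }
    have htL : ∀ m', tL (i m') = m' := by
      intro m'
      apply hinj
      change i (t (i m')) = i m'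
      rw [ht, (hex (i m')).2 ⟨m', rfl⟩, map_zero, sub_zero]
    have htsurj : Function.Surjective tL := fun m' => ⟨i m', htL m'⟩
    have hM'p : Module.Projective (MonoidAlgebra ℤ S) M' :=
      Module.Projective.of_split (biL i hi) tL (LinearMap.ext htL)
    obtain ⟨G₁, _, _, _, _, hG₁, hfree⟩ := h3 S F hFf
    have hfr : Module.Free (MonoidAlgebra ℤ S) (M' × G₁) := hfree M' tL htsurj hM'p
    -- the exact sequence
    let I : M' × G₁ →+ F × (G × G₁) :=
      (i.comp (AddMonoidHom.fst M' G₁)).prod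
        ((0 : M' × G₁ →+ G).prod (AddMonoidHom.snd M' G₁))
    let R : F × (G × G₁) →+ M × G :=
      (r.comp (AddMonoidHom.fst F (G × G₁))).prod
        ((AddMonoidHom.fst G G₁).comp (AddMonoidHom.snd F (G × G₁)))
    have hI : ∀ x, I x = (i x.1, (0, x.2)) := fun _ => rfl
    have hR : ∀ x, R x = (r x.1, x.2.1) := fun _ => rfl
    refine h5 LL S (M' × G₁) (F × (G × G₁)) (M × G) _ I R
      (Module.Free.chooseBasis (MonoidAlgebra ℤ S) (M' × G₁)) ?_ ?_ ?_ ?_ ?_ ?_ ?_
    · constructor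
      · intro e m
        rw [hI, hI, Prod.smul_fst, Prod.smul_snd, hi.1, Prod.smul_mk, Prod.smul_mk, smul_zero]
      · intro e m
        rw [hI, hI, Prod.smul_fst, Prod.smul_snd, hi.2, Prod.smul_mk, Prod.smul_mk, smul_zero]
    · constructor
      · intro e m
        rw [hR, hR, Prod.smul_fst, Prod.smul_snd, Prod.smul_fst, hr.1, Prod.smul_mk]
      · intro e m
        rw [hR, hR, Prod.smul_fst, Prod.smul_snd, Prod.smul_fst, hr.2, Prod.smul_mk]
    · rintro ⟨x, x'⟩ ⟨y, y'⟩ hxy
      rw [hI, hI, Prod.mk.injEq, Prod.mk.injEq] at hxy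
      rw [Prod.mk.injEq]
      exact ⟨hinj hxy.1, hxy.2.2⟩
    · rintro ⟨y, g, g₁⟩
      rw [hR]
      constructor
      · intro h6
        rw [Prod.mk_eq_zero] at h6
        obtain ⟨m', hm'⟩ := (hex y).1 h6.1
        refine ⟨(m', g₁), ?_⟩
        rw [hI, hm']
        have h7 : g = 0 := h6.2
        rw [h7]
      · rintro ⟨⟨m', x⟩, hx⟩
        rw [hI, Prod.mk.injEq, Prod.mk.injEq] at hx
        rw [Prod.mk_eq_zero]
        exact ⟨(hex y).2 ⟨m', hx.1⟩, hx.2.1.symm⟩
    · rintro ⟨m, g⟩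
      obtain ⟨y, hy⟩ := hsurj m
      exact ⟨(y, (g, 0)), by rw [hR, hy]⟩
    · exact resm_ret h1 h2 hF (stab_prod hG hG₁) LL hL
    · exact ih M' hM' hM'p G₁ hG₁ (LaurentSeries LL) (isEuc_laurent hL)

end Pool.Agent.HierR
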