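import Pool.Agent.Lib.MP_8f66f0_al_HierR.SpecR
import Pool.Agent.Lib.MP_8f66f0_al_HierZ.Freesub

/-! R2: retracts of induced bimodules are left projective and free over `ℤ`. -/

set_option autoImplicit false

namespace Pool.Agent.HierR

open Pool.Agent.Wald Pool.Agent.Ind Pool.Agent.Hier

/-- Homomorphisms of bimodules are left linear. -/
private theorem map_smul_of {S M N : Type} [Monoid S] [AddCommGroup M]
    [Module (MonoidAlgebra ℤ S) M] [AddCommGroup N] [Module (MonoidAlgebra ℤ S) N] (φ : M →+ N)
    (h : ∀ (e : S) (m : M), φ (MonoidAlgebra.single e (1 : ℤ) • m) =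
      MonoidAlgebra.single e (1 : ℤ) • φ m) (r : MonoidAlgebra ℤ S) (m : M) :
    φ (r • m) = r • φ m := by
  induction r using MonoidAlgebra.induction_linear with
  | zero => rw [zero_smul, zero_smul, map_zero]
  | add x y hx hy => rw [add_smul, add_smul, map_add, hx, hy]
  | single e n =>
    have h1 : (MonoidAlgebra.single e n : MonoidAlgebra ℤ S) =
        n • MonoidAlgebra.single e (1 : ℤ) := by
      rw [MonoidAlgebra.smul_single, smul_eq_mul, mul_one]
    rw [h1, smul_assoc, smul_assoc, map_zsmul, h]

/-- A module with a basis over `ℤ[S]` is free over `ℤ`. -/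
private theorem free_of_basis {S N B : Type} [Monoid S] [AddCommGroup N]
    [Module (MonoidAlgebra ℤ S) N] (bN : Module.Basis B (MonoidAlgebra ℤ S) N) :
    Module.Free ℤ N := by
  let e1 : N ≃+ (B →₀ MonoidAlgebra ℤ S) := bN.repr.toAddEquiv
  let e2 : (B →₀ MonoidAlgebra ℤ S) ≃+ (B →₀ (S →₀ ℤ)) :=
    Finsupp.mapRange.addEquiv MonoidAlgebra.coeffAddEquiv
  exact Module.Free.of_equiv (e1.trans e2).symm.toIntLinearEquiv

/-- R2. Retracts of induced bimodules. -/
theorem retp : S_retp := by
  intro S M _ 𝒞 _ _ _ hM
  obtain ⟨N, _, _, _, _, B, O, H, _, bN, o, η, i, p, -, -, hi, hp, hpi⟩ := hM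
  constructor
  · have : Module.Projective (MonoidAlgebra ℤ S) N := Module.Projective.of_basis bN
    refine Module.Projective.of_split
      ({ toFun := i, map_add' := map_add i, map_smul' := map_smul_of i hi.1 } :
        M →ₗ[MonoidAlgebra ℤ S] N)
      ({ toFun := p, map_add' := map_add p, map_smul' := map_smul_of p hp.1 } :
        N →ₗ[MonoidAlgebra ℤ S] M) ?_
    exact LinearMap.ext hpi
  · have : Module.Free ℤ N := free_of_basis bN
    have hinj : Function.Injective i := Function.LeftInverse.injective hpi
    have := freesub N (LinearMap.range i.toIntLinearMap)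
    exact Module.Free.of_equiv (LinearEquiv.ofInjective i.toIntLinearMap hinj).symm

end Pool.Agent.HierR
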