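import Pool.Agent.Lib.MP_8f66f0_al_HierR.SpecT

/-! T6: retracts. -/

set_option autoImplicit false

namespace Pool.Agent.HierR

open Pool.Agent.Wald Pool.Agent.Ind Pool.Agent.Hier

section Retr

/-- The pull back of an invariant. -/
private noncomputable def rPull {R T K : Type} [Ring R] [Ring T] [CommGroup K] (φ : R →+* T)
    (κ : K1Fun T K) : K1Fun R K where
  f A := κ.f (A.map φ)
  mul A B hA hB := by
    rw [Matrix.map_mul]
    exact κ.mul _ _ (hA.map (RingHom.mapMatrix φ)) (hB.map (RingHom.mapMatrix φ))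
  reindex e A hA := κ.reindex e (A.map φ) (hA.map (RingHom.mapMatrix φ))
  tri A B D hA hD := by
    rw [Matrix.fromBlocks_map, Matrix.map_zero _ (map_zero φ)]
    exact κ.tri _ _ _ (hA.map (RingHom.mapMatrix φ)) (hD.map (RingHom.mapMatrix φ))

/-- `tr` and a homomorphism for the right action. -/
private theorem tr_comp {LL S T I M N : Type} [CommRing LL] [Monoid S] [Ring T] [Algebra LL T]
    [AddCommGroup M] [DistribMulAction Sᵐᵒᵖ M] [AddCommGroup N] [DistribMulAction Sᵐᵒᵖ N]
    (w : I → M →+ T) (p : N →+ M)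
    (hp : ∀ (e : S) (n : N), p (MulOpposite.op e • n) = MulOpposite.op e • p n)
    (x : I →₀ MonoidAlgebra LL S) (n : N) :
    tr (fun i => (w i).comp p) x n = tr w x (p n) := by
  unfold tr
  refine Finsupp.sum_congr fun j _ => Finsupp.sum_congr fun e _ => ?_
  rw [AddMonoidHom.comp_apply, hp]

/-- A homomorphism which is the identity on `Q'` and on the letters is the identity. -/
private theorem id_of_letters {Q' Q T Λ : Type} [Ring Q'] [Ring Q] [Ring T] (f : Q' →+* Q)
    (ℓ : Λ → Q) (hF : FreeW f ℓ) (g : Q →+* Q) (hf : ∀ q, g (f q) = f q)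
    (hl : ∀ a, g (ℓ a) = ℓ a) (t : Q) : g t = t := by
  have hw : ∀ u : List Λ, g (wd ℓ u) = wd ℓ u := by
    intro u
    induction u with
    | nil => exact map_one g
    | cons a u ih =>
      change g (wd ℓ u * ℓ a) = wd ℓ u * ℓ a
      rw [map_mul, ih, hl]
  obtain ⟨x, rfl⟩ := hF.2 t
  unfold ev
  rw [Finsupp.sum, map_sum]
  refine Finset.sum_congr rfl fun u _ => ?_
  rw [map_mul, hf, hw]

end Retr

/-- T6. Retracts. -/
theorem retr (h1 : S_cm) (h2 : S_tm) (h3 : S_ktm) : S_retr := by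
  intro LL S M N BN _ _ _ _ _ _ _ _ _ _ i p bN hi hp hpi hN Q' Q I B _ _ _ _ _ X bM f ρ w H
  obtain ⟨D, hD⟩ := h1 LL S Q' Q I M B X bM f ρ w H
  obtain ⟨⟨T, _, _, fT, wT, hT⟩, huT⟩ := h2 LL S Q' I N M BN X ρ D p bN hp
  have hkT : KT (fT : Q' →+* T) :=
    (h3 LL S Q' I N M BN T X ρ D p bN fT wT hT).2 H.ret inferInstance hN
  -- the homomorphism `π`
  obtain ⟨π, hπf, hπw⟩ := huT T Q fT wT f (fun j => (w j).comp p) hT
    (by
      intro j e n
      change w j (p (MonoidAlgebra.single e (1 : ℤ) • n)) = f (ρ e) * w j (p n)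
      rw [hp.1, H.lin])
    (by
      intro j n q
      rw [tr_comp w p hp.2]
      exact hD j (p n) q)
  -- `Q` is the ring `T(M)` for `D` and the identity
  have hbi : IsBi (S := S) (AddMonoidHom.id M) := ⟨fun _ _ => rfl, fun _ _ => rfl⟩
  have hQ : IsTM D (AddMonoidHom.id M) bM f w := ⟨H.lin, H.free, fun j m q => hD j m q⟩
  obtain ⟨σ, hσf, hσw⟩ := (h2 LL S Q' I M M B X ρ D (AddMonoidHom.id M) bM hbi).2 Q T f w fT
    (fun j => (wT j).comp i) hQ
    (by
      intro j e m
      change wT j (i (MonoidAlgebra.single e (1 : ℤ) • m)) = fT (ρ e) * wT j (i m)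
      rw [hi.1, hT.lin])
    (by
      intro j m q
      rw [tr_comp wT i hi.2]
      have := hT.rel j (i m) q
      rw [hpi] at this
      exact this)
  have hid : ∀ t, π (σ t) = t := by
    intro t
    refine id_of_letters (T := T) (f : Q' →+* Q) (fun a : B × I => w a.2 (bM a.1)) H.free
      ((π : T →+* Q).comp (σ : Q →+* T)) ?_ ?_ t
    · intro q
      change π (σ (f q)) = f q
      rw [hσf, hπf]
    · intro a
      change π (σ (w a.2 (bM a.1))) = w a.2 (bM a.1)
      rw [hσw]
      change π (wT a.2 (i (bM a.1))) = _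
      rw [hπw]
      change w a.2 (p (i (bM a.1))) = _
      rw [hpi]
  intro K _ κ hκ n _ _ A hA
  have h5 := hkT K (rPull (π : T →+* Q) κ) (by
    intro m _ _ G hG
    change κ.f ((G.map (fT : Q' →+* T)).map (π : T →+* Q)) = 1
    have e : (G.map (fT : Q' →+* T)).map (π : T →+* Q) = G.map (f : Q' →+* Q) := by
      ext a b
      exact hπf (G a b)
    rw [e]
    exact hκ m G hG) n (A.map (σ : Q →+* T)) (hA.map (RingHom.mapMatrix (σ : Q →+* T)))
  change κ.f ((A.map (σ : Q →+* T)).map (π : T →+* Q)) = 1 at h5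
  have e : (A.map (σ : Q →+* T)).map (π : T →+* Q) = A := by
    ext a b
    exact hid (A a b)
  rwa [e] at h5

end Pool.Agent.HierR
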