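import Pool.Agent.Lib.MP_8f66f0_al_HierR.SpecT
import Pool.Agent.Lib.MP_8f66f0_al_HierR.SpecL
import Pool.Agent.Lib.MP_8f66f0_al_Hier.SpecT
import Pool.Agent.Lib.MP_8f66f0_al_Hier.BlkA

/-! E. The step for typed Land-Tamme data over a monoid. -/

set_option autoImplicit false

namespace Pool.Agent.HierR

open Pool.Agent.Wald Pool.Agent.Ind Pool.Agent.Hier

private theorem sm_tr_comp {LL S T I M M'' : Type} [CommRing LL] [Monoid S] [Ring T]
    [Algebra LL T] [AddCommGroup M] [Module (MonoidAlgebra ℤ S) M] [DistribMulAction Sᵐᵒᵖ M]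
    [AddCommGroup M''] [Module (MonoidAlgebra ℤ S) M''] [DistribMulAction Sᵐᵒᵖ M'']
    (r : M →+ M'') (hr : IsBi (S := S) r) (w : I → M'' →+ T)
    (x : I →₀ MonoidAlgebra LL S) (m : M) :
    tr (fun j => (w j).comp r) x m = tr w x (r m) := by
  unfold tr
  refine Finsupp.sum_congr fun j _ => Finsupp.sum_congr fun e _ => ?_
  change _ • w j (r (MulOpposite.op e • m)) = _
  rw [hr.2]

private theorem sm_smul {S M N : Type} [Monoid S] [AddCommGroup M]
    [Module (MonoidAlgebra ℤ S) M] [DistribMulAction Sᵐᵒᵖ M] [AddCommGroup N]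
    [Module (MonoidAlgebra ℤ S) N] [DistribMulAction Sᵐᵒᵖ N] (φ : M →+ N)
    (h : IsBi (S := S) φ) (a : MonoidAlgebra ℤ S) (m : M) : φ (a • m) = a • φ m := by
  induction a using MonoidAlgebra.induction_linear with
  | zero => rw [zero_smul, zero_smul, map_zero]
  | add a b ha hb => rw [add_smul, add_smul, map_add, ha, hb]
  | single e n =>
    have h1 : (MonoidAlgebra.single e n : MonoidAlgebra ℤ S) =
        n • MonoidAlgebra.single e (1 : ℤ) := by
      rw [MonoidAlgebra.smul_single, smul_eq_mul, mul_one]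
    rw [h1, smul_assoc, smul_assoc, map_zsmul, h.1]

private theorem sm_wd_map {T Λ Λ' : Type} [Ring T] (ℓ : Λ → T) (e : Λ' → Λ) (u : List Λ') :
    wd (fun a => ℓ (e a)) u = wd ℓ (u.map e) := by
  induction u with
  | nil => rfl
  | cons a u ih =>
    show wd (fun a => ℓ (e a)) u * ℓ (e a) = wd ℓ (u.map e) * ℓ (e a)
    rw [ih]

private theorem sm_ev_map {Q' T Λ Λ' : Type} [Ring Q'] [Ring T] (f : Q' →+* T) (ℓ : Λ → T)
    (e : Λ' → Λ) (x : List Λ' →₀ Q') :
    ev f (fun a => ℓ (e a)) x = ev f ℓ (x.mapDomain (List.map e)) := by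
  unfold ev
  rw [Finsupp.sum_mapDomain_index]
  · exact Finsupp.sum_congr fun u _ => by rw [sm_wd_map]
  · intro u
    rw [map_zero, zero_mul]
  · intro u q q'
    rw [map_add, add_mul]

private theorem sm_free {Q' T Λ Λ' : Type} [Ring Q'] [Ring T] (f : Q' →+* T) (ℓ : Λ → T)
    (e : Λ' ≃ Λ) (h : FreeW f ℓ) : FreeW f (fun a => ℓ (e a)) := by
  have h1 : ev f (fun a => ℓ (e a)) =
      ev f ℓ ∘ (Finsupp.domCongr (M := Q') (Equiv.listEquivOfEquiv e)) := by
    funext x
    rw [sm_ev_map]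
    show _ = ev f ℓ (Finsupp.equivMapDomain _ x)
    rw [Finsupp.equivMapDomain_eq_mapDomain]
    rfl
  show Function.Bijective (ev f (fun a => ℓ (e a)))
  rw [h1]
  exact h.comp (Finsupp.domCongr (M := Q') (Equiv.listEquivOfEquiv e)).bijective

theorem stepm (h1 : S_cm) (h2 : S_tm) (h3 : S_exb) (h4 : S_ker) (h5 : S_plm) (h6 : S_ktm) :
    S_stepm := by
  intro LL S M' F M B' _ _ _ _ _ _ _ _ _ _ _ _ _ _ _ i r bM' hi hr hinj hex hsur hF hSM' Q' Q I B
    _ _ _ _ _ X bM g ρ w hLM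
  obtain ⟨D, hD⟩ := h1 LL S Q' Q I M B X bM g ρ w hLM
  let iL : M' →ₗ[MonoidAlgebra ℤ S] F :=
    { toFun := i, map_add' := map_add i, map_smul' := fun a m => sm_smul i hi a m }
  let rL : F →ₗ[MonoidAlgebra ℤ S] M :=
    { toFun := r, map_add' := map_add r, map_smul' := fun a m => sm_smul r hr a m }
  obtain ⟨bF, b1, b2⟩ := h3 (MonoidAlgebra ℤ S) M' F M B' B iL rL bM' bM hinj hex hsur
  obtain ⟨⟨T, _, _, f, wT, hT⟩, huniv⟩ := h2 LL S Q' I F M (B ⊕ B') X ρ D r bF hr
  have hzl : ∀ (j : I) (e : S) (m : F), (w j).comp r (MonoidAlgebra.single e (1 : ℤ) • m) =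
      g (ρ e) * (w j).comp r m := by
    intro j e m
    change w j (r (MonoidAlgebra.single e (1 : ℤ) • m)) = g (ρ e) * w j (r m)
    rw [hr.1, hLM.lin]
  have hz : ∀ j m q, (w j).comp r m * g q = g (D.c j (r m) q) +
      tr (fun j => (w j).comp r) (X.x j q) m := by
    intro j m q
    rw [sm_tr_comp r hr]
    exact hD j (r m) q
  obtain ⟨π, p1, p2⟩ := huniv T Q f wT g (fun j => (w j).comp r) hT hzl hz
  -- the letters
  let a : B × I → T := fun x => wT x.2 (bF (Sum.inl x.1))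
  let d : I → M' →+ T := fun j => (wT j).comp i
  let e0 : (B × I) ⊕ (B' × I) ≃ (B ⊕ B') × I := (Equiv.sumProdDistrib B B' I).symm
  have hlet : (fun x => (fun a : (B ⊕ B') × I => wT a.2 (bF a.1)) (e0 x)) =
      Sum.elim a (fun x : B' × I => d x.2 (bM' x.1)) := by
    funext x
    rcases x with x | x
    · rfl
    · change wT x.2 (bF (Sum.inr x.1)) = wT x.2 (i (bM' x.1))
      rw [b2]
      rfl
  have hfree : FreeW (f : Q' →+* T) (Sum.elim a (fun x : B' × I => d x.2 (bM' x.1))) := by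
    rw [← hlet]
    exact sm_free (f : Q' →+* T) _ e0 hT.free
  obtain ⟨hCl0, hKT0⟩ := h6 LL S Q' I F M (B ⊕ B') T X ρ D r bF f wT hT
  have hCl : Cl (f : Q' →+* T) (Sum.elim a (fun x : B' × I => d x.2 (bM' x.1))) := by
    rw [← hlet]
    intro x q
    obtain ⟨c, y, hy⟩ := hCl0 (e0 x) q
    refine ⟨c, y.mapDomain e0.symm, ?_⟩
    rw [hy]
    congr 1
    unfold lin
    rw [Finsupp.sum_mapDomain_index_inj e0.symm.injective]
    refine Finsupp.sum_congr fun b _ => ?_
    change _ = (f : Q' →+* T) (y b) * (wT (e0 (e0.symm b)).2 (bF (e0 (e0.symm b)).1))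
    rw [Equiv.apply_symm_apply]
  have hri : ∀ m', r (i m') = 0 := fun m' => (hex (i m')).2 ⟨m', rfl⟩
  have hdl : ∀ (j : I) (e : S) (m : M'), d j (MonoidAlgebra.single e (1 : ℤ) • m) =
      f (ρ e) * d j m := by
    intro j e m
    change wT j (i (MonoidAlgebra.single e (1 : ℤ) • m)) = f (ρ e) * wT j (i m)
    rw [hi.1, hT.lin]
  have hrule : ∀ j q m, d j m * f q = tr d (X.x j q) m := by
    intro j q m
    change wT j (i m) * f q = _
    rw [hT.rel, hri, map_zero, LinearMap.zero_apply, map_zero, zero_add]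
    exact (sm_tr_comp i hi wT (X.x j q) m).symm
  have hd : ∀ j m, π (d j m) = 0 := by
    intro j m
    change π (wT j (i m)) = 0
    rw [p2]
    change w j (r (i m)) = 0
    rw [hri, map_zero]
  have ha : ∀ x : B × I, π (a x) = w x.2 (bM x.1) := by
    intro x
    change π (wT x.2 (bF (Sum.inl x.1))) = _
    rw [p2]
    change w x.2 (r (bF (Sum.inl x.1))) = _
    have h9 : r (bF (Sum.inl x.1)) = bM x.1 := b1 x.1
    rw [h9]
  have hker := h4 LL Q' Q (B × I) (B' × I) T f g (fun x : B × I => w x.2 (bM x.1)) a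
    (fun x : B' × I => d x.2 (bM' x.1)) π hfree hLM.free p1 ha (fun b => hd _ _)
  have hsurj : Function.Surjective π := by
    intro y
    obtain ⟨x, rfl⟩ := hLM.free.2 y
    refine ⟨ev (f : Q' →+* T) a x, ?_⟩
    unfold ev
    rw [map_finsuppSum]
    refine Finsupp.sum_congr fun u _ => ?_
    rw [map_mul]
    have h10 : ∀ u : List (B × I), π (wd a u) = wd (fun x : B × I => w x.2 (bM x.1)) u := by
      intro u
      induction u with
      | nil => exact map_one π
      | cons c u ih =>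
        change π (wd a u * a c) = wd _ u * _
        rw [map_mul, ih, ha]
    rw [h10]
    congr 1
    exact p1 _
  have hKπ : KT (π : T →+* Q) := by
    refine h5 LL S Q' Q (B × I) I T M' B' X bM' ρ f a d π hLM.ret hdl hfree hCl hrule hsurj hd ?_
      hSM'
    intro t ht
    refine AddSubgroup.closure_mono ?_ (hker t ht)
    rintro s ⟨t₁, b, t₂, rfl⟩
    exact ⟨t₁, b.2, bM' b.1, t₂, rfl⟩
  have hKf : KT (f : Q' →+* T) := hKT0 hLM.ret inferInstance hF
  have h11 : (g : Q' →+* Q) = (π : T →+* Q).comp (f : Q' →+* T) := by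
    ext q
    exact (p1 q).symm
  rw [h11]
  exact LB.KT.comp hKf hKπ

end Pool.Agent.HierR
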