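import Pool.Agent.Lib.MP_8f66f0_al_HierR.SpecR

/-! Stabilization: the swindle over monoid algebras. -/

set_option autoImplicit false

namespace Pool.Agent.HierR

open Pool.Agent.Wald Pool.Agent.Ind Pool.Agent.Hier
open scoped TensorProduct

section Swindle

variable {R G N : Type} [Ring R] [AddCommGroup G] [Module R G] [AddCommGroup N] [Module R N]

private noncomputable def swI (q : G →ₗ[R] G) : (ℕ →₀ G) →ₗ[R] (ℕ →₀ G) :=
  Finsupp.mapRange.linearMap (LinearMap.id - q) +
    Finsupp.lmapDomain G R Nat.succ ∘ₗ Finsupp.mapRange.linearMap q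

private noncomputable def swK (q : G →ₗ[R] G) : (ℕ →₀ G) →ₗ[R] (ℕ →₀ G) :=
  Finsupp.mapRange.linearMap (LinearMap.id - q) +
    Finsupp.lcomapDomain Nat.succ Nat.succ_injective ∘ₗ Finsupp.mapRange.linearMap q

private theorem swI_zero (q : G →ₗ[R] G) (x : ℕ →₀ G) : swI q x 0 = x 0 - q (x 0) := by
  have h : (Finsupp.mapDomain Nat.succ (Finsupp.mapRange.linearMap q x)) 0 = 0 :=
    Finsupp.mapDomain_of_notMem_range _ _ (by simp)
  rw [swI, LinearMap.add_apply, Finsupp.add_apply, LinearMap.comp_apply, Finsupp.lmapDomain_apply, h,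
    add_zero, Finsupp.mapRange.linearMap_apply, Finsupp.mapRange_apply, LinearMap.sub_apply,
    LinearMap.id_apply]

private theorem swI_succ (q : G →ₗ[R] G) (x : ℕ →₀ G) (n : ℕ) :
    swI q x (n + 1) = q (x n) + (x (n + 1) - q (x (n + 1))) := by
  have h : (Finsupp.mapDomain Nat.succ (Finsupp.mapRange.linearMap q x)) (n + 1) = q (x n) := by
    have h1 := Finsupp.mapDomain_apply Nat.succ_injective (Finsupp.mapRange.linearMap q x) n
    rw [Finsupp.mapRange.linearMap_apply, Finsupp.mapRange_apply] at h1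
    exact h1
  rw [swI, LinearMap.add_apply, Finsupp.add_apply, LinearMap.comp_apply, Finsupp.lmapDomain_apply, h,
    add_comm, Finsupp.mapRange.linearMap_apply, Finsupp.mapRange_apply, LinearMap.sub_apply,
    LinearMap.id_apply]

private theorem swK_apply (q : G →ₗ[R] G) (y : ℕ →₀ G) (n : ℕ) :
    swK q y n = (y n - q (y n)) + q (y (n + 1)) := by
  have h : (Finsupp.lcomapDomain (R := R) Nat.succ Nat.succ_injective
      (Finsupp.mapRange.linearMap q y)) n = q (y (n + 1)) := by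
    show (Finsupp.mapRange.linearMap q y) (Nat.succ n) = _
    rw [Finsupp.mapRange.linearMap_apply, Finsupp.mapRange_apply]
  rw [swK, LinearMap.add_apply, Finsupp.add_apply, LinearMap.comp_apply, h,
    Finsupp.mapRange.linearMap_apply, Finsupp.mapRange_apply, LinearMap.sub_apply,
    LinearMap.id_apply]

/-- `N ⊕ X^(ℕ) ≃ X^(ℕ)` for a retract `N` of `X`. -/
private noncomputable def swE (i : N →ₗ[R] G) (p : G →ₗ[R] N) (h : ∀ n, p (i n) = n) :
    (N × (ℕ →₀ G)) ≃ₗ[R] (ℕ →₀ G) where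
  toFun x := Finsupp.single 0 (i x.1) + swI (i ∘ₗ p) x.2
  map_add' x y := by
    rw [Prod.fst_add, Prod.snd_add, map_add, map_add, Finsupp.single_add]
    abel
  map_smul' c x := by
    rw [Prod.smul_fst, Prod.smul_snd, map_smul, map_smul, RingHom.id_apply, smul_add,
      Finsupp.smul_single]
  invFun z := (p (z 0), swK (i ∘ₗ p) z)
  left_inv x := by
    have hz : ∀ m, (Finsupp.single 0 (i x.1) + swI (i ∘ₗ p) x.2 : ℕ →₀ G) (m + 1) =
        i (p (x.2 m)) + (x.2 (m + 1) - i (p (x.2 (m + 1)))) := by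
      intro m
      rw [Finsupp.add_apply, swI_succ, Finsupp.single_eq_of_ne (Nat.succ_ne_zero m), zero_add]
      rfl
    have hz0 : (Finsupp.single 0 (i x.1) + swI (i ∘ₗ p) x.2 : ℕ →₀ G) 0 =
        i x.1 + (x.2 0 - i (p (x.2 0))) := by
      rw [Finsupp.add_apply, swI_zero, Finsupp.single_eq_same]
      rfl
    refine Prod.ext ?_ ?_
    · change p ((Finsupp.single 0 (i x.1) + swI (i ∘ₗ p) x.2 : ℕ →₀ G) 0) = x.1
      rw [hz0, map_add, map_sub, h, h, sub_self, add_zero]
    · change swK (i ∘ₗ p) (Finsupp.single 0 (i x.1) + swI (i ∘ₗ p) x.2) = x.2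
      refine Finsupp.ext fun m => ?_
      rw [swK_apply, hz]
      cases m with
      | zero =>
        rw [hz0]
        simp only [LinearMap.comp_apply, map_add, map_sub, h]
        abel
      | succ m =>
        rw [hz]
        simp only [LinearMap.comp_apply, map_add, map_sub, h]
        abel
  right_inv z := by
    refine Finsupp.ext fun m => ?_
    change (Finsupp.single 0 (i (p (z 0))) + swI (i ∘ₗ p) (swK (i ∘ₗ p) z) : ℕ →₀ G) m = z m
    rw [Finsupp.add_apply]
    cases m with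
    | zero =>
      rw [Finsupp.single_eq_same, swI_zero, swK_apply]
      simp only [LinearMap.comp_apply, map_add, map_sub, h]
      abel
    | succ m =>
      rw [Finsupp.single_eq_of_ne (Nat.succ_ne_zero m), zero_add, swI_succ, swK_apply, swK_apply]
      simp only [LinearMap.comp_apply, map_add, map_sub, h]
      abel

end Swindle

section Stab

variable (S F : Type) [Monoid S] [AddCommGroup F] [DistribMulAction Sᵐᵒᵖ F]

/-- The stabilizing bimodule. -/
private def SwG : Type := MonoidAlgebra ℤ S ⊗[ℤ] (ℕ →₀ F)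

private noncomputable instance : AddCommGroup (SwG S F) :=
  inferInstanceAs (AddCommGroup (MonoidAlgebra ℤ S ⊗[ℤ] (ℕ →₀ F)))

private noncomputable instance : Module (MonoidAlgebra ℤ S) (SwG S F) :=
  inferInstanceAs (Module (MonoidAlgebra ℤ S) (MonoidAlgebra ℤ S ⊗[ℤ] (ℕ →₀ F)))

/-- The right action. -/
private noncomputable def swR (e : Sᵐᵒᵖ) : (ℕ →₀ F) →ₗ[ℤ] (ℕ →₀ F) :=
  (DistribSMul.toAddMonoidHom (ℕ →₀ F) e).toIntLinearMap

private theorem swR_apply (e : Sᵐᵒᵖ) (y : ℕ →₀ F) : swR S F e y = e • y := rfl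

private noncomputable def swRG (e : Sᵐᵒᵖ) : SwG S F →+ SwG S F :=
  (LinearMap.lTensor (MonoidAlgebra ℤ S) (swR S F e)).toAddMonoidHom

private theorem swRG_tmul (e : Sᵐᵒᵖ) (a : MonoidAlgebra ℤ S) (y : ℕ →₀ F) :
    swRG S F e (a ⊗ₜ[ℤ] y : MonoidAlgebra ℤ S ⊗[ℤ] (ℕ →₀ F)) =
      (a ⊗ₜ[ℤ] (e • y) : MonoidAlgebra ℤ S ⊗[ℤ] (ℕ →₀ F)) := rfl

private noncomputable instance : DistribMulAction Sᵐᵒᵖ (SwG S F) where
  smul e x := swRG S F e x
  one_smul x := by
    change LinearMap.lTensor (MonoidAlgebra ℤ S) (swR S F 1) x = x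
    have h : swR S F 1 = LinearMap.id := LinearMap.ext fun y => one_smul Sᵐᵒᵖ y
    rw [h, LinearMap.lTensor_id]
    rfl
  mul_smul e e' x := by
    change LinearMap.lTensor (MonoidAlgebra ℤ S) (swR S F (e * e')) x =
      LinearMap.lTensor (MonoidAlgebra ℤ S) (swR S F e)
        (LinearMap.lTensor (MonoidAlgebra ℤ S) (swR S F e') x)
    have h : swR S F (e * e') = swR S F e ∘ₗ swR S F e' := LinearMap.ext fun y =>
      mul_smul e e' y
    rw [h, LinearMap.lTensor_comp]
    rfl
  smul_zero e := map_zero (swRG S F e)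
  smul_add e := map_add (swRG S F e)

private theorem sw_op (e : Sᵐᵒᵖ) (x : SwG S F) : e • x = swRG S F e x := rfl

private instance : SMulCommClass (MonoidAlgebra ℤ S) Sᵐᵒᵖ (SwG S F) where
  smul_comm a e x := by
    rw [sw_op, sw_op]
    have h : ∀ x : MonoidAlgebra ℤ S ⊗[ℤ] (ℕ →₀ F),
        (a • (swRG S F e (x : SwG S F)) : SwG S F) = swRG S F e (a • (x : SwG S F)) := by
      intro x
      induction x using TensorProduct.induction_on with
      | zero =>
        have h0 : swRG S F e (0 : MonoidAlgebra ℤ S ⊗[ℤ] (ℕ →₀ F)) = 0 := map_zero (swRG S F e)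
        have h1 : (a • (0 : MonoidAlgebra ℤ S ⊗[ℤ] (ℕ →₀ F)) : SwG S F) = (0 : SwG S F) :=
          smul_zero a
        rw [h0]
        refine (smul_zero a).trans ?_
        rw [h1]
        exact (map_zero (swRG S F e)).symm
      | tmul b y => rfl
      | add x y hx hy =>
        have h0 : swRG S F e (x + y : MonoidAlgebra ℤ S ⊗[ℤ] (ℕ →₀ F)) =
            swRG S F e (x : SwG S F) + swRG S F e (y : SwG S F) := map_add (swRG S F e) _ _
        have h1 : (a • (x + y : MonoidAlgebra ℤ S ⊗[ℤ] (ℕ →₀ F)) : SwG S F) =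
            ((a • (x : SwG S F)) + (a • (y : SwG S F)) : SwG S F) := smul_add a _ _
        rw [h0]
        refine (smul_add a _ _).trans ?_
        rw [hx, hy]
        refine (map_add (swRG S F e) _ _).symm.trans ?_
        exact congrArg (swRG S F e) h1.symm
    exact h x

end Stab

theorem swb : S_swb := by
  intro S F _ _ _ _ _ hF
  have bF : Module.Basis (Module.Free.ChooseBasisIndex ℤ F) ℤ F := Module.Free.chooseBasis ℤ F
  let bY : Module.Basis (Σ _ : ℕ, Module.Free.ChooseBasisIndex ℤ F) ℤ (ℕ →₀ F) :=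
    Finsupp.basis fun _ => bF
  let bG : Module.Basis (Σ _ : ℕ, Module.Free.ChooseBasisIndex ℤ F) (MonoidAlgebra ℤ S)
      (SwG S F) := bY.baseChange (MonoidAlgebra ℤ S)
  refine ⟨SwG S F, inferInstance, inferInstance, inferInstance, inferInstance, ?_, ?_⟩
  · refine ⟨_, bG, fun b e => ⟨bY.repr (MulOpposite.op e • bY b), ?_⟩⟩
    have h1 : ∀ b, bG b = ((1 : MonoidAlgebra ℤ S) ⊗ₜ[ℤ] bY b :
        MonoidAlgebra ℤ S ⊗[ℤ] (ℕ →₀ F)) := fun b => Module.Basis.baseChange_apply _ _ _
    have h2 : MulOpposite.op e • bG b = ((1 : MonoidAlgebra ℤ S) ⊗ₜ[ℤ] (MulOpposite.op e • bY b) :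
        MonoidAlgebra ℤ S ⊗[ℤ] (ℕ →₀ F)) := by
      rw [sw_op, h1]
      exact swRG_tmul S F _ _ _
    refine h2.trans ?_
    let T : (ℕ →₀ F) →ₗ[ℤ] (MonoidAlgebra ℤ S ⊗[ℤ] (ℕ →₀ F)) :=
      TensorProduct.mk ℤ (MonoidAlgebra ℤ S) (ℕ →₀ F) 1
    have h3 : T (MulOpposite.op e • bY b) =
        (bY.repr (MulOpposite.op e • bY b)).sum fun b' n => n • T (bY b') := by
      conv_lhs => rw [← bY.linearCombination_repr (MulOpposite.op e • bY b)]
      rw [Finsupp.linearCombination_apply, map_finsuppSum]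
      exact Finsupp.sum_congr fun b _ => map_zsmul _ _ _
    refine Eq.trans ?_ (h3.trans ?_)
    · rfl
    · refine Finsupp.sum_congr fun b' _ => ?_
      rw [h1]
      rfl
  · intro N _ _ s hs hN
    let A := MonoidAlgebra ℤ S
    let J := Module.Free.ChooseBasisIndex ℤ F
    let p : (J →₀ A) →ₗ[A] N := Finsupp.linearCombination A fun j => s (bF j)
    have hp : Function.Surjective p := by
      intro n
      obtain ⟨y, rfl⟩ := hs n
      have hy : ∀ y : F, ∃ x, p x = s y := by
        intro y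
        have hm := bF.mem_span y
        induction hm using Submodule.span_induction with
        | mem y hy =>
          obtain ⟨j, rfl⟩ := hy
          refine ⟨Finsupp.single j 1, ?_⟩
          change Finsupp.linearCombination A (fun j => s (bF j)) _ = _
          rw [Finsupp.linearCombination_single, one_smul]
        | zero => exact ⟨0, by rw [map_zero, map_zero]⟩
        | add y z _ _ hy hz =>
          obtain ⟨u, hu⟩ := hy
          obtain ⟨v, hv⟩ := hz
          exact ⟨u + v, by rw [map_add, map_add, hu, hv]⟩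
        | smul n y _ hy =>
          obtain ⟨u, hu⟩ := hy
          exact ⟨n • u, by rw [map_zsmul, map_zsmul, hu]⟩
      exact hy y
    obtain ⟨i, hi⟩ := Module.projective_lifting_property p LinearMap.id hp
    have hi' : ∀ n, p (i n) = n := fun n => DFunLike.congr_fun hi n
    let e1 : SwG S F ≃ₗ[A] ((Σ _ : ℕ, J) →₀ A) := bG.repr
    let e2 : ((Σ _ : ℕ, J) →₀ A) ≃ₗ[A] (ℕ × J →₀ A) :=
      Finsupp.domLCongr (Equiv.sigmaEquivProd ℕ J)
    let e3 : (ℕ × J →₀ A) ≃ₗ[A] (ℕ →₀ (J →₀ A)) := Finsupp.curryLinearEquiv A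
    let e4 : SwG S F ≃ₗ[A] (ℕ →₀ (J →₀ A)) := (e1.trans e2).trans e3
    let e5 : (N × SwG S F) ≃ₗ[A] (N × (ℕ →₀ (J →₀ A))) := (LinearEquiv.refl A N).prodCongr e4
    let e6 : (N × (ℕ →₀ (J →₀ A))) ≃ₗ[A] (ℕ →₀ (J →₀ A)) := swE i p hi'
    let e7 : (N × SwG S F) ≃ₗ[A] (ℕ × J →₀ A) := (e5.trans e6).trans e3.symm
    exact Module.Free.of_equiv e7.symm

end Pool.Agent.HierR
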