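import Pool.Agent.Lib.MP_8f66f0_al_HierR.SpecT

/-! Block T: existence and universal property of `T(M)`. -/

set_option autoImplicit false

namespace Pool.Agent.HierR

open Pool.Agent.Wald Pool.Agent.Ind Pool.Agent.Hier

section

variable {LL S Q' M B T : Type} [CommRing LL] [Monoid S] [Ring Q'] [Algebra LL Q'] [Ring T]
  [Algebra LL T] [AddCommGroup M] [Module (MonoidAlgebra ℤ S) M]

/-- Left linear maps for elements of the monoid algebra. -/
private lemma tm_smul (ρ : S →* Q') (f : Q' →ₐ[LL] T) (F : M →+ T)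
    (h : ∀ (e : S) (m : M), F (MonoidAlgebra.single e (1 : ℤ) • m) = f (ρ e) * F m)
    (a : MonoidAlgebra ℤ S) (m : M) : F (a • m) = f (gz ρ a) * F m := by
  induction a using MonoidAlgebra.induction_linear with
  | zero => rw [zero_smul, map_zero, map_zero, map_zero, zero_mul]
  | add x y hx hy => rw [add_smul, map_add, hx, hy, map_add, map_add, add_mul]
  | single e t =>
    have h1 : (MonoidAlgebra.single e t : MonoidAlgebra ℤ S) = t • MonoidAlgebra.single e 1 := by
      rw [MonoidAlgebra.smul_single, smul_eq_mul, mul_one]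
    have h2 : gz ρ (MonoidAlgebra.single e (1 : ℤ)) = ρ e := by
      change MonoidAlgebra.lift ℤ Q' S ρ (MonoidAlgebra.single e (1 : ℤ)) = ρ e
      rw [MonoidAlgebra.lift_single, one_smul]
    rw [h1, smul_assoc, map_zsmul, h, map_zsmul, h2, map_zsmul, smul_mul_assoc]

/-- Two left linear maps which agree on a basis are equal. -/
private lemma tm_ext (ρ : S →* Q') (f : Q' →ₐ[LL] T) (bM : Module.Basis B (MonoidAlgebra ℤ S) M)
    (F G : M →+ T)
    (hF : ∀ (e : S) (m : M), F (MonoidAlgebra.single e (1 : ℤ) • m) = f (ρ e) * F m)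
    (hG : ∀ (e : S) (m : M), G (MonoidAlgebra.single e (1 : ℤ) • m) = f (ρ e) * G m)
    (h : ∀ b, F (bM b) = G (bM b)) (m : M) : F m = G m := by
  rw [← bM.linearCombination_repr m, Finsupp.linearCombination_apply, Finsupp.sum, map_sum,
    map_sum]
  refine Finset.sum_congr rfl fun b _ => ?_
  rw [tm_smul ρ f F hF, tm_smul ρ f G hG, h]

variable {I M'' : Type} [DistribMulAction Sᵐᵒᵖ M]

omit [Module (MonoidAlgebra ℤ S) M] in
private lemma tm_tr_add (w : I → M →+ T) (x : I →₀ MonoidAlgebra LL S) (m m' : M) :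
    tr w x (m + m') = tr w x m + tr w x m' := by
  simp only [tr, smul_add, map_add, Finsupp.sum_add]

omit [Module (MonoidAlgebra ℤ S) M] in
private lemma tm_tr_zero (w : I → M →+ T) (x : I →₀ MonoidAlgebra LL S) : tr w x 0 = 0 := by
  have h := tm_tr_add w x 0 0
  rw [add_zero] at h
  exact left_eq_add.1 h

private lemma tm_tr_smul [SMulCommClass (MonoidAlgebra ℤ S) Sᵐᵒᵖ M] (ρ : S →* Q')
    (f : Q' →ₐ[LL] T) (w : I → M →+ T)
    (h : ∀ (i : I) (e : S) (m : M), w i (MonoidAlgebra.single e (1 : ℤ) • m) = f (ρ e) * w i m)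
    (x : I →₀ MonoidAlgebra LL S) (e : S) (m : M) :
    tr w x (MonoidAlgebra.single e (1 : ℤ) • m) = f (ρ e) * tr w x m := by
  rw [tr, tr, Finsupp.sum, Finsupp.sum, Finset.mul_sum]
  refine Finset.sum_congr rfl fun j _ => ?_
  rw [Finsupp.sum, Finsupp.sum, Finset.mul_sum]
  refine Finset.sum_congr rfl fun e' _ => ?_
  rw [← smul_comm (MonoidAlgebra.single e (1 : ℤ)) (MulOpposite.op e') m, h, mul_smul_comm]

/-- The relations hold for all `m` if they hold for the elements of the basis. -/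
private lemma tm_rel [SMulCommClass (MonoidAlgebra ℤ S) Sᵐᵒᵖ M] [AddCommGroup M'']
    [Module (MonoidAlgebra ℤ S) M''] [DistribMulAction Sᵐᵒᵖ M'']
    {X : MX LL Q' (MonoidAlgebra LL S) I} {ρ : S →* Q'} (D : CM LL X ρ M'') {r : M →+ M''}
    (hr : IsBi (S := S) r) (bM : Module.Basis B (MonoidAlgebra ℤ S) M) (f : Q' →ₐ[LL] T)
    (w : I → M →+ T)
    (hw : ∀ (i : I) (e : S) (m : M), w i (MonoidAlgebra.single e (1 : ℤ) • m) = f (ρ e) * w i m)
    (i : I) (q : Q')
    (h : ∀ b, w i (bM b) * f q = f (D.c i (r (bM b)) q) + tr w (X.x i q) (bM b)) (m : M) :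
    w i m * f q = f (D.c i (r m) q) + tr w (X.x i q) m := by
  let F : M →+ T := (AddMonoidHom.mulRight (f q)).comp (w i)
  let G : M →+ T :=
    { toFun := fun m => f (D.c i (r m) q) + tr w (X.x i q) m
      map_zero' := by
        rw [tm_tr_zero, map_zero, map_zero, LinearMap.zero_apply, map_zero, add_zero]
      map_add' := fun m m' => by
        rw [tm_tr_add, map_add, map_add, LinearMap.add_apply, map_add]
        abel }
  refine tm_ext ρ f bM F G ?_ ?_ h m
  · intro e m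
    change w i (MonoidAlgebra.single e (1 : ℤ) • m) * f q = f (ρ e) * (w i m * f q)
    rw [hw, mul_assoc]
  · intro e m
    change f (D.c i (r (MonoidAlgebra.single e (1 : ℤ) • m)) q) +
      tr w (X.x i q) (MonoidAlgebra.single e (1 : ℤ) • m) =
      f (ρ e) * (f (D.c i (r m) q) + tr w (X.x i q) m)
    rw [tm_tr_smul ρ f w hw, hr.1, D.lin, map_mul, mul_add]

/-- The left linear map with given values on a basis. -/
private noncomputable def tmW (ρ : S →* Q') (f : Q' →ₐ[LL] T)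
    (bM : Module.Basis B (MonoidAlgebra ℤ S) M) (ℓ : B → T) : M →+ T :=
  (Finsupp.liftAddHom fun b => (AddMonoidHom.mulRight (ℓ b)).comp
    (((f : Q' →+* T).comp (gz ρ) : MonoidAlgebra ℤ S →+* T) : MonoidAlgebra ℤ S →+ T)).comp
    (bM.repr.toLinearMap.toAddMonoidHom)

omit [DistribMulAction Sᵐᵒᵖ M] in
private lemma tmW_apply (ρ : S →* Q') (f : Q' →ₐ[LL] T)
    (bM : Module.Basis B (MonoidAlgebra ℤ S) M) (ℓ : B → T) (m : M) :
    tmW ρ f bM ℓ m = (bM.repr m).sum fun b a => f (gz ρ a) * ℓ b := rfl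

omit [DistribMulAction Sᵐᵒᵖ M] in
private lemma tmW_basis (ρ : S →* Q') (f : Q' →ₐ[LL] T)
    (bM : Module.Basis B (MonoidAlgebra ℤ S) M) (ℓ : B → T) (b : B) :
    tmW ρ f bM ℓ (bM b) = ℓ b := by
  rw [tmW_apply, bM.repr_self, Finsupp.sum_single_index, map_one, map_one, one_mul]
  rw [map_zero, map_zero, zero_mul]

omit [DistribMulAction Sᵐᵒᵖ M] in
private lemma tmW_lin (ρ : S →* Q') (f : Q' →ₐ[LL] T)
    (bM : Module.Basis B (MonoidAlgebra ℤ S) M) (ℓ : B → T) (e : S) (m : M) :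
    tmW ρ f bM ℓ (MonoidAlgebra.single e (1 : ℤ) • m) = f (ρ e) * tmW ρ f bM ℓ m := by
  have h2 : gz ρ (MonoidAlgebra.single e (1 : ℤ)) = ρ e := by
    change MonoidAlgebra.lift ℤ Q' S ρ (MonoidAlgebra.single e (1 : ℤ)) = ρ e
    rw [MonoidAlgebra.lift_single, one_smul]
  rw [tmW_apply, tmW_apply, map_smul, Finsupp.sum_smul_index, Finsupp.mul_sum]
  · refine Finset.sum_congr rfl fun b _ => ?_
    change f (gz ρ (MonoidAlgebra.single e (1 : ℤ) * bM.repr m b)) * ℓ b =
      f (ρ e) * (f (gz ρ (bM.repr m b)) * ℓ b)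
    rw [map_mul, map_mul, h2, mul_assoc]
  · intro b
    rw [map_zero, map_zero, zero_mul]

end

/-- T3. Existence and universal property of `T(M)`. -/
theorem tm (h1 : S_con) (h2 : S_lift) (h3 : S_tmls) (h4 : S_trp) : S_tm := by
  intro LL S Q' I M M'' B _ _ _ _ _ _ _ _ _ _ _ _ X ρ D r bM hr
  obtain ⟨L, hc, hm⟩ := h3 LL S Q' I M M'' B X ρ D r bM hr
  constructor
  · obtain ⟨T, iT, iA, f, ℓ, hrel, hfree⟩ := h1 LL Q' (B × I) L
    let w : I → M →+ T := fun i => tmW ρ f bM fun b => ℓ (b, i)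
    have hw : ∀ b i, w i (bM b) = ℓ (b, i) := fun b i => tmW_basis ρ f bM _ b
    have hlin : ∀ (i : I) (e : S) (m : M),
        w i (MonoidAlgebra.single e (1 : ℤ) • m) = f (ρ e) * w i m :=
      fun i e m => tmW_lin ρ f bM _ e m
    have hl : (fun a : B × I => w a.2 (bM a.1)) = ℓ := funext fun a => hw a.1 a.2
    refine ⟨T, iT, iA, f, w, hlin, ?_, fun i m q => ?_⟩
    · rw [hl]
      exact hfree
    · refine tm_rel D hr bM f w hlin i q (fun b => ?_) m
      have h := hrel (b, i) q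
      rw [hc, hm, ← hl, h4 LL S Q' T I M B ρ bM f w _ _ hlin] at h
      exact h
  · intro T Z _ _ _ _ f w g z hT hz hz'
    have r1 : L.Rel (f : Q' →+* T) (fun a : B × I => w a.2 (bM a.1)) := by
      rintro ⟨b, i⟩ q
      rw [hc, hm, h4 LL S Q' T I M B ρ bM f w _ _ hT.lin]
      exact hT.rel i (bM b) q
    have r2 : L.Rel (g : Q' →+* Z) (fun a : B × I => z a.2 (bM a.1)) := by
      rintro ⟨b, i⟩ q
      rw [hc, hm, h4 LL S Q' Z I M B ρ bM g z _ _ hz]
      exact hz' i (bM b) q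
    obtain ⟨φ, e1, e2, _⟩ := h2 LL Q' (B × I) T Z L f _ g _ r1 hT.free r2
    refine ⟨φ, e1, fun i m => ?_⟩
    refine tm_ext ρ g bM ((φ : T →+ Z).comp (w i)) (z i) ?_ (hz i) (fun b => e2 (b, i)) m
    intro e m
    change φ (w i (MonoidAlgebra.single e (1 : ℤ) • m)) = g (ρ e) * φ (w i m)
    rw [hT.lin, map_mul, e1]

end Pool.Agent.HierR
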