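import Pool.Agent.Lib.MP_8f66f0_al_HierR.SpecT

/-! T2: the letter system of `T(M)` for a bimodule `M` (helper98; model: HierZ/Tpls). -/

set_option autoImplicit false

namespace Pool.Agent.HierR

open Pool.Agent.Wald Pool.Agent.Ind Pool.Agent.Hier

section TmlsAux

variable {LL S Q' I M B : Type} [CommRing LL] [Monoid S] [Ring Q'] [Algebra LL Q']
  [AddCommGroup M] [Module (MonoidAlgebra ℤ S) M] [DistribMulAction Sᵐᵒᵖ M]

/-- coefficients, as a linear map -/
private noncomputable def tmlsCo : MonoidAlgebra LL S →ₗ[LL] (S →₀ LL) where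
  toFun := MonoidAlgebra.coeff
  map_add' _ _ := rfl
  map_smul' _ _ := rfl

private theorem gz_single (ρ : S →* Q') (e : S) (n : ℤ) :
    gz ρ (MonoidAlgebra.single e n) = n • ρ e := by
  change MonoidAlgebra.lift ℤ Q' S ρ (MonoidAlgebra.single e n) = _
  rw [MonoidAlgebra.lift_single]

/-- left linearity, from the group-like elements to the whole ring -/
private theorem lin_all {N : Type} [AddCommGroup N] [Module Q' N] (ρ : S →* Q') (G : M →+ N)
    (hG : ∀ (e : S) (m : M), G (MonoidAlgebra.single e (1 : ℤ) • m) = ρ e • G m)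
    (a : MonoidAlgebra ℤ S) (m : M) : G (a • m) = gz ρ a • G m := by
  induction a using MonoidAlgebra.induction_linear with
  | zero => rw [zero_smul, map_zero, map_zero, zero_smul]
  | add a a' h h' => rw [add_smul, map_add, h, h', map_add, add_smul]
  | single e n =>
    have h1 : (MonoidAlgebra.single e n : MonoidAlgebra ℤ S) =
        n • MonoidAlgebra.single e (1 : ℤ) := by
      rw [MonoidAlgebra.smul_single, smul_eq_mul, mul_one]
    rw [gz_single, h1, smul_assoc, map_zsmul, hG, smul_assoc]

/-- the value of `trP` at one element -/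
private noncomputable def tmls1 (ρ : S →* Q') (bM : Module.Basis B (MonoidAlgebra ℤ S) M)
    (j : I) : M →+ ((B × I) →₀ Q') :=
  (Finsupp.liftAddHom fun b : B => ((Finsupp.singleAddHom (b, j)).comp
    (gz ρ : MonoidAlgebra ℤ S →+ Q') : MonoidAlgebra ℤ S →+ ((B × I) →₀ Q'))).comp
      (bM.repr : M →+ (B →₀ MonoidAlgebra ℤ S))

private theorem tmls1_apply (ρ : S →* Q') (bM : Module.Basis B (MonoidAlgebra ℤ S) M) (j : I)
    (m : M) : tmls1 ρ bM j m =
      (bM.repr m).sum fun b a => Finsupp.single (b, j) (gz ρ a) := rfl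

private theorem tmls1_smul (ρ : S →* Q') (bM : Module.Basis B (MonoidAlgebra ℤ S) M) (j : I)
    (a : MonoidAlgebra ℤ S) (m : M) : tmls1 ρ bM j (a • m) = gz ρ a • tmls1 ρ bM j m := by
  rw [tmls1_apply, tmls1_apply, map_smul, Finsupp.sum_smul_index (fun b => by
    rw [map_zero, Finsupp.single_zero]), Finsupp.smul_sum]
  refine Finsupp.sum_congr fun b _ => ?_
  rw [map_mul, Finsupp.smul_single, smul_eq_mul]

/-- `trP` as a linear map -/
private noncomputable def tmlsW (ρ : S →* Q') (bM : Module.Basis B (MonoidAlgebra ℤ S) M)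
    (m : M) : (I →₀ MonoidAlgebra LL S) →ₗ[LL] ((B × I) →₀ Q') :=
  Finsupp.lsum LL fun j => (Finsupp.lsum LL fun e : S =>
    LinearMap.toSpanSingleton LL ((B × I) →₀ Q')
      (tmls1 ρ bM j (MulOpposite.op e • m))).comp tmlsCo

private theorem tmlsW_apply (ρ : S →* Q') (bM : Module.Basis B (MonoidAlgebra ℤ S) M) (m : M)
    (x : I →₀ MonoidAlgebra LL S) : tmlsW ρ bM m x = trP ρ bM m x := by
  unfold tmlsW trP
  rw [Finsupp.lsum_apply]
  refine Finsupp.sum_congr fun j _ => ?_
  rw [LinearMap.comp_apply, Finsupp.lsum_apply]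
  refine Finsupp.sum_congr fun e _ => ?_
  rw [LinearMap.toSpanSingleton_apply, tmls1_apply, Finsupp.sum, Finsupp.sum, Finset.smul_sum]
  refine Finset.sum_congr rfl fun b _ => ?_
  rw [Finsupp.smul_single]

private theorem tmlsW_single (ρ : S →* Q') (bM : Module.Basis B (MonoidAlgebra ℤ S) M) (m : M)
    (j : I) (e : S) (t : LL) :
    tmlsW ρ bM m (Finsupp.single j (MonoidAlgebra.single e t)) =
      t • tmls1 ρ bM j (MulOpposite.op e • m) := by
  unfold tmlsW
  rw [Finsupp.lsum_single, LinearMap.comp_apply]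
  have h : (tmlsCo (MonoidAlgebra.single e t) : S →₀ LL) = Finsupp.single e t := rfl
  rw [h, Finsupp.lsum_single, LinearMap.toSpanSingleton_apply]

private theorem tmlsW_addp (ρ : S →* Q') (bM : Module.Basis B (MonoidAlgebra ℤ S) M) (m m' : M)
    (x : I →₀ MonoidAlgebra LL S) :
    tmlsW ρ bM (m + m') x = tmlsW ρ bM m x + tmlsW ρ bM m' x := by
  induction x using Finsupp.induction_linear with
  | zero => rw [map_zero, map_zero, map_zero, add_zero]
  | add x y hx hy => rw [map_add, map_add, map_add, hx, hy]; abel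
  | single j r =>
    induction r using MonoidAlgebra.induction_linear with
    | zero => rw [Finsupp.single_zero, map_zero, map_zero, map_zero, add_zero]
    | add x y hx hy =>
      rw [Finsupp.single_add, map_add, map_add, map_add, hx, hy]; abel
    | single e t =>
      rw [tmlsW_single, tmlsW_single, tmlsW_single, smul_add, map_add, smul_add]

/-- `trP` as an additive function of the element of the bimodule -/
private noncomputable def tmlsP (ρ : S →* Q') (bM : Module.Basis B (MonoidAlgebra ℤ S) M)
    (x : I →₀ MonoidAlgebra LL S) : M →+ ((B × I) →₀ Q') :=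
  AddMonoidHom.mk' (fun m => tmlsW ρ bM m x) fun m m' => tmlsW_addp ρ bM m m' x

private theorem tmlsW_left [SMulCommClass (MonoidAlgebra ℤ S) Sᵐᵒᵖ M] (ρ : S →* Q')
    (bM : Module.Basis B (MonoidAlgebra ℤ S) M) (a : MonoidAlgebra ℤ S) (m : M)
    (x : I →₀ MonoidAlgebra LL S) :
    tmlsW ρ bM (a • m) x = gz ρ a • tmlsW ρ bM m x := by
  induction x using Finsupp.induction_linear with
  | zero => rw [map_zero, map_zero, smul_zero]
  | add x y hx hy => rw [map_add, map_add, hx, hy, smul_add]
  | single j r =>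
    induction r using MonoidAlgebra.induction_linear with
    | zero => rw [Finsupp.single_zero, map_zero, map_zero, smul_zero]
    | add x y hx hy => rw [Finsupp.single_add, map_add, map_add, hx, hy, smul_add]
    | single e t =>
      rw [tmlsW_single, tmlsW_single, ← smul_comm a (MulOpposite.op e) m, tmls1_smul,
        smul_comm t (gz ρ a)]

private theorem tmlsW_smul (ρ : S →* Q') (bM : Module.Basis B (MonoidAlgebra ℤ S) M) (m : M)
    (r : MonoidAlgebra LL S) (x : I →₀ MonoidAlgebra LL S) :
    tmlsW ρ bM m (r • x) =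
      r.coeff.sum fun e t => t • tmlsW ρ bM (MulOpposite.op e • m) x := by
  induction x using Finsupp.induction_linear with
  | zero =>
    rw [smul_zero, map_zero]
    symm
    refine Finset.sum_eq_zero fun e _ => ?_
    simp only
    rw [map_zero, smul_zero]
  | add x y h h' =>
    rw [smul_add, map_add, h, h', ← Finsupp.sum_add]
    refine Finsupp.sum_congr fun e _ => ?_
    rw [map_add, smul_add]
  | single j s =>
    rw [Finsupp.smul_single, smul_eq_mul]
    induction r using MonoidAlgebra.induction_linear with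
    | zero =>
      rw [zero_mul, Finsupp.single_zero, map_zero]
      rfl
    | add r r' h h' =>
      rw [add_mul, Finsupp.single_add, map_add, h, h', MonoidAlgebra.coeff_add,
        Finsupp.sum_add_index']
      · intro e
        rw [zero_smul]
      · intro e t t'
        rw [add_smul]
    | single e t =>
      rw [MonoidAlgebra.coeff_single, Finsupp.sum_single_index (by rw [zero_smul])]
      induction s using MonoidAlgebra.induction_linear with
      | zero => rw [mul_zero, Finsupp.single_zero, map_zero, map_zero, smul_zero]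
      | add s s' h h' =>
        rw [mul_add, Finsupp.single_add, map_add, h, h', Finsupp.single_add, map_add, smul_add]
      | single e' t' =>
        rw [MonoidAlgebra.single_mul_single, tmlsW_single, tmlsW_single, MulOpposite.op_mul,
          mul_smul (MulOpposite.op e') (MulOpposite.op e) m, mul_smul t t']

/-- sums over `trP` -/
private theorem tmls_sum {N : Type} [AddCommMonoid N] (ρ : S →* Q')
    (bM : Module.Basis B (MonoidAlgebra ℤ S) M) (m : M) (x : I →₀ MonoidAlgebra LL S)
    (F : B × I → Q' → N) (h0 : ∀ b, F b 0 = 0) (hF : ∀ b r r', F b (r + r') = F b r + F b r') :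
    (trP ρ bM m x).sum F = x.sum fun j r => r.coeff.sum fun e t =>
      (bM.repr (MulOpposite.op e • m)).sum fun b a => F (b, j) (t • gz ρ a) := by
  unfold trP
  rw [Finsupp.sum_sum_index h0 hF]
  refine Finsupp.sum_congr fun j _ => ?_
  rw [Finsupp.sum_sum_index h0 hF]
  refine Finsupp.sum_congr fun e _ => ?_
  rw [Finsupp.sum_sum_index h0 hF]
  refine Finsupp.sum_congr fun b _ => ?_
  rw [Finsupp.sum_single_index (h0 _)]

private theorem tmls_repr {N : Type} [AddCommGroup N] [Module Q' N] (ρ : S →* Q')
    (bM : Module.Basis B (MonoidAlgebra ℤ S) M) (G : M →+ N)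
    (hG : ∀ (a : MonoidAlgebra ℤ S) (m : M), G (a • m) = gz ρ a • G m) (m : M) :
    ((bM.repr m).sum fun b a => gz ρ a • G (bM b)) = G m := by
  conv_rhs => rw [← bM.linearCombination_repr m]
  rw [Finsupp.linearCombination_apply, map_finsuppSum]
  refine Finsupp.sum_congr fun b _ => ?_
  rw [hG]

end TmlsAux

/-- T2. The letter system of `T(M)`. -/
theorem tmls : S_tmls := by
  intro LL S Q' I M M'' B _ _ _ _ _ _ _ _ _ _ _ _ X ρ D r bM hr
  refine ⟨⟨fun a => D.c a.2 (r (bM a.1)), fun a => (tmlsW ρ bM (bM a.1)).comp (X.x a.2),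
    ?_, ?_, ?_, ?_⟩, fun b i q => rfl, fun b i q => tmlsW_apply ρ bM _ _⟩
  · rintro ⟨b, i⟩
    exact D.one i _
  · rintro ⟨b, i⟩
    change tmlsW ρ bM (bM b) (X.x i 1) = _
    have h1 : (1 : MonoidAlgebra LL S) = MonoidAlgebra.single 1 1 := rfl
    rw [X.one, h1, tmlsW_single, tmls1_apply, MulOpposite.op_one, one_smul, one_smul,
      Module.Basis.repr_self, Finsupp.sum_single_index (by rw [map_zero, Finsupp.single_zero]),
      map_one]
  · rintro ⟨b, i⟩ q q'
    change D.c i (r (bM b)) (q * q') = D.c i (r (bM b)) q * q' +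
      (tmlsW ρ bM (bM b) (X.x i q)).sum fun b' s => s * D.c b'.2 (r (bM b'.1)) q'
    rw [D.mul, tmlsW_apply, tmls_sum ρ bM _ _ (fun b' s => s * D.c b'.2 (r (bM b'.1)) q')
      (fun b => zero_mul _) (fun b r r' => add_mul _ _ _)]
    congr 1
    refine Finsupp.sum_congr fun j _ => ?_
    refine Finsupp.sum_congr fun e _ => ?_
    let G : M →+ Q' :=
      { toFun := fun m => D.c j (r m) q'
        map_zero' := by rw [map_zero, map_zero, LinearMap.zero_apply]
        map_add' := fun m m' => by rw [map_add, map_add, LinearMap.add_apply] }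
    have hG : ∀ (a : MonoidAlgebra ℤ S) (m : M), G (a • m) = gz ρ a • G m :=
      lin_all ρ G fun e m => by
        change D.c j (r (MonoidAlgebra.single e (1 : ℤ) • m)) q' = ρ e * D.c j (r m) q'
        rw [hr.1, D.lin]
    have h1 := tmls_repr ρ bM G hG (MulOpposite.op e • bM b)
    have h2 : G (MulOpposite.op e • bM b) = D.c j (MulOpposite.op e • r (bM b)) q' := by
      change D.c j (r (MulOpposite.op e • bM b)) q' = _
      rw [hr.2]
    rw [← h2, ← h1, Finsupp.smul_sum]
    refine Finsupp.sum_congr fun b' _ => ?_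
    exact (smul_mul_assoc _ _ _).symm
  · rintro ⟨b, i⟩ q q'
    change tmlsW ρ bM (bM b) (X.x i (q * q')) = (tmlsW ρ bM (bM b) (X.x i q)).sum fun b' s =>
      s • tmlsW ρ bM (bM b'.1) (X.x b'.2 q')
    rw [X.mul, map_finsuppSum, tmlsW_apply ρ bM (bM b) (X.x i q), tmls_sum ρ bM _ _
      (fun b' s => s • tmlsW ρ bM (bM b'.1) (X.x b'.2 q')) (fun b => zero_smul _ _)
      (fun b r r' => add_smul _ _ _)]
    refine Finsupp.sum_congr fun j _ => ?_
    rw [tmlsW_smul]
    refine Finsupp.sum_congr fun e _ => ?_
    have h1 := tmls_repr ρ bM (tmlsP ρ bM (X.x j q')) (fun a m => tmlsW_left ρ bM a m _)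
      (MulOpposite.op e • bM b)
    change _ = tmlsW ρ bM (MulOpposite.op e • bM b) (X.x j q') at h1
    rw [← h1, Finsupp.smul_sum]
    refine Finsupp.sum_congr fun b' _ => ?_
    exact (smul_assoc _ _ _).symm

end Pool.Agent.HierR
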