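import Pool.Agent.Lib.MP_8f66f0_al_HierR.SpecO

/-! `LL[MoN]` is a retract of the ring `T(M)` for the bimodule of the morphisms. -/

set_option autoImplicit false

namespace Pool.Agent.HierR

open Pool.Agent.Wald Pool.Agent.Ind Pool.Agent.Hier

section TwoAux

variable {Γ P : Type} [Group Γ] [PartialOrder P] [MulAction Γ P] [MonoAct Γ P]
  (LL : Type) [CommRing LL]

/-- The difference of the basis elements of `mor x n` and of `zero`. -/
private noncomputable def twY (x : Tri Γ P) (n : ℕ) : MonoidAlgebra LL (MoN Γ P) :=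
  MonoidAlgebra.single (MoN.mor x n) 1 - MonoidAlgebra.single MoN.zero 1

private noncomputable def twZ : PM (Tri Γ P) →+ MonoidAlgebra LL (MoN Γ P) :=
  PM.lift fun x => twY LL x 1

private theorem mA_single (e : Mo Γ P) (t : LL) :
    mA LL (MoN.inc Γ P) (MonoidAlgebra.single e t) =
      MonoidAlgebra.single (MoN.inc Γ P e) t := by
  unfold mA gr
  rw [MonoidAlgebra.lift_single]
  change t • MonoidAlgebra.single (MoN.inc Γ P e) (1 : LL) = _
  rw [MonoidAlgebra.smul_single, smul_eq_mul, mul_one]

private theorem zero_mul_twY (x : Tri Γ P) (n : ℕ) :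
    MonoidAlgebra.single (MoN.zero : MoN Γ P) (1 : LL) * twY LL x n = 0 := by
  unfold twY
  rw [mul_sub, MonoidAlgebra.single_mul_single, MonoidAlgebra.single_mul_single]
  exact sub_self _

private theorem twY_mul_zero (x : Tri Γ P) (n : ℕ) :
    twY LL x n * MonoidAlgebra.single (MoN.zero : MoN Γ P) (1 : LL) = 0 := by
  unfold twY
  rw [sub_mul, MonoidAlgebra.single_mul_single, MonoidAlgebra.single_mul_single]
  exact sub_self _

private theorem single_mul_twY (e : Mo Γ P) (x : Tri Γ P) (n : ℕ) :
    MonoidAlgebra.single (MoN.inc Γ P e) (1 : LL) * twY LL x n =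
      (Mo.lT e x).elim 0 fun y => twY LL y n := by
  cases e with
  | one =>
    change MonoidAlgebra.single (1 : MoN Γ P) (1 : LL) * twY LL x n = twY LL x n
    rw [← MonoidAlgebra.one_def, one_mul]
  | zero => exact zero_mul_twY LL x n
  | mor y =>
    change MonoidAlgebra.single (MoN.mor y 0) (1 : LL) * twY LL x n =
      (y.mulO x).elim 0 fun y => twY LL y n
    unfold twY
    rw [mul_sub, MonoidAlgebra.single_mul_single, MonoidAlgebra.single_mul_single,
      MoN.mor_mul_mor, MoN.mul_zero', one_mul]
    cases y.mulO x with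
    | none => exact sub_self _
    | some u =>
      change MonoidAlgebra.single (MoN.mor u (0 + n)) 1 - _ = _
      rw [zero_add]
      rfl

private theorem twY_mul_single (e : Mo Γ P) (x : Tri Γ P) (n : ℕ) :
    twY LL x n * MonoidAlgebra.single (MoN.inc Γ P e) (1 : LL) =
      (Mo.rT x e).elim 0 fun y => twY LL y n := by
  cases e with
  | one =>
    change twY LL x n * MonoidAlgebra.single (1 : MoN Γ P) (1 : LL) = twY LL x n
    rw [← MonoidAlgebra.one_def, mul_one]
  | zero => exact twY_mul_zero LL x n
  | mor y =>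
    change twY LL x n * MonoidAlgebra.single (MoN.mor y 0) (1 : LL) =
      (x.mulO y).elim 0 fun y => twY LL y n
    unfold twY
    rw [sub_mul, MonoidAlgebra.single_mul_single, MonoidAlgebra.single_mul_single,
      MoN.mor_mul_mor, MoN.zero_mul', one_mul]
    cases x.mulO y with
    | none => exact sub_self _
    | some u => rfl

private theorem twZ_l (e : Mo Γ P) (m : PM (Tri Γ P)) :
    twZ LL (MonoidAlgebra.single e (1 : ℤ) • m) =
      MonoidAlgebra.single (MoN.inc Γ P e) (1 : LL) * twZ LL m := by
  rw [PM.single_smul]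
  have h : (twZ LL).comp (PM.lift fun x => PM.ofO (PBi.l e x)) =
      (AddMonoidHom.mulLeft (MonoidAlgebra.single (MoN.inc Γ P e) (1 : LL))).comp
        (twZ LL : PM (Tri Γ P) →+ _) := by
    refine PM.ext fun x => ?_
    rw [AddMonoidHom.comp_apply, AddMonoidHom.comp_apply, PM.lift_of]
    unfold twZ
    rw [PM.lift_of, PM.lift_ofO]
    exact (single_mul_twY LL e x 1).symm
  exact DFunLike.congr_fun h m

private theorem twZ_r (e : Mo Γ P) (m : PM (Tri Γ P)) :
    twZ LL (MulOpposite.op e • m) =
      twZ LL m * MonoidAlgebra.single (MoN.inc Γ P e) (1 : LL) := by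
  rw [PM.op_smul]
  have h : (twZ LL).comp (PM.lift fun x => PM.ofO (PBi.r x e)) =
      (AddMonoidHom.mulRight (MonoidAlgebra.single (MoN.inc Γ P e) (1 : LL))).comp
        (twZ LL : PM (Tri Γ P) →+ _) := by
    refine PM.ext fun x => ?_
    rw [AddMonoidHom.comp_apply, AddMonoidHom.comp_apply, PM.lift_of]
    unfold twZ
    rw [PM.lift_of, PM.lift_ofO]
    exact (twY_mul_single LL e x 1).symm
  exact DFunLike.congr_fun h m

private theorem id_mulO (x : Tri Γ P) : (Tri.id x.a : Tri Γ P).mulO x = some x := by
  unfold Tri.mulO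
  rw [dif_pos (show (Tri.id x.a : Tri Γ P).b = x.a from rfl)]
  congr 1
  exact Tri.ext rfl (one_mul _) rfl

private theorem mulO_id (x : Tri Γ P) : x.mulO (Tri.id x.b) = some x := by
  unfold Tri.mulO
  rw [dif_pos (show x.b = (Tri.id x.b : Tri Γ P).a from rfl)]
  congr 1
  exact Tri.ext rfl (mul_one _) rfl

private theorem mulO_id_ne (x : Tri Γ P) (c : P) (h : x.b ≠ c) : x.mulO (Tri.id c) = none := by
  unfold Tri.mulO
  rw [dif_neg]
  exact h

private theorem twY_pow (x : Tri Γ P) (n : ℕ) :
    (twY LL (Tri.id x.a) 1) ^ n * twY LL x 0 = twY LL x n := by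
  induction n with
  | zero => rw [pow_zero, one_mul]
  | succ n ih =>
    rw [pow_succ', mul_assoc, ih]
    unfold twY
    rw [mul_sub, sub_mul, sub_mul, MonoidAlgebra.single_mul_single,
      MonoidAlgebra.single_mul_single, MonoidAlgebra.single_mul_single,
      MonoidAlgebra.single_mul_single, MoN.mor_mul_mor, MoN.mul_zero', MoN.zero_mul',
      MoN.zero_mul', id_mulO, one_mul]
    change MonoidAlgebra.single (MoN.mor x (1 + n)) 1 - _ - (_ - _) = _
    rw [sub_self, sub_zero, add_comm]

end TwoAux

section Sig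

variable {Γ P : Type} [Group Γ] [PartialOrder P] [MulAction Γ P] [MonoAct Γ P]
  {Q : Type} [Ring Q]

/-- The monoid homomorphism to a ring with elements `z`, `E x`, `W a`. -/
private noncomputable def sigF (z : Q) (E : Tri Γ P → Q) (W : P → Q) : MoN Γ P → Q
  | .one => 1
  | .zero => z
  | .mor x n => z + W x.a ^ n * E x

omit [PartialOrder P] in
private theorem z_pow (z : Q) (W : P → Q) (h : ∀ a, z * W a = 0) (E : Q) (hE : z * E = 0)
    (a : P) (n : ℕ) : z * (W a ^ n * E) = 0 := by
  cases n with
  | zero => rw [pow_zero, one_mul, hE]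
  | succ n => rw [pow_succ', ← mul_assoc, ← mul_assoc, h, zero_mul, zero_mul]

private noncomputable def sigH (z : Q) (E : Tri Γ P → Q) (W : P → Q) (hz : z * z = z)
    (hzE : ∀ x, z * E x = 0) (hEz : ∀ x, E x * z = 0)
    (hEE : ∀ x y, E x * E y = (x.mulO y).elim 0 E) (hzW : ∀ a, z * W a = 0)
    (hEW : ∀ x, E x * W x.b = W x.a * E x) (hEW' : ∀ x c, x.b ≠ c → E x * W c = 0) :
    MoN Γ P →* Q where
  toFun := sigF z E W
  map_one' := rfl
  map_mul' u v := by
    have hp : ∀ (x : Tri Γ P) (m : ℕ), E x * W x.b ^ m = W x.a ^ m * E x := by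
      intro x m
      induction m with
      | zero => rw [pow_zero, pow_zero, one_mul, mul_one]
      | succ m ih => rw [pow_succ, ← mul_assoc, ih, mul_assoc, hEW, ← mul_assoc, ← pow_succ]
    cases u with
    | one =>
      change sigF z E W v = 1 * sigF z E W v
      rw [one_mul]
    | zero =>
      change z = z * sigF z E W v
      cases v with
      | one => exact (mul_one z).symm
      | zero => exact hz.symm
      | mor y m =>
        change z = z * (z + W y.a ^ m * E y)
        rw [mul_add, hz, z_pow z W hzW _ (hzE y), add_zero]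
    | mor x n =>
      cases v with
      | one =>
        change z + W x.a ^ n * E x = (z + W x.a ^ n * E x) * 1
        rw [mul_one]
      | zero =>
        change z = (z + W x.a ^ n * E x) * z
        rw [add_mul, hz, mul_assoc, hEz, mul_zero, add_zero]
      | mor y m =>
        change sigF z E W ((x.mulO y).elim .zero fun u => .mor u (n + m)) =
          (z + W x.a ^ n * E x) * (z + W y.a ^ m * E y)
        rw [mul_add, add_mul, add_mul, hz, mul_assoc _ (E x) z, hEz, mul_zero, add_zero,
          z_pow z W hzW _ (hzE y), zero_add]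
        by_cases hxy : x.b = y.a
        · have h1 : x.mulO y = some (x.comp y hxy) := by
            unfold Tri.mulO
            rw [dif_pos hxy]
          have h2 : W x.a ^ n * E x * (W y.a ^ m * E y) =
              W x.a ^ (n + m) * E (x.comp y hxy) := by
            have h3 := hEE x y
            rw [h1] at h3
            change E x * E y = E (x.comp y hxy) at h3
            rw [← hxy, mul_assoc, ← mul_assoc (E x), hp, mul_assoc, h3, ← mul_assoc, ← pow_add]
          rw [h1, h2]
          rfl
        · have h1 : x.mulO y = none := by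
            unfold Tri.mulO
            rw [dif_neg hxy]
          have h2 : W x.a ^ n * E x * (W y.a ^ m * E y) = 0 := by
            cases m with
            | zero =>
              rw [pow_zero, one_mul, mul_assoc, hEE, h1]
              exact mul_zero _
            | succ m =>
              rw [pow_succ', mul_assoc, mul_assoc, ← mul_assoc (E x), hEW' x _ hxy, zero_mul,
                mul_zero]
          rw [h1, h2, add_zero]
          rfl

end Sig

theorem two (h : S_tm) : S_two := by
  intro Γ P _ _ _ _ LL G BM _ _ _ _ _ X D bM Q _ _ f w hX hD hT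
  have hbi : IsBi (S := Mo Γ P) (AddMonoidHom.id (PM (Tri Γ P) × G)) :=
    ⟨fun _ _ => rfl, fun _ _ => rfl⟩
  obtain ⟨-, hU⟩ := h LL (Mo Γ P) (MonoidAlgebra LL (Mo Γ P)) Unit (PM (Tri Γ P) × G)
    (PM (Tri Γ P) × G) BM X (MonoidAlgebra.of LL (Mo Γ P)) D
    (AddMonoidHom.id (PM (Tri Γ P) × G)) bM hbi
  have htr : ∀ {Z : Type} [Ring Z] [Algebra LL Z] (z : Unit → (PM (Tri Γ P) × G) →+ Z)
      (m : PM (Tri Γ P) × G) (q : MonoidAlgebra LL (Mo Γ P)), tr z (X.x () q) m =
      q.coeff.sum fun e t => t • z () (MulOpposite.op e • m) := by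
    intro Z _ _ z m q
    rw [hX]
    unfold tr
    rw [Finsupp.sum_single_index]
    exact Finsupp.sum_zero_index
  obtain ⟨φ, hφ, hφw⟩ := hU Q (MonoidAlgebra LL (MoN Γ P)) f w (mA LL (MoN.inc Γ P))
    (fun _ => (twZ LL).comp (AddMonoidHom.fst _ _)) hT
    (by
      intro i e m
      change twZ LL (MonoidAlgebra.single e (1 : ℤ) • m.1) =
        mA LL (MoN.inc Γ P) (MonoidAlgebra.single e (1 : LL)) * twZ LL m.1
      rw [twZ_l, mA_single])
    (by
      intro i m q
      rw [hD, LinearMap.zero_apply, map_zero, zero_add, htr]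
      change twZ LL m.1 * mA LL (MoN.inc Γ P) q = _
      unfold mA gr
      rw [MonoidAlgebra.lift_apply, Finsupp.mul_sum]
      refine Finsupp.sum_congr fun e _ => ?_
      rw [mul_smul_comm]
      congr 1
      change twZ LL m.1 * MonoidAlgebra.single (MoN.inc Γ P e) (1 : LL) =
        twZ LL (MulOpposite.op e • m.1)
      rw [twZ_r])
  let o : MonoidAlgebra LL (Mo Γ P) := MonoidAlgebra.single Mo.zero 1
  let E : Tri Γ P → Q := fun x => f (MonoidAlgebra.single (Mo.mor x) 1 - o)
  let W : P → Q := fun a => w () (PM.of (Tri.id a), 0)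
  have hl : ∀ (e : Mo Γ P) (x : Tri Γ P), f (MonoidAlgebra.single e 1) * w () (PM.of x, 0) =
      w () (PM.ofO (Mo.lT e x), 0) := by
    intro e x
    have h1 := hT.lin () e (PM.of x, 0)
    have h2 : MonoidAlgebra.single e (1 : ℤ) • ((PM.of x, 0) : PM (Tri Γ P) × G) =
        (PM.ofO (Mo.lT e x), 0) := by
      refine Prod.ext ?_ ?_
      · exact PM.single_smul_of e x
      · exact smul_zero _
    rw [h2] at h1
    exact h1.symm
  have hr : ∀ (e : Mo Γ P) (x : Tri Γ P), w () (PM.of x, 0) * f (MonoidAlgebra.single e 1) =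
      w () (PM.ofO (Mo.rT x e), 0) := by
    intro e x
    rw [hT.rel, hD, LinearMap.zero_apply, map_zero, zero_add, htr]
    have h2 : MulOpposite.op e • ((PM.of x, 0) : PM (Tri Γ P) × G) =
        (PM.ofO (Mo.rT x e), 0) := by
      refine Prod.ext ?_ ?_
      · exact PM.op_smul_of e x
      · exact smul_zero _
    change (Finsupp.single e (1 : LL)).sum _ = _
    rw [Finsupp.sum_single_index, one_smul, h2]
    rw [zero_smul]
  have h00 : ∀ m : PM (Tri Γ P) × G, m = (0, 0) → w () m = 0 := by
    rintro m rfl
    exact map_zero _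
  have hoo : o * o = o := by
    change MonoidAlgebra.single Mo.zero 1 * MonoidAlgebra.single Mo.zero 1 = _
    rw [MonoidAlgebra.single_mul_single, one_mul]
    rfl
  have hzW : ∀ a, f o * W a = 0 := fun a => (hl Mo.zero (Tri.id a)).trans (h00 _ rfl)
  have hWz : ∀ a, W a * f o = 0 := fun a => (hr Mo.zero (Tri.id a)).trans (h00 _ rfl)
  have hEW0 : ∀ x c, E x * W c = w () (PM.ofO (x.mulO (Tri.id c)), 0) := by
    intro x c
    change f (MonoidAlgebra.single (Mo.mor x) 1 - o) * W c = _
    rw [map_sub, sub_mul, hzW, sub_zero]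
    exact hl (Mo.mor x) (Tri.id c)
  have hWE0 : ∀ x c, W c * E x = w () (PM.ofO ((Tri.id c : Tri Γ P).mulO x), 0) := by
    intro x c
    change W c * f (MonoidAlgebra.single (Mo.mor x) 1 - o) = _
    rw [map_sub, mul_sub, hWz, sub_zero]
    exact hr (Mo.mor x) (Tri.id c)
  let s : MoN Γ P →* Q := sigH (f o) E W (by rw [← map_mul, hoo])
    (by
      intro x
      change f o * f (MonoidAlgebra.single (Mo.mor x) 1 - o) = 0
      rw [← map_mul, mul_sub, hoo]
      change f (MonoidAlgebra.single Mo.zero 1 * MonoidAlgebra.single (Mo.mor x) 1 - o) = 0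
      rw [MonoidAlgebra.single_mul_single, one_mul]
      change f (o - o) = 0
      rw [sub_self, map_zero])
    (by
      intro x
      change f (MonoidAlgebra.single (Mo.mor x) 1 - o) * f o = 0
      rw [← map_mul, sub_mul, hoo]
      change f (MonoidAlgebra.single (Mo.mor x) 1 * MonoidAlgebra.single Mo.zero 1 - o) = 0
      rw [MonoidAlgebra.single_mul_single, one_mul]
      change f (o - o) = 0
      rw [sub_self, map_zero])
    (by
      intro x y
      change f (MonoidAlgebra.single (Mo.mor x) 1 - o) * f (MonoidAlgebra.single (Mo.mor y) 1 - o)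
        = _
      rw [← map_mul, mul_sub, sub_mul, sub_mul, hoo]
      change f (MonoidAlgebra.single (Mo.mor x) 1 * MonoidAlgebra.single (Mo.mor y) 1 -
        MonoidAlgebra.single Mo.zero 1 * MonoidAlgebra.single (Mo.mor y) 1 -
        (MonoidAlgebra.single (Mo.mor x) 1 * MonoidAlgebra.single Mo.zero 1 - o)) = _
      rw [MonoidAlgebra.single_mul_single, MonoidAlgebra.single_mul_single,
        MonoidAlgebra.single_mul_single, one_mul, Mo.mor_mul_mor]
      change f (MonoidAlgebra.single ((x.mulO y).elim .zero .mor) 1 - o - (o - o)) = _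
      rw [sub_self, sub_zero]
      cases x.mulO y with
      | none =>
        change f (o - o) = 0
        rw [sub_self, map_zero]
      | some u => rfl)
    hzW
    (by
      intro x
      rw [hEW0, hWE0, id_mulO, mulO_id])
    (by
      intro x c hc
      rw [hEW0, mulO_id_ne x c hc]
      exact h00 _ rfl)
  refine ⟨φ, MonoidAlgebra.lift LL Q (MoN Γ P) s, hφ, fun u => ?_⟩
  have hid : φ.comp (MonoidAlgebra.lift LL Q (MoN Γ P) s) =
      AlgHom.id LL (MonoidAlgebra LL (MoN Γ P)) := by
    refine MonoidAlgebra.algHom_ext (fun u => ?_) (by ext)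
    rw [AlgHom.comp_apply, MonoidAlgebra.lift_single, one_smul, AlgHom.id_apply]
    cases u with
    | one => exact map_one φ
    | zero =>
      change φ (f o) = _
      rw [hφ]
      exact mA_single LL (Mo.zero : Mo Γ P) 1
    | mor x n =>
      change φ (f o + W x.a ^ n * f (MonoidAlgebra.single (Mo.mor x) 1 - o)) = _
      have hW : φ (W x.a) = twY LL (Tri.id x.a) 1 := by
        refine (hφw () (PM.of (Tri.id x.a), 0)).trans ?_
        exact PM.lift_of _ _
      rw [map_add, map_mul, map_pow, hW, hφ, hφ, map_sub]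
      have h1 : mA LL (MoN.inc Γ P) o = MonoidAlgebra.single (MoN.zero : MoN Γ P) 1 :=
        mA_single LL (Mo.zero : Mo Γ P) 1
      have h2 : mA LL (MoN.inc Γ P) (MonoidAlgebra.single (Mo.mor x) 1) =
          MonoidAlgebra.single (MoN.mor x 0 : MoN Γ P) 1 := mA_single LL (Mo.mor x) 1
      rw [h1, h2]
      have h3 := twY_pow LL x n
      unfold twY at h3 ⊢
      rw [h3]
      abel
  exact DFunLike.congr_fun hid u

end Pool.Agent.HierR
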