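import Pool.Agent.Lib.MP_8f66f0_al_HierR.Trp
import Pool.Agent.Lib.MP_8f66f0_al_HierR.Cm
import Pool.Agent.Lib.MP_8f66f0_al_HierR.Tmls
import Pool.Agent.Lib.MP_8f66f0_al_HierR.Tm
import Pool.Agent.Lib.MP_8f66f0_al_HierR.Ktm
import Pool.Agent.Lib.MP_8f66f0_al_HierR.Retr
import Pool.Agent.Lib.MP_8f66f0_al_HierR.Mxc
import Pool.Agent.Lib.MP_8f66f0_al_HierR.Reg
import Pool.Agent.Lib.MP_8f66f0_al_HierR.Msx
import Pool.Agent.Lib.MP_8f66f0_al_HierR.Pow
import Pool.Agent.Lib.MP_8f66f0_al_HierR.Alp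
import Pool.Agent.Lib.MP_8f66f0_al_HierR.Blkm
import Pool.Agent.Lib.MP_8f66f0_al_HierR.Plm
import Pool.Agent.Lib.MP_8f66f0_al_HierR.Stepm
import Pool.Agent.Lib.MP_8f66f0_al_HierR.Basm
import Pool.Agent.Lib.MP_8f66f0_al_HierR.Ind
import Pool.Agent.Lib.MP_8f66f0_al_HierR.Indp
import Pool.Agent.Lib.MP_8f66f0_al_HierR.Swb
import Pool.Agent.Lib.MP_8f66f0_al_HierR.Retp
import Pool.Agent.Lib.MP_8f66f0_al_HierR.Resm
import Pool.Agent.Lib.MP_8f66f0_al_HierR.Cplx
import Pool.Agent.Lib.MP_8f66f0_al_HierR.Tproj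
import Pool.Agent.Lib.MP_8f66f0_al_HierR.Two
import Pool.Agent.Lib.MP_8f66f0_al_HierR.Out
import Pool.Agent.Lib.MP_8f66f0_al_HierR.Famr
import Pool.Agent.Lib.MP_8f66f0_al_HierR.Patch
import Pool.Agent.Lib.MP_8f66f0_al_HierR.RelK
import Pool.Agent.Lib.MP_8f66f0_al_HierZ.All

/-! Assembly of part BA. -/

set_option autoImplicit false

namespace Pool.Agent.HierR

open Pool.Agent.Wald Pool.Agent.Ind Pool.Agent.Hier

theorem all_patch : S_Patch := patch (relK hom idx sfm) expl

theorem all_plm : S_plm := plm (blkm mxc reg msx) all_patch mxc pow alp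

theorem all_tm : S_tm := tm con lift tmls trp

theorem all_stepm : S_stepm := stepm cm all_tm exb ker all_plm (ktm trp)

theorem all_retr : S_retr := retr cm all_tm (ktm trp)

theorem all_ind : S_ind := ind (basm change) trp (famr split)

theorem all_isret : S_isret := isret all_ind all_retr

/-- Induction along resolutions by retracts of induced bimodules. -/
theorem all_resm : S_resm := resm indp all_isret swb retp all_stepm

/-- **Output of part BA**: if the bimodule of the morphisms of `P ⋊ Γ` has a finite resolution by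
retracts of induced bimodules over groups in `SS`, then `K_1(L[Mo]) → K_1(L[MoN])` is onto for all
Euclidean domains `L`. -/
theorem all_out : S_out := out tproj swb all_resm all_tm (ktm trp) (two all_tm)

end Pool.Agent.HierR
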