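import Pool.Agent.Lib.MP_8f66f0_al_HierR.Mo

/-! The monoid of `L + T[t]`: the morphisms of `P ⋊ Γ` times powers of a central letter. -/

set_option autoImplicit false

namespace Pool.Agent.HierR

open Pool.Agent.Wald Pool.Agent.Ind Pool.Agent.Hier

/-- The monoid `{0, 1} ∪ {x t^n}`. -/
inductive MoN (Γ P : Type) [Group Γ] [PartialOrder P] [MulAction Γ P] : Type
  | one : MoN Γ P
  | zero : MoN Γ P
  | mor : Tri Γ P → ℕ → MoN Γ P

variable {Γ P : Type} [Group Γ] [PartialOrder P] [MulAction Γ P] [MonoAct Γ P]

/-- The product. -/
noncomputable def MoN.mul : MoN Γ P → MoN Γ P → MoN Γ P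
  | .one, y => y
  | .zero, _ => .zero
  | .mor x n, .one => .mor x n
  | .mor _ _, .zero => .zero
  | .mor x n, .mor y m => (x.mulO y).elim .zero fun u => .mor u (n + m)

noncomputable instance : Monoid (MoN Γ P) where
  one := .one
  mul := MoN.mul
  one_mul x := by cases x <;> rfl
  mul_one x := by cases x <;> rfl
  mul_assoc x y z := by
    cases x with
    | one => cases y <;> cases z <;> rfl
    | zero => cases y <;> cases z <;> rfl
    | mor x n =>
      cases y with
      | one => cases z <;> rfl
      | zero => cases z <;> rfl
      | mor y m =>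
        cases z with
        | one =>
          change MoN.mul ((x.mulO y).elim .zero fun u => .mor u (n + m)) .one =
            (x.mulO y).elim .zero fun u => .mor u (n + m)
          cases x.mulO y <;> rfl
        | zero =>
          change MoN.mul ((x.mulO y).elim .zero fun u => .mor u (n + m)) .zero = .zero
          cases x.mulO y <;> rfl
        | mor z l =>
          change MoN.mul ((x.mulO y).elim .zero fun u => .mor u (n + m)) (.mor z l) =
            MoN.mul (.mor x n) ((y.mulO z).elim .zero fun u => .mor u (m + l))
          have h := Tri.mulO_assoc x y z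
          cases h1 : x.mulO y with
          | none =>
            cases h2 : y.mulO z with
            | none => rfl
            | some v =>
              rw [h1, h2] at h
              change none = x.mulO v at h
              change MoN.zero = (x.mulO v).elim .zero fun u => .mor u (n + (m + l))
              rw [← h]
              rfl
          | some u =>
            cases h2 : y.mulO z with
            | none =>
              rw [h1, h2] at h
              change u.mulO z = none at h
              change ((u.mulO z).elim MoN.zero fun u => .mor u (n + m + l)) = .zero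
              rw [h]
              rfl
            | some v =>
              rw [h1, h2] at h
              change u.mulO z = x.mulO v at h
              change ((u.mulO z).elim MoN.zero fun u => .mor u (n + m + l)) =
                (x.mulO v).elim .zero fun u => .mor u (n + (m + l))
              rw [h, add_assoc]

theorem MoN.one_def : (1 : MoN Γ P) = .one := rfl

theorem MoN.mor_mul_mor (x y : Tri Γ P) (n m : ℕ) :
    (MoN.mor x n * MoN.mor y m : MoN Γ P) = (x.mulO y).elim .zero fun u => .mor u (n + m) := rfl

theorem MoN.zero_mul' (x : MoN Γ P) : (MoN.zero * x : MoN Γ P) = .zero := rfl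

theorem MoN.mul_zero' (x : MoN Γ P) : (x * MoN.zero : MoN Γ P) = .zero := by cases x <;> rfl

/-- The inclusion in degree `0`. -/
def MoN.ofMo : Mo Γ P → MoN Γ P
  | .one => .one
  | .zero => .zero
  | .mor x => .mor x 0

/-- The inclusion in degree `0` as a homomorphism. -/
noncomputable def MoN.inc (Γ P : Type) [Group Γ] [PartialOrder P] [MulAction Γ P]
    [MonoAct Γ P] : Mo Γ P →* MoN Γ P where
  toFun := MoN.ofMo
  map_one' := rfl
  map_mul' x y := by
    cases x with
    | one => rfl
    | zero => rfl
    | mor x =>
      cases y with
      | one => rfl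
      | zero => rfl
      | mor y =>
        change MoN.ofMo ((x.mulO y).elim .zero .mor) =
          (x.mulO y).elim .zero fun u => .mor u (0 + 0)
        cases x.mulO y <;> rfl

/-- `t = 1`. -/
def MoN.toMo : MoN Γ P → Mo Γ P
  | .one => .one
  | .zero => .zero
  | .mor x _ => .mor x

/-- `t = 1` as a homomorphism. -/
noncomputable def MoN.ev1 (Γ P : Type) [Group Γ] [PartialOrder P] [MulAction Γ P]
    [MonoAct Γ P] : MoN Γ P →* Mo Γ P where
  toFun := MoN.toMo
  map_one' := rfl
  map_mul' x y := by
    cases x with
    | one => rfl
    | zero => rfl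
    | mor x n =>
      cases y with
      | one => rfl
      | zero => rfl
      | mor y m =>
        change MoN.toMo ((x.mulO y).elim .zero fun u => .mor u (n + m)) =
          (x.mulO y).elim .zero .mor
        cases x.mulO y <;> rfl

/-- `t = 0`. -/
def MoN.toMo0 : MoN Γ P → Mo Γ P
  | .one => .one
  | .zero => .zero
  | .mor x 0 => .mor x
  | .mor _ (_ + 1) => .zero

/-- `t = 0` as a homomorphism. -/
noncomputable def MoN.ev0 (Γ P : Type) [Group Γ] [PartialOrder P] [MulAction Γ P]
    [MonoAct Γ P] : MoN Γ P →* Mo Γ P where
  toFun := MoN.toMo0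
  map_one' := rfl
  map_mul' x y := by
    cases x with
    | one => rfl
    | zero => rfl
    | mor x n =>
      cases y with
      | one => cases n <;> rfl
      | zero => cases n <;> rfl
      | mor y m =>
        change MoN.toMo0 ((x.mulO y).elim .zero fun u => .mor u (n + m)) =
          Mo.mul (MoN.toMo0 (.mor x n)) (MoN.toMo0 (.mor y m))
        cases n with
        | zero =>
          cases m with
          | zero =>
            change MoN.toMo0 ((x.mulO y).elim .zero fun u => .mor u (0 + 0)) =
              (x.mulO y).elim .zero .mor
            cases x.mulO y <;> rfl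
          | succ m =>
            change MoN.toMo0 ((x.mulO y).elim .zero fun u => .mor u (0 + (m + 1))) = .zero
            cases x.mulO y <;> rfl
        | succ n =>
          change MoN.toMo0 ((x.mulO y).elim .zero fun u => .mor u (n + 1 + m)) = .zero
          cases x.mulO y with
          | none => rfl
          | some u =>
            change MoN.toMo0 (MoN.mor u (n + 1 + m)) = .zero
            have : n + 1 + m = (n + m) + 1 := by omega
            rw [this]
            rfl

/-- The map of monoid algebras given by a homomorphism of monoids. -/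
noncomputable abbrev mA (LL : Type) [CommRing LL] {S S' : Type} [Monoid S] [Monoid S']
    (φ : S →* S') : MonoidAlgebra LL S →ₐ[LL] MonoidAlgebra LL S' :=
  gr LL ((MonoidAlgebra.of LL S').comp φ)

/-- Two homomorphisms which agree on `Q'`. -/
theorem kt_two {Q' Q Z : Type} [Ring Q'] [Ring Q] [Ring Z] (f : Q' →+* Q) (hf : KT f)
    (φ ψ : Q →+* Z) (h : ∀ q, φ (f q) = ψ (f q)) {K : Type} [CommGroup K] (κ : K1Fun Z K)
    {n : Type} [Fintype n] [DecidableEq n] (A : Matrix n n Q) (hA : IsUnit A) :
    κ.f (A.map φ) = κ.f (A.map ψ) := by
  let κ' : K1Fun Q K :=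
    { f := fun {n} _ _ A => κ.f (A.map φ) / κ.f (A.map ψ)
      mul := fun {n} _ _ A B hA hB => by
        have a1 : IsUnit (A.map φ) := hA.map φ.mapMatrix
        have a2 : IsUnit (A.map ψ) := hA.map ψ.mapMatrix
        have b1 : IsUnit (B.map φ) := hB.map φ.mapMatrix
        have b2 : IsUnit (B.map ψ) := hB.map ψ.mapMatrix
        rw [Matrix.map_mul, Matrix.map_mul, κ.mul _ _ a1 b1, κ.mul _ _ a2 b2, mul_div_mul_comm]
      reindex := fun {n m} _ _ _ _ e A hA => by
        have h1 := κ.reindex e (A.map φ) (hA.map φ.mapMatrix)
        have h2 := κ.reindex e (A.map ψ) (hA.map ψ.mapMatrix)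
        change κ.f ((A.map φ).submatrix _ _) / κ.f ((A.map ψ).submatrix _ _) = _
        rw [h1, h2]
      tri := fun {n m} _ _ _ _ A B D hA hD => by
        have a1 : IsUnit (A.map φ) := hA.map φ.mapMatrix
        have a2 : IsUnit (A.map ψ) := hA.map ψ.mapMatrix
        have b1 : IsUnit (D.map φ) := hD.map φ.mapMatrix
        have b2 : IsUnit (D.map ψ) := hD.map ψ.mapMatrix
        rw [Matrix.fromBlocks_map, Matrix.fromBlocks_map, Matrix.map_zero _ (map_zero φ),
          Matrix.map_zero _ (map_zero ψ), κ.tri _ _ _ a1 b1, κ.tri _ _ _ a2 b2,
          mul_div_mul_comm] }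
  have := hf K κ' (fun m _ _ M _ => by
    change κ.f _ / κ.f _ = 1
    rw [div_eq_one]
    congr 1
    ext i j
    exact h _) n A hA
  exact div_eq_one.1 this

end Pool.Agent.HierR
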