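import Pool.Agent.Lib.MP_8f66f0_al_HierR.Defs
import Pool.Agent.Lib.MP_8f66f0_al_HierZ.Defs

/-! Families of letters, induced bimodules, retracts, resolutions. Statements with proofs. -/

set_option autoImplicit false

namespace Pool.Agent.HierR

open Pool.Agent.Wald Pool.Agent.Ind Pool.Agent.Hier

section Fam

/-- F1. A family of letters in orbits with groups `H ω` (helper34 ports this from
HierZ/{FamAux, FamSub, Famfin, Fam}). -/
def S_famr : Prop :=
  ∀ (O : Type) (H : O → Type) [∀ ω, Group (H ω)] (LL Q' T Λ : Type) [CommRing LL] [Ring Q']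
    [Algebra LL Q'] [Ring T] [Algebra LL T] [Module.Free LL Q'] (f : Q' →ₐ[LL] T)
    (ρ : ∀ ω, H ω →* Q') (ℓ : Λ → T) (o : Λ → O),
    (∀ ω, ∃ s : Q' →ₗ[LL] MonoidAlgebra LL (H ω), ∀ x, s (gr LL (ρ ω) x) = x) →
    FreeW (f : Q' →+* T) ℓ → FamRule LL f ρ ℓ o → (∀ ω, SL LL (H ω)) → KT (f : Q' →+* T)

/-- F2. Change of the left basis.

Proof. HierZ/Basisp.lean: `S_change` with the matrices `single ((b₂, i) ↦ (b₁, i)) (gz ρ (coefficient of
bM₂ b₂ at b₁))` and conversely. The products of the matrices are the identity since `gz ρ` is a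
ring homomorphism. -/
def S_basm : Prop :=
  ∀ (S Q' T I M B₁ B₂ : Type) [Monoid S] [Ring Q'] [Ring T] [AddCommGroup M]
    [Module (MonoidAlgebra ℤ S) M] (f : Q' →+* T) (ρ : S →* Q') (w : I → M →+ T)
    (b₁ : Module.Basis B₁ (MonoidAlgebra ℤ S) M) (b₂ : Module.Basis B₂ (MonoidAlgebra ℤ S) M),
    (∀ (i : I) (e : S) (m : M), w i (MonoidAlgebra.single e (1 : ℤ) • m) = f (ρ e) * w i m) →
    FreeW f (fun a : B₁ × I => w a.2 (b₁ a.1)) → Cl f (fun a : B₁ × I => w a.2 (b₁ a.1)) →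
    FreeW f (fun a : B₂ × I => w a.2 (b₂ a.1)) ∧ Cl f (fun a : B₂ × I => w a.2 (b₂ a.1))

/-- F3. Induced bimodules.

Proof. Data of type `M` with a basis `bM'`; change to the basis `bM` (S_basm; `Cl` by `right` and
S_trp). Letters `ℓ_(b,i) = w_i(bM b)`, orbits `o b`, groups `H (o b)`, homomorphisms
`ρ' ω = (gz ρ).comp (η ω) : H ω →* Q'`. Rule: `ℓ_(b,i) f q = f c + ∑_j ∑_e x_i(q)_j(e) • w_j(op e • bM b)`,
and `op e • bM b = ∑ gz (η _) (y_b') • bM b'`, so `w_j (op e • bM b) = ∑ f (gz ρ (gz η y_b')) * ℓ_(b',j)`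
and `t • gz ρ (gz η y) = gr LL (ρ' ω) (t • y pushed to LL)`. Retractions `Q' → LL[S] → LL[H ω]`: the
`LL`-linear extension of `e ↦ (s (single e 1))` pushed to `LL`; it maps `gr LL (of ∘ ..) (single h 1)` to
`single h 1`. Then S_famr. -/
def S_ind : Prop :=
  ∀ (LL S M B O : Type) (H : O → Type) [∀ ω, Group (H ω)] [CommRing LL] [Monoid S]
    [AddCommGroup M] [Module (MonoidAlgebra ℤ S) M] [DistribMulAction Sᵐᵒᵖ M]
    [SMulCommClass (MonoidAlgebra ℤ S) Sᵐᵒᵖ M] (bM : Module.Basis B (MonoidAlgebra ℤ S) M)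
    (o : B → O) (η : ∀ ω, H ω →* MonoidAlgebra ℤ S), IsInd bM o η → (∀ ω, SL LL (H ω)) →
    SLM LL S M

/-- F4. The product of an induced and a stabilizing bimodule is induced.

Proof. Basis `bN.prod bG` (`Module.Basis.prod`) on `B ⊕ B'`, orbits `O ⊕ Unit`, group of the new orbit: the
trivial group `PUnit`, `η = 1`; `rule` for `inr b'`: `y = ∑ single (inr b'') (single 1 n)`; `ret`: the
coefficient at `1 ∈ S`. Use `H' : O ⊕ Unit → Type := Sum.elim H (fun _ => PUnit)` with the instance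
by cases. -/
def S_indp : Prop :=
  ∀ (S : Type) [Monoid S] (𝒞 : ∀ (H : Type) [Group H], Prop), 𝒞 PUnit →
    ∀ (M G : Type) [AddCommGroup M] [Module (MonoidAlgebra ℤ S) M] [DistribMulAction Sᵐᵒᵖ M]
    [SMulCommClass (MonoidAlgebra ℤ S) Sᵐᵒᵖ M] [AddCommGroup G] [Module (MonoidAlgebra ℤ S) G]
    [DistribMulAction Sᵐᵒᵖ G] [SMulCommClass (MonoidAlgebra ℤ S) Sᵐᵒᵖ G],
    IsRet S 𝒞 M → IsStab S G → IsRet S 𝒞 (M × G)

/-- F5. Retracts of induced bimodules.

Proof. S_ind for the induced bimodule and S_retr (SpecT). -/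
def S_isret : Prop :=
  ∀ (LL S M : Type) [CommRing LL] [Monoid S] [AddCommGroup M]
    [Module (MonoidAlgebra ℤ S) M] [DistribMulAction Sᵐᵒᵖ M]
    [SMulCommClass (MonoidAlgebra ℤ S) Sᵐᵒᵖ M], IsRet S (fun H _ => SL LL H) M → SLM LL S M

end Fam

section Res

/-- R1. Stabilization.

Proof. `G = ℤ[S] ⊗[ℤ] (ℕ →₀ F)`, left action on the first factor, right action
`op e • (a ⊗ y) = a ⊗ op e • y` (`TensorProduct.map id (..)`, for each `n` the action on `F`). `IsStab`: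
`F` is `ℤ`-free with the basis `bF`; basis `1 ⊗ single n (bF b)` (`Module.Basis.baseChange`), and
`op e • bF b = ∑ n_b' bF b'`. Let `N` be left projective, `s : F → N` onto. `X = ℤ[S] ⊗[ℤ] F → F → N`
(`a ⊗ y ↦ s (a • y)`) is onto, `X` is left free, so there are `i : N → X`, `p : X → N` with `p i = 1`;
`q = i p`. `N × (ℕ →₀ X) ≃ (ℕ →₀ X)`: `(m, y) ↦ z`, `z_0 = i m + (y_0 - q y_0)`,
`z_(n+1) = q y_n + (y_(n+1) - q y_(n+1))`; inverse `m = p z_0`, `y_n = (z_n - q z_n) + q z_(n+1)`.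
`ℤ[S] ⊗ (ℕ →₀ F) ≃ (ℕ →₀ ℤ[S] ⊗ F)` (`TensorProduct.finsuppRight`, left linear). So `N × G` is left
free. -/
def S_swb : Prop :=
  ∀ (S F : Type) [Monoid S] [AddCommGroup F] [Module (MonoidAlgebra ℤ S) F]
    [DistribMulAction Sᵐᵒᵖ F] [SMulCommClass (MonoidAlgebra ℤ S) Sᵐᵒᵖ F], Module.Free ℤ F →
    ∃ (G : Type) (_ : AddCommGroup G) (_ : Module (MonoidAlgebra ℤ S) G)
      (_ : DistribMulAction Sᵐᵒᵖ G) (_ : SMulCommClass (MonoidAlgebra ℤ S) Sᵐᵒᵖ G),
      IsStab S G ∧ ∀ (N : Type) [AddCommGroup N] [Module (MonoidAlgebra ℤ S) N]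
        (s : F →ₗ[MonoidAlgebra ℤ S] N), Function.Surjective s →
        Module.Projective (MonoidAlgebra ℤ S) N → Module.Free (MonoidAlgebra ℤ S) (N × G)

/-- R2. A retract of an induced bimodule is left projective and `ℤ`-free.

Proof. The induced bimodule is left free, so `M` is left projective (`Module.Projective.of_split`;
an additive map with `IsBi` is left `ℤ[S]`-linear), and `ℤ`-free since `ℤ[S]` is; `M` embeds into it, use
`S_freesub` (HierZ/SpecZR, proved in HierZ/Freesub). -/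
def S_retp : Prop :=
  ∀ (S M : Type) [Monoid S] (𝒞 : ∀ (H : Type) [Group H], Prop) [AddCommGroup M]
    [Module (MonoidAlgebra ℤ S) M] [DistribMulAction Sᵐᵒᵖ M],
    IsRet S 𝒞 M → Module.Projective (MonoidAlgebra ℤ S) M ∧ Module.Free ℤ M

/-- R3. Induction along a resolution.

Proof. Induction on `n` for all `M`, `G`, `LL`. `n = 0`: S_indp, S_isret (`𝒞 PUnit` may be assumed: replace
`𝒞` by `SS`; `SS PUnit` is `base_all` or `S_base`). `n + 1`: `0 → M' → F → M → 0`. `M` is projective, so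
`F ≃ M' × M` as left modules; `F` is projective and `ℤ`-free (R2), so `M'` is projective and there is a
surjection `F → M'`; `G₁` from S_swb for `F`, `M' × G₁` is left free. Exact sequence
`0 → M' × G₁ → F × (G × G₁) → M × G → 0`, `(m', g₁) ↦ (i m', (0, g₁))`, `(y, (g, g₁)) ↦ (r y, g)`.
`G × G₁` is stabilizing (`Module.Basis.prod`), so `SLM LL S (F × (G × G₁))` by S_indp, S_isret;
`SLM (LaurentSeries LL) S (M' × G₁)` by induction (`isEuc_laurent`); S_stepm. -/
def S_resm : Prop :=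
  ∀ (S : Type) [Monoid S] (n : ℕ) (M : Type) [AddCommGroup M] [Module (MonoidAlgebra ℤ S) M]
    [DistribMulAction Sᵐᵒᵖ M] [SMulCommClass (MonoidAlgebra ℤ S) Sᵐᵒᵖ M],
    ResB S (fun H _ => SS H) n M → Module.Projective (MonoidAlgebra ℤ S) M →
    ∀ (G : Type) [AddCommGroup G] [Module (MonoidAlgebra ℤ S) G] [DistribMulAction Sᵐᵒᵖ G]
      [SMulCommClass (MonoidAlgebra ℤ S) Sᵐᵒᵖ G], IsStab S G →
      ∀ (LL : Type) [CommRing LL] [IsDomain LL], IsEuc LL → SLM LL S (M × G)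

/-- R4. Exact complexes give resolutions (for part BB).

Proof. Induction on `N`. `N = 0`: `F 1` is zero, so `ε` is bijective; compose the retraction with `ε`.
`N + 1`: `M' := ker ε` (an `AddSubgroup` of `F 0` stable under both actions, with the induced
instances), `i` the inclusion, and the complex `q ↦ F (q + 1)` with `ε' : F 1 → ker ε` induced by `d 0`. -/
def S_cplx : Prop :=
  ∀ (S : Type) [Monoid S] (𝒞 : ∀ (H : Type) [Group H], Prop) (N : ℕ) (M : Type) [AddCommGroup M]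
    [Module (MonoidAlgebra ℤ S) M] [DistribMulAction Sᵐᵒᵖ M]
    [SMulCommClass (MonoidAlgebra ℤ S) Sᵐᵒᵖ M] (F : ℕ → Type) [∀ q, AddCommGroup (F q)]
    [∀ q, Module (MonoidAlgebra ℤ S) (F q)] [∀ q, DistribMulAction Sᵐᵒᵖ (F q)]
    [∀ q, SMulCommClass (MonoidAlgebra ℤ S) Sᵐᵒᵖ (F q)] (ε : F 0 →+ M)
    (d : ∀ q, F (q + 1) →+ F q), IsBi (S := S) ε → (∀ q, IsBi (S := S) (d q)) →
    (∀ q, IsRet S 𝒞 (F q)) → Function.Surjective ε → Function.Exact (d 0) ε →
    (∀ q, Function.Exact (d (q + 1)) (d q)) → (∀ q, N < q → Subsingleton (F q)) →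
    ResB S 𝒞 N M

end Res

end Pool.Agent.HierR
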