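import Pool.Agent.Lib.MP_8f66f0_al_HierR.MoN
import Pool.Agent.Lib.MP_8f66f0_al_HierR.SpecT
import Pool.Agent.Lib.MP_8f66f0_al_HierR.SpecL
import Pool.Agent.Lib.MP_8f66f0_al_HierR.SpecR

/-! Output of part BA. Statements with proofs. -/

set_option autoImplicit false

namespace Pool.Agent.HierR

open Pool.Agent.Wald Pool.Agent.Ind Pool.Agent.Hier

/-- O1. The bimodule of the morphisms is left projective.

Proof. `T = PM (Tri Γ P)`, `R = ℤ[Mo Γ P]`. The left linear maps `i : T → (P →₀ R)`,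
`i (a, g, b) = single b (single (mor (a,g,b)) 1 - single zero 1)` and `p : (P →₀ R) → T`,
`p (single b r) = r • (b, 1, b)`; `p i = 1` (`(a,g,b) • (b,1,b) = (a,g,b)`, `zero • x = 0`).
`i` is left linear: check `single e 1 • x` for `e = one, zero, mor`. -/
def S_tproj : Prop :=
  ∀ (Γ P : Type) [Group Γ] [PartialOrder P] [MulAction Γ P] [MonoAct Γ P],
    Module.Projective (MonoidAlgebra ℤ (Mo Γ P)) (PM (Tri Γ P))

/-- O2. The two homomorphisms. Let `Q` be the ring `T(M)` for `M = PM (Tri Γ P) × G`, over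
`Q' = LL[Mo Γ P]`, with the regular letters (`I = Unit`, `X.x () q = single () q`) and `D = 0`. Then
`LL[MoN Γ P]` is a retract of `Q` over `LL[Mo Γ P]`.

Proof. `φ : Q → LL[MoN]` by the universal property (S_tm): `g = mA LL inc`, `z () (m, y) = ζ m`,
`ζ : PM (Tri Γ P) →+ LL[MoN]`, `ζ x = single (mor x 1) 1 - single zero 1`. `z (single e 1 • m) =
g (of e) * z m` (`e = one, zero, mor`), and `z m * g q = tr z (single () q) m` (linear in `q`; for
`q = single e 1` the same check on the right). `σ : LL[MoN] → Q` is `MonoidAlgebra.lift` of the monoid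
homomorphism `one ↦ 1`, `zero ↦ f o`, `mor x n ↦ f o + W (x.a)^n * f (single (mor x) 1 - o)`, where
`o = single zero 1` and `W a = w () (PM.of (Tri.id a), 0)`. Facts: `f o * W a = w () (zero • ..) = 0`,
`W a * f o = 0` (`rel`), `f (single (mor x) 1 - o) * W c = w () (PM.ofO (x.mulO (Tri.id c)), 0)`, which is
`w () (PM.of x, 0)` if `c = x.b` and `0` otherwise, and `W (x.a) * f (single (mor x) 1 - o) =
w () (PM.of x, 0)`. Hence `(mor x n) (mor y m)` is mapped to the product. `φ (σ u) = u`: on `MoN`,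
`φ (W a) = single (mor (id a) 1) 1 - single zero 1`. -/
def S_two : Prop :=
  ∀ (Γ P : Type) [Group Γ] [PartialOrder P] [MulAction Γ P] [MonoAct Γ P]
    (LL G BM : Type) [CommRing LL] [AddCommGroup G] [Module (MonoidAlgebra ℤ (Mo Γ P)) G]
    [DistribMulAction (Mo Γ P)ᵐᵒᵖ G] [SMulCommClass (MonoidAlgebra ℤ (Mo Γ P)) (Mo Γ P)ᵐᵒᵖ G]
    (X : MX LL (MonoidAlgebra LL (Mo Γ P)) (MonoidAlgebra LL (Mo Γ P)) Unit)
    (D : CM LL X (MonoidAlgebra.of LL (Mo Γ P)) (PM (Tri Γ P) × G))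
    (bM : Module.Basis BM (MonoidAlgebra ℤ (Mo Γ P)) (PM (Tri Γ P) × G)) (Q : Type) [Ring Q]
    [Algebra LL Q] (f : MonoidAlgebra LL (Mo Γ P) →ₐ[LL] Q)
    (w : Unit → (PM (Tri Γ P) × G) →+ Q),
    (∀ q, X.x () q = Finsupp.single () q) → (∀ i m, D.c i m = 0) →
    IsTM D (AddMonoidHom.id (PM (Tri Γ P) × G)) bM f w →
    ∃ (φ : Q →ₐ[LL] MonoidAlgebra LL (MoN Γ P)) (σ : MonoidAlgebra LL (MoN Γ P) →ₐ[LL] Q),
      (∀ q, φ (f q) = mA LL (MoN.inc Γ P) q) ∧ ∀ u, φ (σ u) = u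

/-- O3. The output of part BA.

Proof. `T = PM (Tri Γ P)` is left projective (O1) and `ℤ`-free. `G` from S_swb for `F = N = T`, `s = id`:
`T × G` is left free. `SLM LL S (T × G)` by S_resm. `X` regular, `D = 0`, `Q` from S_tm, `KT f` by S_ktm
(the retraction is the identity: `gr LL (of) = id`). `φ`, `σ` from O2. For `κ` which kills the image of
`GL(LL[Mo])`: `κ ∘ φ` kills `GL(LL[Mo])`, hence `GL(Q)`; `κ A = κ (φ (σ A)) = 1`. -/
def S_out : Prop :=
  ∀ (Γ P : Type) [Group Γ] [PartialOrder P] [MulAction Γ P] [MonoAct Γ P] (n : ℕ),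
    ResB (Mo Γ P) (fun H _ => SS H) n (PM (Tri Γ P)) →
    ∀ (LL : Type) [CommRing LL] [IsDomain LL], IsEuc LL →
      KT (mA LL (MoN.inc Γ P) : MonoidAlgebra LL (Mo Γ P) →+* MonoidAlgebra LL (MoN Γ P))

/-- O4. The version with the degree.

Proof. `σ_ν : Mo Γ P →* MoN Γ P`, `mor x ↦ mor x (ν (x.g • x.b) x.a)` (`ν_add`, `ν_smul`). For an
invertible matrix `A` over `LL[Mo]` apply `kt_two` with `φ = ev1`, `ψ = ev0` to `A.map σ_ν`:
`κ A = κ (A₀)`, and `ev0 ∘ σ_ν` has values in `Mo0` (`ν = 0` iff equal), so `κ (A₀) = 1`. -/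
def S_out0 : Prop :=
  ∀ (Γ P : Type) [Group Γ] [PartialOrder P] [MulAction Γ P] [MonoAct Γ P] (ν : P → P → ℕ),
    (∀ a b c, a ≤ b → b ≤ c → ν a c = ν a b + ν b c) →
    (∀ (g : Γ) (a b : P), a ≤ b → ν (g • a) (g • b) = ν a b) →
    (∀ a b, a ≤ b → ν a b = 0 → a = b) →
    ∀ (LL : Type) [CommRing LL],
      KT (mA LL (MoN.inc Γ P) : MonoidAlgebra LL (Mo Γ P) →+* MonoidAlgebra LL (MoN Γ P)) →
      KT (mA LL (Mo0 Γ P).subtype : MonoidAlgebra LL (Mo0 Γ P) →+* MonoidAlgebra LL (Mo Γ P))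

end Pool.Agent.HierR
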