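import Pool.Agent.Lib.MP_8f66f0_al_HierR.SpecL

/-! L5: the linear part of the rule for the `a`-letters modulo the `d`-letters. -/

set_option autoImplicit false

namespace Pool.Agent.HierR

open Pool.Agent.Wald Pool.Agent.Ind Pool.Agent.Hier

section

variable {Q' T Λ : Type} [Ring Q'] [Ring T]

private theorem lin_add (f : Q' →+* T) (ℓ : Λ → T) (x y : Λ →₀ Q') :
    lin f ℓ (x + y) = lin f ℓ x + lin f ℓ y := by
  unfold lin
  refine Finsupp.sum_add_index' (fun a => ?_) (fun a b c => ?_)
  · rw [map_zero, zero_mul]
  · rw [map_add, add_mul]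

private theorem lin_zero (f : Q' →+* T) (ℓ : Λ → T) : lin f ℓ 0 = 0 := by
  unfold lin
  exact Finsupp.sum_zero_index

private theorem lin_single (f : Q' →+* T) (ℓ : Λ → T) (a : Λ) (q : Q') :
    lin f ℓ (Finsupp.single a q) = f q * ℓ a := by
  unfold lin
  rw [Finsupp.sum_single_index]
  rw [map_zero, zero_mul]

private theorem lin_smul (f : Q' →+* T) (ℓ : Λ → T) (r : Q') (x : Λ →₀ Q') :
    lin f ℓ (r • x) = f r * lin f ℓ x := by
  induction x using Finsupp.induction_linear with
  | zero => rw [smul_zero, lin_zero, mul_zero]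
  | add x y hx hy => rw [smul_add, lin_add, hx, hy, lin_add, mul_add]
  | single a q => rw [Finsupp.smul_single, smul_eq_mul, lin_single, lin_single, map_mul, mul_assoc]

private theorem ev_add (f : Q' →+* T) (ℓ : Λ → T) (x y : List Λ →₀ Q') :
    ev f ℓ (x + y) = ev f ℓ x + ev f ℓ y := by
  unfold ev
  refine Finsupp.sum_add_index' (fun a => ?_) (fun a b c => ?_)
  · rw [map_zero, zero_mul]
  · rw [map_add, add_mul]

private theorem ev_single (f : Q' →+* T) (ℓ : Λ → T) (u : List Λ) (q : Q') :
    ev f ℓ (Finsupp.single u q) = f q * wd ℓ u := by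
  unfold ev
  rw [Finsupp.sum_single_index]
  rw [map_zero, zero_mul]

private theorem ev_map {K : Type} (f : Q' →+* T) (ℓ : Λ → T) (g : K → Λ) (x : K →₀ Q') :
    ev f ℓ (x.mapDomain fun k => [g k]) = lin f (fun k => ℓ (g k)) x := by
  unfold ev lin
  rw [Finsupp.sum_mapDomain_index]
  · refine Finsupp.sum_congr fun k _ => ?_
    change f (x k) * (1 * ℓ (g k)) = _
    rw [one_mul]
  · intro b
    rw [map_zero, zero_mul]
  · intro b c d
    rw [map_add, add_mul]

/-- `x` is the `a`-part of `t`. -/
private def RR {I J : Type} (f : Q' →+* T) (a : I → T) (d : J → T) (t : T) (x : I →₀ Q') : Prop :=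
  ∃ (c : Q') (y : J →₀ Q'), t = f c + lin f a x + lin f d y

section

variable {I J : Type} {f : Q' →+* T} {a : I → T} {d : J → T}

private theorem RR_c (c : Q') : RR f a d (f c) 0 :=
  ⟨c, 0, by rw [lin_zero, lin_zero, add_zero, add_zero]⟩

private theorem RR_zero : RR f a d 0 0 := by
  have h := RR_c (f := f) (a := a) (d := d) 0
  rwa [map_zero] at h

private theorem RR_d (y : J →₀ Q') : RR f a d (lin f d y) 0 :=
  ⟨0, y, by rw [lin_zero, map_zero, add_zero, zero_add]⟩

private theorem RR_a (i : I) : RR f a d (a i) (Finsupp.single i 1) :=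
  ⟨0, 0, by rw [lin_zero, lin_single, map_zero, map_one, one_mul, add_zero, zero_add]⟩

private theorem RR_add {t t' : T} {x x' : I →₀ Q'} (h : RR f a d t x) (h' : RR f a d t' x') :
    RR f a d (t + t') (x + x') := by
  obtain ⟨c, y, e⟩ := h
  obtain ⟨c', y', e'⟩ := h'
  refine ⟨c + c', y + y', ?_⟩
  rw [e, e', lin_add, lin_add, map_add]
  abel

private theorem RR_mul (r : Q') {t : T} {x : I →₀ Q'} (h : RR f a d t x) :
    RR f a d (f r * t) (r • x) := by
  obtain ⟨c, y, e⟩ := h
  refine ⟨r * c, r • y, ?_⟩
  rw [e, lin_smul, lin_smul, map_mul, mul_add, mul_add]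

private theorem RR_unique (hF : FreeW f (Sum.elim a d)) {t : T} {x x' : I →₀ Q'}
    (h : RR f a d t x) (h' : RR f a d t x') : x = x' := by
  obtain ⟨c, y, e⟩ := h
  obtain ⟨c', y', e'⟩ := h'
  have key : ∀ (c : Q') (x : I →₀ Q') (y : J →₀ Q'),
      ev f (Sum.elim a d) (Finsupp.single [] c + x.mapDomain (fun i => [Sum.inl i]) +
        y.mapDomain fun j => [Sum.inr j]) = f c + lin f a x + lin f d y := by
    intro c x y
    rw [ev_add, ev_add, ev_single, ev_map, ev_map]
    change f c * 1 + _ + _ = _
    rw [mul_one]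
    rfl
  have h1 := hF.1 ((key c x y).trans (e.symm.trans (e'.trans (key c' x' y').symm)))
  have hinj : Function.Injective fun i : I => [(Sum.inl i : I ⊕ J)] := by
    intro i i' h
    have h2 : (Sum.inl i : I ⊕ J) = Sum.inl i' := by
      simpa using h
    exact Sum.inl.inj h2
  have hev : ∀ (c : Q') (x : I →₀ Q') (y : J →₀ Q') (i : I),
      (Finsupp.single [] c + x.mapDomain (fun i => [(Sum.inl i : I ⊕ J)]) +
        y.mapDomain (fun j => [Sum.inr j]) : List (I ⊕ J) →₀ Q') [Sum.inl i] = x i := by
    intro c x y i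
    rw [Finsupp.add_apply, Finsupp.add_apply, Finsupp.mapDomain_apply hinj,
      Finsupp.mapDomain_of_notMem_range, Finsupp.single_eq_of_ne, zero_add, add_zero]
    · simp
    · rintro ⟨j, hj⟩
      simp at hj
  ext i
  rw [← hev c x y i, h1, hev c' x' y' i]

end

end

/-- L5. -/
theorem alp : S_alp := by
  intro LL Q' T I J _ _ _ _ _ f a d hF hC hd
  -- existence
  have hex : ∀ (i : I) (q : Q'), ∃ x : I →₀ Q', RR (f : Q' →+* T) a d (a i * f q) x := by
    intro i q
    obtain ⟨c, z, e⟩ := hC (Sum.inl i) q
    have e' : a i * f q = f c + lin (f : Q' →+* T) (Sum.elim a d) z := e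
    rw [e']
    have hz : ∀ z : I ⊕ J →₀ Q', ∃ x : I →₀ Q',
        RR (f : Q' →+* T) a d (lin (f : Q' →+* T) (Sum.elim a d) z) x := by
      intro z
      induction z using Finsupp.induction_linear with
      | zero =>
        rw [lin_zero]
        exact ⟨0, RR_zero⟩
      | add z1 z2 h1 h2 =>
        obtain ⟨x1, h1⟩ := h1
        obtain ⟨x2, h2⟩ := h2
        rw [lin_add]
        exact ⟨_, RR_add h1 h2⟩
      | single k r =>
        rw [lin_single]
        rcases k with k | k
        · exact ⟨_, RR_mul r (RR_a k)⟩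
        · refine ⟨0, ?_⟩
          have h := RR_d (f := (f : Q' →+* T)) (a := a) (d := d) (Finsupp.single k r)
          rwa [lin_single] at h
    obtain ⟨x, hx⟩ := hz z
    exact ⟨_, RR_add (RR_c c) hx⟩
  choose x hx using hex
  have hun : ∀ (i : I) (q : Q') (x' : I →₀ Q'), RR (f : Q' →+* T) a d (a i * f q) x' →
      x i q = x' := fun i q x' h => RR_unique hF (hx i q) h
  let A : I → Q' →ₗ[LL] (I →₀ Q') := fun i =>
    { toFun := x i
      map_add' := fun q q' => by
        refine hun i _ _ ?_
        rw [map_add, mul_add]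
        exact RR_add (hx i q) (hx i q')
      map_smul' := fun t q => by
        refine hun i _ _ ?_
        have h := RR_mul (algebraMap LL Q' t) (hx i q)
        have e1 : (f : Q' →+* T) (algebraMap LL Q' t) * (a i * f q) = a i * f (t • q) := by
          change f (algebraMap LL Q' t) * (a i * f q) = _
          rw [AlgHom.commutes, map_smul, ← Algebra.smul_def, mul_smul_comm]
        have e2 : algebraMap LL Q' t • x i q = t • x i q := by
          ext k
          rw [Finsupp.smul_apply, Finsupp.smul_apply, smul_eq_mul, Algebra.smul_def]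
        rw [e1, e2] at h
        exact h }
  refine ⟨{ x := A, one := fun i => ?_, mul := fun i q q' => ?_ }, fun i q => ?_⟩
  · refine hun i 1 _ ?_
    rw [map_one, mul_one]
    exact RR_a i
  · refine hun i (q * q') _ ?_
    have h1 : ∀ z : I →₀ Q', RR (f : Q' →+* T) a d (lin (f : Q' →+* T) a z * f q')
        (z.sum fun j r => r • x j q') := by
      intro z
      induction z using Finsupp.induction_linear with
      | zero =>
        rw [lin_zero, zero_mul, Finsupp.sum_zero_index]
        exact RR_zero
      | add z1 z2 h1 h2 =>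
        rw [lin_add, add_mul, Finsupp.sum_add_index']
        · exact RR_add h1 h2
        · intro j
          rw [zero_smul]
        · intro j r s
          rw [add_smul]
      | single j r =>
        rw [lin_single, mul_assoc, Finsupp.sum_single_index]
        · exact RR_mul r (hx j q')
        · rw [zero_smul]
    have h2 : ∀ y : J →₀ Q', RR (f : Q' →+* T) a d (lin (f : Q' →+* T) d y * f q') 0 := by
      intro y
      induction y using Finsupp.induction_linear with
      | zero =>
        rw [lin_zero, zero_mul]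
        exact RR_zero
      | add y1 y2 h1 h2 =>
        rw [lin_add, add_mul]
        have h := RR_add h1 h2
        rwa [add_zero] at h
      | single j r =>
        rw [lin_single, mul_assoc]
        obtain ⟨y', hy'⟩ := hd j q'
        rw [hy']
        have h := RR_mul r (RR_d (f := (f : Q' →+* T)) (a := a) (d := d) y')
        rwa [smul_zero] at h
    obtain ⟨c, y, e⟩ := hx i q
    have e3 : a i * f (q * q') = f (c * q') +
        lin (f : Q' →+* T) a (x i q) * f q' + lin (f : Q' →+* T) d y * f q' := by
      rw [map_mul, ← mul_assoc, e, map_mul, add_mul, add_mul]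
      rfl
    rw [e3]
    have h := RR_add (RR_add (RR_c (c * q')) (h1 (x i q))) (h2 y)
    rw [zero_add, add_zero] at h
    exact h
  · exact hx i q

end Pool.Agent.HierR
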