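import Pool.Agent.Lib.MP_8f66f0_al_HierR.Defs
import Pool.Agent.Lib.MP_8f66f0_al_Hier.BlkB

/-! Block data: the chain of Land-Tamme extensions and its union. -/

set_option autoImplicit false

namespace Pool.Agent.HierR.LB

open Pool.Agent.Wald Pool.Agent.Ind Pool.Agent.Hier Pool.Agent.Hier.LB Function

theorem lift_list {X' β : Type} (j : X' → β) (P : β → Prop) (hj : ∀ a, P a → ∃ x, j x = a)
    (u : List β) (hu : ∀ a ∈ u, P a) : ∃ u' : List X', u'.map j = u := by
  induction u with
  | nil => exact ⟨[], rfl⟩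
  | cons a u ih =>
    obtain ⟨x, hx⟩ := hj a (hu a (List.mem_cons_self))
    obtain ⟨u', hu'⟩ := ih fun b hb => hu b (List.mem_cons_of_mem _ hb)
    exact ⟨x :: u', by rw [List.map_cons, hx, hu']⟩

variable {LL : Type} [CommRing LL] {C L β : Type} [Monoid C] [Ring L] [Algebra LL L]

section EvLin

variable {R T Λ : Type} [Ring R] [Ring T] [Algebra LL R] [Algebra LL T]

/-- `ev` as an `LL`-linear map. -/
noncomputable def evLin (f : R →ₐ[LL] T) (ℓ : Λ → T) : (List Λ →₀ R) →ₗ[LL] T :=
  Finsupp.lsum LL fun u => (LinearMap.mulRight LL (wd ℓ u)) ∘ₗ f.toLinearMap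

theorem evLin_single (f : R →ₐ[LL] T) (ℓ : Λ → T) (u : List Λ) (r : R) :
    evLin f ℓ (Finsupp.single u r) = f r * wd ℓ u := by
  simp [evLin]

theorem evLin_apply (f : R →ₐ[LL] T) (ℓ : Λ → T) (z : List Λ →₀ R) :
    evLin f ℓ z = ev (f : R →+* T) ℓ z := by
  have : (evLin f ℓ).toAddMonoidHom = evH (f : R →+* T) ℓ := by
    refine Finsupp.addHom_ext fun u r => ?_
    change evLin f ℓ (Finsupp.single u r) = _
    rw [evLin_single, evH_single]
    rfl
  exact DFunLike.congr_fun this z

end EvLin

/-- The span of the words in the blocks in `P`. -/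
def spW (LL : Type) [CommRing LL] {C L β : Type} [Monoid C] [Ring L] [Algebra LL L] (ρ : C →* L)
    (b : β → L) (P : β → Prop) : Submodule LL L :=
  Submodule.span LL {x | ∃ (c : C) (u : List β), (∀ a ∈ u, P a) ∧ x = ρ c * wd b u}

variable (ρ : C →* L) (b : β → L) (P : β → Prop)

theorem gen_mem (c : C) (u : List β) (hu : ∀ a ∈ u, P a) : ρ c * wd b u ∈ spW LL ρ b P :=
  Submodule.subset_span ⟨c, u, hu, rfl⟩

theorem gr_mul_mem {y : L} (hy : ∀ c, ρ c * y ∈ spW LL ρ b P) (r : MonoidAlgebra LL C) :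
    gr LL ρ r * y ∈ spW LL ρ b P := by
  induction r using MonoidAlgebra.induction_linear with
  | zero => simp
  | add f g hf hg => rw [map_add, add_mul]; exact add_mem hf hg
  | single c l =>
    change MonoidAlgebra.lift LL L C ρ _ * y ∈ _
    rw [MonoidAlgebra.lift_single, smul_mul_assoc]
    exact Submodule.smul_mem _ _ (hy c)

theorem mul_wd_mem {y : L} (hy : y ∈ spW LL ρ b P) (v : List β) (hv : ∀ a ∈ v, P a) :
    y * wd b v ∈ spW LL ρ b P := by
  induction hy using Submodule.span_induction with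
  | mem x hx =>
    obtain ⟨c, u, hu, rfl⟩ := hx
    rw [mul_assoc, ← wd_append]
    refine gen_mem ρ b P c _ fun a ha => ?_
    rcases List.mem_append.mp ha with h | h
    · exact hv a h
    · exact hu a h
  | zero => simp
  | add x y _ _ hx hy => rw [add_mul]; exact add_mem hx hy
  | smul l x _ hx => rw [smul_mul_assoc]; exact Submodule.smul_mem _ _ hx

theorem rho_mul_mem {y : L} (hy : y ∈ spW LL ρ b P) (c : C) : ρ c * y ∈ spW LL ρ b P := by
  induction hy using Submodule.span_induction with
  | mem x hx =>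
    obtain ⟨c', u, hu, rfl⟩ := hx
    rw [← mul_assoc, ← map_mul]
    exact gen_mem ρ b P _ u hu
  | zero => simp
  | add x y _ _ hx hy => rw [mul_add]; exact add_mem hx hy
  | smul l x _ hx => rw [mul_smul_comm]; exact Submodule.smul_mem _ _ hx

/-- The span is closed: the blocks in `P` can be moved over `C`. -/
def Clo : Prop := ∀ a, P a → ∀ c, b a * ρ c ∈ spW LL ρ b P

variable {ρ b P}

theorem wd_mul_mem (hP : Clo (LL := LL) ρ b P) (u : List β) (hu : ∀ a ∈ u, P a) {y : L}
    (hy : y ∈ spW LL ρ b P) : wd b u * y ∈ spW LL ρ b P := by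
  induction u generalizing y with
  | nil => rw [wd_nil, one_mul]; exact hy
  | cons a u ih =>
    have hu' : ∀ a ∈ u, P a := fun b hb => hu b (List.mem_cons_of_mem _ hb)
    rw [wd_cons, mul_assoc]
    refine ih hu' ?_
    induction hy using Submodule.span_induction with
    | mem x hx =>
      obtain ⟨c, v, hv, rfl⟩ := hx
      rw [← mul_assoc]
      exact mul_wd_mem ρ b P (hP a (hu a List.mem_cons_self) c) v hv
    | zero => simp
    | add x y _ _ hx hy => rw [mul_add]; exact add_mem hx hy
    | smul l x _ hx => rw [mul_smul_comm]; exact Submodule.smul_mem _ _ hx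

theorem spW_mul (hP : Clo (LL := LL) ρ b P) {x y : L} (hx : x ∈ spW LL ρ b P)
    (hy : y ∈ spW LL ρ b P) : x * y ∈ spW LL ρ b P := by
  induction hx using Submodule.span_induction with
  | mem x hx =>
    obtain ⟨c, u, hu, rfl⟩ := hx
    rw [mul_assoc]
    exact rho_mul_mem ρ b P (wd_mul_mem hP u hu hy) c
  | zero => simp
  | add x x' _ _ hx hx' => rw [add_mul]; exact add_mem hx hx'
  | smul l x _ hx => rw [smul_mul_assoc]; exact Submodule.smul_mem _ _ hx

theorem one_mem_spW : (1 : L) ∈ spW LL ρ b P := by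
  have := gen_mem (LL := LL) ρ b P 1 [] (by simp)
  simpa [wd_nil] using this

/-- The subalgebra spanned by the words in the blocks in `P`. -/
def SA (hP : Clo (LL := LL) ρ b P) : Subalgebra LL L where
  carrier := spW LL ρ b P
  mul_mem' := spW_mul hP
  one_mem' := one_mem_spW
  add_mem' := add_mem
  zero_mem' := zero_mem _
  algebraMap_mem' r := by
    rw [Algebra.algebraMap_eq_smul_one]
    exact Submodule.smul_mem _ _ one_mem_spW

theorem rho_mem (c : C) : ρ c ∈ spW LL ρ b P := by
  have := gen_mem (LL := LL) ρ b P c [] (by simp)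
  simpa [wd_nil] using this

theorem blk_mem {a : β} (ha : P a) : b a ∈ spW LL ρ b P := by
  have := gen_mem (LL := LL) ρ b P 1 [a] (by simpa using ha)
  simpa [wd_nil, wd_cons] using this

/-- The group `C` in the subalgebra. -/
def rhoS (hP : Clo (LL := LL) ρ b P) : C →* SA hP where
  toFun c := ⟨ρ c, rho_mem c⟩
  map_one' := Subtype.ext (map_one ρ)
  map_mul' c c' := Subtype.ext (map_mul ρ c c')

theorem gr_rhoS (hP : Clo (LL := LL) ρ b P) (r : MonoidAlgebra LL C) :
    ((gr LL (rhoS hP) r : SA hP) : L) = gr LL ρ r := by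
  induction r using MonoidAlgebra.induction_linear with
  | zero => simp
  | add f g hf hg =>
    rw [map_add, map_add, ← hf, ← hg]
    rfl
  | single c l =>
    change ((MonoidAlgebra.lift LL (SA hP) C (rhoS hP) (MonoidAlgebra.single c l) : SA hP) : L) =
      MonoidAlgebra.lift LL L C ρ (MonoidAlgebra.single c l)
    rw [MonoidAlgebra.lift_single, MonoidAlgebra.lift_single]
    rfl

/-- The subalgebra is left free on the words in the blocks in `P`. -/
theorem freeW_SA {X' : Type} (hf : FreeW (gr LL ρ : MonoidAlgebra LL C →+* L) b)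
    (hP : Clo (LL := LL) ρ b P) (j : X' → β) (hj : Injective j)
    (hPj : ∀ a, P a → ∃ x, j x = a) (g : MonoidAlgebra LL C →ₐ[LL] SA hP)
    (hg : ∀ r, ((g r : SA hP) : L) = gr LL ρ r) (x : X' → SA hP)
    (hx : ∀ a, (x a : L) = b (j a)) : FreeW (g : MonoidAlgebra LL C →+* SA hP) x := by
  refine freeW_restrict (gr LL ρ : MonoidAlgebra LL C →+* L) b hf
    (g : MonoidAlgebra LL C →+* SA hP) ((SA hP).val : SA hP →+* L) hg x j hj hx ?_
  have key : spW LL ρ b P ≤ LinearMap.range ((SA hP).val.toLinearMap ∘ₗ evLin g x) := by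
    refine Submodule.span_le.mpr ?_
    rintro _ ⟨c, u, hu, rfl⟩
    obtain ⟨u', hu'⟩ := lift_list j P hPj u hu
    refine ⟨Finsupp.single u' (MonoidAlgebra.single c 1), ?_⟩
    change ((evLin g x (Finsupp.single u' (MonoidAlgebra.single c 1)) : SA hP) : L) = _
    rw [evLin_single]
    change ((g (MonoidAlgebra.single c 1) : SA hP) : L) * ((SA hP).val : SA hP →+* L) (wd x u') = _
    rw [hg, map_wd]
    have h1 : wd (fun a => ((SA hP).val : SA hP →+* L) (x a)) u' = wd b u := by
      rw [← hu', wd_map]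
      congr 1
      funext a
      exact hx a
    rw [h1]
    congr 1
    change MonoidAlgebra.lift LL L C ρ (MonoidAlgebra.single c 1) = ρ c
    rw [MonoidAlgebra.lift_single, one_smul]
  intro s
  obtain ⟨z, hz⟩ := key s.2
  refine ⟨z, Subtype.ext ?_⟩
  rw [← evLin_apply]
  exact hz

end Pool.Agent.HierR.LB
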