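import Pool.Agent.Lib.MP_8f66f0_al_HierR.BlkB
import Pool.Agent.Lib.MP_8f66f0_al_Hier.BlkC

/-! Block data: `K_1(LL[C]) → K_1(L)` is onto if `SL LL C` holds. -/

set_option autoImplicit false

namespace Pool.Agent.HierR.LB

open Pool.Agent.Wald Pool.Agent.Ind Pool.Agent.Hier Pool.Agent.Hier.LB Function

variable {LL : Type} [CommRing LL] {C L β : Type} [Monoid C] [Ring L] [Algebra LL L]
  {ρ : C →* L} {b : β → L} {P : β → Prop} {sz : β → ℕ}

theorem ev_mem_spW (z : List β →₀ MonoidAlgebra LL C) (hz : ∀ u ∈ z.support, ∀ a ∈ u, P a) :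
    ev (gr LL ρ : MonoidAlgebra LL C →+* L) b z ∈ spW LL ρ b P :=
  Submodule.sum_mem _ fun u hu => gr_mul_mem ρ b P (fun c => gen_mem ρ b P c u (hz u hu)) _

theorem lin_mem_spW (y : β →₀ MonoidAlgebra LL C) (hy : ∀ a ∈ y.support, P a) :
    lin (gr LL ρ : MonoidAlgebra LL C →+* L) b y ∈ spW LL ρ b P :=
  Submodule.sum_mem _ fun a ha => gr_mul_mem ρ b P (fun c => by
    have := gen_mem (LL := LL) ρ b P c [a] (by simpa using hy a ha)
    simpa [wd_nil, wd_cons] using this) _

theorem blk_clo (hB : Blk LL ρ b sz) (n : ℕ) : Clo (LL := LL) ρ b (fun a => sz a < n) := by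
  intro a ha c
  obtain ⟨y, z, h1, h2, h3⟩ := hB.tri a c
  rw [h1]
  refine add_mem (lin_mem_spW y fun x hx => ?_) (ev_mem_spW z fun u hu x hx => ?_)
  · rw [h2 x hx]
    exact ha
  · exact lt_trans (h3 u hu x hx) ha

theorem spW_mono {P' : β → Prop} (h : ∀ a, P a → P' a) : spW LL ρ b P ≤ spW LL ρ b P' :=
  Submodule.span_mono fun _ ⟨c, u, hu, e⟩ => ⟨c, u, fun a ha => h a (hu a ha), e⟩

section Step

variable (hB : Blk LL ρ b sz) (n : ℕ)

/-- The inclusion of the stages. -/
def inc : SA (blk_clo hB n) →ₐ[LL] SA (blk_clo hB (n + 1)) :=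
  Subalgebra.inclusion (spW_mono fun _ h => Nat.lt_succ_of_lt h)

/-- The blocks of size `< n`. -/
def xs (a : {a : β // sz a < n}) : SA (blk_clo hB n) := ⟨b a.1, blk_mem a.2⟩

/-- The blocks of size `n`. -/
def ys (a : {a : β // sz a = n}) : SA (blk_clo hB (n + 1)) :=
  ⟨b a.1, blk_mem (by have := a.2; omega)⟩

theorem free_n : FreeW (gr LL (rhoS (blk_clo hB n)) : MonoidAlgebra LL C →+* _) (xs hB n) :=
  freeW_SA hB.free (blk_clo hB n) (Subtype.val : {a : β // sz a < n} → β) Subtype.val_injective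
    (fun a ha => ⟨⟨a, ha⟩, rfl⟩) _ (gr_rhoS _) (xs hB n) (fun _ => rfl)

theorem free_aux : FreeW (((inc hB n).comp (gr LL (rhoS (blk_clo hB n))) :
      MonoidAlgebra LL C →ₐ[LL] SA (blk_clo hB (n + 1))) : MonoidAlgebra LL C →+* _)
      (Sum.elim (fun a => inc hB n (xs hB n a)) (ys hB n)) := by
  refine freeW_SA hB.free (blk_clo hB (n + 1)) (Sum.elim
    (Subtype.val : {a : β // sz a < n} → β) (Subtype.val : {a : β // sz a = n} → β)) ?_ ?_
    ((inc hB n).comp (gr LL (rhoS (blk_clo hB n)))) ?_ _ ?_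
  · refine Injective.sumElim Subtype.val_injective Subtype.val_injective fun a a' h => ?_
    have h1 := a.2
    have h2 := a'.2
    rw [h] at h1
    omega
  · intro a ha
    rcases Nat.lt_succ_iff_lt_or_eq.mp ha with h | h
    · exact ⟨Sum.inl ⟨a, h⟩, rfl⟩
    · exact ⟨Sum.inr ⟨a, h⟩, rfl⟩
  · intro r
    exact gr_rhoS (blk_clo hB n) r
  · rintro (a | a)
    · rfl
    · rfl

theorem free_step : FreeW (inc hB n : SA (blk_clo hB n) →+* SA (blk_clo hB (n + 1)))
    (fun l : {a : β // sz a = n} × List {a : β // sz a < n} =>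
      ys hB n l.1 * (inc hB n : SA (blk_clo hB n) →+* SA (blk_clo hB (n + 1)))
        (wd (xs hB n) l.2)) := by
  have hT := free_aux hB n
  generalize hg : (gr LL (rhoS (blk_clo hB n)) : MonoidAlgebra LL C →ₐ[LL] _) = g at *
  have h1 := free_n hB n
  rw [hg] at h1
  refine freeW_split (g : MonoidAlgebra LL C →+* _)
    (inc hB n : SA (blk_clo hB n) →+* SA (blk_clo hB (n + 1))) (xs hB n) (ys hB n) h1 ?_
  exact hT

/-- The letters of the step. -/
def ws (l : {a : β // sz a = n} × List {a : β // sz a < n}) : SA (blk_clo hB (n + 1)) :=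
  ys hB n l.1 * (inc hB n : SA (blk_clo hB n) →+* SA (blk_clo hB (n + 1))) (wd (xs hB n) l.2)

theorem ws_coe (a : {a : β // sz a = n}) (u : List {a : β // sz a < n}) :
    ((ws hB n (a, u) : SA (blk_clo hB (n + 1))) : L) = b a.1 * wd b (u.map Subtype.val) := by
  change b a.1 * ((SA (blk_clo hB n)).val : SA (blk_clo hB n) →+* L) (wd (xs hB n) u) = _
  rw [map_wd, wd_map]
  rfl

/-- The map whose range contains everything. -/
noncomputable def Ps : (SA (blk_clo hB n) × (({a : β // sz a = n} × List {a : β // sz a < n}) →₀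
    MonoidAlgebra LL C)) →ₗ[LL] SA (blk_clo hB (n + 1)) :=
  (inc hB n).toLinearMap.coprod (Finsupp.lsum LL fun j =>
    (LinearMap.mulRight LL (ws hB n j)) ∘ₗ
      ((inc hB n).comp (gr LL (rhoS (blk_clo hB n)))).toLinearMap)

theorem right_aux (a : {a : β // sz a = n}) (q : L)
    (hq : q ∈ spW LL ρ b (fun a => sz a < n)) :
    b a.1 * q ∈ LinearMap.range ((SA (blk_clo hB (n + 1))).val.toLinearMap ∘ₗ Ps hB n) := by
  induction hq using Submodule.span_induction with
  | mem x hx =>
    obtain ⟨c, v, hv, rfl⟩ := hx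
    obtain ⟨y, z, h1, h2, h3⟩ := hB.tri a.1 c
    obtain ⟨v', hv'⟩ := lift_list (Subtype.val : {a : β // sz a < n} → β) (fun a => sz a < n)
      (fun a ha => ⟨⟨a, ha⟩, rfl⟩) v hv
    rw [← mul_assoc, h1, add_mul]
    refine add_mem ?_ ?_
    · rw [lin, Finsupp.sum, Finset.sum_mul]
      refine Submodule.sum_mem _ fun a' ha' => ?_
      have hs : sz a' = n := (h2 a' ha').trans a.2
      refine ⟨(0, Finsupp.single (⟨a', hs⟩, v') (y a')), ?_⟩
      change ((Ps hB n (0, Finsupp.single (⟨a', hs⟩, v') (y a')) : SA (blk_clo hB (n + 1))) : L) = _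
      have : Ps hB n (0, Finsupp.single (⟨a', hs⟩, v') (y a')) =
          inc hB n (gr LL (rhoS (blk_clo hB n)) (y a')) * ws hB n (⟨a', hs⟩, v') := by
        simp [Ps]
      rw [this]
      change ((gr LL (rhoS (blk_clo hB n)) (y a') : SA (blk_clo hB n)) : L) *
        ((ws hB n (⟨a', hs⟩, v') : SA (blk_clo hB (n + 1))) : L) = _
      rw [gr_rhoS, ws_coe, hv', mul_assoc]
      rfl
    · refine ⟨(⟨ev (gr LL ρ : MonoidAlgebra LL C →+* L) b z * wd b v, ?_⟩, 0), ?_⟩
      · refine mul_wd_mem ρ b _ (ev_mem_spW z fun u hu x hx => ?_) v hv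
        have := h3 u hu x hx
        rw [a.2] at this
        exact this
      · change ((Ps hB n (_, 0) : SA (blk_clo hB (n + 1))) : L) = _
        rw [Ps, LinearMap.coprod_apply, map_zero, add_zero]
        rfl
  | zero => simp
  | add x y _ _ hx hy => rw [mul_add]; exact add_mem hx hy
  | smul l x _ hx => rw [mul_smul_comm]; exact Submodule.smul_mem _ _ hx

/-- The linear equivalence of the freeness. -/
noncomputable def eqn : (List {a : β // sz a < n} →₀ MonoidAlgebra LL C) ≃ₗ[LL]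
    SA (blk_clo hB n) :=
  LinearEquiv.ofBijective (evLin (gr LL (rhoS (blk_clo hB n))) (xs hB n)) (by
    have h := free_n hB n
    have e : ⇑(evLin (gr LL (rhoS (blk_clo hB n))) (xs hB n)) =
        ev (gr LL (rhoS (blk_clo hB n)) : MonoidAlgebra LL C →+* _) (xs hB n) := by
      funext z
      exact evLin_apply _ _ z
    rw [e]
    exact h)

theorem ret_step : ∃ s : SA (blk_clo hB n) →ₗ[LL] MonoidAlgebra LL C,
    ∀ x, s (gr LL (rhoS (blk_clo hB n)) x) = x := by
  refine ⟨(Finsupp.lapply ([] : List {a : β // sz a < n})) ∘ₗ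
    (eqn hB n).symm.toLinearMap, fun x => ?_⟩
  change ((eqn hB n).symm (gr LL (rhoS (blk_clo hB n)) x)) [] = x
  have : gr LL (rhoS (blk_clo hB n)) x = eqn hB n (Finsupp.single [] x) := by
    change _ = evLin _ _ _
    rw [evLin_single, wd_nil, mul_one]
  rw [this, LinearEquiv.symm_apply_apply, Finsupp.single_eq_same]

theorem free_SA : Module.Free LL (SA (blk_clo hB n)) := by
  have : Module.Free LL (MonoidAlgebra LL C) := Module.Free.of_basis (MonoidAlgebra.basis C LL)
  exact Module.Free.of_equiv (eqn hB n)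

end Step

theorem kt_zero (hB : Blk LL ρ b sz) :
    KT (gr LL (rhoS (blk_clo hB 0)) : MonoidAlgebra LL C →+* SA (blk_clo hB 0)) := by
  have : IsEmpty {a : β // sz a < 0} := ⟨fun a => absurd a.2 (Nat.not_lt_zero _)⟩
  have h := free_n hB 0
  refine KT.of_surj ⟨fun x y hxy => ?_, fun s => ?_⟩
  · have h1 : evH (gr LL (rhoS (blk_clo hB 0)) : MonoidAlgebra LL C →+* _) (xs hB 0)
        (Finsupp.single [] x) = evH (gr LL (rhoS (blk_clo hB 0)) : MonoidAlgebra LL C →+* _)
        (xs hB 0) (Finsupp.single [] y) := by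
      rw [evH_single, evH_single, hxy]
    exact Finsupp.single_injective _ (h.1 h1)
  · obtain ⟨z, hz⟩ := h.2 s
    have h1 : z = Finsupp.single [] (z []) := by
      refine Finsupp.ext fun u => ?_
      have : u = [] := by
        cases u with
        | nil => rfl
        | cons a u => exact isEmptyElim a
      rw [this, Finsupp.single_eq_same]
    refine ⟨z [], ?_⟩
    rw [h1, ev_single, wd_nil, mul_one] at hz
    exact hz

end Pool.Agent.HierR.LB
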