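import Pool.Agent.Lib.MP_8f66f0_al_HierR.SpecP

/-! Comparison of classes of idempotent matrices with their degree zero part by the index over
Laurent series (the general form of the argument in RelK). -/

set_option autoImplicit false

namespace Pool.Agent.HierR

open Pool.Agent.Wald Pool.Agent.Ind Pool.Agent.Hier Matrix
open scoped TensorProduct

/-- The pull back of an invariant along a ring homomorphism. -/
private def ClsPull {Λ Λ' : Type} [Ring Λ] [Ring Λ'] (φ : Λ →+* Λ') {K : Type} [CommGroup K]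
    (κ : K1Fun Λ' K) : K1Fun Λ K where
  f := fun {n} _ _ A => κ.f (A.map φ)
  mul := fun {n} _ _ A B hA hB => by
    rw [Matrix.map_mul]
    exact κ.mul _ _ (hA.map φ.mapMatrix) (hB.map φ.mapMatrix)
  reindex := fun {n m} _ _ _ _ e A hA => by
    have h := κ.reindex e (A.map φ) (hA.map φ.mapMatrix)
    exact h
  tri := fun {n m} _ _ _ _ A B D hA hD => by
    rw [Matrix.fromBlocks_map, Matrix.map_zero _ (map_zero φ)]
    exact κ.tri _ _ _ (hA.map φ.mapMatrix) (hD.map φ.mapMatrix)

/-- The quotient of two invariants. -/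
private def ClsDiv {Λ : Type} [Ring Λ] {K : Type} [CommGroup K]
    (κ κ' : K1Fun Λ K) : K1Fun Λ K where
  f := fun {n} _ _ A => κ.f A / κ'.f A
  mul := fun {n} _ _ A B hA hB => by
    rw [κ.mul _ _ hA hB, κ'.mul _ _ hA hB, mul_div_mul_comm]
  reindex := fun {n m} _ _ _ _ e A hA => by
    rw [κ.reindex e A hA, κ'.reindex e A hA]
  tri := fun {n m} _ _ _ _ A B D hA hD => by
    rw [κ.tri A B D hA hD, κ'.tri A B D hA hD, mul_div_mul_comm]

private theorem ClsInv {Λ : Type} [Ring Λ] {n : Type} [Fintype n] [DecidableEq n]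
    {P : Matrix n n Λ} (hP : P * P = P) {y yi : Λ} (hy : ∀ q, y * q = q * y)
    (h : y * yi = 1) :
    (1 - P + P.map fun q => q * y) * (1 - P + P.map fun q => q * yi) = 1 := by
  have e1 : ∀ (A B : Matrix n n Λ) (c : Λ), A * (B.map fun q => q * c) =
      (A * B).map fun q => q * c := by
    intro A B c
    ext i j
    rw [Matrix.map_apply, Matrix.mul_apply, Matrix.mul_apply, Finset.sum_mul]
    apply Finset.sum_congr rfl
    intro k _
    rw [Matrix.map_apply, mul_assoc]
  have e2 : ∀ (A B : Matrix n n Λ), (A.map fun q => q * y) * B =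
      (A * B).map fun q => q * y := by
    intro A B
    ext i j
    rw [Matrix.map_apply, Matrix.mul_apply, Matrix.mul_apply, Finset.sum_mul]
    apply Finset.sum_congr rfl
    intro k _
    rw [Matrix.map_apply, mul_assoc, hy, mul_assoc]
  have e3 : ((P.map fun q => q * y).map fun q => q * yi) = P := by
    ext i j
    rw [Matrix.map_apply, Matrix.map_apply, mul_assoc, h, mul_one]
  have e4 : (1 - P) * P = 0 := by rw [Matrix.sub_mul, Matrix.one_mul, hP, sub_self]
  have e5 : P * (1 - P) = 0 := by rw [Matrix.mul_sub, Matrix.mul_one, hP, sub_self]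
  have e6 : (1 - P) * (1 - P) = 1 - P := by
    rw [Matrix.mul_sub, Matrix.mul_one, e4, sub_zero]
  have e7 : ∀ c : Λ, (0 : Matrix n n Λ).map (fun q => q * c) = 0 := by
    intro c
    ext i j
    rw [Matrix.map_apply, Matrix.zero_apply, zero_mul]
  rw [Matrix.add_mul, Matrix.mul_add, Matrix.mul_add, e6, e1, e4, e7, e2, e5, e7, e1, e2, hP, e3,
    add_zero, zero_add, sub_add_cancel]

/-- Classes of idempotent matrices do not change under the retraction `gr ∘ eps`, if `K_1` of the
base change to Laurent series comes from the monoid algebra. -/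
theorem cls_eps (h1 : S_Hom) (h2 : S_Idx) (LL C L : Type) [CommRing LL]
    [Monoid C] [Ring L] [Algebra LL L] (ρ : C →* L)
    (eps : L →ₐ[LL] MonoidAlgebra LL C) (heps : ∀ x, eps (gr LL ρ x) = x)
    (hKT : KT (gr (Lau LL) (bch LL (Lau LL) ρ) : MonoidAlgebra (Lau LL) C →+* Lau LL ⊗[LL] L))
    (D : K0Data L) {n : ℕ} (p : Matrix (Fin n) (Fin n) L) (hp : p * p = p) :
    D.cls (LinearMap.range (Matrix.vecMulLinear p)) =
      D.cls (LinearMap.range (Matrix.vecMulLinear (p.map fun x => gr LL ρ (eps x)))) := by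
  obtain ⟨φ, hφ⟩ := h1 LL L
  obtain ⟨v, hvy, -, -⟩ := exists_val L
  obtain ⟨κ, hκ⟩ := h2 L (LaurentSeries L) v D
  let θ : Lau LL ⊗[LL] L →ₐ[LL] Lau LL ⊗[LL] L :=
    Algebra.TensorProduct.map (AlgHom.id LL (Lau LL)) ((gr LL ρ).comp eps)
  let κ' : K1Fun (Lau LL ⊗[LL] L) D.K := ClsPull φ κ
  let κθ : K1Fun (Lau LL ⊗[LL] L) D.K := ClsPull (θ : Lau LL ⊗[LL] L →+* Lau LL ⊗[LL] L) κ'
  -- `θ` fixes the image of the group ring
  have hρ : ∀ c, gr LL ρ (eps (ρ c)) = ρ c := by
    intro c
    have : ρ c = gr LL ρ (MonoidAlgebra.single c 1) := by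
      rw [gr, MonoidAlgebra.lift_single, one_smul]
    rw [this, heps]
  have hθ1 : ∀ (a : Lau LL) (x : L), θ (a ⊗ₜ[LL] x) = a ⊗ₜ[LL] gr LL ρ (eps x) := by
    intro a x
    rfl
  have hθ : ∀ x : MonoidAlgebra (Lau LL) C,
      θ (gr (Lau LL) (bch LL (Lau LL) ρ) x) = gr (Lau LL) (bch LL (Lau LL) ρ) x := by
    intro x
    induction x using MonoidAlgebra.induction_linear with
    | zero => rw [map_zero, map_zero]
    | add x y hx hy => rw [map_add, map_add, hx, hy]
    | single c a =>
      have : gr (Lau LL) (bch LL (Lau LL) ρ) (MonoidAlgebra.single c a) = a ⊗ₜ[LL] ρ c := by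
        rw [gr, MonoidAlgebra.lift_single]
        change a • ((1 : Lau LL) ⊗ₜ[LL] ρ c) = _
        rw [TensorProduct.smul_tmul', smul_eq_mul, mul_one]
      rw [this, hθ1, hρ]
  have hkey : ∀ (m : Type) [Fintype m] [DecidableEq m] (M : Matrix m m (Lau LL ⊗[LL] L)),
      IsUnit M → κ'.f M = κθ.f M := by
    intro m _ _ M hM
    have := hKT D.K (ClsDiv κ' κθ) (by
      intro m _ _ N hN
      change κ'.f _ / κθ.f _ = 1
      rw [div_eq_one]
      change κ'.f _ = κ'.f (((N.map _).map _))
      congr 1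
      ext i j
      exact (hθ _).symm) m M hM
    exact div_eq_one.1 this
  -- the matrix
  let y : Lau LL := (HahnSeries.single 1 1 : LaurentSeries LL)
  let yi : Lau LL := (HahnSeries.single (-1) 1 : LaurentSeries LL)
  have hs : (HahnSeries.single 1 1 : LaurentSeries LL) * HahnSeries.single (-1) 1 = 1 := by
    rw [HahnSeries.single_mul_single, add_neg_cancel, one_mul]
    rfl
  have hyyi : y * yi = 1 := hs
  let Y : Lau LL ⊗[LL] L := y ⊗ₜ[LL] 1
  let Yi : Lau LL ⊗[LL] L := yi ⊗ₜ[LL] 1
  have hc : ∀ (z : Lau LL) (q : Lau LL ⊗[LL] L), (z ⊗ₜ[LL] 1) * q = q * (z ⊗ₜ[LL] 1) := by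
    intro z q
    induction q using TensorProduct.induction_on with
    | zero => rw [mul_zero, zero_mul]
    | tmul a x =>
      rw [Algebra.TensorProduct.tmul_mul_tmul, Algebra.TensorProduct.tmul_mul_tmul, one_mul,
        mul_one, mul_comm]
    | add a b ha hb => rw [mul_add, add_mul, ha, hb]
  have hYYi : Y * Yi = 1 := by
    rw [Algebra.TensorProduct.tmul_mul_tmul, hyyi, one_mul]
    rfl
  have hYiY : Yi * Y = 1 := by rw [hc, hYYi]
  let inc : L →+* Lau LL ⊗[LL] L :=
    (Algebra.TensorProduct.includeRight : L →ₐ[LL] Lau LL ⊗[LL] L)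
  have hinc : ∀ x, inc x = (1 : Lau LL) ⊗ₜ[LL] x := fun x => rfl
  have hunit : ∀ p : Matrix (Fin n) (Fin n) L, p * p = p →
      IsUnit (1 - p.map inc + (p.map inc).map fun q => q * Y) := by
    intro p hp
    have hP : p.map inc * p.map inc = p.map inc := by rw [← Matrix.map_mul, hp]
    exact ⟨⟨_, _, ClsInv hP (hc y) hYYi, ClsInv hP (hc yi) hYiY⟩, rfl⟩
  have hφinc : ∀ x : L, φ (inc x) = x • (1 : LaurentSeries L) := by
    intro x
    apply HahnSeries.ext
    funext k
    rw [hinc]
    have := hφ (1 : LaurentSeries LL) x k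
    change (φ ((1 : Lau LL) ⊗ₜ[LL] x)).coeff k = _ at this
    rw [this, HahnSeries.coeff_smul, HahnSeries.coeff_one, HahnSeries.coeff_one]
    split_ifs
    · rw [one_smul, smul_eq_mul, mul_one]
    · rw [zero_smul, smul_zero]
  have hφY : φ Y = v.y := by
    rw [hvy]
    apply HahnSeries.ext
    funext k
    have := hφ (HahnSeries.single 1 1 : LaurentSeries LL) (1 : L) k
    change (φ Y).coeff k = _ at this
    rw [this, HahnSeries.coeff_single, HahnSeries.coeff_single]
    split_ifs
    · rw [one_smul]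
    · rw [zero_smul]
  have hval : ∀ p : Matrix (Fin n) (Fin n) L, p * p = p →
      κ'.f (1 - p.map inc + (p.map inc).map fun q => q * Y) =
        D.cls (LinearMap.range (Matrix.vecMulLinear p)) := by
    intro p hp
    rw [← hκ n p hp]
    change κ.f (Matrix.map _ φ) = _
    congr 1
    have e0 : (p.map inc).map φ = up L (LaurentSeries L) p := by
      apply Matrix.ext
      intro i j
      exact hφinc (p i j)
    have e1 : ((p.map inc).map fun q => q * Y).map φ = ((p.map inc).map φ).map fun q => q * v.y := by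
      apply Matrix.ext
      intro i j
      rw [Matrix.map_apply, Matrix.map_apply, Matrix.map_apply (M := (p.map inc).map φ),
        Matrix.map_apply, map_mul, hφY]
      rfl
    rw [Matrix.map_add _ (map_add φ), Matrix.map_sub _ (map_sub φ), e1, e0,
      Matrix.map_one _ (map_zero φ) (map_one φ)]
  set p₀ : Matrix (Fin n) (Fin n) L := p.map fun x => gr LL ρ (eps x) with hp₀def
  have hp₀ : p₀ * p₀ = p₀ := by
    have : p₀ = p.map (((gr LL ρ).comp eps : L →ₐ[LL] L) : L →+* L) := rfl
    rw [this, ← Matrix.map_mul, hp]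
  have hmap : (1 - p.map inc + (p.map inc).map fun q => q * Y).map θ =
      1 - p₀.map inc + (p₀.map inc).map fun q => q * Y := by
    have e0 : (p.map inc).map θ = p₀.map inc := by
      apply Matrix.ext
      intro i j
      change θ (inc (p _ _)) = inc (p₀ _ _)
      rw [hinc, hθ1]
      rfl
    have hθY : θ Y = Y := by
      rw [hθ1, map_one, map_one]
    have e1 : ((p.map inc).map fun q => q * Y).map θ =
        ((p.map inc).map θ).map fun q => q * Y := by
      apply Matrix.ext
      intro i j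
      change θ (inc (p _ _) * Y) = θ (inc (p _ _)) * Y
      rw [map_mul, hθY]
    rw [Matrix.map_add _ (map_add θ), Matrix.map_sub _ (map_sub θ), e1, e0,
      Matrix.map_one _ (map_zero θ) (map_one θ)]
  rw [← hval _ hp, hkey _ _ (hunit _ hp)]
  change κ'.f (Matrix.map _ θ) = _
  rw [hmap, hval _ hp₀]

end Pool.Agent.HierR
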