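import Pool.Agent.Lib.MP_8f66f0_al_Hier.Lau

/-! Ring level Land-Tamme data over monoid algebras, typed by bimodules.

Conventions. `S` is a monoid, `ℤ[S] = MonoidAlgebra ℤ S`. A bimodule `M` over `ℤ[S]` has the
instances `[AddCommGroup M] [Module (MonoidAlgebra ℤ S) M] [DistribMulAction Sᵐᵒᵖ M]
[SMulCommClass (MonoidAlgebra ℤ S) Sᵐᵒᵖ M]`; `m e` is `MulOpposite.op e • m`. A left basis of `M` is
a `Module.Basis B (MonoidAlgebra ℤ S) M`. Additive maps `w : M →+ Q` are called left linear if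
`w (single e 1 • m) = ρ e * w m`. -/

set_option autoImplicit false

namespace Pool.Agent.HierR

open Pool.Agent.Wald Pool.Agent.Ind Pool.Agent.Hier
open scoped TensorProduct

section Basic

/-- The map of the monoid algebra `LL[S]` to an algebra in which `S` acts. For groups this is
`Pool.Agent.Hier.gr`. -/
noncomputable abbrev gr (LL : Type) [CommRing LL] {S : Type} [Monoid S] {Q : Type} [Ring Q]
    [Algebra LL Q] (ρ : S →* Q) : MonoidAlgebra LL S →ₐ[LL] Q :=
  MonoidAlgebra.lift LL Q S ρ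

/-- The map of `ℤ[S]` to a ring in which `S` acts. -/
noncomputable abbrev gz {S Q : Type} [Monoid S] [Ring Q] (ρ : S →* Q) :
    MonoidAlgebra ℤ S →+* Q :=
  ((MonoidAlgebra.lift ℤ Q S ρ : MonoidAlgebra ℤ S →ₐ[ℤ] Q) : MonoidAlgebra ℤ S →+* Q)

/-- The homomorphism to the algebra after base change. -/
noncomputable def bch (LL : Type) [CommRing LL] (LL' : Type) [CommRing LL'] [Algebra LL LL']
    {C L : Type} [Monoid C] [Ring L] [Algebra LL L] (ρ : C →* L) : C →* LL' ⊗[LL] L :=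
  ((Algebra.TensorProduct.includeRight : L →ₐ[LL] LL' ⊗[LL] L) : L →* LL' ⊗[LL] L).comp ρ

/-- Block data over a monoid (compare `Pool.Agent.Hier.Blk`). -/
structure Blk (LL : Type) [CommRing LL] {C L β : Type} [Monoid C] [Ring L] [Algebra LL L]
    (ρ : C →* L) (b : β → L) (sz : β → ℕ) : Prop where
  free : FreeW (gr LL ρ : MonoidAlgebra LL C →+* L) b
  tri : ∀ (x : β) (c : C), ∃ (y : β →₀ MonoidAlgebra LL C) (z : List β →₀ MonoidAlgebra LL C),
    b x * ρ c = lin (gr LL ρ : MonoidAlgebra LL C →+* L) b y +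
      ev (gr LL ρ : MonoidAlgebra LL C →+* L) b z ∧
    (∀ x' ∈ y.support, sz x' = sz x) ∧ ∀ u ∈ z.support, ∀ x' ∈ u, sz x' < sz x

end Basic

section Matrices

/-- A `(C, A)`-bimodule which is left free over `C` with the basis `w_i`, `i ∈ I`, in matrix form:
`w_i a = ∑ x_i(a)_j w_j`. -/
structure MX (LL A C I : Type) [CommRing LL] [Ring A] [Ring C] [Algebra LL A] [Algebra LL C] where
  x : I → A →ₗ[LL] (I →₀ C)
  one : ∀ i, x i 1 = Finsupp.single i 1
  mul : ∀ i a a', x i (a * a') = (x i a).sum fun j r => r • x j a'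

/-- A homomorphism of the monoid `S` to the row finite matrices over `LL[S]`:
`b_x e = ∑ y_x(e)_x' b_x'`. -/
structure MS (LL S β : Type) [CommRing LL] [Monoid S] where
  y : β → S → (β →₀ MonoidAlgebra LL S)
  one : ∀ x, y x 1 = Finsupp.single x 1
  mul : ∀ x e e', y x (e * e') = (y x e).sum fun x' r => r • y x' e'

end Matrices

section Bimodules

variable {S : Type} [Monoid S]

/-- Homomorphisms of bimodules. -/
def IsBi {M N : Type} [AddCommGroup M] [Module (MonoidAlgebra ℤ S) M] [DistribMulAction Sᵐᵒᵖ M]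
    [AddCommGroup N] [Module (MonoidAlgebra ℤ S) N] [DistribMulAction Sᵐᵒᵖ N] (φ : M →+ N) : Prop :=
  (∀ (e : S) (m : M), φ (MonoidAlgebra.single e (1 : ℤ) • m) =
    MonoidAlgebra.single e (1 : ℤ) • φ m) ∧
  ∀ (e : S) (m : M), φ (MulOpposite.op e • m) = MulOpposite.op e • φ m

/-- `∑ x_j(e) w_j(m e)`. -/
noncomputable def tr {LL T I M : Type} [CommRing LL] [Ring T] [Algebra LL T] [AddCommGroup M]
    [DistribMulAction Sᵐᵒᵖ M] (w : I → M →+ T) (x : I →₀ MonoidAlgebra LL S) (m : M) : T :=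
  x.sum fun j r => r.coeff.sum fun e t => t • w j (MulOpposite.op e • m)

end Bimodules

section Typed

variable (LL : Type) [CommRing LL] {S : Type} [Monoid S]

/-- Typed Land-Tamme data over `S`, of type `M` (a bimodule with the left basis `bM`), with
letters in the bimodule `X`: the letters are `w_i(bM_b)`, and
`w_i(m) q = c + ∑ x_i(q)_j(e) w_j(m e)`. -/
structure IsLM {Q' Q I M B : Type} [Ring Q'] [Ring Q] [Algebra LL Q'] [Algebra LL Q]
    [AddCommGroup M] [Module (MonoidAlgebra ℤ S) M] [DistribMulAction Sᵐᵒᵖ M]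
    (X : MX LL Q' (MonoidAlgebra LL S) I) (bM : Module.Basis B (MonoidAlgebra ℤ S) M)
    (f : Q' →ₐ[LL] Q) (ρ : S →* Q') (w : I → M →+ Q) : Prop where
  lin : ∀ (i : I) (e : S) (m : M), w i (MonoidAlgebra.single e (1 : ℤ) • m) = f (ρ e) * w i m
  free : FreeW (f : Q' →+* Q) (fun a : B × I => w a.2 (bM a.1))
  right : ∀ (i : I) (q : Q') (m : M), ∃ c : Q', w i m * f q = f c + tr w (X.x i q) m
  ret : ∃ s : Q' →ₗ[LL] MonoidAlgebra LL S, ∀ x, s (gr LL ρ x) = x

/-- For all typed Land-Tamme data of type `M` over `S`, `K_1(Q)` is generated by the image of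
`K_1(Q')`. -/
def SLM (S : Type) [Monoid S] (M : Type) [AddCommGroup M] [Module (MonoidAlgebra ℤ S) M]
    [DistribMulAction Sᵐᵒᵖ M] : Prop :=
  ∀ (Q' Q I B : Type) [Ring Q'] [Ring Q] [Algebra LL Q'] [Algebra LL Q] [Module.Free LL Q']
    (X : MX LL Q' (MonoidAlgebra LL S) I) (bM : Module.Basis B (MonoidAlgebra ℤ S) M)
    (f : Q' →ₐ[LL] Q) (ρ : S →* Q') (w : I → M →+ Q), IsLM LL X bM f ρ w → KT (f : Q' →+* Q)

/-- The constant parts of typed Land-Tamme data. -/
structure CM {Q' I : Type} [Ring Q'] [Algebra LL Q'] (X : MX LL Q' (MonoidAlgebra LL S) I)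
    (ρ : S →* Q') (M : Type) [AddCommGroup M] [Module (MonoidAlgebra ℤ S) M]
    [DistribMulAction Sᵐᵒᵖ M] where
  c : I → M →+ (Q' →ₗ[LL] Q')
  lin : ∀ (i : I) (e : S) (m : M) (q : Q'),
    c i (MonoidAlgebra.single e (1 : ℤ) • m) q = ρ e * c i m q
  one : ∀ i m, c i m 1 = 0
  mul : ∀ i m q q', c i m (q * q') = c i m q * q' +
    (X.x i q).sum fun j r => r.coeff.sum fun e t => t • c j (MulOpposite.op e • m) q'

variable {LL}

/-- The ring `T(M)` for the constants `D` of type `M''` and a homomorphism of bimodules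
`r : M → M''`: left free over `Q'` on the words in the letters `w_i(bM_b)`, with
`w_i(m) q = c_i(r m)(q) + ∑ x_i(q)_j(e) w_j(m e)`. -/
structure IsTM {Q' I M M'' B T : Type} [Ring Q'] [Algebra LL Q'] [AddCommGroup M]
    [Module (MonoidAlgebra ℤ S) M] [DistribMulAction Sᵐᵒᵖ M] [AddCommGroup M'']
    [Module (MonoidAlgebra ℤ S) M''] [DistribMulAction Sᵐᵒᵖ M'']
    {X : MX LL Q' (MonoidAlgebra LL S) I} {ρ : S →* Q'} (D : CM LL X ρ M'') (r : M →+ M'')
    (bM : Module.Basis B (MonoidAlgebra ℤ S) M) [Ring T] [Algebra LL T] (f : Q' →ₐ[LL] T)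
    (w : I → M →+ T) : Prop where
  lin : ∀ (i : I) (e : S) (m : M), w i (MonoidAlgebra.single e (1 : ℤ) • m) = f (ρ e) * w i m
  free : FreeW (f : Q' →+* T) (fun a : B × I => w a.2 (bM a.1))
  rel : ∀ i m q, w i m * f q = f (D.c i (r m) q) + tr w (X.x i q) m

/-- Typed block data: `L` is left free over `LL[S]` on the words in the blocks `b_β(bM_k)`, and
`b_β(m) ρ(e)` is the typed combination of blocks of the same size given by the matrices `Y`, up to
words in smaller blocks. -/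
structure BlkM {L β M B : Type} [Ring L] [Algebra LL L] [AddCommGroup M]
    [Module (MonoidAlgebra ℤ S) M] [DistribMulAction Sᵐᵒᵖ M] (Y : MS LL S β)
    (bM : Module.Basis B (MonoidAlgebra ℤ S) M) (ρ : S →* L) (b : β → M →+ L) (sz : β → ℕ) :
    Prop where
  lin : ∀ (x : β) (e : S) (m : M), b x (MonoidAlgebra.single e (1 : ℤ) • m) = ρ e * b x m
  free : FreeW (gr LL ρ : MonoidAlgebra LL S →+* L) (fun a : B × β => b a.2 (bM a.1))
  siz : ∀ (x : β) (e : S), ∀ x' ∈ (Y.y x e).support, sz x' = sz x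
  tri : ∀ (x : β) (e : S) (m : M), ∃ z : List (B × β) →₀ MonoidAlgebra LL S,
    b x m * ρ e = tr b (Y.y x e) m +
      ev (gr LL ρ : MonoidAlgebra LL S →+* L) (fun a : B × β => b a.2 (bM a.1)) z ∧
    ∀ u ∈ z.support, ∀ x' ∈ u, sz x'.2 < sz x

end Typed

section Families

/-- The rule of a family of letters in orbits: the letter `ℓ_a` in the orbit `o a` satisfies
`ℓ_a q ∈ Q' + ∑ LL[H_{o a}] ℓ_b` with `b` in the same orbit. -/
def FamRule (LL : Type) [CommRing LL] {Q' T Λ O : Type} {H : O → Type} [∀ ω, Group (H ω)]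
    [Ring Q'] [Algebra LL Q'] [Ring T] [Algebra LL T] (f : Q' →ₐ[LL] T) (ρ : ∀ ω, H ω →* Q')
    (ℓ : Λ → T) (o : Λ → O) : Prop :=
  ∀ (a : Λ) (q : Q'), ∃ (c : Q') (x : Λ →₀ MonoidAlgebra LL (H (o a))),
    (∀ b ∈ x.support, o b = o a) ∧
    ℓ a * f q = f c + x.sum fun b r => f (gr LL (ρ (o a)) r) * ℓ b

variable {S : Type} [Monoid S]

/-- An induced bimodule: a left basis `bM` in orbits; the group `H ω` of the orbit `ω` acts through
`η ω : H ω →* ℤ[S]`, `ℤ[H ω] → ℤ[S]` is a split injection of abelian groups, and the right action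
is `bM_b e = ∑ η(y_b') bM_b'` with `b'` in the orbit of `b`. -/
structure IsInd {M B O : Type} {H : O → Type} [∀ ω, Group (H ω)] [AddCommGroup M]
    [Module (MonoidAlgebra ℤ S) M] [DistribMulAction Sᵐᵒᵖ M]
    (bM : Module.Basis B (MonoidAlgebra ℤ S) M) (o : B → O)
    (η : ∀ ω, H ω →* MonoidAlgebra ℤ S) : Prop where
  rule : ∀ (b : B) (e : S), ∃ y : B →₀ MonoidAlgebra ℤ (H (o b)),
    (∀ b' ∈ y.support, o b' = o b) ∧
    MulOpposite.op e • bM b = y.sum fun b' r => gz (η (o b)) r • bM b'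
  ret : ∀ ω, ∃ s : MonoidAlgebra ℤ S →+ MonoidAlgebra ℤ (H ω), ∀ x, s (gz (η ω) x) = x

/-- A stabilizing bimodule `ℤ[S] ⊗ G'`: a left basis whose `ℤ`-span is stable under the right
action. -/
def IsStab (S : Type) [Monoid S] (G : Type) [AddCommGroup G] [Module (MonoidAlgebra ℤ S) G]
    [DistribMulAction Sᵐᵒᵖ G] : Prop :=
  ∃ (B : Type) (bG : Module.Basis B (MonoidAlgebra ℤ S) G), ∀ (b : B) (e : S),
    ∃ y : B →₀ ℤ, MulOpposite.op e • bG b = y.sum fun b' n => n • bG b'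

/-- `M` is a retract of an induced bimodule with groups in the class `𝒞`. -/
def IsRet (S : Type) [Monoid S] (𝒞 : ∀ (H : Type) [Group H], Prop) (M : Type) [AddCommGroup M]
    [Module (MonoidAlgebra ℤ S) M] [DistribMulAction Sᵐᵒᵖ M] : Prop :=
  ∃ (N : Type) (_ : AddCommGroup N) (_ : Module (MonoidAlgebra ℤ S) N)
    (_ : DistribMulAction Sᵐᵒᵖ N) (_ : SMulCommClass (MonoidAlgebra ℤ S) Sᵐᵒᵖ N)
    (B O : Type) (H : O → Type) (_ : ∀ ω, Group (H ω))
    (bN : Module.Basis B (MonoidAlgebra ℤ S) N) (o : B → O) (η : ∀ ω, H ω →* MonoidAlgebra ℤ S)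
    (i : M →+ N) (p : N →+ M),
    IsInd bN o η ∧ (∀ ω, 𝒞 (H ω)) ∧ IsBi (S := S) i ∧ IsBi (S := S) p ∧ ∀ m, p (i m) = m

/-- Resolutions of length `n` by retracts of induced bimodules. -/
def ResB (S : Type) [Monoid S] (𝒞 : ∀ (H : Type) [Group H], Prop) :
    ℕ → ∀ (M : Type) [AddCommGroup M] [Module (MonoidAlgebra ℤ S) M] [DistribMulAction Sᵐᵒᵖ M],
      Prop
  | 0, M, _, _, _ => IsRet S 𝒞 M
  | n + 1, M, _, _, _ => ∃ (F M' : Type) (_ : AddCommGroup F) (_ : Module (MonoidAlgebra ℤ S) F)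
      (_ : DistribMulAction Sᵐᵒᵖ F) (_ : SMulCommClass (MonoidAlgebra ℤ S) Sᵐᵒᵖ F)
      (_ : AddCommGroup M') (_ : Module (MonoidAlgebra ℤ S) M') (_ : DistribMulAction Sᵐᵒᵖ M')
      (_ : SMulCommClass (MonoidAlgebra ℤ S) Sᵐᵒᵖ M') (i : M' →+ F) (r : F →+ M),
      IsBi (S := S) i ∧ IsBi (S := S) r ∧ Function.Injective i ∧ Function.Exact i r ∧
      Function.Surjective r ∧ IsRet S 𝒞 F ∧ ResB S 𝒞 n M'

end Families

end Pool.Agent.HierR
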