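import Pool.Agent.Lib.MP_8f66f0_al_HierR.Defs
import Pool.Agent.Lib.MP_8f66f0_al_GLA.Toggle

/-! The monoid of the category `P ⋊ Γ` of a poset with a group action, and bimodules given by
pointed bisets. Direction as in GLA: a morphism `(a, g, b)` has `g b ≤ a` (`a` is the label of the
row, `b` the label of the column). -/

set_option autoImplicit false

namespace Pool.Agent.HierR

open Pool.Agent.Wald Pool.Agent.Ind Pool.Agent.Hier

section PM

/-- A pointed biset over the monoid `S`: `S` acts from the left and from the right on
`X ∪ {0}`, the actions commute, `0` is fixed. -/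
class PBi (S X : Type) [Monoid S] where
  l : S → X → Option X
  r : X → S → Option X
  l_one : ∀ x, l 1 x = some x
  l_mul : ∀ s t x, l (s * t) x = (l t x).bind (l s)
  r_one : ∀ x, r x 1 = some x
  r_mul : ∀ s t x, r x (s * t) = (r x s).bind fun y => r y t
  comm : ∀ s t x, (l s x).bind (fun y => r y t) = (r x t).bind (l s)

/-- The free abelian group on `X`. -/
def PM (X : Type) : Type := X →₀ ℤ

noncomputable instance (X : Type) : AddCommGroup (PM X) := inferInstanceAs (AddCommGroup (X →₀ ℤ))

instance (X : Type) : Module.Free ℤ (PM X) := inferInstanceAs (Module.Free ℤ (X →₀ ℤ))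

/-- The basis elements. -/
noncomputable def PM.of {X : Type} (x : X) : PM X := Finsupp.single x 1

/-- The basis element of `X ∪ {0}`. -/
noncomputable def PM.ofO {X : Type} (x : Option X) : PM X := x.elim 0 PM.of

/-- Additive maps on the basis elements. -/
noncomputable def PM.lift {X A : Type} [AddCommGroup A] (φ : X → A) : PM X →+ A :=
  Finsupp.liftAddHom fun x => zmultiplesHom A (φ x)

theorem PM.lift_of {X A : Type} [AddCommGroup A] (φ : X → A) (x : X) :
    PM.lift φ (PM.of x) = φ x := by
  have h := Finsupp.liftAddHom_apply_single (fun x => zmultiplesHom A (φ x)) x (1 : ℤ)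
  exact h.trans (one_zsmul _)

theorem PM.lift_ofO {X A : Type} [AddCommGroup A] (φ : X → A) (x : Option X) :
    PM.lift φ (PM.ofO x) = x.elim 0 φ := by
  cases x with
  | none => exact map_zero _
  | some x => exact PM.lift_of φ x

theorem PM.ext {X A : Type} [AddCommGroup A] {f g : PM X →+ A}
    (h : ∀ x, f (PM.of x) = g (PM.of x)) : f = g := by
  refine Finsupp.addHom_ext fun x n => ?_
  have h1 : (Finsupp.single x n : X →₀ ℤ) = n • PM.of x := by
    show Finsupp.single x n = n • (Finsupp.single x (1 : ℤ))
    rw [Finsupp.smul_single, smul_eq_mul, mul_one]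
  have h2 : ∀ f : PM X →+ A, f (n • PM.of x) = n • f (PM.of x) := fun f => map_zsmul f n _
  exact (congrArg f h1).trans ((h2 f).trans ((congrArg (n • ·) (h x)).trans
    ((h2 g).symm.trans (congrArg g h1).symm)))

variable {S X : Type} [Monoid S] [PBi S X]

/-- The left action as a homomorphism to the endomorphisms. -/
noncomputable def PM.lHom (S X : Type) [Monoid S] [PBi S X] : S →* Module.End ℤ (PM X) where
  toFun s := (PM.lift fun x => PM.ofO (PBi.l s x) : PM X →+ PM X).toIntLinearMap
  map_one' := by
    refine LinearMap.toAddMonoidHom_injective (PM.ext fun x => ?_)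
    change PM.lift _ (PM.of x) = PM.of x
    rw [PM.lift_of, PBi.l_one]
    rfl
  map_mul' s t := by
    refine LinearMap.toAddMonoidHom_injective (PM.ext fun x => ?_)
    change PM.lift _ (PM.of x) = PM.lift _ (PM.lift _ (PM.of x))
    rw [PM.lift_of, PM.lift_of, PM.lift_ofO, PBi.l_mul]
    cases PBi.l t x with
    | none => rfl
    | some y => rfl

noncomputable instance : Module (MonoidAlgebra ℤ S) (PM X) :=
  Module.compHom (PM X)
    ((MonoidAlgebra.lift ℤ (Module.End ℤ (PM X)) S (PM.lHom S X) :
      MonoidAlgebra ℤ S →ₐ[ℤ] Module.End ℤ (PM X)) : MonoidAlgebra ℤ S →+* Module.End ℤ (PM X))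

theorem PM.single_smul (s : S) (m : PM X) :
    MonoidAlgebra.single s (1 : ℤ) • m = PM.lift (fun x => PM.ofO (PBi.l s x)) m := by
  change (MonoidAlgebra.lift ℤ (Module.End ℤ (PM X)) S (PM.lHom S X)
    (MonoidAlgebra.single s (1 : ℤ))) m = _
  rw [MonoidAlgebra.lift_single, one_smul]
  rfl

theorem PM.single_smul_of (s : S) (x : X) :
    MonoidAlgebra.single s (1 : ℤ) • (PM.of x : PM X) = PM.ofO (PBi.l s x) := by
  rw [PM.single_smul, PM.lift_of]

noncomputable instance : DistribMulAction Sᵐᵒᵖ (PM X) where
  smul s m := PM.lift (fun x => PM.ofO (PBi.r x s.unop)) m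
  one_smul m := by
    change PM.lift (fun x => PM.ofO (PBi.r x (1 : S))) m = m
    have h : (PM.lift (fun x => PM.ofO (PBi.r x (1 : S))) : PM X →+ PM X) =
        AddMonoidHom.id _ := by
      refine PM.ext fun x => ?_
      rw [PM.lift_of, PBi.r_one]
      rfl
    rw [h]
    rfl
  mul_smul s t m := by
    change PM.lift (fun x => PM.ofO (PBi.r x (t.unop * s.unop))) m =
      PM.lift (fun x => PM.ofO (PBi.r x s.unop)) (PM.lift (fun x => PM.ofO (PBi.r x t.unop)) m)
    have h : (PM.lift (fun x => PM.ofO (PBi.r x (t.unop * s.unop))) : PM X →+ PM X) =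
        (PM.lift (fun x => PM.ofO (PBi.r x s.unop))).comp
          (PM.lift (fun x => PM.ofO (PBi.r x t.unop))) := by
      refine PM.ext fun x => ?_
      rw [AddMonoidHom.comp_apply, PM.lift_of, PM.lift_of, PM.lift_ofO, PBi.r_mul]
      cases PBi.r x t.unop with
      | none => rfl
      | some y => rfl
    rw [h]
    rfl
  smul_zero s := map_zero _
  smul_add s := map_add _

theorem PM.op_smul (s : S) (m : PM X) :
    MulOpposite.op s • m = PM.lift (fun x => PM.ofO (PBi.r x s)) m := rfl

theorem PM.op_smul_of (s : S) (x : X) :
    MulOpposite.op s • (PM.of x : PM X) = PM.ofO (PBi.r x s) := by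
  rw [PM.op_smul, PM.lift_of]

instance : SMulCommClass (MonoidAlgebra ℤ S) Sᵐᵒᵖ (PM X) where
  smul_comm a t m := by
    have h1 : ∀ s : S, (PM.lift (fun x => PM.ofO (PBi.l s x)) : PM X →+ PM X).comp
        (PM.lift (fun x => PM.ofO (PBi.r x t.unop))) =
        (PM.lift (fun x => PM.ofO (PBi.r x t.unop))).comp
          (PM.lift (fun x => PM.ofO (PBi.l s x))) := by
      intro s
      refine PM.ext fun x => ?_
      rw [AddMonoidHom.comp_apply, AddMonoidHom.comp_apply, PM.lift_of, PM.lift_of, PM.lift_ofO,
        PM.lift_ofO]
      have := PBi.comm s t.unop x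
      cases h2 : PBi.r x t.unop with
      | none =>
        cases h3 : PBi.l s x with
        | none => rfl
        | some y =>
          rw [h2, h3] at this
          change PBi.r y t.unop = none at this
          change (0 : PM X) = PM.ofO (PBi.r y t.unop)
          rw [this]
          rfl
      | some z =>
        cases h3 : PBi.l s x with
        | none =>
          rw [h2, h3] at this
          change none = PBi.l s z at this
          change PM.ofO (PBi.l s z) = (0 : PM X)
          rw [← this]
          rfl
        | some y =>
          rw [h2, h3] at this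
          change PBi.r y t.unop = PBi.l s z at this
          change PM.ofO (PBi.l s z) = PM.ofO (PBi.r y t.unop)
          rw [this]
    have h2 : ∀ b : S →₀ ℤ, (MonoidAlgebra.ofCoeff b : MonoidAlgebra ℤ S) • (t • m) =
        t • ((MonoidAlgebra.ofCoeff b : MonoidAlgebra ℤ S) • m) := by
      intro b
      induction (MonoidAlgebra.ofCoeff b : MonoidAlgebra ℤ S) using
        MonoidAlgebra.induction_linear with
      | zero => rw [zero_smul, zero_smul, smul_zero]
      | add x y hx hy => rw [add_smul, hx, hy, add_smul, smul_add]
      | single s n =>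
        have h4 : (MonoidAlgebra.single s n : MonoidAlgebra ℤ S) =
            n • MonoidAlgebra.single s (1 : ℤ) := by
          rw [MonoidAlgebra.smul_single, smul_eq_mul, mul_one]
        rw [h4, smul_assoc, smul_assoc, PM.single_smul, PM.single_smul]
        have h5 : t • (n • (PM.lift (fun x => PM.ofO (PBi.l s x)) m : PM X)) =
            n • (t • (PM.lift (fun x => PM.ofO (PBi.l s x)) m : PM X)) :=
          map_zsmul (PM.lift (fun x => PM.ofO (PBi.r x t.unop)) : PM X →+ PM X) n _
        rw [h5]
        congr 1
        exact DFunLike.congr_fun (h1 s) m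
    exact h2 a.coeff

end PM

section Mo

/-- The action of `Γ` on the poset `P` is monotone. -/
class MonoAct (Γ P : Type) [Group Γ] [PartialOrder P] [MulAction Γ P] : Prop where
  mono : ∀ (g : Γ) {a b : P}, a ≤ b → g • a ≤ g • b

/-- The action of a `ToggleAct` is monotone. -/
instance (Γ P : Type) [Group Γ] [Pool.Agent.GLA.TogglePoset P] [Pool.Agent.GLA.ToggleAct Γ P] :
    MonoAct Γ P :=
  ⟨fun g a b h => Pool.Agent.GLA.ToggleAct.smul_mono g a b h⟩

/-- The morphisms of the category `P ⋊ Γ`: the triples `(a, g, b)` with `g b ≤ a`. -/
@[ext] structure Tri (Γ P : Type) [Group Γ] [PartialOrder P] [MulAction Γ P] where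
  a : P
  g : Γ
  b : P
  le : g • b ≤ a

/-- The monoid of the category `P ⋊ Γ`, with `0` and `1` adjoined. -/
inductive Mo (Γ P : Type) [Group Γ] [PartialOrder P] [MulAction Γ P] : Type
  | one : Mo Γ P
  | zero : Mo Γ P
  | mor : Tri Γ P → Mo Γ P

variable {Γ P : Type} [Group Γ] [PartialOrder P] [MulAction Γ P] [MonoAct Γ P]

/-- The composition of morphisms. -/
def Tri.comp (x y : Tri Γ P) (h : x.b = y.a) : Tri Γ P where
  a := x.a
  g := x.g * y.g
  b := y.b
  le := by
    rw [mul_smul]
    refine le_trans (MonoAct.mono x.g ?_) x.le
    rw [h]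
    exact y.le

open Classical in
/-- The product of morphisms. -/
noncomputable def Tri.mulO (x y : Tri Γ P) : Option (Tri Γ P) :=
  if h : x.b = y.a then some (x.comp y h) else none

/-- The product. -/
noncomputable def Mo.mul : Mo Γ P → Mo Γ P → Mo Γ P
  | .one, y => y
  | .zero, _ => .zero
  | .mor x, .one => .mor x
  | .mor _, .zero => .zero
  | .mor x, .mor y => (x.mulO y).elim .zero .mor

theorem Tri.mulO_assoc (x y z : Tri Γ P) :
    (x.mulO y).bind (fun u => u.mulO z) = (y.mulO z).bind fun u => x.mulO u := by
  unfold Tri.mulO
  by_cases h1 : x.b = y.a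
  · by_cases h2 : y.b = z.a
    · rw [dif_pos h1, dif_pos h2]
      simp only [Option.bind_some]
      rw [dif_pos (show (x.comp y h1).b = z.a from h2), dif_pos (show x.b = (y.comp z h2).a from h1)]
      congr 1
      exact Tri.ext rfl (mul_assoc _ _ _) rfl
    · rw [dif_pos h1, dif_neg h2]
      simp only [Option.bind_some, Option.bind_none]
      exact dif_neg h2
  · by_cases h2 : y.b = z.a
    · rw [dif_neg h1, dif_pos h2]
      simp only [Option.bind_some, Option.bind_none]
      have h3 : ¬ x.b = (y.comp z h2).a := h1
      rw [dif_neg h3]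
    · rw [dif_neg h1, dif_neg h2]
      rfl

noncomputable instance : Monoid (Mo Γ P) where
  one := .one
  mul := Mo.mul
  one_mul x := by cases x <;> rfl
  mul_one x := by cases x <;> rfl
  mul_assoc x y z := by
    cases x with
    | one => cases y <;> cases z <;> rfl
    | zero => cases y <;> cases z <;> rfl
    | mor x =>
      cases y with
      | one => cases z <;> rfl
      | zero => cases z <;> rfl
      | mor y =>
        cases z with
        | one =>
          change Mo.mul ((x.mulO y).elim .zero .mor) .one = (x.mulO y).elim .zero .mor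
          cases x.mulO y <;> rfl
        | zero =>
          change Mo.mul ((x.mulO y).elim .zero .mor) .zero = .zero
          cases x.mulO y <;> rfl
        | mor z =>
          change Mo.mul ((x.mulO y).elim .zero .mor) (.mor z) =
            Mo.mul (.mor x) ((y.mulO z).elim .zero .mor)
          have h := Tri.mulO_assoc x y z
          cases h1 : x.mulO y with
          | none =>
            cases h2 : y.mulO z with
            | none => rfl
            | some v =>
              rw [h1, h2] at h
              change none = x.mulO v at h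
              change Mo.zero = (x.mulO v).elim .zero .mor
              rw [← h]
              rfl
          | some u =>
            cases h2 : y.mulO z with
            | none =>
              rw [h1, h2] at h
              change u.mulO z = none at h
              change (u.mulO z).elim Mo.zero .mor = .zero
              rw [h]
              rfl
            | some v =>
              rw [h1, h2] at h
              change u.mulO z = x.mulO v at h
              change (u.mulO z).elim Mo.zero .mor = (x.mulO v).elim .zero .mor
              rw [h]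

theorem Mo.one_def : (1 : Mo Γ P) = .one := rfl

theorem Mo.mor_mul_mor (x y : Tri Γ P) :
    (Mo.mor x * Mo.mor y : Mo Γ P) = (x.mulO y).elim .zero .mor := rfl

theorem Mo.zero_mul' (x : Mo Γ P) : (Mo.zero * x : Mo Γ P) = .zero := rfl

theorem Mo.mul_zero' (x : Mo Γ P) : (x * Mo.zero : Mo Γ P) = .zero := by cases x <;> rfl

/-- The left action on the morphisms. -/
noncomputable def Mo.lT : Mo Γ P → Tri Γ P → Option (Tri Γ P)
  | .one, y => some y
  | .zero, _ => none
  | .mor x, y => x.mulO y

/-- The right action on the morphisms. -/
noncomputable def Mo.rT : Tri Γ P → Mo Γ P → Option (Tri Γ P)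
  | x, .one => some x
  | _, .zero => none
  | x, .mor y => x.mulO y

theorem Mo.lT_mul (s t : Mo Γ P) (x : Tri Γ P) :
    Mo.lT (s * t) x = (Mo.lT t x).bind (Mo.lT s) := by
  cases s with
  | one =>
    change Mo.lT t x = (Mo.lT t x).bind some
    cases Mo.lT t x <;> rfl
  | zero =>
    change none = (Mo.lT t x).bind fun _ => none
    cases Mo.lT t x <;> rfl
  | mor s =>
    cases t with
    | one => rfl
    | zero => rfl
    | mor t =>
      change Mo.lT ((s.mulO t).elim .zero .mor) x = (t.mulO x).bind fun u => s.mulO u
      rw [← Tri.mulO_assoc]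
      cases s.mulO t <;> rfl

theorem Mo.rT_mul (s t : Mo Γ P) (x : Tri Γ P) :
    Mo.rT x (s * t) = (Mo.rT x s).bind fun y => Mo.rT y t := by
  cases s with
  | one => rfl
  | zero =>
    cases t <;> rfl
  | mor s =>
    cases t with
    | one =>
      change x.mulO s = (x.mulO s).bind some
      cases x.mulO s <;> rfl
    | zero =>
      change none = (x.mulO s).bind fun _ => none
      cases x.mulO s <;> rfl
    | mor t =>
      change Mo.rT x ((s.mulO t).elim .zero .mor) = (x.mulO s).bind fun u => u.mulO t
      rw [Tri.mulO_assoc]
      cases s.mulO t <;> rfl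

theorem Mo.lr_comm (s t : Mo Γ P) (x : Tri Γ P) :
    (Mo.lT s x).bind (fun y => Mo.rT y t) = (Mo.rT x t).bind (Mo.lT s) := by
  cases s with
  | one =>
    change Mo.rT x t = (Mo.rT x t).bind some
    cases Mo.rT x t <;> rfl
  | zero =>
    change none = (Mo.rT x t).bind fun _ => none
    cases Mo.rT x t <;> rfl
  | mor s =>
    cases t with
    | one =>
      change (s.mulO x).bind some = s.mulO x
      cases s.mulO x <;> rfl
    | zero =>
      change (s.mulO x).bind (fun _ => none) = none
      cases s.mulO x <;> rfl
    | mor t => exact Tri.mulO_assoc s x t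

/-- The morphisms as a pointed biset; `PM (Tri Γ P)` is the bimodule `T_0`. -/
noncomputable instance : PBi (Mo Γ P) (Tri Γ P) where
  l := Mo.lT
  r := Mo.rT
  l_one _ := rfl
  l_mul := Mo.lT_mul
  r_one _ := rfl
  r_mul := Mo.rT_mul
  comm := Mo.lr_comm

/-- The identity morphism of `a`. -/
def Tri.id (a : P) : Tri Γ P := ⟨a, 1, a, by rw [one_smul]⟩

variable (Γ P)

/-- The isomorphisms (morphisms `(a, g, b)` with `a = g b`) together with `0` and `1`. -/
noncomputable def Mo0 : Submonoid (Mo Γ P) where
  carrier := {x | ∀ y : Tri Γ P, x = .mor y → y.a = y.g • y.b}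
  one_mem' := fun y h => by cases h
  mul_mem' := by
    intro s t hs ht y h
    cases s with
    | one => exact ht y h
    | zero => exact absurd h (by rintro ⟨⟩)
    | mor s =>
      cases t with
      | one => exact hs y h
      | zero => exact absurd h (by rintro ⟨⟩)
      | mor t =>
        rw [Mo.mor_mul_mor] at h
        cases h1 : s.mulO t with
        | none =>
          rw [h1] at h
          exact absurd h (by rintro ⟨⟩)
        | some u =>
          rw [h1] at h
          change Mo.mor u = Mo.mor y at h
          have h2 : u = y := by injection h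
          subst h2
          unfold Tri.mulO at h1
          split_ifs at h1 with h3
          have h4 : s.comp t h3 = u := by injection h1
          rw [← h4]
          change s.a = (s.g * t.g) • t.b
          rw [mul_smul, ← ht t rfl, ← h3]
          exact hs s rfl

end Mo

end Pool.Agent.HierR
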