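import Pool.Agent.Lib.MP_8f66f0_al_HierR.PlA
import Pool.Agent.Lib.MP_8f66f0_al_Hier.PlB

/-! Block L, first part: the algebra `L = LL[C] + r`. -/

set_option autoImplicit false

namespace Pool.Agent.HierR.LB

open Pool.Agent.Wald Pool.Agent.Ind Pool.Agent.Hier Pool.Agent.Hier.LB Function

section Gen

variable {Q' T T' Λ : Type} [Ring Q'] [Ring T] [Ring T']

theorem map_lin (φ : T →+* T') (f : Q' →+* T) (ℓ : Λ → T) (x : Λ →₀ Q') :
    φ (lin f ℓ x) = lin (φ.comp f) (fun a => φ (ℓ a)) x := by
  rw [lin, lin, Finsupp.sum, Finsupp.sum, map_sum]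
  refine Finset.sum_congr rfl fun a _ => ?_
  rw [map_mul]
  rfl

theorem map_ev (φ : T →+* T') (f : Q' →+* T) (ℓ : Λ → T) (x : List Λ →₀ Q') :
    φ (ev f ℓ x) = ev (φ.comp f) (fun a => φ (ℓ a)) x := by
  rw [ev, ev, Finsupp.sum, Finsupp.sum, map_sum]
  refine Finset.sum_congr rfl fun a _ => ?_
  rw [map_mul, map_wd]
  rfl

theorem freeW_restrict_inj {R S L X β : Type} [Ring R] [Ring S] [Ring L] (f : R →+* L)
    (b : β → L) (hf : Injective (ev f b)) (g : R →+* S) (ι : S →+* L) (hg : ∀ r, ι (g r) = f r)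
    (x : X → S) (j : X → β) (hj : Injective j) (hx : ∀ a, ι (x a) = b (j a))
    (hs : ∀ s : S, ∃ z : List X →₀ R, ev g x z = s) : FreeW g x := by
  refine ⟨fun z z' h => ?_, hs⟩
  have key : ∀ z : List X →₀ R, ι (ev g x z) = ev f b (Finsupp.mapDomain (List.map j) z) := by
    intro z
    rw [map_ev]
    have e1 : ι.comp g = f := RingHom.ext hg
    rw [e1]
    change evH f _ z = evH f b (Finsupp.mapDomain (List.map j) z)
    have : evH f (fun a => ι (x a)) =
        (evH f b).comp (Finsupp.mapDomain.addMonoidHom (List.map j)) := by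
      refine Finsupp.addHom_ext fun u r => ?_
      change evH f _ (Finsupp.single u r) =
        evH f b (Finsupp.mapDomain (List.map j) (Finsupp.single u r))
      rw [Finsupp.mapDomain_single, evH_single, evH_single, wd_map]
      simp only [hx]
    rw [this]
    rfl
  have h1 : ev f b (Finsupp.mapDomain (List.map j) z) =
      ev f b (Finsupp.mapDomain (List.map j) z') := by
    rw [← key, ← key, h]
  exact Finsupp.mapDomain_injective (List.map_injective_iff.mpr hj) (hf h1)

variable {LL : Type} [CommRing LL] {C L β : Type} [Monoid C] [Ring L] [Algebra LL L]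
  {ρ : C →* L} {b : β → L} {P : β → Prop}

/-- The subalgebra is left free on the words in the blocks in `P`. -/
theorem freeW_SA_inj {X' : Type} (hf : Injective (ev (gr LL ρ : MonoidAlgebra LL C →+* L) b))
    (hP : Clo (LL := LL) ρ b P) (j : X' → β) (hj : Injective j)
    (hPj : ∀ a, P a → ∃ x, j x = a) (g : MonoidAlgebra LL C →ₐ[LL] SA hP)
    (hg : ∀ r, ((g r : SA hP) : L) = gr LL ρ r) (x : X' → SA hP)
    (hx : ∀ a, (x a : L) = b (j a)) : FreeW (g : MonoidAlgebra LL C →+* SA hP) x := by
  refine freeW_restrict_inj (gr LL ρ : MonoidAlgebra LL C →+* L) b hf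
    (g : MonoidAlgebra LL C →+* SA hP) ((SA hP).val : SA hP →+* L) hg x j hj hx ?_
  have key : spW LL ρ b P ≤ LinearMap.range ((SA hP).val.toLinearMap ∘ₗ evLin g x) := by
    refine Submodule.span_le.mpr ?_
    rintro _ ⟨c, u, hu, rfl⟩
    obtain ⟨u', hu'⟩ := lift_list j P hPj u hu
    refine ⟨Finsupp.single u' (MonoidAlgebra.single c 1), ?_⟩
    change ((evLin g x (Finsupp.single u' (MonoidAlgebra.single c 1)) : SA hP) : L) = _
    rw [evLin_single]
    change ((g (MonoidAlgebra.single c 1) : SA hP) : L) * ((SA hP).val : SA hP →+* L) (wd x u') = _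
    rw [hg, map_wd]
    have h1 : wd (fun a => ((SA hP).val : SA hP →+* L) (x a)) u' = wd b u := by
      rw [← hu', wd_map]
      congr 1
      funext a
      exact hx a
    rw [h1]
    congr 1
    change MonoidAlgebra.lift LL L C ρ (MonoidAlgebra.single c 1) = ρ c
    rw [MonoidAlgebra.lift_single, one_smul]
  intro s
  obtain ⟨z, hz⟩ := key s.2
  refine ⟨z, Subtype.ext ?_⟩
  rw [← evLin_apply]
  exact hz

end Gen

variable {LL C Q' I J T : Type} [CommRing LL] [Monoid C] [Ring Q'] [Algebra LL Q'] [Ring T]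
  [Algebra LL T] {ρ : C →* Q'} {f : Q' →ₐ[LL] T} {a : I → T} {d : J → T}

theorem jn_inj {X Y : Type} : Injective fun s : List (Y × List X) => jn s ([] : List X) := by
  intro s s' h
  have := congrArg sp h
  change sp (jn s []) = sp (jn s' []) at this
  rw [sp_jn, sp_jn] at this
  exact congrArg Prod.fst this

theorem inj_bk (hF : Injective (ev (f : Q' →+* T) (Sum.elim a d)))
    (hg : Injective (gr LL ρ)) :
    Injective (ev (gr LL (fr ρ f) : MonoidAlgebra LL C →+* T) (bk a d)) := by
  have key : ∀ z : List (J × List I) →₀ MonoidAlgebra LL C,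
      ev (gr LL (fr ρ f) : MonoidAlgebra LL C →+* T) (bk a d) z =
      ev (f : Q' →+* T) (Sum.elim a d) (Finsupp.mapDomain (fun s => jn s [])
        (Finsupp.mapRange (gr LL ρ) (map_zero _) z)) := by
    intro z
    have : evH (gr LL (fr ρ f) : MonoidAlgebra LL C →+* T) (bk a d) =
        ((evH (f : Q' →+* T) (Sum.elim a d)).comp
          (Finsupp.mapDomain.addMonoidHom (fun s : List (J × List I) => jn s []))).comp
          (Finsupp.mapRange.addMonoidHom (gr LL ρ : MonoidAlgebra LL C →+ Q')) := by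
      refine Finsupp.addHom_ext fun s r => ?_
      change evH _ _ (Finsupp.single s r) = evH (f : Q' →+* T) (Sum.elim a d)
        (Finsupp.mapDomain (fun s => jn s []) (Finsupp.mapRange (gr LL ρ) (map_zero _)
          (Finsupp.single s r)))
      rw [Finsupp.mapRange_single, Finsupp.mapDomain_single, evH_single, evH_single]
      have h1 := wd_jn (RingHom.id T) a d s []
      change wd (Sum.elim a d) (jn s []) = 1 * wd (bk a d) s at h1
      rw [h1, one_mul]
      change gr LL (fr ρ f) r * _ = f (gr LL ρ r) * _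
      rw [gr_fr]
    exact DFunLike.congr_fun this z
  intro z z' h
  rw [key, key] at h
  have h2 := Finsupp.mapDomain_injective jn_inj (hF h)
  exact Finsupp.mapRange_injective _ (map_zero _) hg h2

section TheAlgebra

variable (hCl : Cl (f : Q' →+* T) (Sum.elim a d)) (hd : HD ρ f d)

theorem rr_le : rr ρ f a d ≤ spW LL (fr ρ f) (bk a d) (fun _ => True) :=
  Submodule.span_mono fun _ ⟨c, s, _, h⟩ => ⟨c, s, fun _ _ => trivial, h⟩

include hCl hd in
theorem clo_all : Clo (LL := LL) (fr ρ f) (bk a d) (fun _ => True) := fun x _ c =>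
  rr_le (bk_mul_rr hCl hd x (ρ c))

/-- The algebra `L`. -/
abbrev LA : Subalgebra LL T := SA (clo_all hCl hd)

/-- The homomorphism of `C` to `L`. -/
def rL : C →* LA hCl hd := rhoS (clo_all hCl hd)

/-- The blocks as elements of `L`. -/
def bL (x : J × List I) : LA hCl hd := ⟨bk a d x, blk_mem trivial⟩

theorem gr_rL (r : MonoidAlgebra LL C) : ((gr LL (rL hCl hd) r : LA hCl hd) : T) =
    f (gr LL ρ r) := (gr_rhoS (clo_all hCl hd) r).trans (gr_fr ρ f r)

variable (hF : Injective (ev (f : Q' →+* T) (Sum.elim a d))) (hg : Injective (gr LL ρ))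

include hF hg in
theorem free_L : FreeW (gr LL (rL hCl hd) : MonoidAlgebra LL C →+* LA hCl hd)
    (bL hCl hd) :=
  freeW_SA_inj (inj_bk hF hg) (clo_all hCl hd) (fun x : J × List I => x) (fun _ _ h => h)
    (fun x _ => ⟨x, rfl⟩) _ (gr_rhoS (clo_all hCl hd)) (bL hCl hd) (fun _ => rfl)

/-- The coordinates of the elements of `L`. -/
noncomputable def eqL : (List (J × List I) →₀ MonoidAlgebra LL C) ≃ₗ[LL] LA hCl hd :=
  LinearEquiv.ofBijective (evLin (gr LL (rL hCl hd)) (bL hCl hd)) (by
    have h := free_L hCl hd hF hg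
    have e : ⇑(evLin (gr LL (rL hCl hd)) (bL hCl hd)) =
        ev (gr LL (rL hCl hd) : MonoidAlgebra LL C →+* _) (bL hCl hd) := by
      funext z
      exact evLin_apply _ _ z
    rw [e]
    exact h)

theorem eqL_single (s : List (J × List I)) (r : MonoidAlgebra LL C) :
    ((eqL hCl hd hF hg (Finsupp.single s r) : LA hCl hd) : T) =
      f (gr LL ρ r) * wd (bk a d) s := by
  change ((evLin (gr LL (rL hCl hd)) (bL hCl hd) (Finsupp.single s r) : LA hCl hd) : T) = _
  rw [evLin_single]
  change ((gr LL (rL hCl hd) r : LA hCl hd) : T) *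
    ((LA hCl hd).val : LA hCl hd →+* T) (wd (bL hCl hd) s) = _
  rw [gr_rL, map_wd]
  rfl

/-- The augmentation as a linear map. -/
noncomputable def eps0 : LA hCl hd →ₗ[LL] MonoidAlgebra LL C :=
  (Finsupp.lapply ([] : List (J × List I))) ∘ₗ (eqL hCl hd hF hg).symm.toLinearMap

theorem eps0_eqL (z : List (J × List I) →₀ MonoidAlgebra LL C) :
    eps0 hCl hd hF hg (eqL hCl hd hF hg z) = z [] := by
  change ((eqL hCl hd hF hg).symm (eqL hCl hd hF hg z)) [] = z []
  rw [LinearEquiv.symm_apply_apply]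

theorem sub_eps0 (x : LA hCl hd) : (x : T) - f (gr LL ρ (eps0 hCl hd hF hg x)) ∈ rr ρ f a d := by
  obtain ⟨z, rfl⟩ := (eqL hCl hd hF hg).surjective x
  rw [eps0_eqL]
  induction z using Finsupp.induction_linear with
  | zero => simp
  | add z z' h h' =>
    rw [map_add, Finsupp.add_apply, map_add, map_add]
    have := add_mem h h'
    have e : (((eqL hCl hd hF hg z + eqL hCl hd hF hg z' : LA hCl hd)) : T) -
        (f (gr LL ρ (z [])) + f (gr LL ρ (z' []))) =
        ((eqL hCl hd hF hg z : LA hCl hd) : T) - f (gr LL ρ (z [])) +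
        (((eqL hCl hd hF hg z' : LA hCl hd) : T) - f (gr LL ρ (z' []))) := by
      rw [Subalgebra.coe_add]
      abel
    rw [e]
    exact this
  | single s r =>
    rw [eqL_single]
    by_cases hs : s = []
    · subst hs
      rw [Finsupp.single_eq_same, wd_nil, mul_one, sub_self]
      exact zero_mem _
    · rw [Finsupp.single_eq_of_ne' hs, map_zero, map_zero, sub_zero]
      refine gr_mul_rr ?_ r
      refine Submodule.subset_span ⟨1, s, hs, ?_⟩
      rw [map_one, map_one, one_mul]

theorem eps0_zero {x : LA hCl hd} (hx : (x : T) ∈ rr ρ f a d) : eps0 hCl hd hF hg x = 0 := by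
  have key : rr ρ f a d ≤ Submodule.map ((LA hCl hd).val.toLinearMap ∘ₗ
      (eqL hCl hd hF hg).toLinearMap)
      (LinearMap.ker (Finsupp.lapply (R := LL) (M := MonoidAlgebra LL C)
        ([] : List (J × List I)))) := by
    refine Submodule.span_le.mpr ?_
    rintro _ ⟨c, s, hs, rfl⟩
    refine ⟨Finsupp.single s (MonoidAlgebra.single c 1), ?_, ?_⟩
    · rw [SetLike.mem_coe, LinearMap.mem_ker, Finsupp.lapply_apply, Finsupp.single_eq_of_ne' hs]
    · change ((eqL hCl hd hF hg (Finsupp.single s (MonoidAlgebra.single c 1)) : LA hCl hd) : T) = _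
      rw [eqL_single]
      congr 2
      change MonoidAlgebra.lift LL Q' C ρ (MonoidAlgebra.single c 1) = ρ c
      rw [MonoidAlgebra.lift_single, one_smul]
  obtain ⟨z, hz, hzx⟩ := key hx
  have e : x = eqL hCl hd hF hg z := Subtype.ext hzx.symm
  rw [e, eps0_eqL]
  exact hz

theorem eps0_gr (r : MonoidAlgebra LL C) : eps0 hCl hd hF hg (gr LL (rL hCl hd) r) = r := by
  have : gr LL (rL hCl hd) r = eqL hCl hd hF hg (Finsupp.single [] r) := by
    refine Subtype.ext ?_
    rw [gr_rL, eqL_single, wd_nil, mul_one]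
  rw [this, eps0_eqL, Finsupp.single_eq_same]

/-- The augmentation. -/
noncomputable def epsL (hs : Surjective (ev (f : Q' →+* T) (Sum.elim a d))) :
    LA hCl hd →ₐ[LL] MonoidAlgebra LL C :=
  AlgHom.ofLinearMap (eps0 hCl hd hF hg)
    (by
      have := eps0_gr hCl hd hF hg 1
      rwa [map_one] at this)
    (by
      intro x y
      set x0 := eps0 hCl hd hF hg x with hx0
      set y0 := eps0 hCl hd hF hg y with hy0
      have h1 : ((x * y - gr LL (rL hCl hd) (x0 * y0) : LA hCl hd) : T) ∈ rr ρ f a d := by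
        have e : ((x * y - gr LL (rL hCl hd) (x0 * y0) : LA hCl hd) : T) =
            ((x : T) - f (gr LL ρ x0)) * (y : T) + f (gr LL ρ x0) * ((y : T) - f (gr LL ρ y0)) := by
          rw [Subalgebra.coe_sub, Subalgebra.coe_mul, gr_rL, map_mul, map_mul, sub_mul, mul_sub]
          abel
        rw [e]
        exact add_mem (rr_mul hCl hd hs (sub_eps0 hCl hd hF hg x) _)
          (gr_mul_rr (sub_eps0 hCl hd hF hg y) _)
      have h2 := eps0_zero hCl hd hF hg h1
      rw [map_sub, eps0_gr, sub_eq_zero] at h2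
      exact h2)

/-- A linear map with values in `T`. -/
noncomputable def linT (ρ : C →* Q') (f : Q' →ₐ[LL] T) (a : I → T) (d : J → T) :
    ((J × List I) →₀ MonoidAlgebra LL C) →ₗ[LL] T :=
  Finsupp.lsum LL fun x => (LinearMap.mulRight LL (bk a d x)) ∘ₗ (gr LL (fr ρ f)).toLinearMap

theorem linT_apply (y : (J × List I) →₀ MonoidAlgebra LL C) : linT ρ f a d y =
    lin (gr LL (fr ρ f) : MonoidAlgebra LL C →+* T) (bk a d) y := by
  rw [linT, Finsupp.lsum_apply]
  rfl

theorem gr_single (c : C) : gr LL (fr ρ f) (MonoidAlgebra.single c 1) = f (ρ c) := by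
  change MonoidAlgebra.lift LL T C (fr ρ f) (MonoidAlgebra.single c 1) = _
  rw [MonoidAlgebra.lift_single, one_smul, fr_apply]

theorem Vn_le (n : ℕ) : Vn ρ f a d n ≤ Submodule.map (linT ρ f a d)
    (Finsupp.supported (MonoidAlgebra LL C) LL {x | bsz x = n}) := by
  refine Submodule.span_le.mpr ?_
  rintro _ ⟨c, x, hx, rfl⟩
  refine ⟨Finsupp.single x (MonoidAlgebra.single c 1), Finsupp.single_mem_supported _ _ hx, ?_⟩
  rw [linT, Finsupp.lsum_single, LinearMap.comp_apply, LinearMap.mulRight_apply]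
  change gr LL (fr ρ f) (MonoidAlgebra.single c 1) * _ = _
  rw [gr_single]

theorem Wn_le (n : ℕ) : Wn ρ f a d n ≤ Submodule.map (evLin (gr LL (fr ρ f)) (bk a d))
    (Finsupp.supported (MonoidAlgebra LL C) LL {s | ∀ x ∈ s, bsz x < n}) := by
  refine Submodule.span_le.mpr ?_
  rintro _ ⟨c, s, _, hx, rfl⟩
  refine ⟨Finsupp.single s (MonoidAlgebra.single c 1), Finsupp.single_mem_supported _ _ hx, ?_⟩
  rw [evLin_single, gr_single]

include hF hg in
/-- The block data. -/
theorem blk_L : Blk LL (rL hCl hd) (bL hCl hd) bsz where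
  free := free_L hCl hd hF hg
  tri := by
    intro x c
    have h := tri_VW hCl hd x.1 x.2 (ρ c)
    obtain ⟨v, hv, w, hw, e⟩ := Submodule.mem_sup.mp h
    obtain ⟨y, hy, rfl⟩ := Vn_le _ hv
    obtain ⟨z, hz, rfl⟩ := Wn_le _ hw
    refine ⟨y, z, Subtype.ext ?_, fun x' hx' => hy hx', fun u hu => hz hu⟩
    rw [linT_apply, evLin_apply] at e
    change bk a d x * f (ρ c) = _
    change _ = bk a d x * f (ρ c) at e
    rw [← e]
    have hc : ((LA hCl hd).val : LA hCl hd →+* T).comp
        (gr LL (rL hCl hd) : MonoidAlgebra LL C →+* LA hCl hd) =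
        (gr LL (fr ρ f) : MonoidAlgebra LL C →+* T) :=
      RingHom.ext (gr_rhoS (clo_all hCl hd))
    have h1 : ((lin (gr LL (rL hCl hd) : MonoidAlgebra LL C →+* LA hCl hd) (bL hCl hd) y :
        LA hCl hd) : T) = lin (gr LL (fr ρ f) : MonoidAlgebra LL C →+* T) (bk a d) y := by
      have := map_lin ((LA hCl hd).val : LA hCl hd →+* T)
        (gr LL (rL hCl hd) : MonoidAlgebra LL C →+* LA hCl hd) (bL hCl hd) y
      rw [hc] at this
      exact this
    have h2 : ((ev (gr LL (rL hCl hd) : MonoidAlgebra LL C →+* LA hCl hd) (bL hCl hd) z :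
        LA hCl hd) : T) = ev (gr LL (fr ρ f) : MonoidAlgebra LL C →+* T) (bk a d) z := by
      have := map_ev ((LA hCl hd).val : LA hCl hd →+* T)
        (gr LL (rL hCl hd) : MonoidAlgebra LL C →+* LA hCl hd) (bL hCl hd) z
      rw [hc] at this
      exact this
    rw [Subalgebra.coe_add, h1, h2]

end TheAlgebra

end Pool.Agent.HierR.LB
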