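import Pool.Agent.Lib.MP_8f66f0_al_HierR.SpecO

/-! Task 17265: the bimodule of the morphisms is left projective. -/

set_option autoImplicit false

namespace Pool.Agent.HierR

open Pool.Agent.Wald Pool.Agent.Ind Pool.Agent.Hier

section Tproj

variable {Γ P : Type} [Group Γ] [PartialOrder P] [MulAction Γ P] [MonoAct Γ P]

/-- The element `x - 0`. -/
private noncomputable def tx (x : Tri Γ P) : MonoidAlgebra ℤ (Mo Γ P) :=
  MonoidAlgebra.single (Mo.mor x) 1 - MonoidAlgebra.single Mo.zero 1

/-- The section, as an additive map. -/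
private noncomputable def ia (Γ P : Type) [Group Γ] [PartialOrder P] [MulAction Γ P]
    [MonoAct Γ P] : PM (Tri Γ P) →+ (P →₀ MonoidAlgebra ℤ (Mo Γ P)) :=
  PM.lift fun x => Finsupp.single x.b (tx x)

private theorem single_mul_tx (s : Mo Γ P) (x : Tri Γ P) :
    (MonoidAlgebra.single s (1 : ℤ)) * tx x =
      MonoidAlgebra.single (s * Mo.mor x) 1 - MonoidAlgebra.single Mo.zero 1 := by
  unfold tx
  rw [mul_sub, MonoidAlgebra.single_mul_single, MonoidAlgebra.single_mul_single, Mo.mul_zero',
    mul_one]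

private theorem mulO_b (s x u : Tri Γ P) (h : s.mulO x = some u) : u.b = x.b := by
  unfold Tri.mulO at h
  split_ifs at h with h1
  have h2 : s.comp x h1 = u := by injection h
  rw [← h2]
  rfl

private theorem ia_single_of (s : Mo Γ P) (x : Tri Γ P) :
    ia Γ P (PM.ofO (PBi.l s x)) =
      MonoidAlgebra.single s (1 : ℤ) • (ia Γ P (PM.of x)) := by
  unfold ia
  rw [PM.lift_ofO, PM.lift_of, Finsupp.smul_single, smul_eq_mul, single_mul_tx]
  cases s with
  | one => rfl
  | zero =>
    change (0 : P →₀ MonoidAlgebra ℤ (Mo Γ P)) = _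
    rw [Mo.zero_mul', sub_self, Finsupp.single_zero]
  | mor s =>
    change (s.mulO x).elim 0 _ = Finsupp.single x.b
      (MonoidAlgebra.single ((s.mulO x).elim Mo.zero Mo.mor) 1 - MonoidAlgebra.single Mo.zero 1)
    cases h : s.mulO x with
    | none =>
      change (0 : P →₀ MonoidAlgebra ℤ (Mo Γ P)) = Finsupp.single x.b
        (MonoidAlgebra.single Mo.zero 1 - MonoidAlgebra.single Mo.zero 1)
      rw [sub_self, Finsupp.single_zero]
    | some u =>
      change Finsupp.single u.b (tx u) = Finsupp.single x.b (tx u)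
      rw [mulO_b s x u h]

private theorem ia_single (s : Mo Γ P) (m : PM (Tri Γ P)) :
    ia Γ P (MonoidAlgebra.single s (1 : ℤ) • m) = MonoidAlgebra.single s (1 : ℤ) • ia Γ P m := by
  have h : (ia Γ P).comp (DistribSMul.toAddMonoidHom (PM (Tri Γ P))
      (MonoidAlgebra.single s (1 : ℤ))) =
      (DistribSMul.toAddMonoidHom (P →₀ MonoidAlgebra ℤ (Mo Γ P))
        (MonoidAlgebra.single s (1 : ℤ))).comp (ia Γ P) := by
    refine PM.ext fun x => ?_
    change ia Γ P (MonoidAlgebra.single s (1 : ℤ) • (PM.of x : PM (Tri Γ P))) =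
      MonoidAlgebra.single s (1 : ℤ) • ia Γ P (PM.of x)
    rw [PM.single_smul_of]
    exact ia_single_of s x
  exact DFunLike.congr_fun h m

private theorem ia_smul (r : MonoidAlgebra ℤ (Mo Γ P)) (m : PM (Tri Γ P)) :
    ia Γ P (r • m) = r • ia Γ P m := by
  induction r using MonoidAlgebra.induction_linear with
  | zero => rw [zero_smul, zero_smul, map_zero]
  | add x y hx hy => rw [add_smul, map_add, hx, hy, add_smul]
  | single s n =>
    have h4 : (MonoidAlgebra.single s n : MonoidAlgebra ℤ (Mo Γ P)) =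
        n • MonoidAlgebra.single s (1 : ℤ) := by
      rw [MonoidAlgebra.smul_single, smul_eq_mul, mul_one]
    rw [h4, smul_assoc, smul_assoc, map_zsmul, ia_single]

/-- The section. -/
private noncomputable def il (Γ P : Type) [Group Γ] [PartialOrder P] [MulAction Γ P]
    [MonoAct Γ P] : PM (Tri Γ P) →ₗ[MonoidAlgebra ℤ (Mo Γ P)] (P →₀ MonoidAlgebra ℤ (Mo Γ P)) where
  toFun := ia Γ P
  map_add' := map_add _
  map_smul' r m := ia_smul r m

/-- The projection. -/
private noncomputable def pl (Γ P : Type) [Group Γ] [PartialOrder P] [MulAction Γ P]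
    [MonoAct Γ P] : (P →₀ MonoidAlgebra ℤ (Mo Γ P)) →ₗ[MonoidAlgebra ℤ (Mo Γ P)] PM (Tri Γ P) :=
  Finsupp.linearCombination (MonoidAlgebra ℤ (Mo Γ P)) fun b : P => (PM.of (Tri.id b) : PM (Tri Γ P))

private theorem mulO_id (x : Tri Γ P) : x.mulO (Tri.id x.b) = some x := by
  unfold Tri.mulO
  rw [dif_pos (show x.b = (Tri.id x.b : Tri Γ P).a from rfl)]
  congr 1
  exact Tri.ext rfl (mul_one _) rfl

private theorem pl_il (m : PM (Tri Γ P)) : pl Γ P (il Γ P m) = m := by
  have h : ((pl Γ P).toAddMonoidHom).comp (ia Γ P) = AddMonoidHom.id _ := by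
    refine PM.ext fun x => ?_
    change pl Γ P (ia Γ P (PM.of x)) = PM.of x
    unfold ia pl
    rw [PM.lift_of, Finsupp.linearCombination_single]
    unfold tx
    rw [sub_smul, PM.single_smul_of, PM.single_smul_of]
    change PM.ofO (x.mulO (Tri.id x.b)) - PM.ofO none = PM.of x
    rw [mulO_id]
    exact sub_zero _
  exact DFunLike.congr_fun h m

end Tproj

theorem tproj : S_tproj := by
  intro Γ P _ _ _ _
  exact Module.Projective.of_split (il Γ P) (pl Γ P) (LinearMap.ext pl_il)

end Pool.Agent.HierR
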