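import Pool.Agent.Lib.MP_8f66f0_al_HierR.SpecT

/-! T0: the coefficients of `tr` in a basis. -/

set_option autoImplicit false

namespace Pool.Agent.HierR

open Pool.Agent.Wald Pool.Agent.Ind Pool.Agent.Hier

private theorem lin_hom {Q' T Λ : Type} [Ring Q'] [Ring T] (f : Q' →+* T) (ℓ : Λ → T) :
    ∃ F : (Λ →₀ Q') →+ T, ∀ x, F x = lin f ℓ x :=
  ⟨Finsupp.liftAddHom fun a => (AddMonoidHom.mulRight (ℓ a)).comp (f : Q' →+ T), fun _ => rfl⟩

private theorem lin_single {Q' T Λ : Type} [Ring Q'] [Ring T] (f : Q' →+* T) (ℓ : Λ → T)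
    (a : Λ) (q : Q') : lin f ℓ (Finsupp.single a q) = f q * ℓ a := by
  unfold lin
  rw [Finsupp.sum_single_index]
  rw [map_zero, zero_mul]

private theorem lin_sum {Q' T Λ α N : Type} [Ring Q'] [Ring T] [Zero N] (f : Q' →+* T)
    (ℓ : Λ → T) (x : α →₀ N) (g : α → N → (Λ →₀ Q')) :
    lin f ℓ (x.sum g) = x.sum fun a n => lin f ℓ (g a n) := by
  obtain ⟨F, hF⟩ := lin_hom f ℓ
  rw [← hF, map_finsuppSum]
  exact Finsupp.sum_congr fun a _ => hF _

/-- A left linear map on all of `ℤ[S]`. -/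
private theorem trp_left {LL S Q' T M : Type} [CommRing LL] [Monoid S] [Ring Q'] [Algebra LL Q']
    [Ring T] [Algebra LL T] [AddCommGroup M] [Module (MonoidAlgebra ℤ S) M] (ρ : S →* Q')
    (f : Q' →ₐ[LL] T) (w : M →+ T)
    (h : ∀ (e : S) (m : M), w (MonoidAlgebra.single e (1 : ℤ) • m) = f (ρ e) * w m)
    (a : MonoidAlgebra ℤ S) (m : M) : w (a • m) = f (gz ρ a) * w m := by
  induction a using MonoidAlgebra.induction_linear with
  | zero => rw [zero_smul, map_zero, map_zero, map_zero, zero_mul]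
  | add a b ha hb => rw [add_smul, map_add, ha, hb, map_add, map_add, add_mul]
  | single e t =>
    have h1 : (MonoidAlgebra.single e t : MonoidAlgebra ℤ S) =
        t • MonoidAlgebra.single e 1 := by
      rw [MonoidAlgebra.smul_single, smul_eq_mul, mul_one]
    have h2 : gz ρ (MonoidAlgebra.single e (1 : ℤ)) = ρ e := by
      show MonoidAlgebra.lift ℤ Q' S ρ (MonoidAlgebra.single e (1 : ℤ)) = _
      rw [MonoidAlgebra.lift_single, one_smul]
    rw [h1, smul_assoc, map_zsmul, h, map_zsmul, map_zsmul, h2, smul_mul_assoc]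

theorem trp : S_trp := by
  intro LL S Q' T I M B _ _ _ _ _ _ _ _ _ ρ bM f w m x hw
  unfold trP tr
  rw [lin_sum]
  refine Finsupp.sum_congr fun j _ => ?_
  rw [lin_sum]
  refine Finsupp.sum_congr fun e _ => ?_
  rw [lin_sum]
  have h : w j (MulOpposite.op e • m) =
      (bM.repr (MulOpposite.op e • m)).sum fun b a => f (gz ρ a) * w j (bM b) := by
    conv_lhs => rw [← bM.linearCombination_repr (MulOpposite.op e • m)]
    rw [Finsupp.linearCombination_apply, map_finsuppSum]
    exact Finsupp.sum_congr fun b _ => trp_left ρ f (w j) (hw j) _ _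
  rw [h, Finsupp.smul_sum]
  refine Finsupp.sum_congr fun b _ => ?_
  rw [lin_single]
  show f _ * w j (bM b) = _
  rw [map_smul f, smul_mul_assoc]

end Pool.Agent.HierR
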